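import Mathlib

set_option autoImplicit false

/-!
The group theoretic data used in the construction.
-/

namespace Pool.Agent.H60

/-- A countable group with a sequence of finite quotients with strong independence properties. -/
structure RData where
  Γ : Type
  [grp : Group Γ]
  [cnt : Countable Γ]
  Q : ℕ → Type
  [grpQ : ∀ n, Group (Q n)]
  [finQ : ∀ n, Finite (Q n)]
  π : ∀ n, Γ →* Q n
  surj : ∀ n, Function.Surjective (π n)
  a : Γ
  b : Γ
  c : Γ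
  z1 : Γ
  z2 : Γ
  z3 : Γ
  gen : Subgroup.closure {a, b, c} = ⊤
  ha : ∀ n, π n a ^ 5 = 1
  hb : ∀ n, π n b ^ 5 = 1
  hc : ∀ n, π n c ^ 5 = 1
  hz1 : ∀ n, π n z1 ^ 5 = 1
  hz2 : ∀ n, π n z2 ^ 5 = 1
  hz3 : ∀ n, π n z3 ^ 5 = 1
  hab : ∀ n, π n a * π n b = π n z1 * π n b * π n a
  hz1a : ∀ n, π n z1 * π n a = π n a * π n z1
  hz1b : ∀ n, π n z1 * π n b = π n b * π n z1
  hbc : ∀ n, π n b * π n c = π n z2 * π n c * π n b
  hz2b : ∀ n, π n z2 * π n b = π n b * π n z2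
  hz2c : ∀ n, π n z2 * π n c = π n c * π n z2
  hca : ∀ n, π n c * π n a = π n z3 * π n a * π n c
  hz3c : ∀ n, π n z3 * π n c = π n c * π n z3
  hz3a : ∀ n, π n z3 * π n a = π n a * π n z3
  g : ∀ n, Q n
  r : ℕ → ℕ
  r_prime : ∀ n, (r n).Prime
  g_pow : ∀ n, g n ^ r n = 1
  g_ne : ∀ n, g n ≠ 1
  priv : ∀ m n, m ≠ n → ¬ r n ∣ Nat.card (Q m)
  g_normal : ∀ n, Subgroup.normalClosure {g n} = ⊤
  nfs : ∀ γ : Γ, {m | π m γ = 1}.Infinite → ∀ n, π n γ = 1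

attribute [instance] RData.grp RData.cnt RData.grpQ RData.finQ

end Pool.Agent.H60
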