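import Mathlib

set_option autoImplicit false
set_option linter.unusedSimpArgs false
set_option linter.unusedSectionVars false

/-!
Elementary `3 × 3` matrices, and the subgroup generated by `E₁₂(1)`, `E₂₃(1)`, `E₃₁(θ)`.
-/

namespace Pool.Agent.H60.Mat

open Matrix

section Ring

variable {R : Type*} [CommRing R]

/-- Shorthand for `SL₃`. -/
abbrev SL (R : Type*) [CommRing R] := Matrix.SpecialLinearGroup (Fin 3) R

def e12 (x : R) : SL R := ⟨!![1, x, 0; 0, 1, 0; 0, 0, 1], by simp [Matrix.det_fin_three]⟩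
def e13 (x : R) : SL R := ⟨!![1, 0, x; 0, 1, 0; 0, 0, 1], by simp [Matrix.det_fin_three]⟩
def e23 (x : R) : SL R := ⟨!![1, 0, 0; 0, 1, x; 0, 0, 1], by simp [Matrix.det_fin_three]⟩
def e21 (x : R) : SL R := ⟨!![1, 0, 0; x, 1, 0; 0, 0, 1], by simp [Matrix.det_fin_three]⟩
def e31 (x : R) : SL R := ⟨!![1, 0, 0; 0, 1, 0; x, 0, 1], by simp [Matrix.det_fin_three]⟩
def e32 (x : R) : SL R := ⟨!![1, 0, 0; 0, 1, 0; 0, x, 1], by simp [Matrix.det_fin_three]⟩

theorem coe_e12 (x : R) : (e12 x : Matrix (Fin 3) (Fin 3) R) = !![1, x, 0; 0, 1, 0; 0, 0, 1] := rfl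
theorem coe_e13 (x : R) : (e13 x : Matrix (Fin 3) (Fin 3) R) = !![1, 0, x; 0, 1, 0; 0, 0, 1] := rfl
theorem coe_e23 (x : R) : (e23 x : Matrix (Fin 3) (Fin 3) R) = !![1, 0, 0; 0, 1, x; 0, 0, 1] := rfl
theorem coe_e21 (x : R) : (e21 x : Matrix (Fin 3) (Fin 3) R) = !![1, 0, 0; x, 1, 0; 0, 0, 1] := rfl
theorem coe_e31 (x : R) : (e31 x : Matrix (Fin 3) (Fin 3) R) = !![1, 0, 0; 0, 1, 0; x, 0, 1] := rfl
theorem coe_e32 (x : R) : (e32 x : Matrix (Fin 3) (Fin 3) R) = !![1, 0, 0; 0, 1, 0; 0, x, 1] := rfl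

theorem e12_mul (x y : R) : e12 x * e12 y = e12 (x + y) := by
  apply Subtype.ext
  simp only [Matrix.SpecialLinearGroup.coe_mul, Matrix.SpecialLinearGroup.coe_one, coe_e12, coe_e13, coe_e23,
    coe_e21, coe_e31, coe_e32]
  ext i j; fin_cases i <;> fin_cases j <;> simp [Matrix.mul_apply, Fin.sum_univ_three, add_comm]
theorem e13_mul (x y : R) : e13 x * e13 y = e13 (x + y) := by
  apply Subtype.ext
  simp only [Matrix.SpecialLinearGroup.coe_mul, Matrix.SpecialLinearGroup.coe_one, coe_e12, coe_e13, coe_e23,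
    coe_e21, coe_e31, coe_e32]
  ext i j; fin_cases i <;> fin_cases j <;> simp [Matrix.mul_apply, Fin.sum_univ_three, add_comm]
theorem e23_mul (x y : R) : e23 x * e23 y = e23 (x + y) := by
  apply Subtype.ext
  simp only [Matrix.SpecialLinearGroup.coe_mul, Matrix.SpecialLinearGroup.coe_one, coe_e12, coe_e13, coe_e23,
    coe_e21, coe_e31, coe_e32]
  ext i j; fin_cases i <;> fin_cases j <;> simp [Matrix.mul_apply, Fin.sum_univ_three, add_comm]
theorem e21_mul (x y : R) : e21 x * e21 y = e21 (x + y) := by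
  apply Subtype.ext
  simp only [Matrix.SpecialLinearGroup.coe_mul, Matrix.SpecialLinearGroup.coe_one, coe_e12, coe_e13, coe_e23,
    coe_e21, coe_e31, coe_e32]
  ext i j; fin_cases i <;> fin_cases j <;> simp [Matrix.mul_apply, Fin.sum_univ_three, add_comm]
theorem e31_mul (x y : R) : e31 x * e31 y = e31 (x + y) := by
  apply Subtype.ext
  simp only [Matrix.SpecialLinearGroup.coe_mul, Matrix.SpecialLinearGroup.coe_one, coe_e12, coe_e13, coe_e23,
    coe_e21, coe_e31, coe_e32]
  ext i j; fin_cases i <;> fin_cases j <;> simp [Matrix.mul_apply, Fin.sum_univ_three, add_comm]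
theorem e32_mul (x y : R) : e32 x * e32 y = e32 (x + y) := by
  apply Subtype.ext
  simp only [Matrix.SpecialLinearGroup.coe_mul, Matrix.SpecialLinearGroup.coe_one, coe_e12, coe_e13, coe_e23,
    coe_e21, coe_e31, coe_e32]
  ext i j; fin_cases i <;> fin_cases j <;> simp [Matrix.mul_apply, Fin.sum_univ_three, add_comm]

theorem e12_zero : e12 (0 : R) = 1 := by
  apply Subtype.ext
  simp only [Matrix.SpecialLinearGroup.coe_mul, Matrix.SpecialLinearGroup.coe_one, coe_e12, coe_e13, coe_e23,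
    coe_e21, coe_e31, coe_e32]
  ext i j; fin_cases i <;> fin_cases j <;> simp
theorem e13_zero : e13 (0 : R) = 1 := by
  apply Subtype.ext
  simp only [Matrix.SpecialLinearGroup.coe_mul, Matrix.SpecialLinearGroup.coe_one, coe_e12, coe_e13, coe_e23,
    coe_e21, coe_e31, coe_e32]
  ext i j; fin_cases i <;> fin_cases j <;> simp
theorem e23_zero : e23 (0 : R) = 1 := by
  apply Subtype.ext
  simp only [Matrix.SpecialLinearGroup.coe_mul, Matrix.SpecialLinearGroup.coe_one, coe_e12, coe_e13, coe_e23,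
    coe_e21, coe_e31, coe_e32]
  ext i j; fin_cases i <;> fin_cases j <;> simp
theorem e21_zero : e21 (0 : R) = 1 := by
  apply Subtype.ext
  simp only [Matrix.SpecialLinearGroup.coe_mul, Matrix.SpecialLinearGroup.coe_one, coe_e12, coe_e13, coe_e23,
    coe_e21, coe_e31, coe_e32]
  ext i j; fin_cases i <;> fin_cases j <;> simp
theorem e31_zero : e31 (0 : R) = 1 := by
  apply Subtype.ext
  simp only [Matrix.SpecialLinearGroup.coe_mul, Matrix.SpecialLinearGroup.coe_one, coe_e12, coe_e13, coe_e23,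
    coe_e21, coe_e31, coe_e32]
  ext i j; fin_cases i <;> fin_cases j <;> simp
theorem e32_zero : e32 (0 : R) = 1 := by
  apply Subtype.ext
  simp only [Matrix.SpecialLinearGroup.coe_mul, Matrix.SpecialLinearGroup.coe_one, coe_e12, coe_e13, coe_e23,
    coe_e21, coe_e31, coe_e32]
  ext i j; fin_cases i <;> fin_cases j <;> simp

/-- Commutation relations. -/
theorem rel_12_23 (x y : R) : e12 x * e23 y = e13 (x * y) * e23 y * e12 x := by
  apply Subtype.ext
  simp only [Matrix.SpecialLinearGroup.coe_mul, Matrix.SpecialLinearGroup.coe_one, coe_e12, coe_e13, coe_e23,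
    coe_e21, coe_e31, coe_e32]
  ext i j; fin_cases i <;> fin_cases j <;>
    simp [Matrix.mul_apply, Fin.sum_univ_three]
theorem rel_23_31 (x y : R) : e23 x * e31 y = e21 (x * y) * e31 y * e23 x := by
  apply Subtype.ext
  simp only [Matrix.SpecialLinearGroup.coe_mul, Matrix.SpecialLinearGroup.coe_one, coe_e12, coe_e13, coe_e23,
    coe_e21, coe_e31, coe_e32]
  ext i j; fin_cases i <;> fin_cases j <;>
    simp [Matrix.mul_apply, Fin.sum_univ_three]
theorem rel_31_12 (x y : R) : e31 x * e12 y = e32 (x * y) * e12 y * e31 x := by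
  apply Subtype.ext
  simp only [Matrix.SpecialLinearGroup.coe_mul, Matrix.SpecialLinearGroup.coe_one, coe_e12, coe_e13, coe_e23,
    coe_e21, coe_e31, coe_e32]
  ext i j; fin_cases i <;> fin_cases j <;>
    simp [Matrix.mul_apply, Fin.sum_univ_three]
theorem rel_13_32 (x y : R) : e13 x * e32 y = e12 (x * y) * e32 y * e13 x := by
  apply Subtype.ext
  simp only [Matrix.SpecialLinearGroup.coe_mul, Matrix.SpecialLinearGroup.coe_one, coe_e12, coe_e13, coe_e23,
    coe_e21, coe_e31, coe_e32]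
  ext i j; fin_cases i <;> fin_cases j <;>
    simp [Matrix.mul_apply, Fin.sum_univ_three]
theorem rel_21_13 (x y : R) : e21 x * e13 y = e23 (x * y) * e13 y * e21 x := by
  apply Subtype.ext
  simp only [Matrix.SpecialLinearGroup.coe_mul, Matrix.SpecialLinearGroup.coe_one, coe_e12, coe_e13, coe_e23,
    coe_e21, coe_e31, coe_e32]
  ext i j; fin_cases i <;> fin_cases j <;>
    simp [Matrix.mul_apply, Fin.sum_univ_three]
theorem rel_32_21 (x y : R) : e32 x * e21 y = e31 (x * y) * e21 y * e32 x := by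
  apply Subtype.ext
  simp only [Matrix.SpecialLinearGroup.coe_mul, Matrix.SpecialLinearGroup.coe_one, coe_e12, coe_e13, coe_e23,
    coe_e21, coe_e31, coe_e32]
  ext i j; fin_cases i <;> fin_cases j <;>
    simp [Matrix.mul_apply, Fin.sum_univ_three]

theorem comm_13_12 (x y : R) : e13 x * e12 y = e12 y * e13 x := by
  apply Subtype.ext
  simp only [Matrix.SpecialLinearGroup.coe_mul, Matrix.SpecialLinearGroup.coe_one, coe_e12, coe_e13, coe_e23,
    coe_e21, coe_e31, coe_e32]
  ext i j; fin_cases i <;> fin_cases j <;>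
    simp [Matrix.mul_apply, Fin.sum_univ_three]
theorem comm_13_23 (x y : R) : e13 x * e23 y = e23 y * e13 x := by
  apply Subtype.ext
  simp only [Matrix.SpecialLinearGroup.coe_mul, Matrix.SpecialLinearGroup.coe_one, coe_e12, coe_e13, coe_e23,
    coe_e21, coe_e31, coe_e32]
  ext i j; fin_cases i <;> fin_cases j <;>
    simp [Matrix.mul_apply, Fin.sum_univ_three]
theorem comm_21_23 (x y : R) : e21 x * e23 y = e23 y * e21 x := by
  apply Subtype.ext
  simp only [Matrix.SpecialLinearGroup.coe_mul, Matrix.SpecialLinearGroup.coe_one, coe_e12, coe_e13, coe_e23,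
    coe_e21, coe_e31, coe_e32]
  ext i j; fin_cases i <;> fin_cases j <;>
    simp [Matrix.mul_apply, Fin.sum_univ_three]
theorem comm_21_31 (x y : R) : e21 x * e31 y = e31 y * e21 x := by
  apply Subtype.ext
  simp only [Matrix.SpecialLinearGroup.coe_mul, Matrix.SpecialLinearGroup.coe_one, coe_e12, coe_e13, coe_e23,
    coe_e21, coe_e31, coe_e32]
  ext i j; fin_cases i <;> fin_cases j <;>
    simp [Matrix.mul_apply, Fin.sum_univ_three]
theorem comm_32_31 (x y : R) : e32 x * e31 y = e31 y * e32 x := by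
  apply Subtype.ext
  simp only [Matrix.SpecialLinearGroup.coe_mul, Matrix.SpecialLinearGroup.coe_one, coe_e12, coe_e13, coe_e23,
    coe_e21, coe_e31, coe_e32]
  ext i j; fin_cases i <;> fin_cases j <;>
    simp [Matrix.mul_apply, Fin.sum_univ_three]
theorem comm_32_12 (x y : R) : e32 x * e12 y = e12 y * e32 x := by
  apply Subtype.ext
  simp only [Matrix.SpecialLinearGroup.coe_mul, Matrix.SpecialLinearGroup.coe_one, coe_e12, coe_e13, coe_e23,
    coe_e21, coe_e31, coe_e32]
  ext i j; fin_cases i <;> fin_cases j <;>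
    simp [Matrix.mul_apply, Fin.sum_univ_three]

theorem e12_pow (x : R) (k : ℕ) : e12 x ^ k = e12 (k * x) := by
  induction k with
  | zero => simp [e12_zero]
  | succ n ih => rw [pow_succ, ih, e12_mul]; congr 1; push_cast; ring
theorem e13_pow (x : R) (k : ℕ) : e13 x ^ k = e13 (k * x) := by
  induction k with
  | zero => simp [e13_zero]
  | succ n ih => rw [pow_succ, ih, e13_mul]; congr 1; push_cast; ring
theorem e23_pow (x : R) (k : ℕ) : e23 x ^ k = e23 (k * x) := by
  induction k with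
  | zero => simp [e23_zero]
  | succ n ih => rw [pow_succ, ih, e23_mul]; congr 1; push_cast; ring
theorem e21_pow (x : R) (k : ℕ) : e21 x ^ k = e21 (k * x) := by
  induction k with
  | zero => simp [e21_zero]
  | succ n ih => rw [pow_succ, ih, e21_mul]; congr 1; push_cast; ring
theorem e31_pow (x : R) (k : ℕ) : e31 x ^ k = e31 (k * x) := by
  induction k with
  | zero => simp [e31_zero]
  | succ n ih => rw [pow_succ, ih, e31_mul]; congr 1; push_cast; ring
theorem e32_pow (x : R) (k : ℕ) : e32 x ^ k = e32 (k * x) := by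
  induction k with
  | zero => simp [e32_zero]
  | succ n ih => rw [pow_succ, ih, e32_mul]; congr 1; push_cast; ring

theorem e12_neg (x : R) : (e12 x)⁻¹ = e12 (-x) := by
  rw [inv_eq_iff_mul_eq_one, e12_mul, add_neg_cancel, e12_zero]

theorem map_e12 {S : Type*} [CommRing S] (f : R →+* S) (x : R) :
    Matrix.SpecialLinearGroup.map f (e12 x) = e12 (f x) := by
  apply Subtype.ext
  simp only [Matrix.SpecialLinearGroup.map_apply_coe, RingHom.mapMatrix_apply, coe_e12]
  ext i j; fin_cases i <;> fin_cases j <;> simp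
theorem map_e23 {S : Type*} [CommRing S] (f : R →+* S) (x : R) :
    Matrix.SpecialLinearGroup.map f (e23 x) = e23 (f x) := by
  apply Subtype.ext
  simp only [Matrix.SpecialLinearGroup.map_apply_coe, RingHom.mapMatrix_apply, coe_e23]
  ext i j; fin_cases i <;> fin_cases j <;> simp
theorem map_e31 {S : Type*} [CommRing S] (f : R →+* S) (x : R) :
    Matrix.SpecialLinearGroup.map f (e31 x) = e31 (f x) := by
  apply Subtype.ext
  simp only [Matrix.SpecialLinearGroup.map_apply_coe, RingHom.mapMatrix_apply, coe_e31]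
  ext i j; fin_cases i <;> fin_cases j <;> simp

end Ring

section Gen

variable {F : Type*} [Field F] {G : Subgroup (SL F)}

/-- If `u * v = w * v * u` and `u, v ∈ G` then `w ∈ G`. -/
theorem mem_of_rel {X : Type*} [Group X] {G : Subgroup X} {u v w : X} (h : u * v = w * v * u)
    (hu : u ∈ G) (hv : v ∈ G) : w ∈ G := by
  have : w = u * v * u⁻¹ * v⁻¹ := by rw [h]; group
  rw [this]
  exact G.mul_mem (G.mul_mem (G.mul_mem hu hv) (G.inv_mem hu)) (G.inv_mem hv)

theorem mem_normal_of_rel_left {X : Type*} [Group X] {N : Subgroup X} [hN : N.Normal] {u v w : X}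
    (h : u * v = w * v * u) (hu : u ∈ N) : w ∈ N := by
  have : w = u * (v * u⁻¹ * v⁻¹) := by
    rw [eq_comm, ← mul_assoc, ← mul_assoc, h]; group
  rw [this]
  exact N.mul_mem hu (hN.conj_mem _ (N.inv_mem hu) v)

theorem mem_normal_of_rel_right {X : Type*} [Group X] {N : Subgroup X} [hN : N.Normal] {u v w : X}
    (h : u * v = w * v * u) (hv : v ∈ N) : w ∈ N := by
  have : w = (u * v * u⁻¹) * v⁻¹ := by rw [h]; group
  rw [this]
  exact N.mul_mem (hN.conj_mem _ hv u) (N.inv_mem hv)

variable [Algebra (ZMod 5) F]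

theorem mem_e12 {θ : F} (hθ : Function.Surjective (Polynomial.aeval (R := ZMod 5) θ))
    (h12 : e12 (1 : F) ∈ G) (h23 : e23 (1 : F) ∈ G) (h31 : e31 θ ∈ G) (x : F) : e12 x ∈ G := by
  have h32 : e32 θ ∈ G := by
    have := mem_of_rel (rel_31_12 θ 1) h31 h12
    rwa [mul_one] at this
  have hmul : ∀ x, e12 x ∈ G → e12 (x * θ) ∈ G := by
    intro x hx
    have h13 : e13 x ∈ G := by
      have := mem_of_rel (rel_12_23 x 1) hx h23
      rwa [mul_one] at this
    exact mem_of_rel (rel_13_32 x θ) h13 h32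
  have hadd : ∀ x y, e12 x ∈ G → e12 y ∈ G → e12 (x + y) ∈ G := by
    intro x y hx hy
    rw [← e12_mul]; exact G.mul_mem hx hy
  have hnsmul : ∀ (k : ℕ) x, e12 x ∈ G → e12 (k * x) ∈ G := by
    intro k x hx
    rw [← e12_pow]; exact G.pow_mem hx k
  have hpow : ∀ k : ℕ, e12 (θ ^ k) ∈ G := by
    intro k
    induction k with
    | zero => simpa using h12
    | succ n ih => rw [pow_succ]; exact hmul _ ih
  obtain ⟨p, rfl⟩ := hθ x
  induction p using Polynomial.induction_on' with
  | add p q hp hq => rw [map_add]; exact hadd _ _ hp hq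
  | monomial n a =>
    rw [Polynomial.aeval_monomial]
    have : (algebraMap (ZMod 5) F) a = ((a.val : ℕ) : F) := by
      conv_lhs => rw [← ZMod.natCast_zmod_val a]
      rw [map_natCast]
    rw [this]
    exact hnsmul _ _ (hpow n)

theorem mem_all {θ : F} (hθ0 : θ ≠ 0) (hθ : Function.Surjective (Polynomial.aeval (R := ZMod 5) θ))
    (h12 : e12 (1 : F) ∈ G) (h23 : e23 (1 : F) ∈ G) (h31 : e31 θ ∈ G) :
    (∀ x : F, e12 x ∈ G) ∧ (∀ x : F, e13 x ∈ G) ∧ (∀ x : F, e23 x ∈ G) ∧ (∀ x : F, e21 x ∈ G) ∧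
      (∀ x : F, e31 x ∈ G) ∧ (∀ x : F, e32 x ∈ G) := by
  have a12 : ∀ x : F, e12 x ∈ G := mem_e12 hθ h12 h23 h31
  have a13 : ∀ x : F, e13 x ∈ G := fun x => by
    have := mem_of_rel (rel_12_23 x 1) (a12 x) h23
    rwa [mul_one] at this
  have a32 : ∀ x : F, e32 x ∈ G := fun x => by
    have := mem_of_rel (rel_31_12 θ (θ⁻¹ * x)) h31 (a12 _)
    rwa [mul_inv_cancel_left₀ hθ0] at this
  have h21 : e21 θ ∈ G := by
    have := mem_of_rel (rel_23_31 1 θ) h23 h31
    rwa [one_mul] at this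
  have a31 : ∀ x : F, e31 x ∈ G := fun x => by
    have := mem_of_rel (rel_32_21 (x * θ⁻¹) θ) (a32 _) h21
    rwa [inv_mul_cancel_right₀ hθ0] at this
  have a21 : ∀ x : F, e21 x ∈ G := fun x => by
    have := mem_of_rel (rel_23_31 1 x) h23 (a31 _)
    rwa [one_mul] at this
  have a23 : ∀ x : F, e23 x ∈ G := fun x => by
    have := mem_of_rel (rel_21_13 x 1) (a21 _) (a13 _)
    rwa [mul_one] at this
  exact ⟨a12, a13, a23, a21, a31, a32⟩

/-- The diagonal matrix `diag(u, u⁻¹, 1)`. -/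
def dg (u : Fˣ) : SL F := ⟨!![(u : F), 0, 0; 0, ((u⁻¹ : Fˣ) : F), 0; 0, 0, 1], by
  simp [Matrix.det_fin_three]⟩

theorem coe_dg (u : Fˣ) : (dg u : Matrix (Fin 3) (Fin 3) F) =
    !![(u : F), 0, 0; 0, ((u⁻¹ : Fˣ) : F), 0; 0, 0, 1] := rfl

theorem dg_mul (u v : Fˣ) : dg u * dg v = dg (u * v) := by
  apply Subtype.ext
  simp only [Matrix.SpecialLinearGroup.coe_mul, coe_dg]
  ext i j; fin_cases i <;> fin_cases j <;>
    simp [Matrix.mul_apply, Fin.sum_univ_three, mul_comm]

theorem dg_one : dg (1 : Fˣ) = 1 := by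
  apply Subtype.ext
  simp only [Matrix.SpecialLinearGroup.coe_one, coe_dg]
  ext i j; fin_cases i <;> fin_cases j <;> simp

/-- The diagonal embedding as a homomorphism. -/
def dgHom : Fˣ →* SL F where
  toFun := dg
  map_one' := dg_one
  map_mul' u v := (dg_mul u v).symm

theorem dgHom_injective : Function.Injective (dgHom (F := F)) := by
  intro u v h
  have h1 := congrArg (fun M : SL F => (M : Matrix (Fin 3) (Fin 3) F) 0 0) h
  simp only [dgHom, MonoidHom.coe_mk, OneHom.coe_mk, coe_dg] at h1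
  simp at h1
  exact Units.ext h1

theorem mem_dg (h : (∀ x : F, e12 x ∈ G) ∧ (∀ x : F, e21 x ∈ G)) (u : Fˣ) : dg u ∈ G := by
  obtain ⟨a12, a21⟩ := h
  have : dg u = (e12 (u : F) * e21 (-((u⁻¹ : Fˣ) : F)) * e12 (u : F)) *
      (e12 (-1 : F) * e21 (1 : F) * e12 (-1 : F)) := by
    apply Subtype.ext
    simp only [Matrix.SpecialLinearGroup.coe_mul, coe_dg, coe_e12, coe_e21]
    ext i j; fin_cases i <;> fin_cases j <;>
      simp [Matrix.mul_apply, Fin.sum_univ_three]
  rw [this]
  exact G.mul_mem (G.mul_mem (G.mul_mem (a12 _) (a21 _)) (a12 _))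
    (G.mul_mem (G.mul_mem (a12 _) (a21 _)) (a12 _))

theorem rel_dg (u : Fˣ) (x : F) : dg u * e12 x = e12 (((u : F) ^ 2 - 1) * x) * e12 x * dg u := by
  apply Subtype.ext
  simp only [Matrix.SpecialLinearGroup.coe_mul, coe_dg, coe_e12]
  ext i j; fin_cases i <;> fin_cases j <;>
    simp [Matrix.mul_apply, Fin.sum_univ_three]
  field_simp
  ring

end Gen

end Pool.Agent.H60.Mat
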