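import Mathlib
import Pool.Agent.H60.CberMat
import Pool.Agent.H60.CberData

set_option autoImplicit false
set_option linter.unusedSimpArgs false
set_option linter.unusedSectionVars false

namespace Pool.Agent.H60.Mat

open Matrix Polynomial

instance fact5 : Fact (Nat.Prime 5) := ⟨by norm_num⟩

/-- The exponents: the primes `≥ 5` in increasing order. -/
noncomputable def ell (n : ℕ) : ℕ := Nat.nth Nat.Prime (n + 2)

theorem ell_prime (n : ℕ) : (ell n).Prime := Nat.prime_nth_prime _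

theorem ell_strictMono : StrictMono ell := by
  intro m n h
  exact Nat.nth_strictMono Nat.infinite_setOfPred_prime (by omega)

theorem ell_ge (n : ℕ) : 5 ≤ ell n := by
  have h0 : Nat.nth Nat.Prime 0 = 2 := Nat.nth_prime_zero_eq_two
  have h1 : Nat.nth Nat.Prime 1 = 3 := Nat.nth_prime_one_eq_three
  have h2 : 3 < ell n := by
    rw [← h1]
    exact Nat.nth_strictMono Nat.infinite_setOfPred_prime (by omega)
  have h3 : ell n ≠ 4 := by
    intro h
    have := ell_prime n
    rw [h] at this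
    exact absurd this (by decide)
  omega

/-- The finite fields. -/
abbrev Fd (n : ℕ) : Type := GaloisField 5 (ell n)

theorem card_Fd (n : ℕ) : Nat.card (Fd n) = 5 ^ ell n := GaloisField.card 5 _ (ell_prime n).ne_zero

theorem exists_theta (n : ℕ) :
    ∃ θ : Fd n, Function.Surjective (Polynomial.aeval (R := ZMod 5) θ) ∧ θ ≠ 0 ∧
      ∀ p : (ZMod 5)[X], p ≠ 0 → Polynomial.aeval θ p = 0 → ell n ≤ p.natDegree := by
  obtain ⟨θ, hθ⟩ := Field.exists_primitive_element (ZMod 5) (Fd n)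
  have hint : IsIntegral (ZMod 5) θ := IsIntegral.of_finite _ θ
  have hfr : Module.finrank (ZMod 5) (Fd n) = ell n := GaloisField.finrank 5 (ell_prime n).ne_zero
  have hdeg : (minpoly (ZMod 5) θ).natDegree = ell n := by
    rw [← IntermediateField.adjoin.finrank hint, hθ, IntermediateField.finrank_top', hfr]
  refine ⟨θ, ?_, ?_, ?_⟩
  · have h1 : Algebra.adjoin (ZMod 5) {θ} = ⊤ := by
      have := IntermediateField.adjoin_simple_toSubalgebra_of_isAlgebraic hint.isAlgebraic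
      rw [← this, hθ]; rfl
    rw [← AlgHom.range_eq_top, ← Algebra.adjoin_singleton_eq_range_aeval]
    exact h1
  · rintro rfl
    rw [minpoly.zero, Polynomial.natDegree_X] at hdeg
    have := ell_ge n
    omega
  · intro p hp h
    rw [← hdeg]
    exact Polynomial.natDegree_le_of_dvd (minpoly.dvd _ _ h) hp

/-- The generator of the `n`-th field. -/
noncomputable def th (n : ℕ) : Fd n := (exists_theta n).choose

theorem th_surj (n : ℕ) : Function.Surjective (Polynomial.aeval (R := ZMod 5) (th n)) :=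
  (exists_theta n).choose_spec.1

theorem th_ne (n : ℕ) : th n ≠ 0 := (exists_theta n).choose_spec.2.1

theorem th_deg (n : ℕ) (p : (ZMod 5)[X]) (hp : p ≠ 0) (h : Polynomial.aeval (th n) p = 0) :
    ell n ≤ p.natDegree := (exists_theta n).choose_spec.2.2 p hp h

/-- The homomorphism from the free group. -/
noncomputable def hom (n : ℕ) : FreeGroup (Fin 3) →* SL (Fd n) :=
  FreeGroup.lift ![e12 1, e23 1, e31 (th n)]

/-- The finite quotients. -/
abbrev Qn (n : ℕ) : Type := (hom n).range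

instance (n : ℕ) : Finite (SL (Fd n)) := by
  have : Finite (Matrix (Fin 3) (Fin 3) (Fd n)) := inferInstanceAs (Finite (Fin 3 → Fin 3 → Fd n))
  exact Subtype.finite

/-- The polynomial lift. -/
noncomputable def polyHom : FreeGroup (Fin 3) →* SL (ZMod 5)[X] :=
  FreeGroup.lift ![e12 1, e23 1, e31 X]

theorem hom_eq (n : ℕ) (γ : FreeGroup (Fin 3)) :
    hom n γ = Matrix.SpecialLinearGroup.map
      ((Polynomial.aeval (R := ZMod 5) (th n)) : (ZMod 5)[X] →+* Fd n) (polyHom γ) := by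
  have : hom n = (Matrix.SpecialLinearGroup.map
      ((Polynomial.aeval (R := ZMod 5) (th n)) : (ZMod 5)[X] →+* Fd n)).comp polyHom := by
    apply FreeGroup.ext_hom
    intro i
    fin_cases i
    · simp only [hom, polyHom, MonoidHom.comp_apply, FreeGroup.lift_apply_of]
      simp [map_e12]
    · simp only [hom, polyHom, MonoidHom.comp_apply, FreeGroup.lift_apply_of]
      simp [map_e23]
    · simp only [hom, polyHom, MonoidHom.comp_apply, FreeGroup.lift_apply_of]
      simp [map_e31]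
  rw [this]; rfl

theorem nfs_aux (γ : FreeGroup (Fin 3)) (h : {m | hom m γ = 1}.Infinite) (n : ℕ) :
    hom n γ = 1 := by
  have key : polyHom γ = 1 := by
    apply Subtype.ext
    ext1 i j
    set p : (ZMod 5)[X] := (polyHom γ : Matrix (Fin 3) (Fin 3) (ZMod 5)[X]) i j -
      (1 : Matrix (Fin 3) (Fin 3) (ZMod 5)[X]) i j with hp
    have hp0 : p = 0 := by
      by_contra hne
      refine h ((Set.finite_Iic p.natDegree).subset ?_)
      intro m hm
      have h1 : Polynomial.aeval (th m) p = 0 := by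
        have h2 := hom_eq m γ
        rw [show hom m γ = 1 from hm] at h2
        have h3 := congrArg (fun M : SL (Fd m) => (M : Matrix (Fin 3) (Fin 3) (Fd m)) i j) h2
        simp only [Matrix.SpecialLinearGroup.map_apply_coe, RingHom.mapMatrix_apply,
          Matrix.map_apply, Matrix.SpecialLinearGroup.coe_one] at h3
        rw [hp, map_sub]
        have h4 : Polynomial.aeval (th m) ((1 : Matrix (Fin 3) (Fin 3) (ZMod 5)[X]) i j) =
            (1 : Matrix (Fin 3) (Fin 3) (Fd m)) i j := by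
          simp only [Matrix.one_apply]
          split_ifs <;> simp
        rw [h4, h3]
        exact sub_self _
      exact (ell_strictMono.le_apply).trans (th_deg m p hne h1)
    rw [hp, sub_eq_zero] at hp0
    exact hp0
  rw [hom_eq, key, map_one]

/-- The private primes. -/
theorem exists_r (n : ℕ) : ∃ r : ℕ, r.Prime ∧ r ∣ 5 ^ ell n - 1 ∧ r ≠ 2 := by
  have h1 : (∑ i ∈ Finset.range (ell n), 5 ^ i) * 4 = 5 ^ ell n - 1 := by
    have := Nat.geomSum_eq (m := 5) (by norm_num) (ell n)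
    rw [this]
    have h2 : 4 ∣ 5 ^ ell n - 1 := by
      have := Nat.sub_dvd_pow_sub_pow 5 1 (ell n)
      simpa using this
    exact Nat.div_mul_cancel h2
  set s := ∑ i ∈ Finset.range (ell n), 5 ^ i with hs
  have hodd : Odd s := by
    rw [hs, Finset.odd_sum_iff_odd_card_odd]
    have : (Finset.range (ell n)).filter (fun i => Odd (5 ^ i)) = Finset.range (ell n) := by
      apply Finset.filter_true_of_mem
      intro i _
      exact Odd.pow (by decide)
    rw [this, Finset.card_range]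
    exact (ell_prime n).odd_of_ne_two (by have := ell_ge n; omega)
  have hs1 : s ≠ 1 := by
    intro h
    rw [h] at h1
    have h2 : 5 ^ 2 ≤ 5 ^ ell n := Nat.pow_le_pow_right (by norm_num) (by have := ell_ge n; omega)
    omega
  refine ⟨s.minFac, Nat.minFac_prime hs1, ?_, ?_⟩
  · rw [← h1]
    exact (Nat.minFac_dvd s).trans (dvd_mul_right _ _)
  · intro h
    have h2 : 2 ∣ s := by rw [← h]; exact Nat.minFac_dvd s
    rw [← Nat.not_even_iff_odd, even_iff_two_dvd] at hodd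
    exact hodd h2

noncomputable def rr (n : ℕ) : ℕ := (exists_r n).choose
theorem rr_prime (n : ℕ) : (rr n).Prime := (exists_r n).choose_spec.1
theorem rr_dvd (n : ℕ) : rr n ∣ 5 ^ ell n - 1 := (exists_r n).choose_spec.2.1
theorem rr_ne (n : ℕ) : rr n ≠ 2 := (exists_r n).choose_spec.2.2

theorem rr_not_dvd_four (n : ℕ) : ¬ rr n ∣ 4 := by
  intro h
  have h1 : rr n ∣ 2 ^ 2 := by simpa using h
  exact rr_ne n ((Nat.prime_dvd_prime_iff_eq (rr_prime n) Nat.prime_two).1
    ((rr_prime n).dvd_of_dvd_pow h1))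

theorem rr_not_dvd (n : ℕ) (k : ℕ) (hk : Nat.Coprime (ell n) k)
    (h : rr n ∣ 5 ^ k - 1) : False := by
  have h1 : rr n ∣ Nat.gcd (5 ^ ell n - 1) (5 ^ k - 1) := Nat.dvd_gcd (rr_dvd n) h
  rw [Nat.pow_sub_one_gcd_pow_sub_one, hk.gcd_eq_one, pow_one] at h1
  exact rr_not_dvd_four n h1

theorem priv_aux (m n : ℕ) (hmn : m ≠ n) : ¬ rr n ∣ Nat.card (Qn m) := by
  intro h
  have hcard : Nat.card (Qn m) ∣ Nat.card (GL (Fin 3) (Fd m)) :=
    (Subgroup.card_subgroup_dvd_card _).trans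
      (Subgroup.card_dvd_of_injective _ Matrix.SpecialLinearGroup.toGL_injective)
  have h1 := h.trans hcard
  have : Fintype (Fd m) := Fintype.ofFinite _
  rw [Matrix.card_GL_field] at h1
  rw [← Nat.card_eq_fintype_card, card_Fd] at h1
  set q := 5 ^ ell m with hq
  have hell : ell n ≠ ell m := fun h => hmn (ell_strictMono.injective h).symm
  have hco : Nat.Coprime (ell n) (ell m) := (Nat.coprime_primes (ell_prime n) (ell_prime m)).2 hell
  have hco3 : Nat.Coprime (ell n) 3 :=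
    (Nat.coprime_primes (ell_prime n) Nat.prime_three).2 (by have := ell_ge n; omega)
  have hco2 : Nat.Coprime (ell n) 2 :=
    (Nat.coprime_primes (ell_prime n) Nat.prime_two).2 (by have := ell_ge n; omega)
  have hr5 : ¬ rr n ∣ q := by
    intro h
    have h2 := (rr_prime n).dvd_of_dvd_pow h
    rw [Nat.prime_dvd_prime_iff_eq (rr_prime n) (by norm_num)] at h2
    have h3 := rr_dvd n
    rw [h2] at h3
    have h4 : 5 ∣ 5 ^ ell n := dvd_pow_self 5 (ell_prime n).ne_zero
    have h5 : 1 ≤ 5 ^ ell n := Nat.one_le_pow _ _ (by norm_num)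
    omega
  rw [Fin.prod_univ_three] at h1
  simp only [Fin.val_zero, Fin.val_one, Fin.val_two, pow_zero, pow_one] at h1
  have e1 : q ^ 3 - q = q * (q ^ 2 - 1) := by
    rw [Nat.mul_sub]; ring_nf
  have e2 : q ^ 3 - q ^ 2 = q ^ 2 * (q - 1) := by
    rw [Nat.mul_sub]; ring_nf
  rw [e1, e2] at h1
  have hp := rr_prime n
  rcases (hp.dvd_mul.1 h1) with h2 | h2
  · rcases (hp.dvd_mul.1 h2) with h3 | h3
    · refine rr_not_dvd n (ell m * 3) (Nat.Coprime.mul_right hco hco3) ?_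
      rw [pow_mul]; exact h3
    · rcases (hp.dvd_mul.1 h3) with h4 | h4
      · exact hr5 h4
      · refine rr_not_dvd n (ell m * 2) (Nat.Coprime.mul_right hco hco2) ?_
        rw [pow_mul]; exact h4
  · rcases (hp.dvd_mul.1 h2) with h3 | h3
    · exact hr5 (hp.dvd_of_dvd_pow h3)
    · exact rr_not_dvd n (ell m) hco h3

theorem range_mem_all (n : ℕ) :
    (∀ x : Fd n, e12 x ∈ (hom n).range) ∧ (∀ x : Fd n, e13 x ∈ (hom n).range) ∧
    (∀ x : Fd n, e23 x ∈ (hom n).range) ∧ (∀ x : Fd n, e21 x ∈ (hom n).range) ∧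
      (∀ x : Fd n, e31 x ∈ (hom n).range) ∧ (∀ x : Fd n, e32 x ∈ (hom n).range) := by
  refine mem_all (th_ne n) (th_surj n) ⟨FreeGroup.of 0, ?_⟩ ⟨FreeGroup.of 1, ?_⟩
    ⟨FreeGroup.of 2, ?_⟩
  · simp [hom]
  · simp [hom]
  · simp [hom]

theorem exists_unit (n : ℕ) : ∃ u : (Fd n)ˣ, orderOf u = rr n := by
  have : Fact (rr n).Prime := ⟨rr_prime n⟩
  refine exists_prime_orderOf_dvd_card' (rr n) ?_
  rw [Nat.card_units, card_Fd]
  exact rr_dvd n

noncomputable def un (n : ℕ) : (Fd n)ˣ := (exists_unit n).choose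
theorem un_order (n : ℕ) : orderOf (un n) = rr n := (exists_unit n).choose_spec

/-- The private elements. -/
noncomputable def gn (n : ℕ) : Qn n :=
  ⟨dg (un n), mem_dg ⟨(range_mem_all n).1, (range_mem_all n).2.2.2.1⟩ _⟩

theorem gn_pow (n : ℕ) : gn n ^ rr n = 1 := by
  apply Subtype.ext
  have h1 : (dg (un n)) ^ rr n = 1 := by
    have : dgHom (un n) ^ rr n = 1 := by
      rw [← map_pow, ← un_order, pow_orderOf_eq_one, map_one]
    exact this
  exact h1

theorem un_sq_ne (n : ℕ) : (un n) ^ 2 ≠ 1 := by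
  intro h
  have h1 := orderOf_dvd_of_pow_eq_one h
  rw [un_order, Nat.prime_dvd_prime_iff_eq (rr_prime n) Nat.prime_two] at h1
  exact rr_ne n h1

theorem gn_ne (n : ℕ) : gn n ≠ 1 := by
  intro h
  have h1 : dgHom (un n) = 1 := congrArg Subtype.val h
  have h2 : un n = 1 := dgHom_injective (h1.trans (map_one _).symm)
  exact un_sq_ne n (by rw [h2]; simp)

theorem gn_normal (n : ℕ) : Subgroup.normalClosure {gn n} = ⊤ := by
  set N : Subgroup (Qn n) := Subgroup.normalClosure {gn n} with hN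
  have hNn : N.Normal := Subgroup.normalClosure_normal
  have hg : gn n ∈ N := Subgroup.subset_normalClosure rfl
  obtain ⟨a12, a13, a23, a21, a31, a32⟩ := range_mem_all n
  have hu : (((un n : (Fd n)ˣ) : Fd n) ^ 2 - 1) ≠ 0 := by
    intro h
    rw [sub_eq_zero] at h
    exact un_sq_ne n (Units.ext (by push_cast; exact h))
  have b12 : ∀ x : Fd n, (⟨e12 x, a12 x⟩ : Qn n) ∈ N := by
    intro x
    have h1 := rel_dg (un n) ((((un n : (Fd n)ˣ) : Fd n) ^ 2 - 1)⁻¹ * x)
    rw [mul_inv_cancel_left₀ hu] at h1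
    have h2 : gn n * ⟨e12 ((((un n : (Fd n)ˣ) : Fd n) ^ 2 - 1)⁻¹ * x), a12 _⟩ =
        (⟨e12 x, a12 x⟩ : Qn n) * ⟨e12 ((((un n : (Fd n)ˣ) : Fd n) ^ 2 - 1)⁻¹ * x), a12 _⟩ * gn n :=
      Subtype.ext h1
    exact mem_normal_of_rel_left h2 hg
  have b13 : ∀ x : Fd n, (⟨e13 x, a13 x⟩ : Qn n) ∈ N := by
    intro x
    have h1 := rel_12_23 x (1 : Fd n)
    rw [mul_one] at h1
    have h2 : (⟨e12 x, a12 x⟩ : Qn n) * ⟨e23 1, a23 1⟩ =
        (⟨e13 x, a13 x⟩ : Qn n) * ⟨e23 1, a23 1⟩ * ⟨e12 x, a12 x⟩ := Subtype.ext h1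
    exact mem_normal_of_rel_left h2 (b12 x)
  have b23 : ∀ x : Fd n, (⟨e23 x, a23 x⟩ : Qn n) ∈ N := by
    intro x
    have h1 := rel_21_13 (1 : Fd n) x
    rw [one_mul] at h1
    have h2 : (⟨e21 1, a21 1⟩ : Qn n) * ⟨e13 x, a13 x⟩ =
        (⟨e23 x, a23 x⟩ : Qn n) * ⟨e13 x, a13 x⟩ * ⟨e21 1, a21 1⟩ := Subtype.ext h1
    exact mem_normal_of_rel_right h2 (b13 x)
  have b32 : ∀ x : Fd n, (⟨e32 x, a32 x⟩ : Qn n) ∈ N := by
    intro x
    have h1 := rel_31_12 (1 : Fd n) x
    rw [one_mul] at h1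
    have h2 : (⟨e31 1, a31 1⟩ : Qn n) * ⟨e12 x, a12 x⟩ =
        (⟨e32 x, a32 x⟩ : Qn n) * ⟨e12 x, a12 x⟩ * ⟨e31 1, a31 1⟩ := Subtype.ext h1
    exact mem_normal_of_rel_right h2 (b12 x)
  have b31 : ∀ x : Fd n, (⟨e31 x, a31 x⟩ : Qn n) ∈ N := by
    intro x
    have h1 := rel_32_21 x (1 : Fd n)
    rw [mul_one] at h1
    have h2 : (⟨e32 x, a32 x⟩ : Qn n) * ⟨e21 1, a21 1⟩ =
        (⟨e31 x, a31 x⟩ : Qn n) * ⟨e21 1, a21 1⟩ * ⟨e32 x, a32 x⟩ := Subtype.ext h1
    exact mem_normal_of_rel_left h2 (b32 x)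
  -- the generators lie in `N`
  have hle : Subgroup.closure (Set.range (FreeGroup.of : Fin 3 → FreeGroup (Fin 3))) ≤
      N.comap (hom n).rangeRestrict := by
    rw [Subgroup.closure_le]
    rintro _ ⟨i, rfl⟩
    show (hom n).rangeRestrict (FreeGroup.of i) ∈ N
    fin_cases i
    · have : (hom n).rangeRestrict (FreeGroup.of 0) = ⟨e12 1, a12 1⟩ := by
        apply Subtype.ext
        show hom n (FreeGroup.of 0) = _
        simp [hom]
      exact this ▸ b12 1
    · have : (hom n).rangeRestrict (FreeGroup.of 1) = ⟨e23 1, a23 1⟩ := by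
        apply Subtype.ext
        show hom n (FreeGroup.of 1) = _
        simp [hom]
      exact this ▸ b23 1
    · have : (hom n).rangeRestrict (FreeGroup.of 2) = ⟨e31 (th n), a31 _⟩ := by
        apply Subtype.ext
        show hom n (FreeGroup.of 2) = _
        simp [hom]
      exact this ▸ b31 _
  rw [FreeGroup.closure_range_of] at hle
  rw [eq_top_iff]
  intro q _
  obtain ⟨γ, rfl⟩ := (hom n).rangeRestrict_surjective q
  exact hle (Subgroup.mem_top γ)

instance char5 (n : ℕ) : CharP (Fd n) 5 := inferInstance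

theorem five_mul (n : ℕ) (x : Fd n) : ((5 : ℕ) : Fd n) * x = 0 := by
  have : ((5 : ℕ) : Fd n) = 0 := CharP.cast_eq_zero (Fd n) 5
  rw [this, zero_mul]

/-- The data exist. -/
theorem exists_rdata : Nonempty RData := by
  have rel_comm : ∀ x y : FreeGroup (Fin 3), x * y = (x * y * x⁻¹ * y⁻¹) * y * x := by
    intro x y
    group
  have hA : ∀ n, hom n (FreeGroup.of 0) = e12 1 := fun n => by simp [hom]
  have hB : ∀ n, hom n (FreeGroup.of 1) = e23 1 := fun n => by simp [hom]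
  have hC : ∀ n, hom n (FreeGroup.of 2) = e31 (th n) := fun n => by simp [hom]
  have hcommut : ∀ {X : Type} [Group X] {x y z : X}, x * y = z * y * x →
      x * y * x⁻¹ * y⁻¹ = z := by
    intro X _ x y z h
    rw [h]; group
  have hZ1 : ∀ n, hom n (FreeGroup.of 0 * FreeGroup.of 1 * (FreeGroup.of 0)⁻¹ * (FreeGroup.of 1)⁻¹) = e13 1 := fun n => by
    rw [map_mul, map_mul, map_mul, map_inv, map_inv, hA, hB]
    have := rel_12_23 (1 : Fd n) 1
    rw [mul_one (1 : Fd n)] at this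
    exact hcommut this
  have hZ2 : ∀ n, hom n (FreeGroup.of 1 * FreeGroup.of 2 * (FreeGroup.of 1)⁻¹ * (FreeGroup.of 2)⁻¹) = e21 (th n) := fun n => by
    rw [map_mul, map_mul, map_mul, map_inv, map_inv, hB, hC]
    have := rel_23_31 (1 : Fd n) (th n)
    rw [one_mul] at this
    exact hcommut this
  have hZ3 : ∀ n, hom n (FreeGroup.of 2 * FreeGroup.of 0 * (FreeGroup.of 2)⁻¹ * (FreeGroup.of 0)⁻¹) = e32 (th n) := fun n => by
    rw [map_mul, map_mul, map_mul, map_inv, map_inv, hC, hA]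
    have := rel_31_12 (th n) (1 : Fd n)
    rw [mul_one] at this
    exact hcommut this
  refine ⟨{
    Γ := FreeGroup (Fin 3)
    Q := Qn
    π := fun n => (hom n).rangeRestrict
    surj := fun n => (hom n).rangeRestrict_surjective
    a := FreeGroup.of 0
    b := FreeGroup.of 1
    c := FreeGroup.of 2
    z1 := (FreeGroup.of 0 * FreeGroup.of 1 * (FreeGroup.of 0)⁻¹ * (FreeGroup.of 1)⁻¹)
    z2 := (FreeGroup.of 1 * FreeGroup.of 2 * (FreeGroup.of 1)⁻¹ * (FreeGroup.of 2)⁻¹)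
    z3 := (FreeGroup.of 2 * FreeGroup.of 0 * (FreeGroup.of 2)⁻¹ * (FreeGroup.of 0)⁻¹)
    gen := ?_
    ha := ?_
    hb := ?_
    hc := ?_
    hz1 := ?_
    hz2 := ?_
    hz3 := ?_
    hab := ?_
    hz1a := ?_
    hz1b := ?_
    hbc := ?_
    hz2b := ?_
    hz2c := ?_
    hca := ?_
    hz3c := ?_
    hz3a := ?_
    g := gn
    r := rr
    r_prime := rr_prime
    g_pow := gn_pow
    g_ne := gn_ne
    priv := priv_aux
    g_normal := gn_normal
    nfs := ?_ }⟩
  · rw [← FreeGroup.closure_range_of]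
    congr 1
    ext x
    simp only [Set.mem_insert_iff, Set.mem_singleton_iff, Set.mem_range]
    constructor
    · rintro (rfl | rfl | rfl)
      exacts [⟨0, rfl⟩, ⟨1, rfl⟩, ⟨2, rfl⟩]
    · rintro ⟨i, rfl⟩
      fin_cases i
      · exact Or.inl rfl
      · exact Or.inr (Or.inl rfl)
      · exact Or.inr (Or.inr rfl)
  · intro n
    apply Subtype.ext
    show hom n (FreeGroup.of 0) ^ 5 = 1
    rw [hA, e12_pow, five_mul, e12_zero]
  · intro n
    apply Subtype.ext
    show hom n (FreeGroup.of 1) ^ 5 = 1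
    rw [hB, e23_pow, five_mul, e23_zero]
  · intro n
    apply Subtype.ext
    show hom n (FreeGroup.of 2) ^ 5 = 1
    rw [hC, e31_pow, five_mul, e31_zero]
  · intro n
    apply Subtype.ext
    show hom n (FreeGroup.of 0 * FreeGroup.of 1 * (FreeGroup.of 0)⁻¹ * (FreeGroup.of 1)⁻¹) ^ 5 = 1
    rw [hZ1, e13_pow, five_mul, e13_zero]
  · intro n
    apply Subtype.ext
    show hom n (FreeGroup.of 1 * FreeGroup.of 2 * (FreeGroup.of 1)⁻¹ * (FreeGroup.of 2)⁻¹) ^ 5 = 1
    rw [hZ2, e21_pow, five_mul, e21_zero]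
  · intro n
    apply Subtype.ext
    show hom n (FreeGroup.of 2 * FreeGroup.of 0 * (FreeGroup.of 2)⁻¹ * (FreeGroup.of 0)⁻¹) ^ 5 = 1
    rw [hZ3, e32_pow, five_mul, e32_zero]
  · intro n
    rw [← map_mul, ← map_mul, ← map_mul]
    exact congrArg _ (rel_comm _ _)
  · intro n
    apply Subtype.ext
    show hom n (FreeGroup.of 0 * FreeGroup.of 1 * (FreeGroup.of 0)⁻¹ * (FreeGroup.of 1)⁻¹) * hom n (FreeGroup.of 0) = hom n (FreeGroup.of 0) * hom n (FreeGroup.of 0 * FreeGroup.of 1 * (FreeGroup.of 0)⁻¹ * (FreeGroup.of 1)⁻¹)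
    rw [hZ1, hA, comm_13_12]
  · intro n
    apply Subtype.ext
    show hom n (FreeGroup.of 0 * FreeGroup.of 1 * (FreeGroup.of 0)⁻¹ * (FreeGroup.of 1)⁻¹) * hom n (FreeGroup.of 1) = hom n (FreeGroup.of 1) * hom n (FreeGroup.of 0 * FreeGroup.of 1 * (FreeGroup.of 0)⁻¹ * (FreeGroup.of 1)⁻¹)
    rw [hZ1, hB, comm_13_23]
  · intro n
    rw [← map_mul, ← map_mul, ← map_mul]
    exact congrArg _ (rel_comm _ _)
  · intro n
    apply Subtype.ext
    show hom n (FreeGroup.of 1 * FreeGroup.of 2 * (FreeGroup.of 1)⁻¹ * (FreeGroup.of 2)⁻¹) * hom n (FreeGroup.of 1) = hom n (FreeGroup.of 1) * hom n (FreeGroup.of 1 * FreeGroup.of 2 * (FreeGroup.of 1)⁻¹ * (FreeGroup.of 2)⁻¹)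
    rw [hZ2, hB, comm_21_23]
  · intro n
    apply Subtype.ext
    show hom n (FreeGroup.of 1 * FreeGroup.of 2 * (FreeGroup.of 1)⁻¹ * (FreeGroup.of 2)⁻¹) * hom n (FreeGroup.of 2) = hom n (FreeGroup.of 2) * hom n (FreeGroup.of 1 * FreeGroup.of 2 * (FreeGroup.of 1)⁻¹ * (FreeGroup.of 2)⁻¹)
    rw [hZ2, hC, comm_21_31]
  · intro n
    rw [← map_mul, ← map_mul, ← map_mul]
    exact congrArg _ (rel_comm _ _)
  · intro n
    apply Subtype.ext
    show hom n (FreeGroup.of 2 * FreeGroup.of 0 * (FreeGroup.of 2)⁻¹ * (FreeGroup.of 0)⁻¹) * hom n (FreeGroup.of 2) = hom n (FreeGroup.of 2) * hom n (FreeGroup.of 2 * FreeGroup.of 0 * (FreeGroup.of 2)⁻¹ * (FreeGroup.of 0)⁻¹)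
    rw [hZ3, hC, comm_32_31]
  · intro n
    apply Subtype.ext
    show hom n (FreeGroup.of 2 * FreeGroup.of 0 * (FreeGroup.of 2)⁻¹ * (FreeGroup.of 0)⁻¹) * hom n (FreeGroup.of 0) = hom n (FreeGroup.of 0) * hom n (FreeGroup.of 2 * FreeGroup.of 0 * (FreeGroup.of 2)⁻¹ * (FreeGroup.of 0)⁻¹)
    rw [hZ3, hA, comm_32_12]
  · intro γ hγ n
    apply Subtype.ext
    show hom n γ = 1
    refine nfs_aux γ (hγ.mono ?_) n
    intro m hm
    exact congrArg Subtype.val hm

end Pool.Agent.H60.Mat
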