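import Mathlib

set_option autoImplicit false

/-!
Spectral gap for three linear isometries of order five which pairwise generate (images of)
Heisenberg groups.
-/

namespace Pool.Agent.H60.Gap

open Finset

variable {H : Type*} [NormedAddCommGroup H] [InnerProductSpace ℝ H]

theorem mul_app (A B : H →ₗᵢ[ℝ] H) (v : H) : (A * B) v = A (B v) := rfl

theorem one_app (v : H) : (1 : H →ₗᵢ[ℝ] H) v = v := rfl

/-- The average of `A ^ i v` over `i < 5`. -/
noncomputable def avg (A : H →ₗᵢ[ℝ] H) (v : H) : H := (5 : ℝ)⁻¹ • ∑ i ∈ range 5, (A ^ i) v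

theorem avg_add (A : H →ₗᵢ[ℝ] H) (v w : H) : avg A (v + w) = avg A v + avg A w := by
  simp only [avg, map_add, sum_add_distrib, smul_add]

theorem avg_smul (A : H →ₗᵢ[ℝ] H) (r : ℝ) (v : H) : avg A (r • v) = r • avg A v := by
  simp only [avg, map_smul, ← smul_sum, smul_smul, mul_comm]

theorem avg_sub (A : H →ₗᵢ[ℝ] H) (v w : H) : avg A (v - w) = avg A v - avg A w := by
  simp only [avg, map_sub, sum_sub_distrib, smul_sub]

theorem avg_zero (A : H →ₗᵢ[ℝ] H) : avg A 0 = 0 := by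
  simp [avg]

theorem pow_fixed {A : H →ₗᵢ[ℝ] H} {v : H} (h : A v = v) (i : ℕ) : (A ^ i) v = v := by
  induction i with
  | zero => simp
  | succ n ih => rw [pow_succ, mul_app, h, ih]

theorem avg_of_fixed {A : H →ₗᵢ[ℝ] H} {v : H} (h : A v = v) : avg A v = v := by
  simp only [avg, pow_fixed h, sum_const, card_range]
  rw [← Nat.cast_smul_eq_nsmul ℝ, smul_smul]
  norm_num

theorem fixed_avg {A : H →ₗᵢ[ℝ] H} (hA : A ^ 5 = 1) (v : H) : A (avg A v) = avg A v := by
  have key : ∀ i, A ((A ^ i) v) = (A ^ (i + 1)) v := fun i => by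
    rw [pow_succ', mul_app]
  simp only [avg, map_smul, map_sum, key]
  congr 1
  rw [sum_range_succ, hA, sum_range_succ' (fun i => (A ^ i) v)]
  simp

theorem inner_pow {A : H →ₗᵢ[ℝ] H} (hA : A ^ 5 = 1) (x y : H) {i j : ℕ} (h : i + j = 5) :
    inner ℝ ((A ^ i) x) y = inner ℝ x ((A ^ j) y) := by
  have h1 : y = (A ^ i) ((A ^ j) y) := by
    rw [← mul_app, ← pow_add, h, hA, one_app]
  conv_lhs => rw [h1]
  exact (A ^ i).inner_map_map x ((A ^ j) y)

theorem inner_avg_left {A : H →ₗᵢ[ℝ] H} (hA : A ^ 5 = 1) (x y : H) :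
    inner ℝ (avg A x) y = inner ℝ x (avg A y) := by
  have h0 : inner ℝ ((A ^ 0) x) y = inner ℝ x ((A ^ 0) y) := by simp
  have h1 := inner_pow hA x y (i := 1) (j := 4) rfl
  have h2 := inner_pow hA x y (i := 2) (j := 3) rfl
  have h3 := inner_pow hA x y (i := 3) (j := 2) rfl
  have h4 := inner_pow hA x y (i := 4) (j := 1) rfl
  simp only [avg, sum_range_succ, sum_range_zero, zero_add, inner_smul_left, inner_smul_right,
    inner_add_left, inner_add_right, h0, h1, h2, h3, h4]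
  simp
  ring

theorem avg_avg {A : H →ₗᵢ[ℝ] H} (hA : A ^ 5 = 1) (v : H) : avg A (avg A v) = avg A v :=
  avg_of_fixed (fixed_avg hA v)

/-- The defect `v - avg A v`. -/
noncomputable def dft (A : H →ₗᵢ[ℝ] H) (v : H) : H := v - avg A v

theorem dft_add (A : H →ₗᵢ[ℝ] H) (v w : H) : dft A (v + w) = dft A v + dft A w := by
  simp only [dft, avg_add]; abel

theorem dft_sub (A : H →ₗᵢ[ℝ] H) (v w : H) : dft A (v - w) = dft A v - dft A w := by
  simp only [dft, avg_sub]; abel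

theorem dft_smul (A : H →ₗᵢ[ℝ] H) (r : ℝ) (v : H) : dft A (r • v) = r • dft A v := by
  simp only [dft, avg_smul, smul_sub]

theorem dft_of_fixed {A : H →ₗᵢ[ℝ] H} {v : H} (h : A v = v) : dft A v = 0 := by
  rw [dft, avg_of_fixed h, sub_self]

theorem inner_dft_left {A : H →ₗᵢ[ℝ] H} (hA : A ^ 5 = 1) (x y : H) :
    inner ℝ (dft A x) y = inner ℝ x (dft A y) := by
  simp only [dft, inner_sub_left, inner_sub_right, inner_avg_left hA]

theorem inner_dft_self {A : H →ₗᵢ[ℝ] H} (hA : A ^ 5 = 1) (v : H) :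
    inner ℝ (dft A v) v = ‖dft A v‖ ^ 2 := by
  have h1 : dft A (dft A v) = dft A v := by
    have : dft A (dft A v) = dft A v - avg A (dft A v) := rfl
    rw [this, dft, avg_sub, avg_avg hA]; simp
  rw [← real_inner_self_eq_norm_sq]
  conv_lhs => rw [← h1]
  rw [inner_dft_left hA]

theorem norm_avg_sq {A : H →ₗᵢ[ℝ] H} (hA : A ^ 5 = 1) (v : H) :
    inner ℝ (avg A v) v = ‖avg A v‖ ^ 2 := by
  rw [← real_inner_self_eq_norm_sq, inner_avg_left hA v (avg A v), avg_avg hA,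
    inner_avg_left hA]

theorem norm_dft_le {A : H →ₗᵢ[ℝ] H} (hA : A ^ 5 = 1) (v : H) : ‖dft A v‖ ≤ ‖v‖ := by
  have h1 := inner_dft_self hA v
  have h2 := real_inner_le_norm (dft A v) v
  by_contra hcon
  push Not at hcon
  have h3 : 0 < ‖dft A v‖ := lt_of_le_of_lt (norm_nonneg _) hcon
  nlinarith

/-- The angle estimate. -/
theorem angle {A B Z : H →ₗᵢ[ℝ] H} (hB : B ^ 5 = 1) (hZ : Z ^ 5 = 1)
    (hAB : A * B = Z * B * A) (hZA : Z * A = A * Z) (hZB : Z * B = B * Z) {x : H}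
    (hx : A x = x) (hperp : ∀ f, A f = f → B f = f → inner ℝ x f = 0) :
    ‖avg B x‖ ^ 2 ≤ 5⁻¹ * ‖x‖ ^ 2 := by
  -- commutation rules
  have cZA : Commute Z A := hZA
  have cZB : Commute Z B := hZB
  have hABi : ∀ i : ℕ, A * B ^ i = Z ^ i * B ^ i * A := by
    intro i
    induction i with
    | zero => simp
    | succ n ih =>
      calc A * B ^ (n + 1) = (A * B ^ n) * B := by rw [pow_succ, mul_assoc]
        _ = Z ^ n * B ^ n * (A * B) := by rw [ih]; simp only [mul_assoc]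
        _ = Z ^ n * (B ^ n * Z) * B * A := by rw [hAB]; simp only [mul_assoc]
        _ = Z ^ n * (Z * B ^ n) * B * A := by rw [(cZB.pow_right n).eq]
        _ = Z ^ (n + 1) * B ^ (n + 1) * A := by
          rw [pow_succ Z, pow_succ B]; simp only [mul_assoc]
  have hAjBi : ∀ j i : ℕ, A ^ j * B ^ i = Z ^ (i * j) * B ^ i * A ^ j := by
    intro j i
    induction j with
    | zero => simp
    | succ n ih =>
      calc A ^ (n + 1) * B ^ i = A ^ n * (A * B ^ i) := by rw [pow_succ, mul_assoc]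
        _ = (A ^ n * Z ^ i) * B ^ i * A := by rw [hABi]; simp only [mul_assoc]
        _ = Z ^ i * (A ^ n * B ^ i) * A := by
          rw [← ((cZA.pow_left i).pow_right n).eq]; simp only [mul_assoc]
        _ = Z ^ i * Z ^ (i * n) * B ^ i * (A ^ n * A) := by rw [ih]; simp only [mul_assoc]
        _ = Z ^ (i * (n + 1)) * B ^ i * A ^ (n + 1) := by
          rw [← pow_add, ← pow_succ]; ring_nf
  -- split `x` according to `Z`
  set x0 : H := avg Z x with hx0
  set x1 : H := x - avg Z x with hx1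
  have hAavg : ∀ v, A (avg Z v) = avg Z (A v) := by
    intro v
    simp only [avg, map_smul, map_sum]
    congr 1
    refine sum_congr rfl fun i _ => ?_
    rw [← mul_app, ← mul_app, (cZA.pow_left i).eq]
  have hBavg : ∀ v, B (avg Z v) = avg Z (B v) := by
    intro v
    simp only [avg, map_smul, map_sum]
    congr 1
    refine sum_congr rfl fun i _ => ?_
    rw [← mul_app, ← mul_app, (cZB.pow_left i).eq]
  have hBiavg : ∀ (i : ℕ) v, (B ^ i) (avg Z v) = avg Z ((B ^ i) v) := by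
    intro i v
    induction i with
    | zero => simp
    | succ n ih =>
      rw [pow_succ', mul_app, ih, hBavg, mul_app]
  have hAx0 : A x0 = x0 := by rw [hx0, hAavg, hx]
  have hAx1 : A x1 = x1 := by rw [hx1, map_sub, hx]; exact congrArg (x - ·) hAx0
  have hZx0 : Z x0 = x0 := fixed_avg hZ x
  have hx1Z : avg Z x1 = 0 := by rw [hx1, avg_sub, avg_avg hZ, sub_self]
  -- `avg B x0 = 0`
  have hBx0 : avg B x0 = 0 := by
    have hfB : B (avg B x0) = avg B x0 := fixed_avg hB x0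
    have hfA : A (avg B x0) = avg B x0 := by
      simp only [avg, map_smul, map_sum]
      congr 1
      refine sum_congr rfl fun i _ => ?_
      rw [← mul_app, hABi, mul_app, mul_app,
        hAx0]
      have : (Z ^ i) ((B ^ i) x0) = (B ^ i) ((Z ^ i) x0) := by
        rw [← mul_app, ← mul_app,
          ((cZB.pow_left i).pow_right i).eq]
      rw [this, pow_fixed hZx0]
    have hfZ : Z (avg B x0) = avg B x0 := by
      simp only [avg, map_smul, map_sum]
      congr 1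
      refine sum_congr rfl fun i _ => ?_
      rw [← mul_app, (cZB.pow_right i).eq, mul_app, hZx0]
    have h1 : inner ℝ x (avg B x0) = 0 := hperp _ hfA hfB
    have h2 : inner ℝ x0 (avg B x0) = inner ℝ x (avg B x0) := by
      rw [hx0, inner_avg_left hZ]
      congr 1
      exact avg_of_fixed hfZ
    have h3 : ‖avg B x0‖ ^ 2 = 0 := by
      rw [← norm_avg_sq hB, real_inner_comm, h2, h1]
    simpa using h3
  -- the powers of `B` move `x1` to orthogonal vectors
  have horth : ∀ i, 0 < i → i < 5 → inner ℝ ((B ^ i) x1) x1 = 0 := by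
    intro i hi0 hi5
    have h1 : ∀ j, inner ℝ ((B ^ i) x1) x1 = inner ℝ ((Z ^ (i * j)) ((B ^ i) x1)) x1 := by
      intro j
      calc inner ℝ ((B ^ i) x1) x1 = inner ℝ ((A ^ j) ((B ^ i) x1)) ((A ^ j) x1) :=
            ((A ^ j).inner_map_map _ _).symm
        _ = inner ℝ ((Z ^ (i * j)) ((B ^ i) x1)) x1 := by
          rw [pow_fixed hAx1 j, ← mul_app, hAjBi, mul_app,
            pow_fixed hAx1 j, mul_app]
    have h2 : avg Z ((B ^ i) x1) = 0 := by rw [← hBiavg, hx1Z, map_zero]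
    have hZmod : ∀ m, (Z ^ m) ((B ^ i) x1) = (Z ^ (m % 5)) ((B ^ i) x1) := by
      intro m
      conv_lhs => rw [← Nat.div_add_mod m 5, pow_add, pow_mul, hZ, one_pow, one_mul]
    have h3 : ∑ j ∈ range 5, (Z ^ (i * j)) ((B ^ i) x1) = ∑ j ∈ range 5, (Z ^ j) ((B ^ i) x1) := by
      have : i = 1 ∨ i = 2 ∨ i = 3 ∨ i = 4 := by omega
      rcases this with rfl | rfl | rfl | rfl
      · simp
      · simp only [sum_range_succ, sum_range_zero, zero_add, mul_zero, mul_one]
        rw [hZmod (2 * 3), hZmod (2 * 4)]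
        norm_num
        abel
      · simp only [sum_range_succ, sum_range_zero, zero_add, mul_zero, mul_one]
        rw [hZmod (3 * 2), hZmod (3 * 3), hZmod (3 * 4)]
        norm_num
        abel
      · simp only [sum_range_succ, sum_range_zero, zero_add, mul_zero, mul_one]
        rw [hZmod (4 * 2), hZmod (4 * 3), hZmod (4 * 4)]
        norm_num
        abel
    have h4 : ∑ j ∈ range 5, inner ℝ ((B ^ i) x1) x1 = 0 := by
      rw [sum_congr rfl fun j _ => h1 j, ← sum_inner, h3]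
      have : ∑ j ∈ range 5, (Z ^ j) ((B ^ i) x1) = (5 : ℝ) • avg Z ((B ^ i) x1) := by
        rw [avg, smul_smul]; norm_num
      rw [this, h2]; simp
    rw [sum_const, card_range] at h4
    simpa using h4
  have hx1sq : ‖avg B x1‖ ^ 2 = 5⁻¹ * ‖x1‖ ^ 2 := by
    rw [← norm_avg_sq hB, avg, inner_smul_left, sum_inner, sum_range_succ', sum_eq_zero]
    · simp
    · intro i hi
      rw [mem_range] at hi
      exact horth (i + 1) (by omega) (by omega)
  have hx1le : ‖x1‖ ≤ ‖x‖ := norm_dft_le hZ x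
  have hsum : avg B x = avg B x1 := by
    have : x = x0 + x1 := by rw [hx0, hx1]; abel
    rw [this, avg_add, hBx0, zero_add]
  rw [hsum, hx1sq]
  have := norm_nonneg x1
  nlinarith

/-- The basic estimate for two isometries generating a Heisenberg group. -/
theorem pair_estimate {A B Z : H →ₗᵢ[ℝ] H} (hA : A ^ 5 = 1) (hB : B ^ 5 = 1) (hZ : Z ^ 5 = 1)
    (hAB : A * B = Z * B * A) (hZA : Z * A = A * Z) (hZB : Z * B = B * Z) (v : H) :
    (1 - (√5)⁻¹) * (‖dft A v‖ ^ 2 + ‖dft B v‖ ^ 2) ≤ ‖dft A v + dft B v‖ ^ 2 := by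
  have hs5 : (0 : ℝ) < √5 := by positivity
  have hs5sq : √5 * √5 = 5 := Real.mul_self_sqrt (by norm_num)
  set ε : ℝ := (√5)⁻¹ with hε
  have hε0 : 0 < ε := by positivity
  have hεsq : ε ^ 2 = 5⁻¹ := by
    rw [hε, inv_pow, pow_two, hs5sq]
  have hε1 : ε < 1 := by nlinarith
  have cZB : Commute Z B := hZB
  have cZA : Commute Z A := hZA
  -- the projection onto the common fixed vectors
  set f0 : H := avg B (avg A (avg Z v)) with hf0
  have hABi : ∀ i : ℕ, A * B ^ i = Z ^ i * B ^ i * A := by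
    intro i
    induction i with
    | zero => simp
    | succ n ih =>
      calc A * B ^ (n + 1) = (A * B ^ n) * B := by rw [pow_succ, mul_assoc]
        _ = Z ^ n * B ^ n * (A * B) := by rw [ih]; simp only [mul_assoc]
        _ = Z ^ n * (B ^ n * Z) * B * A := by rw [hAB]; simp only [mul_assoc]
        _ = Z ^ n * (Z * B ^ n) * B * A := by rw [(cZB.pow_right n).eq]
        _ = Z ^ (n + 1) * B ^ (n + 1) * A := by
          rw [pow_succ Z, pow_succ B]; simp only [mul_assoc]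
  have hfB : B f0 = f0 := fixed_avg hB _
  have hZw : Z (avg A (avg Z v)) = avg A (avg Z v) := by
    have : ∀ w, Z (avg A w) = avg A (Z w) := by
      intro w
      simp only [avg, map_smul, map_sum]
      congr 1
      refine sum_congr rfl fun i _ => ?_
      rw [← mul_app, ← mul_app, (cZA.pow_right i).eq]
    rw [this, fixed_avg hZ]
  have hAw : A (avg A (avg Z v)) = avg A (avg Z v) := fixed_avg hA _
  have hfA : A f0 = f0 := by
    rw [hf0]
    set w := avg A (avg Z v) with hw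
    simp only [avg, map_smul, map_sum]
    congr 1
    refine sum_congr rfl fun i _ => ?_
    rw [← mul_app, hABi, mul_app, mul_app, hAw]
    have : (Z ^ i) ((B ^ i) w) = (B ^ i) ((Z ^ i) w) := by
      rw [← mul_app, ← mul_app,
        ((cZB.pow_left i).pow_right i).eq]
    rw [this, pow_fixed hZw]
  have hfix : ∀ f, A f = f → B f = f → Z f = f := by
    intro f h1 h2
    have h3 : (A * B) f = f := by rw [mul_app, h2, h1]
    rw [hAB] at h3
    rw [mul_app, mul_app, h1, h2] at h3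
    exact h3
  set v' : H := v - f0 with hv'
  have hperp : ∀ f, A f = f → B f = f → inner ℝ v' f = 0 := by
    intro f h1 h2
    rw [hv', inner_sub_left, hf0, inner_avg_left hB, avg_of_fixed h2, inner_avg_left hA,
      avg_of_fixed h1, inner_avg_left hZ, avg_of_fixed (hfix f h1 h2), sub_self]
  have hdA : dft A v = dft A v' := by rw [hv', dft_sub, dft_of_fixed hfA, sub_zero]
  have hdB : dft B v = dft B v' := by rw [hv', dft_sub, dft_of_fixed hfB, sub_zero]
  rw [hdA, hdB]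
  set x : H := avg A v' with hx
  set y : H := avg B v' with hy
  have hxf : A x = x := fixed_avg hA _
  have hyf : B y = y := fixed_avg hB _
  have hxperp : ∀ f, A f = f → B f = f → inner ℝ x f = 0 := by
    intro f h1 h2
    rw [hx, inner_avg_left hA, avg_of_fixed h1]; exact hperp f h1 h2
  have hang := angle hB hZ hAB hZA hZB hxf hxperp
  have hxy : |inner ℝ x y| ≤ ε * (‖x‖ * ‖y‖) := by
    have h1 : inner ℝ x y = inner ℝ (avg B x) y := by
      rw [inner_avg_left hB, avg_of_fixed hyf]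
    rw [h1]
    have h2 : ‖avg B x‖ ≤ ε * ‖x‖ := by
      have : ‖avg B x‖ ^ 2 ≤ (ε * ‖x‖) ^ 2 := by rw [mul_pow, hεsq]; exact hang
      exact le_of_sq_le_sq this (by positivity)
    calc |inner ℝ (avg B x) y| ≤ ‖avg B x‖ * ‖y‖ := abs_real_inner_le_norm _ _
      _ ≤ ε * ‖x‖ * ‖y‖ := by gcongr
      _ = ε * (‖x‖ * ‖y‖) := by ring
  -- estimate of `t = ‖x‖² + ‖y‖²`
  have ht : ‖x‖ ^ 2 + ‖y‖ ^ 2 ≤ (1 + ε) * ‖v'‖ ^ 2 := by
    have h1 : ‖x‖ ^ 2 + ‖y‖ ^ 2 = inner ℝ (x + y) v' := by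
      rw [inner_add_left, hx, hy, norm_avg_sq hA, norm_avg_sq hB]
    have h2 := real_inner_le_norm (x + y) v'
    have h3 : ‖x + y‖ ^ 2 ≤ (1 + ε) * (‖x‖ ^ 2 + ‖y‖ ^ 2) := by
      rw [norm_add_sq_real]
      have h4 := le_abs_self (inner ℝ x y)
      nlinarith [sq_nonneg (‖x‖ - ‖y‖), norm_nonneg x, norm_nonneg y]
    set t := ‖x‖ ^ 2 + ‖y‖ ^ 2 with ht
    have ht0 : 0 ≤ t := by positivity
    have h5 : t ^ 2 ≤ (1 + ε) * t * ‖v'‖ ^ 2 := by
      have h6 : t ≤ ‖x + y‖ * ‖v'‖ := by rw [h1]; exact h2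
      calc t ^ 2 ≤ (‖x + y‖ * ‖v'‖) ^ 2 := by gcongr
        _ = ‖x + y‖ ^ 2 * ‖v'‖ ^ 2 := by ring
        _ ≤ (1 + ε) * t * ‖v'‖ ^ 2 := by gcongr
    rcases ht0.eq_or_lt with h7 | h7
    · rw [← h7]; positivity
    · have h8 : t * t ≤ t * ((1 + ε) * ‖v'‖ ^ 2) := by nlinarith
      exact le_of_mul_le_mul_left h8 h7
  set s : ℝ := ‖dft A v'‖ ^ 2 + ‖dft B v'‖ ^ 2 with hs
  have hs0 : 0 ≤ s := by positivity
  have hs1 : s = inner ℝ (dft A v' + dft B v') v' := by
    rw [inner_add_left, inner_dft_self hA, inner_dft_self hB]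
  have hs2 : (1 - ε) * ‖v'‖ ^ 2 ≤ s := by
    have h1 : s = 2 * ‖v'‖ ^ 2 - (‖x‖ ^ 2 + ‖y‖ ^ 2) := by
      have e1 : inner ℝ (dft A v') v' = ‖v'‖ ^ 2 - ‖x‖ ^ 2 := by
        rw [dft, inner_sub_left (v') (avg A v') v', norm_avg_sq hA, real_inner_self_eq_norm_sq]
      have e2 : inner ℝ (dft B v') v' = ‖v'‖ ^ 2 - ‖y‖ ^ 2 := by
        rw [dft, inner_sub_left (v') (avg B v') v', norm_avg_sq hB, real_inner_self_eq_norm_sq]
      rw [hs1, inner_add_left, e1, e2]
      ring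
    rw [h1]; nlinarith
  have hs3 : s ≤ ‖dft A v' + dft B v'‖ * ‖v'‖ := by rw [hs1]; exact real_inner_le_norm _ _
  rcases hs0.eq_or_lt with h7 | h7
  · rw [← h7]; simp
  · have h8 : s ^ 2 ≤ ‖dft A v' + dft B v'‖ ^ 2 * ‖v'‖ ^ 2 := by
      calc s ^ 2 ≤ (‖dft A v' + dft B v'‖ * ‖v'‖) ^ 2 := by gcongr
        _ = _ := by ring
    have h9 : (1 - ε) * s ^ 2 ≤ ‖dft A v' + dft B v'‖ ^ 2 * s := by
      have h10 : 0 ≤ ‖dft A v' + dft B v'‖ ^ 2 := by positivity
      calc (1 - ε) * s ^ 2 ≤ (1 - ε) * (‖dft A v' + dft B v'‖ ^ 2 * ‖v'‖ ^ 2) := by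
            apply mul_le_mul_of_nonneg_left h8; linarith
        _ = ‖dft A v' + dft B v'‖ ^ 2 * ((1 - ε) * ‖v'‖ ^ 2) := by ring
        _ ≤ ‖dft A v' + dft B v'‖ ^ 2 * s := by gcongr
    have h11 : s * ((1 - ε) * s) ≤ s * ‖dft A v' + dft B v'‖ ^ 2 := by nlinarith
    exact le_of_mul_le_mul_left h11 h7

/-- The spectral constant. -/
noncomputable def kap : ℝ := 1 - 2 * (√5)⁻¹

theorem kap_pos : 0 < kap := by
  have h1 : (2 : ℝ) < √5 := by
    rw [show (2 : ℝ) = √4 by rw [show (4 : ℝ) = 2 ^ 2 by norm_num]; simp]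
    exact Real.sqrt_lt_sqrt (by norm_num) (by norm_num)
  have h2 : (√5)⁻¹ < 2⁻¹ := by
    apply inv_strictAnti₀ (by norm_num) h1
  rw [kap]; linarith

theorem kap_lt_one : kap < 1 := by
  have : (0 : ℝ) < (√5)⁻¹ := by positivity
  rw [kap]; linarith

/-- The constant of the spectral gap inequality. -/
noncomputable def gapC : ℝ := (1 - √(1 - kap / 3))⁻¹

theorem sqrt_lt : √(1 - kap / 3) < 1 := by
  rw [Real.sqrt_lt' one_pos]
  have := kap_pos
  linarith

theorem gapC_pos : 0 < gapC := by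
  rw [gapC]
  have := sqrt_lt
  apply inv_pos.2; linarith

theorem norm_dft_le_two {A : H →ₗᵢ[ℝ] H} (v : H) : ‖dft A v‖ ≤ 2 * ‖A v - v‖ := by
  have h1 : ∀ i : ℕ, ‖(A ^ i) v - v‖ ≤ i * ‖A v - v‖ := by
    intro i
    induction i with
    | zero => simp [one_app]
    | succ n ih =>
      have : (A ^ (n + 1)) v - v = (A ^ n) (A v - v) + ((A ^ n) v - v) := by
        rw [pow_succ, mul_app, map_sub]; abel
      rw [this]
      refine (norm_add_le _ _).trans ?_
      rw [LinearIsometry.norm_map]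
      push_cast
      linarith
  have h2 : dft A v = -((5 : ℝ)⁻¹ • ∑ i ∈ range 5, ((A ^ i) v - v)) := by
    rw [dft, avg, sum_sub_distrib, sum_const, card_range, smul_sub, ← Nat.cast_smul_eq_nsmul ℝ,
      smul_smul]
    norm_num
  rw [h2, norm_neg, norm_smul]
  calc ‖(5 : ℝ)⁻¹‖ * ‖∑ i ∈ range 5, ((A ^ i) v - v)‖
      ≤ ‖(5 : ℝ)⁻¹‖ * ∑ i ∈ range 5, ‖(A ^ i) v - v‖ := by gcongr; exact norm_sum_le _ _
    _ ≤ ‖(5 : ℝ)⁻¹‖ * ∑ i ∈ range 5, (i : ℝ) * ‖A v - v‖ := by
      gcongr with i _; exact h1 i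
    _ = 2 * ‖A v - v‖ := by
      rw [← sum_mul]
      simp only [sum_range_succ, sum_range_zero]
      norm_num
      ring

theorem fixed_of_dft {A : H →ₗᵢ[ℝ] H} (hA : A ^ 5 = 1) {v : H} (h : dft A v = 0) : A v = v := by
  have : avg A v = v := by rw [dft, sub_eq_zero] at h; exact h.symm
  rw [← this]; exact fixed_avg hA v

theorem norm_avg_le {A : H →ₗᵢ[ℝ] H} (hA : A ^ 5 = 1) (v : H) : ‖avg A v‖ ≤ ‖v‖ := by
  have h1 := norm_avg_sq hA v
  have h2 := real_inner_le_norm (avg A v) v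
  by_contra hcon
  push Not at hcon
  have h3 : 0 < ‖avg A v‖ := lt_of_le_of_lt (norm_nonneg _) hcon
  nlinarith

theorem dft_continuous {A : H →ₗᵢ[ℝ] H} : Continuous (dft A) := by
  unfold dft avg
  fun_prop

variable [CompleteSpace H]

/-- The spectral gap. -/
theorem gap {A B C Z1 Z2 Z3 : H →ₗᵢ[ℝ] H} (hA : A ^ 5 = 1) (hB : B ^ 5 = 1) (hC : C ^ 5 = 1)
    (hZ1 : Z1 ^ 5 = 1) (hZ2 : Z2 ^ 5 = 1) (hZ3 : Z3 ^ 5 = 1)
    (h1 : A * B = Z1 * B * A) (h1A : Z1 * A = A * Z1) (h1B : Z1 * B = B * Z1)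
    (h2 : B * C = Z2 * C * B) (h2B : Z2 * B = B * Z2) (h2C : Z2 * C = C * Z2)
    (h3 : C * A = Z3 * A * C) (h3C : Z3 * C = C * Z3) (h3A : Z3 * A = A * Z3) (v : H) :
    ∃ w, A w = w ∧ B w = w ∧ C w = w ∧
      ‖v - w‖ ^ 2 ≤ (4 * gapC ^ 2) * (‖A v - v‖ ^ 2 + ‖B v - v‖ ^ 2 + ‖C v - v‖ ^ 2) := by
  have hk0 := kap_pos
  have hk1 := kap_lt_one
  let L : H → H := fun v => dft A v + dft B v + dft C v
  let E : H → ℝ := fun v => ‖dft A v‖ ^ 2 + ‖dft B v‖ ^ 2 + ‖dft C v‖ ^ 2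
  have hE0 : ∀ v, 0 ≤ E v := fun v => by positivity
  have hEL : ∀ v, inner ℝ (L v) v = E v := by
    intro v
    simp only [L, E, inner_add_left, inner_dft_self hA, inner_dft_self hB, inner_dft_self hC]
  have hsa : ∀ v w, inner ℝ (L v) w = inner ℝ v (L w) := by
    intro v w
    simp only [L, inner_add_left, inner_add_right, inner_dft_left hA, inner_dft_left hB,
      inner_dft_left hC]
  have hLlow : ∀ v, kap * E v ≤ ‖L v‖ ^ 2 := by
    intro v
    have e1 := pair_estimate hA hB hZ1 h1 h1A h1B v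
    have e2 := pair_estimate hB hC hZ2 h2 h2B h2C v
    have e3 := pair_estimate hC hA hZ3 h3 h3C h3A v
    rw [norm_add_sq_real] at e1 e2 e3
    have e4 : ‖L v‖ ^ 2 = E v + 2 * inner ℝ (dft A v) (dft B v) + 2 * inner ℝ (dft B v) (dft C v)
        + 2 * inner ℝ (dft C v) (dft A v) := by
      simp only [L, E]
      rw [norm_add_sq_real, norm_add_sq_real, inner_add_left, real_inner_comm (dft C v) (dft A v)]
      ring
    rw [e4, kap]
    simp only [E]
    nlinarith
  have hLup : ∀ v, ‖L v‖ ^ 2 ≤ 3 * E v := by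
    intro v
    have e1 : ‖L v‖ ≤ ‖dft A v‖ + ‖dft B v‖ + ‖dft C v‖ := norm_add₃_le
    simp only [E]
    nlinarith [norm_nonneg (L v), sq_nonneg (‖dft A v‖ - ‖dft B v‖),
      sq_nonneg (‖dft B v‖ - ‖dft C v‖), sq_nonneg (‖dft C v‖ - ‖dft A v‖),
      norm_nonneg (dft A v), norm_nonneg (dft B v), norm_nonneg (dft C v)]
  have hEle : ∀ v, E v ≤ 3 * ‖v‖ ^ 2 := by
    intro v
    have a1 := norm_dft_le hA v
    have a2 := norm_dft_le hB v
    have a3 := norm_dft_le hC v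
    simp only [E]
    nlinarith [norm_nonneg (dft A v), norm_nonneg (dft B v), norm_nonneg (dft C v), norm_nonneg v]
  let T : H → H := fun v => v - (3 : ℝ)⁻¹ • L v
  have hLT : ∀ v, L (T v) = L v - (3 : ℝ)⁻¹ • L (L v) := by
    intro v
    have e : ∀ x y : H, L (x - (3 : ℝ)⁻¹ • y) = L x - (3 : ℝ)⁻¹ • L y := by
      intro x y
      simp only [L, dft_sub, dft_smul, smul_add]
      abel
    exact e v (L v)
  have hET : ∀ v, E (T v) ≤ (1 - kap / 3) * E v := by
    intro v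
    have e1 : E (T v) = E v - (2 / 3) * ‖L v‖ ^ 2 + (1 / 9) * E (L v) := by
      rw [← hEL, hLT]
      simp only [T, inner_sub_left, inner_sub_right, inner_smul_left, inner_smul_right]
      rw [hEL v, hEL (L v), hsa (L v) v, real_inner_self_eq_norm_sq]
      simp
      ring
    have e2 := hEle (L v)
    have e3 := hLlow v
    rw [e1]
    nlinarith
  let u : ℕ → H := fun n => T^[n] v
  have hu : ∀ n, u (n + 1) = T (u n) := fun n => Function.iterate_succ_apply' T n v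
  set ρ : ℝ := 1 - kap / 3 with hρ
  have hρ0 : 0 ≤ ρ := by rw [hρ]; linarith
  have hEu : ∀ n, E (u n) ≤ ρ ^ n * E v := by
    intro n
    induction n with
    | zero => simp [u]
    | succ n ih =>
      rw [hu]
      calc E (T (u n)) ≤ ρ * E (u n) := hET _
        _ ≤ ρ * (ρ ^ n * E v) := by gcongr
        _ = ρ ^ (n + 1) * E v := by ring
  have hstep : ∀ n, dist (u n) (u (n + 1)) ≤ √(E v) * (√ρ) ^ n := by
    intro n
    rw [hu, dist_eq_norm]
    have e1 : u n - T (u n) = (3 : ℝ)⁻¹ • L (u n) := by simp only [T]; abel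
    rw [e1, norm_smul]
    have e2 : ‖L (u n)‖ ^ 2 ≤ 3 * (ρ ^ n * E v) := (hLup _).trans (by gcongr; exact hEu n)
    have e3 : (‖(3 : ℝ)⁻¹‖ * ‖L (u n)‖) ^ 2 ≤ (√(E v) * (√ρ) ^ n) ^ 2 := by
      rw [mul_pow, mul_pow, Real.sq_sqrt (hE0 v), ← pow_mul, mul_comm n 2, pow_mul,
        Real.sq_sqrt hρ0]
      have : 0 ≤ ρ ^ n * E v := mul_nonneg (pow_nonneg hρ0 n) (hE0 v)
      norm_num
      nlinarith
    exact le_of_sq_le_sq e3 (by positivity)
  have hr := sqrt_lt
  obtain ⟨w, hw⟩ := cauchySeq_tendsto_of_complete (cauchySeq_of_le_geometric _ _ hr hstep)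
  have hdist := dist_le_of_le_geometric_of_tendsto₀ _ _ hr hstep hw
  have hEcont : Continuous E := by
    have a1 := dft_continuous (A := A)
    have a2 := dft_continuous (A := B)
    have a3 := dft_continuous (A := C)
    simp only [E]
    fun_prop
  have hEw : E w = 0 := by
    have e1 : Filter.Tendsto (fun n => E (u n)) Filter.atTop (nhds (E w)) :=
      (hEcont.tendsto w).comp hw
    have e2 : Filter.Tendsto (fun n => E (u n)) Filter.atTop (nhds 0) := by
      have hρ1 : ρ < 1 := by rw [hρ]; linarith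
      have e3 : Filter.Tendsto (fun n => ρ ^ n * E v) Filter.atTop (nhds 0) := by
        simpa using (tendsto_pow_atTop_nhds_zero_of_lt_one hρ0 hρ1).mul_const (E v)
      exact squeeze_zero (fun n => hE0 _) hEu e3
    exact tendsto_nhds_unique e1 e2
  have hEw' : ‖dft A w‖ ^ 2 + ‖dft B w‖ ^ 2 + ‖dft C w‖ ^ 2 = 0 := hEw
  have w1 : dft A w = 0 := by
    have : ‖dft A w‖ ^ 2 = 0 := by nlinarith [sq_nonneg ‖dft A w‖, sq_nonneg ‖dft B w‖, sq_nonneg ‖dft C w‖]
    simpa using this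
  have w2 : dft B w = 0 := by
    have : ‖dft B w‖ ^ 2 = 0 := by nlinarith [sq_nonneg ‖dft A w‖, sq_nonneg ‖dft B w‖, sq_nonneg ‖dft C w‖]
    simpa using this
  have w3 : dft C w = 0 := by
    have : ‖dft C w‖ ^ 2 = 0 := by nlinarith [sq_nonneg ‖dft A w‖, sq_nonneg ‖dft B w‖, sq_nonneg ‖dft C w‖]
    simpa using this
  refine ⟨w, fixed_of_dft hA w1, fixed_of_dft hB w2, fixed_of_dft hC w3, ?_⟩
  have hu0 : u 0 = v := rfl
  rw [hu0, dist_eq_norm, div_eq_mul_inv] at hdist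
  have hEv : E v ≤ 4 * (‖A v - v‖ ^ 2 + ‖B v - v‖ ^ 2 + ‖C v - v‖ ^ 2) := by
    have a1 := norm_dft_le_two (A := A) v
    have a2 := norm_dft_le_two (A := B) v
    have a3 := norm_dft_le_two (A := C) v
    simp only [E]
    nlinarith [norm_nonneg (dft A v), norm_nonneg (dft B v), norm_nonneg (dft C v)]
  calc ‖v - w‖ ^ 2 ≤ (√(E v) * gapC) ^ 2 := by gcongr; exact hdist
    _ = E v * gapC ^ 2 := by rw [mul_pow, Real.sq_sqrt (hE0 v)]
    _ ≤ (4 * (‖A v - v‖ ^ 2 + ‖B v - v‖ ^ 2 + ‖C v - v‖ ^ 2)) * gapC ^ 2 := by gcongr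
    _ = _ := by ring

end Pool.Agent.H60.Gap
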