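import Mathlib
import Pool.Agent.H60.CberData

set_option autoImplicit false
set_option linter.unusedSimpArgs false
set_option linter.unusedSectionVars false

namespace Pool.Agent.H60.Meas

open MeasureTheory Set
open scoped ENNReal

variable (D : RData)

instance instMSQ (n : ℕ) : MeasurableSpace (D.Q n) := ⊤
instance instDMSQ (n : ℕ) : DiscreteMeasurableSpace (D.Q n) := ⟨fun _ => trivial⟩

/-- The compact product group. -/
abbrev K : Type := ∀ n, D.Q n

/-- The uniform probability measure on the finite group. -/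
noncomputable def unif (n : ℕ) : Measure (D.Q n) :=
  (Nat.card (D.Q n) : ℝ≥0∞)⁻¹ • Measure.count

theorem unif_apply (n : ℕ) (s : Set (D.Q n)) :
    unif D n s = (Nat.card (D.Q n) : ℝ≥0∞)⁻¹ * (Nat.card s : ℝ≥0∞) := by
  rw [unif, Measure.smul_apply, Measure.count_apply_finite s s.toFinite, smul_eq_mul]
  congr 2
  rw [Nat.card_coe_set_eq, Set.ncard_eq_toFinset_card s s.toFinite]

instance instProb (n : ℕ) : IsProbabilityMeasure (unif D n) := by
  constructor
  rw [unif_apply, Nat.card_univ]
  have h : Nat.card (D.Q n) ≠ 0 := Nat.card_pos.ne'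
  exact ENNReal.inv_mul_cancel (by exact_mod_cast h) (ENNReal.natCast_ne_top _)

theorem unif_map (n : ℕ) (e : D.Q n ≃ D.Q n) : (unif D n).map e = unif D n := by
  ext s hs
  rw [Measure.map_apply (measurable_of_finite _) hs, unif_apply, unif_apply]
  congr 2
  exact Nat.card_congr (e.subtypeEquiv (fun a => Iff.rfl))

/-- The product measure. -/
noncomputable def mu : Measure (K D) := Measure.infinitePi (unif D)

instance : IsProbabilityMeasure (mu D) := by unfold mu; infer_instance

theorem mu_map (e : ∀ n, D.Q n ≃ D.Q n) :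
    MeasurePreserving (fun (u : K D) n => e n (u n)) (mu D) (mu D) := by
  refine ⟨by fun_prop, ?_⟩
  have := Measure.infinitePi_map_pi (unif D) (f := fun n => (e n : D.Q n → D.Q n))
    (fun n => measurable_of_finite _)
  rw [mu, this]
  congr 1
  funext n
  exact unif_map D n (e n)

theorem mp_left (k : K D) : MeasurePreserving (fun u : K D => k * u) (mu D) (mu D) :=
  mu_map D (fun n => Equiv.mulLeft (k n))

theorem mp_right (k : K D) : MeasurePreserving (fun u : K D => u * k) (mu D) (mu D) :=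
  mu_map D (fun n => Equiv.mulRight (k n))

theorem mu_cyl_pos (N : ℕ) : 0 < mu D {u | ∀ i < N, u i = 1} := by
  have h : {u : K D | ∀ i < N, u i = 1} = Set.pi (Finset.range N) (fun i => {(1 : D.Q i)}) := by
    ext u; simp
  rw [h, mu, Measure.infinitePi_pi _ (fun i _ => MeasurableSet.singleton _)]
  refine pos_iff_ne_zero.2 ?_
  rw [Finset.prod_ne_zero_iff]
  intro i _
  rw [unif_apply, Nat.card_coe_set_eq, Set.ncard_singleton]
  simp

/-- Maps which preserve the measure and do not move the first `N` coordinates. -/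
structure Near (N : ℕ) (τ : K D → K D) : Prop where
  mp : MeasurePreserving τ (mu D) (mu D)
  fix : ∀ u, ∀ n < N, τ u n = u n

theorem near_right {N : ℕ} {k : K D} (hk : ∀ n < N, k n = 1) : Near D N (fun u => u * k) :=
  ⟨mp_right D k, fun u n hn => by simp [hk n hn]⟩

theorem near_left {N : ℕ} {k : K D} (hk : ∀ n < N, k n = 1) : Near D N (fun u => k * u) :=
  ⟨mp_left D k, fun u n hn => by simp [hk n hn]⟩

theorem Near.mono {M N : ℕ} (h : M ≤ N) {τ : K D → K D} (hτ : Near D N τ) : Near D M τ :=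
  ⟨hτ.mp, fun u n hn => hτ.fix u n (hn.trans_le h)⟩

/-- Translation continuity for measurable sets. -/
theorem near_cont {A : Set (K D)} (hA : MeasurableSet A) :
    ∀ ε : ℝ≥0∞, ε ≠ 0 → ∃ N, ∀ τ : K D → K D, Near D N τ →
      mu D {u | ¬ (τ u ∈ A ↔ u ∈ A)} ≤ ε := by
  have hA' : MeasurableSet[⨆ n, MeasurableSpace.comap (fun u : K D => u n) inferInstance] A := hA
  rw [MeasurableSpace.measurableSet_iSup] at hA'
  clear hA
  induction hA' with
  | basic A h =>
    obtain ⟨n, B, -, rfl⟩ := h
    intro ε _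
    refine ⟨n + 1, fun τ hτ => ?_⟩
    have : {u : K D | ¬ (τ u ∈ (fun u : K D => u n) ⁻¹' B ↔ u ∈ (fun u : K D => u n) ⁻¹' B)} = ∅ := by
      ext u
      simp [hτ.fix u n (by omega)]
    rw [this, measure_empty]
    exact bot_le
  | empty =>
    intro ε _
    refine ⟨0, fun τ hτ => ?_⟩
    simp
  | compl A _ ih =>
    intro ε hε
    obtain ⟨N, hN⟩ := ih ε hε
    refine ⟨N, fun τ hτ => ?_⟩
    have : {u : K D | ¬ (τ u ∈ Aᶜ ↔ u ∈ Aᶜ)} = {u : K D | ¬ (τ u ∈ A ↔ u ∈ A)} := by
      ext u
      simp only [Set.mem_compl_iff, Set.mem_ofPred_eq]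
      tauto
    rw [this]
    exact hN τ hτ
  | iUnion f hf ih =>
    intro ε hε
    have hmeas : ∀ n, MeasurableSet (f n) := by
      intro n
      have h : MeasurableSet[⨆ n, MeasurableSpace.comap (fun u : K D => u n) inferInstance] (f n) :=
        MeasurableSpace.measurableSet_iSup.2 (hf n)
      exact h
    -- the tails are small
    have hε3 : ε / 3 ≠ 0 := (ENNReal.div_pos hε (by norm_num)).ne'
    obtain ⟨m, hm⟩ : ∃ m, mu D ((⋃ i, f i) \ ⋃ i < m, f i) ≤ ε / 3 := by
      have h1 : Filter.Tendsto (fun m => mu D ((⋃ i, f i) \ ⋃ i < m, f i)) Filter.atTop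
          (nhds (mu D (⋂ m : ℕ, ((⋃ i, f i) \ ⋃ i < m, f i)))) := by
        apply tendsto_measure_iInter_atTop
        · intro m
          exact ((MeasurableSet.iUnion hmeas).diff
            (MeasurableSet.iUnion fun i => MeasurableSet.iUnion fun _ => hmeas i)).nullMeasurableSet
        · intro m m' h
          apply Set.sdiff_subset_sdiff_right
          exact Set.biUnion_mono (fun i hi => lt_of_lt_of_le hi h) (fun _ _ => le_rfl)
        · exact ⟨0, measure_ne_top _ _⟩
      have h2 : (⋂ m : ℕ, ((⋃ i, f i) \ ⋃ i < m, f i)) = ∅ := by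
        ext u
        simp only [Set.mem_iInter, Set.mem_sdiff, Set.mem_iUnion, Set.mem_empty_iff_false,
          iff_false]
        intro h
        obtain ⟨i, hi⟩ := (h 0).1
        exact (h (i + 1)).2 ⟨i, Nat.lt_succ_self i, hi⟩
      rw [h2, measure_empty] at h1
      have h3 := (ENNReal.tendsto_nhds_zero.1 h1) (ε / 3) (pos_iff_ne_zero.2 hε3)
      exact h3.exists
    -- finitely many sets
    have hfin : ∀ m : ℕ, ∀ η : ℝ≥0∞, η ≠ 0 → ∃ N, ∀ τ : K D → K D, Near D N τ →
        mu D {u | ¬ (τ u ∈ ⋃ i < m, f i ↔ u ∈ ⋃ i < m, f i)} ≤ η := by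
      intro m
      induction m with
      | zero =>
        intro η _
        refine ⟨0, fun τ hτ => ?_⟩
        simp
      | succ m ihm =>
        intro η hη
        have hη2 : η / 2 ≠ 0 := (ENNReal.div_pos hη (by norm_num)).ne'
        obtain ⟨N1, h1⟩ := ihm (η / 2) hη2
        obtain ⟨N2, h2⟩ := ih m (η / 2) hη2
        refine ⟨max N1 N2, fun τ hτ => ?_⟩
        calc mu D {u | ¬ (τ u ∈ ⋃ i < m + 1, f i ↔ u ∈ ⋃ i < m + 1, f i)}
            ≤ mu D ({u | ¬ (τ u ∈ ⋃ i < m, f i ↔ u ∈ ⋃ i < m, f i)} ∪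
                {u | ¬ (τ u ∈ f m ↔ u ∈ f m)}) := by
              apply measure_mono
              intro u hu
              by_contra hcon
              simp only [Set.mem_union, Set.mem_ofPred_eq, not_or, not_not] at hcon
              apply hu
              rw [Set.biUnion_lt_succ]
              simp only [Set.mem_union]
              rw [hcon.1, hcon.2]
          _ ≤ η / 2 + η / 2 := (measure_union_le _ _).trans
              (add_le_add (h1 τ (hτ.mono D (le_max_left _ _))) (h2 τ (hτ.mono D (le_max_right _ _))))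
          _ = η := ENNReal.add_halves η
    obtain ⟨N, hN⟩ := hfin m (ε / 3) hε3
    refine ⟨N, fun τ hτ => ?_⟩
    set R := (⋃ i, f i) \ ⋃ i < m, f i with hR
    have hRm : MeasurableSet R := (MeasurableSet.iUnion hmeas).diff
      (MeasurableSet.iUnion fun i => MeasurableSet.iUnion fun _ => hmeas i)
    calc mu D {u | ¬ (τ u ∈ ⋃ i, f i ↔ u ∈ ⋃ i, f i)}
        ≤ mu D ({u | ¬ (τ u ∈ ⋃ i < m, f i ↔ u ∈ ⋃ i < m, f i)} ∪ (R ∪ τ ⁻¹' R)) := by
          apply measure_mono
          intro u hu
          by_contra hcon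
          simp only [Set.mem_union, Set.mem_ofPred_eq, not_or, not_not, Set.mem_preimage] at hcon
          obtain ⟨h1, h2, h3⟩ := hcon
          apply hu
          have hsub : (⋃ i < m, f i) ⊆ ⋃ i, f i := Set.iUnion₂_subset fun i _ =>
            Set.subset_iUnion f i
          have e1 : u ∈ (⋃ i, f i) ↔ u ∈ ⋃ i < m, f i := by
            constructor
            · intro h
              by_contra h'
              exact h2 ⟨h, h'⟩
            · exact fun h => hsub h
          have e2 : τ u ∈ (⋃ i, f i) ↔ τ u ∈ ⋃ i < m, f i := by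
            constructor
            · intro h
              by_contra h'
              exact h3 ⟨h, h'⟩
            · exact fun h => hsub h
          rw [e1, e2, h1]
      _ ≤ ε / 3 + (ε / 3 + ε / 3) := by
          refine (measure_union_le _ _).trans (add_le_add (hN τ hτ) ?_)
          refine (measure_union_le _ _).trans (add_le_add hm ?_)
          rw [hτ.mp.measure_preimage hRm.nullMeasurableSet]
          exact hm
      _ = ε := by
          rw [← add_assoc]
          exact ENNReal.add_thirds ε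

/-- Translation continuity for functions which take almost surely values in a countable set. -/
theorem near_cont_fun {Y : Type} [MeasurableSpace Y] [MeasurableSingletonClass Y] {w : K D → Y}
    (hw : Measurable w) {C : Set Y} (hC : C.Countable) (hwC : ∀ᵐ u ∂(mu D), w u ∈ C) :
    ∀ ε : ℝ≥0∞, ε ≠ 0 → ∃ N, ∀ τ : K D → K D, Near D N τ →
      mu D {u | w (τ u) ≠ w u} ≤ ε := by
  intro ε hε
  have hne : C.Nonempty := by
    by_contra h
    rw [Set.not_nonempty_iff_eq_empty] at h
    rw [h] at hwC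
    have : mu D Set.univ = 0 := by
      simpa [ae_iff] using hwC
    simp at this
  obtain ⟨c, rfl⟩ := hC.exists_eq_range hne
  have hε2 : ε / 2 ≠ 0 := (ENNReal.div_pos hε (by norm_num)).ne'
  -- tails
  obtain ⟨m, hm⟩ : ∃ m, mu D {u | ∀ i < m, w u ≠ c i} ≤ ε / 2 := by
    have h1 : Filter.Tendsto (fun m : ℕ => mu D {u | ∀ i < m, w u ≠ c i}) Filter.atTop
        (nhds (mu D (⋂ m : ℕ, {u | ∀ i < m, w u ≠ c i}))) := by
      apply tendsto_measure_iInter_atTop
      · intro m
        have : {u | ∀ i < m, w u ≠ c i} = ⋂ i < m, {u | w u ≠ c i} := by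
          ext u; simp
        rw [this]
        exact (MeasurableSet.iInter fun i => MeasurableSet.iInter fun _ =>
          (hw (MeasurableSet.singleton _)).compl).nullMeasurableSet
      · intro m m' h u hu i hi
        exact hu i (lt_of_lt_of_le hi h)
      · exact ⟨0, measure_ne_top _ _⟩
    have h2 : mu D (⋂ m : ℕ, {u | ∀ i < m, w u ≠ c i}) = 0 := by
      refine measure_mono_null ?_ (ae_iff.1 hwC)
      intro u hu
      simp only [Set.mem_iInter, Set.mem_ofPred_eq] at hu
      rintro ⟨i, hi⟩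
      exact hu (i + 1) i (Nat.lt_succ_self i) hi.symm
    rw [h2] at h1
    exact ((ENNReal.tendsto_nhds_zero.1 h1) (ε / 2) (pos_iff_ne_zero.2 hε2)).exists
  -- finitely many values
  have hfin : ∀ m : ℕ, ∀ η : ℝ≥0∞, η ≠ 0 → ∃ N, ∀ τ : K D → K D, Near D N τ →
      mu D {u | ∃ i < m, ¬ (w (τ u) = c i ↔ w u = c i)} ≤ η := by
    intro m
    induction m with
    | zero =>
      intro η _
      refine ⟨0, fun τ hτ => ?_⟩
      simp
    | succ m ihm =>
      intro η hη
      have hη2 : η / 2 ≠ 0 := (ENNReal.div_pos hη (by norm_num)).ne'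
      obtain ⟨N1, h1⟩ := ihm (η / 2) hη2
      obtain ⟨N2, h2⟩ := near_cont D (A := w ⁻¹' {c m}) (hw (MeasurableSet.singleton _)) (η / 2) hη2
      refine ⟨max N1 N2, fun τ hτ => ?_⟩
      calc mu D {u | ∃ i < m + 1, ¬ (w (τ u) = c i ↔ w u = c i)}
          ≤ mu D ({u | ∃ i < m, ¬ (w (τ u) = c i ↔ w u = c i)} ∪
              {u | ¬ (τ u ∈ w ⁻¹' {c m} ↔ u ∈ w ⁻¹' {c m})}) := by
            apply measure_mono
            rintro u ⟨i, hi, hu⟩
            rcases Nat.lt_succ_iff_lt_or_eq.1 hi with h | rfl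
            · exact Or.inl ⟨i, h, hu⟩
            · exact Or.inr hu
        _ ≤ η / 2 + η / 2 := (measure_union_le _ _).trans
            (add_le_add (h1 τ (hτ.mono D (le_max_left _ _))) (h2 τ (hτ.mono D (le_max_right _ _))))
        _ = η := ENNReal.add_halves η
  obtain ⟨N, hN⟩ := hfin m (ε / 2) hε2
  refine ⟨N, fun τ hτ => ?_⟩
  calc mu D {u | w (τ u) ≠ w u}
      ≤ mu D ({u | ∃ i < m, ¬ (w (τ u) = c i ↔ w u = c i)} ∪ {u | ∀ i < m, w u ≠ c i}) := by
        apply measure_mono
        intro u hu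
        by_contra hcon
        simp only [Set.mem_union, Set.mem_ofPred_eq, not_or, not_exists, not_and, not_not,
          not_forall] at hcon
        obtain ⟨h1, i, hi, h2⟩ := hcon
        exact hu (((h1 i hi).2 h2).trans h2.symm)
    _ ≤ ε / 2 + ε / 2 := (measure_union_le _ _).trans (add_le_add (hN τ hτ) hm)
    _ = ε := ENNReal.add_halves ε

/-- A measurable map all of whose preimages are small or cosmall is almost constant. -/
theorem almost_const {Ω Y : Type} [MeasurableSpace Ω] (P : Measure Ω) [IsProbabilityMeasure P]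
    [MeasurableSpace Y] [StandardBorelSpace Y] {f : Ω → Y} (hf : Measurable f) {ε : ℝ≥0∞}
    (hε : ε * 3 < 1)
    (h : ∀ B : Set Y, MeasurableSet B → P (f ⁻¹' B) ≤ ε ∨ P (f ⁻¹' B)ᶜ ≤ ε) :
    ∃ κ, P {u | f u ≠ κ} ≤ ε := by
  obtain ⟨j, hj, hji⟩ := MeasurableSpace.measurable_injection_nat_bool_of_countablySeparated Y
  -- choose the large side
  have hB : ∀ n, ∃ t : Bool, P {u | j (f u) n ≠ t} ≤ ε := by
    intro n
    have hm : MeasurableSet {y : Y | j y n = true} :=
      ((measurable_pi_apply n).comp hj) (MeasurableSet.singleton true)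
    rcases h _ hm with h1 | h1
    · refine ⟨false, ?_⟩
      convert h1 using 2
      ext u; simp
    · refine ⟨true, ?_⟩
      convert h1 using 2
      ext u; simp
  choose t ht using hB
  have key : ∀ n, P {u | ∃ i < n, j (f u) i ≠ t i} ≤ ε := by
    intro n
    induction n with
    | zero => simp
    | succ n ih =>
      have hm : MeasurableSet {y : Y | ∃ i < n + 1, j y i ≠ t i} := by
        have : {y : Y | ∃ i < n + 1, j y i ≠ t i} = ⋃ i < n + 1, {y : Y | j y i = t i}ᶜ := by
          ext y; simp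
        rw [this]
        exact MeasurableSet.iUnion fun i => MeasurableSet.iUnion fun _ =>
          (((measurable_pi_apply i).comp hj) (MeasurableSet.singleton (t i))).compl
      rcases h _ hm with h1 | h1
      · exact h1
      · exfalso
        have h2 : P (Set.univ : Set Ω) ≤ ε + (ε + ε) := by
          calc P (Set.univ : Set Ω)
              ≤ P ((f ⁻¹' {y : Y | ∃ i < n + 1, j y i ≠ t i})ᶜ ∪
                  ({u | ∃ i < n, j (f u) i ≠ t i} ∪ {u | j (f u) n ≠ t n})) := by
                apply measure_mono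
                intro u _
                by_contra hcon
                simp only [Set.mem_union, Set.mem_compl_iff, Set.mem_preimage, Set.mem_ofPred_eq,
                  not_or, not_not] at hcon
                obtain ⟨⟨i, hi, h3⟩, h4, h5⟩ := hcon
                rcases Nat.lt_succ_iff_lt_or_eq.1 hi with h6 | rfl
                · exact h4 ⟨i, h6, h3⟩
                · exact h3 h5
            _ ≤ ε + (ε + ε) := (measure_union_le _ _).trans
                (add_le_add h1 ((measure_union_le _ _).trans (add_le_add ih (ht n))))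
        rw [measure_univ] at h2
        have : ε + (ε + ε) = ε * 3 := by ring
        rw [this] at h2
        exact absurd h2 (not_le.2 hε)
  have key2 : P {u | j (f u) ≠ t} ≤ ε := by
    have h1 : {u | j (f u) ≠ t} = ⋃ n, {u | ∃ i < n, j (f u) i ≠ t i} := by
      ext u
      simp only [Set.mem_ofPred_eq, Set.mem_iUnion, ne_eq, funext_iff, not_forall]
      constructor
      · rintro ⟨i, hi⟩
        exact ⟨i + 1, i, Nat.lt_succ_self i, hi⟩
      · rintro ⟨n, i, _, hi⟩
        exact ⟨i, hi⟩
    rw [h1, Monotone.measure_iUnion]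
    · exact iSup_le key
    · intro m n hmn u
      rintro ⟨i, hi, h⟩
      exact ⟨i, lt_of_lt_of_le hi hmn, h⟩
  -- the value is attained
  have hex : ∃ u, j (f u) = t := by
    by_contra hcon
    push_neg at hcon
    have h1 : {u | j (f u) ≠ t} = Set.univ := by
      ext u; simpa using hcon u
    rw [h1, measure_univ] at key2
    have h3 : (3 : ℝ≥0∞) ≤ ε * 3 := by
      calc (3 : ℝ≥0∞) = 1 * 3 := (one_mul _).symm
        _ ≤ ε * 3 := mul_le_mul_left key2 _
    exact absurd (lt_of_le_of_lt h3 hε) (by norm_num)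
  obtain ⟨u0, hu0⟩ := hex
  refine ⟨f u0, ?_⟩
  convert key2 using 2
  ext u
  simp only [Set.mem_ofPred_eq, ne_eq]
  rw [← hu0]
  exact not_congr hji.eq_iff.symm

/-- The diagonal homomorphism. -/
def emb : D.Γ →* K D := MonoidHom.pi D.π

@[simp] theorem emb_apply (γ : D.Γ) (n : ℕ) : emb D γ n = D.π n γ := rfl

/-- The closure of the image of the group. -/
def clos : Subgroup (K D) where
  carrier := {k | ∀ N, ∃ γ : D.Γ, ∀ n < N, D.π n γ = k n}
  one_mem' := fun N => ⟨1, fun n _ => by simp⟩
  mul_mem' := by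
    intro k l hk hl N
    obtain ⟨γ, hγ⟩ := hk N
    obtain ⟨δ, hδ⟩ := hl N
    exact ⟨γ * δ, fun n hn => by rw [map_mul, hγ n hn, hδ n hn, Pi.mul_apply]⟩
  inv_mem' := by
    intro k hk N
    obtain ⟨γ, hγ⟩ := hk N
    exact ⟨γ⁻¹, fun n hn => by rw [map_inv, hγ n hn, Pi.inv_apply]⟩

theorem emb_mem_clos (γ : D.Γ) : emb D γ ∈ clos D := fun _ => ⟨γ, fun _ _ => rfl⟩

theorem g_orderOf (n : ℕ) : orderOf (D.g n) = D.r n := by
  have : Fact (D.r n).Prime := ⟨D.r_prime n⟩
  exact orderOf_eq_prime (D.g_pow n) (D.g_ne n)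

theorem single_g_mem (n : ℕ) : (Pi.mulSingle n (D.g n) : K D) ∈ clos D := by
  intro N
  obtain ⟨γ, hγ⟩ := D.surj n (D.g n)
  set M : ℕ := ∏ m ∈ (Finset.range N).erase n, Nat.card (D.Q m) with hM
  have hcop : Nat.Coprime M (D.r n) := by
    rw [hM]
    apply Nat.Coprime.prod_left
    intro m hm
    rw [Nat.coprime_comm, (D.r_prime n).coprime_iff_not_dvd]
    exact D.priv m n (Finset.mem_erase.1 hm).1
  obtain ⟨t, ht⟩ := Nat.exists_mul_mod_eq_one_of_coprime hcop (D.r_prime n).one_lt
  refine ⟨γ ^ (M * t), fun m hm => ?_⟩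
  rw [map_pow]
  by_cases hmn : m = n
  · subst hmn
    rw [hγ, Pi.mulSingle_eq_same, ← pow_mod_orderOf, g_orderOf, ht.2, pow_one]
  · rw [Pi.mulSingle_eq_of_ne hmn]
    have hd : Nat.card (D.Q m) ∣ M := by
      rw [hM]
      exact Finset.dvd_prod_of_mem _ (Finset.mem_erase.2 ⟨hmn, Finset.mem_range.2 hm⟩)
    obtain ⟨s, hs⟩ := hd
    rw [hs, mul_assoc, pow_mul, pow_card_eq_one', one_pow]

theorem single_mem (n : ℕ) (q : D.Q n) : (Pi.mulSingle n q : K D) ∈ clos D := by
  let L : Subgroup (D.Q n) := (clos D).comap (MonoidHom.mulSingle D.Q n)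
  have hL : L.Normal := by
    constructor
    intro x hx y
    obtain ⟨γ, rfl⟩ := D.surj n y
    show (Pi.mulSingle n (D.π n γ * x * (D.π n γ)⁻¹) : K D) ∈ clos D
    have h1 : (Pi.mulSingle n (D.π n γ * x * (D.π n γ)⁻¹) : K D) =
        emb D γ * Pi.mulSingle n x * (emb D γ)⁻¹ := by
      funext m
      by_cases hmn : m = n
      · subst hmn
        simp
      · simp [Pi.mulSingle_eq_of_ne hmn]
    rw [h1]
    exact mul_mem (mul_mem (emb_mem_clos D γ) hx) (inv_mem (emb_mem_clos D γ))
  have h1 : Subgroup.normalClosure {D.g n} ≤ L := by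
    apply Subgroup.normalClosure_le_normal
    rw [Set.singleton_subset_iff]
    exact single_g_mem D n
  rw [D.g_normal n] at h1
  exact h1 (Subgroup.mem_top q)

/-- Density of the group in the product. -/
theorem dense (N : ℕ) (k : K D) : ∃ γ : D.Γ, ∀ n < N, D.π n γ = k n := by
  suffices h : ∃ l ∈ clos D, ∀ n < N, l n = k n by
    obtain ⟨l, hl, hlk⟩ := h
    obtain ⟨γ, hγ⟩ := hl N
    exact ⟨γ, fun n hn => (hγ n hn).trans (hlk n hn)⟩
  induction N with
  | zero => exact ⟨1, one_mem _, fun n hn => absurd hn (Nat.not_lt_zero n)⟩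
  | succ N ih =>
    obtain ⟨l, hl, hlk⟩ := ih
    refine ⟨l * Pi.mulSingle N ((l N)⁻¹ * k N), mul_mem hl (single_mem D N _), fun n hn => ?_⟩
    rcases Nat.lt_succ_iff_lt_or_eq.1 hn with h | rfl
    · rw [Pi.mul_apply, Pi.mulSingle_eq_of_ne h.ne, mul_one, hlk n h]
    · rw [Pi.mul_apply, Pi.mulSingle_eq_same, mul_inv_cancel_left]

/-- Ergodicity. -/
theorem ergodic {A : Set (K D)} (hA : MeasurableSet A)
    (h : ∀ γ : D.Γ, mu D {u | ¬ (emb D γ * u ∈ A ↔ u ∈ A)} = 0) :
    mu D A = 0 ∨ mu D Aᶜ = 0 := by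
  -- invariance under the whole group
  have h1 : ∀ k : K D, mu D {u | ¬ (k * u ∈ A ↔ u ∈ A)} = 0 := by
    intro k
    rw [← nonpos_iff_eq_zero]
    apply ENNReal.le_of_forall_pos_le_add
    intro ε hε _
    rw [zero_add]
    obtain ⟨N, hN⟩ := near_cont D hA (ε : ℝ≥0∞) (by exact_mod_cast hε.ne')
    obtain ⟨γ, hγ⟩ := dense D N k
    have h2 : Near D N (fun u => (k * (emb D γ)⁻¹) * u) := near_left D (by
      intro n hn
      simp [hγ n hn])
    have h3 := hN _ h2
    have h4 : mu D ((fun u => emb D γ * u) ⁻¹' {u | ¬ ((k * (emb D γ)⁻¹) * u ∈ A ↔ u ∈ A)}) ≤ ε := by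
      have hms : MeasurableSet {u : K D | ¬ ((k * (emb D γ)⁻¹) * u ∈ A ↔ u ∈ A)} := by
        have e1 : MeasurableSet {u : K D | (k * (emb D γ)⁻¹) * u ∈ A} :=
          (mp_left D (k * (emb D γ)⁻¹)).measurable hA
        have e2 : {u : K D | ¬ ((k * (emb D γ)⁻¹) * u ∈ A ↔ u ∈ A)} =
            ({u : K D | (k * (emb D γ)⁻¹) * u ∈ A} \ A) ∪ (A \ {u : K D | (k * (emb D γ)⁻¹) * u ∈ A}) := by
          ext u
          simp only [Set.mem_ofPred_eq, Set.mem_union, Set.mem_sdiff]
          tauto
        rw [e2]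
        exact (e1.diff hA).union (hA.diff e1)
      rw [(mp_left D (emb D γ)).measure_preimage hms.nullMeasurableSet]
      exact h3
    calc mu D {u | ¬ (k * u ∈ A ↔ u ∈ A)}
        ≤ mu D (((fun u => emb D γ * u) ⁻¹' {u | ¬ ((k * (emb D γ)⁻¹) * u ∈ A ↔ u ∈ A)}) ∪
            {u | ¬ (emb D γ * u ∈ A ↔ u ∈ A)}) := by
          apply measure_mono
          intro u hu
          by_contra hcon
          simp only [Set.mem_union, Set.mem_preimage, Set.mem_ofPred_eq, not_or, not_not] at hcon
          obtain ⟨h5, h6⟩ := hcon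
          apply hu
          rw [← h6, ← h5]
          rw [show k * (emb D γ)⁻¹ * (emb D γ * u) = k * u by group]
      _ ≤ ε + 0 := (measure_union_le _ _).trans (add_le_add h4 (h γ).le)
      _ = ε := add_zero _
  -- Fubini
  have hP : MeasurableSet {p : K D × K D | ¬ (p.2 * p.1 ∈ A ↔ p.1 ∈ A)} := by
    have hmul : Measurable (fun p : K D × K D => p.2 * p.1) := by
      refine measurable_pi_lambda _ (fun n => ?_)
      exact (measurable_of_finite (fun q : D.Q n × D.Q n => q.2 * q.1)).comp
        (((measurable_pi_apply n).comp measurable_fst).prodMk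
          ((measurable_pi_apply n).comp measurable_snd))
    have e1 : MeasurableSet {p : K D × K D | p.2 * p.1 ∈ A} := hmul hA
    have e0 : MeasurableSet {p : K D × K D | p.1 ∈ A} := measurable_fst hA
    have e2 : {p : K D × K D | ¬ (p.2 * p.1 ∈ A ↔ p.1 ∈ A)} =
        ({p : K D × K D | p.2 * p.1 ∈ A} \ {p : K D × K D | p.1 ∈ A}) ∪
          ({p : K D × K D | p.1 ∈ A} \ {p : K D × K D | p.2 * p.1 ∈ A}) := by
      ext u
      simp only [Set.mem_ofPred_eq, Set.mem_union, Set.mem_sdiff]
      tauto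
    rw [e2]
    exact (e1.diff e0).union (e0.diff e1)
  have h2 : (mu D).prod (mu D) {p : K D × K D | ¬ (p.2 * p.1 ∈ A ↔ p.1 ∈ A)} = 0 := by
    rw [Measure.prod_apply_symm hP]
    simp only [Set.preimage, Set.mem_ofPred_eq]
    rw [lintegral_congr (fun k => h1 k)]
    simp
  rw [Measure.measure_prod_null hP] at h2
  obtain ⟨u, hu⟩ := h2.exists
  have hu' : mu D {k | ¬ (k * u ∈ A ↔ u ∈ A)} = 0 := hu
  by_cases huA : u ∈ A
  · right
    have : (fun k : K D => k * u) ⁻¹' Aᶜ ⊆ {k | ¬ (k * u ∈ A ↔ u ∈ A)} := by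
      intro k hk
      simp only [Set.mem_ofPred_eq, huA, iff_true]
      exact hk
    rw [← (mp_right D u).measure_preimage hA.compl.nullMeasurableSet]
    exact measure_mono_null this hu'
  · left
    have : (fun k : K D => k * u) ⁻¹' A ⊆ {k | ¬ (k * u ∈ A ↔ u ∈ A)} := by
      intro k hk
      simp only [Set.mem_ofPred_eq, huA, iff_false, not_not]
      exact hk
    rw [← (mp_right D u).measure_preimage hA.nullMeasurableSet]
    exact measure_mono_null this hu'

/-- Invariant functions are almost surely constant. -/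
theorem ergodic_fun {Y : Type} [MeasurableSpace Y] [StandardBorelSpace Y] {f : K D → Y}
    (hf : Measurable f) (h : ∀ γ : D.Γ, ∀ᵐ u ∂(mu D), f (emb D γ * u) = f u) :
    ∃ κ, ∀ᵐ u ∂(mu D), f u = κ := by
  obtain ⟨κ, hκ⟩ := almost_const (mu D) hf (ε := 0) (by simp) (by
    intro B hB
    have := ergodic D (hf hB) (by
      intro γ
      refine measure_mono_null ?_ (ae_iff.1 (h γ))
      intro u hu hcon
      apply hu
      simp only [Set.mem_preimage]
      rw [hcon])
    rcases this with h1 | h1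
    · exact Or.inl h1.le
    · exact Or.inr h1.le)
  exact ⟨κ, by
    rw [ae_iff]
    exact nonpos_iff_eq_zero.1 hκ⟩

end Pool.Agent.H60.Meas
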