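import Mathlib
import Pool.Agent.H60.CberMeas
import Pool.Agent.H60.CberGap

set_option autoImplicit false
set_option linter.unusedSimpArgs false
set_option linter.unusedSectionVars false

namespace Pool.Agent.H60.Meas

open MeasureTheory Set
open scoped ENNReal symmDiff

variable (D : RData)

/-- The Koopman representation. -/
noncomputable def U : K D →* (Lp ℝ 2 (mu D) →ₗᵢ[ℝ] Lp ℝ 2 (mu D)) where
  toFun k := Lp.compMeasurePreservingₗᵢ ℝ (fun u => k⁻¹ * u) (mp_left D k⁻¹)
  map_one' := by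
    apply LinearIsometry.ext
    intro f
    have h := Lp.compMeasurePreserving_id_apply f
    have h2 : (fun u : K D => (1 : K D)⁻¹ * u) = id := by funext u; simp
    show Lp.compMeasurePreserving (fun u : K D => (1 : K D)⁻¹ * u) (mp_left D 1⁻¹) f = f
    have h3 : ∀ (τ : K D → K D) (hτ : MeasurePreserving τ (mu D) (mu D)), τ = id →
        Lp.compMeasurePreserving τ hτ f = f := by
      rintro τ hτ rfl
      exact h
    exact h3 _ _ h2
  map_mul' := by
    intro k l
    apply LinearIsometry.ext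
    intro f
    show Lp.compMeasurePreserving (fun u : K D => (k * l)⁻¹ * u) (mp_left D (k * l)⁻¹) f =
      Lp.compMeasurePreserving (fun u : K D => k⁻¹ * u) (mp_left D k⁻¹)
        (Lp.compMeasurePreserving (fun u : K D => l⁻¹ * u) (mp_left D l⁻¹) f)
    have h := Lp.compMeasurePreserving_comp_apply f (mp_left D l⁻¹) (mp_left D k⁻¹)
    rw [← h]
    have h3 : ∀ (τ τ' : K D → K D) (hτ : MeasurePreserving τ (mu D) (mu D))
        (hτ' : MeasurePreserving τ' (mu D) (mu D)), τ = τ' →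
        Lp.compMeasurePreserving τ hτ f = Lp.compMeasurePreserving τ' hτ' f := by
      rintro τ _ hτ _ rfl
      rfl
    apply h3
    funext u
    show (k * l)⁻¹ * u = l⁻¹ * (k⁻¹ * u)
    group

theorem U_coe (k : K D) (f : Lp ℝ 2 (mu D)) : U D k f =ᵐ[mu D] fun u => f (k⁻¹ * u) :=
  Lp.coeFn_compMeasurePreserving f (mp_left D k⁻¹)

/-- The element of the product given by an element of the group: relations. -/
theorem emb_rel {x y z : D.Γ} (h : ∀ n, D.π n x * D.π n y = D.π n z * D.π n y * D.π n x) :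
    emb D x * emb D y = emb D z * emb D y * emb D x := by
  funext n
  exact h n

theorem emb_comm {x y : D.Γ} (h : ∀ n, D.π n x * D.π n y = D.π n y * D.π n x) :
    emb D x * emb D y = emb D y * emb D x := by
  funext n
  exact h n

theorem emb_pow {x : D.Γ} (h : ∀ n, D.π n x ^ 5 = 1) : emb D x ^ 5 = 1 := by
  funext n
  exact h n

theorem U_rel {x y z : D.Γ} (h : ∀ n, D.π n x * D.π n y = D.π n z * D.π n y * D.π n x) :
    U D (emb D x) * U D (emb D y) = U D (emb D z) * U D (emb D y) * U D (emb D x) := by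
  have := congrArg (U D) (emb_rel D h)
  rwa [map_mul, map_mul, map_mul] at this

theorem U_comm {x y : D.Γ} (h : ∀ n, D.π n x * D.π n y = D.π n y * D.π n x) :
    U D (emb D x) * U D (emb D y) = U D (emb D y) * U D (emb D x) := by
  have := congrArg (U D) (emb_comm D h)
  rwa [map_mul, map_mul] at this

theorem U_pow {x : D.Γ} (h : ∀ n, D.π n x ^ 5 = 1) : U D (emb D x) ^ 5 = 1 := by
  have := congrArg (U D) (emb_pow D h)
  rwa [map_pow, map_one] at this

theorem inv_of_gens {w : Lp ℝ 2 (mu D)} (ha : U D (emb D D.a) w = w)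
    (hb : U D (emb D D.b) w = w) (hc : U D (emb D D.c) w = w) (γ : D.Γ) :
    U D (emb D γ) w = w := by
  have hmem : γ ∈ Subgroup.closure {D.a, D.b, D.c} := by rw [D.gen]; trivial
  induction hmem using Subgroup.closure_induction with
  | mem x hx =>
    rcases hx with rfl | rfl | rfl
    exacts [ha, hb, hc]
  | one => rw [map_one, map_one]; rfl
  | mul x y _ _ hx hy =>
    rw [map_mul, map_mul]
    show U D (emb D x) (U D (emb D y) w) = w
    rw [hy, hx]
  | inv x _ hx =>
    have h1 : U D (emb D x⁻¹) (U D (emb D x) w) = w := by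
      have : U D (emb D x⁻¹) * U D (emb D x) = 1 := by
        rw [← map_mul, ← map_mul, inv_mul_cancel, map_one, map_one]
      exact congrArg (fun V : Lp ℝ 2 (mu D) →ₗᵢ[ℝ] Lp ℝ 2 (mu D) => V w) this
    rw [hx] at h1
    exact h1

theorem const_of_gens {w : Lp ℝ 2 (mu D)} (ha : U D (emb D D.a) w = w)
    (hb : U D (emb D D.b) w = w) (hc : U D (emb D D.c) w = w) :
    ∃ κ : ℝ, ∀ᵐ u ∂(mu D), w u = κ := by
  refine ergodic_fun D (Lp.stronglyMeasurable w).measurable (fun γ => ?_)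
  have h1 := inv_of_gens D ha hb hc γ⁻¹
  have h2 := U_coe D (emb D γ⁻¹) w
  rw [h1] at h2
  filter_upwards [h2] with u hu
  rw [hu, map_inv, inv_inv]

/-- The constant in the spectral gap statement. -/
noncomputable def sgC : ℝ := 48 * Gap.gapC ^ 2

theorem sgC_pos : 0 < sgC := by
  have := Gap.gapC_pos
  unfold sgC
  positivity

theorem indicator_diff {A : Set (K D)} (hA : MeasurableSet A) (k : K D) :
    ‖U D k (indicatorConstLp 2 hA (measure_ne_top _ _) (1 : ℝ)) -
      indicatorConstLp 2 hA (measure_ne_top _ _) (1 : ℝ)‖ ^ 2 =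
      (mu D).real {u | ¬ (k * u ∈ A ↔ u ∈ A)} := by
  have h0 : MeasurableSet ((fun u : K D => k⁻¹ * u) ⁻¹' A) := (mp_left D k⁻¹).measurable hA
  have h1 : U D k (indicatorConstLp 2 hA (measure_ne_top _ _) (1 : ℝ)) =
      indicatorConstLp 2 h0 (measure_ne_top _ _) (1 : ℝ) :=
    Lp.indicatorConstLp_compMeasurePreserving hA (measure_ne_top _ _) 1 (mp_left D k⁻¹)
  rw [h1, ← dist_eq_norm, dist_indicatorConstLp_eq_norm, norm_indicatorConstLp (by norm_num)
    (by norm_num)]
  rw [norm_one, one_mul]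
  have h2 : ((mu D).real (((fun u : K D => k⁻¹ * u) ⁻¹' A) ∆ A) ^ (1 / (2 : ℝ≥0∞).toReal)) ^ 2 =
      (mu D).real (((fun u : K D => k⁻¹ * u) ⁻¹' A) ∆ A) := by
    rw [← Real.rpow_natCast, ← Real.rpow_mul measureReal_nonneg]
    norm_num
  rw [h2]
  have h3 : (fun u : K D => k * u) ⁻¹' (((fun u : K D => k⁻¹ * u) ⁻¹' A) ∆ A) =
      {u | ¬ (k * u ∈ A ↔ u ∈ A)} := by
    ext u
    simp only [Set.mem_preimage, Set.mem_symmDiff, Set.mem_ofPred_eq, inv_mul_cancel_left]
    tauto
  rw [← h3, measureReal_def, measureReal_def]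
  congr 1
  exact ((mp_left D k).measure_preimage (h0.symmDiff hA).nullMeasurableSet).symm

theorem norm_sub_const {A : Set (K D)} (hA : MeasurableSet A) {w : Lp ℝ 2 (mu D)} {κ : ℝ}
    (hw : ∀ᵐ u ∂(mu D), w u = κ) :
    (mu D).real A ≤ 4 * ‖indicatorConstLp 2 hA (measure_ne_top _ _) (1 : ℝ) - w‖ ^ 2 ∨
    (mu D).real Aᶜ ≤ 4 * ‖indicatorConstLp 2 hA (measure_ne_top _ _) (1 : ℝ) - w‖ ^ 2 := by
  set F := indicatorConstLp 2 hA (measure_ne_top (mu D) A) (1 : ℝ) with hF
  have h1 : ‖F - w‖ ^ 2 = ∫ u, (A.indicator (fun _ => (1 : ℝ)) u - κ) ^ 2 ∂(mu D) := by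
    rw [← real_inner_self_eq_norm_sq, L2.inner_def]
    apply integral_congr_ae
    filter_upwards [Lp.coeFn_sub F w, hw, (indicatorConstLp_coeFn (hs := hA) (p := 2)
      (hμs := measure_ne_top (mu D) A) (c := (1 : ℝ)))] with u hu1 hu2 hu3
    rw [hu1, Pi.sub_apply, hu2, hu3]
    simp [sq]
  have hint : Integrable (fun u => (A.indicator (fun _ => (1 : ℝ)) u - κ) ^ 2) (mu D) := by
    have h2 : (fun u => (A.indicator (fun _ => (1 : ℝ)) u - κ) ^ 2) =
        fun u => A.indicator (fun _ => (1 - κ) ^ 2 - κ ^ 2) u + κ ^ 2 := by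
      funext u
      by_cases hu : u ∈ A
      · simp [hu]
      · simp [hu]
    rw [h2]
    exact ((integrable_const _).indicator hA).add (integrable_const _)
  rw [h1]
  have hcase : 1 / 4 ≤ (1 - κ) ^ 2 ∨ 1 / 4 ≤ κ ^ 2 := by
    by_contra hcon
    push Not at hcon
    nlinarith [hcon.1, hcon.2, sq_nonneg (1 - 2 * κ)]
  rcases hcase with h | h
  · left
    have h3 : ∫ u, A.indicator (fun _ => (1 / 4 : ℝ)) u ∂(mu D) ≤
        ∫ u, (A.indicator (fun _ => (1 : ℝ)) u - κ) ^ 2 ∂(mu D) := by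
      refine integral_mono ((integrable_const _).indicator hA) hint (fun u => ?_)
      by_cases hu : u ∈ A
      · simpa [hu] using h
      · simp [hu]; positivity
    rw [integral_indicator_const _ hA, smul_eq_mul] at h3
    linarith
  · right
    have h3 : ∫ u, Aᶜ.indicator (fun _ => (1 / 4 : ℝ)) u ∂(mu D) ≤
        ∫ u, (A.indicator (fun _ => (1 : ℝ)) u - κ) ^ 2 ∂(mu D) := by
      refine integral_mono ((integrable_const _).indicator hA.compl) hint (fun u => ?_)
      by_cases hu : u ∈ A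
      · simp [hu]; positivity
      · simpa [hu] using h
    rw [integral_indicator_const _ hA.compl, smul_eq_mul] at h3
    linarith

/-- Strong ergodicity. -/
theorem sg {A : Set (K D)} (hA : MeasurableSet A) {δ : ℝ}
    (ha : (mu D).real {u | ¬ (emb D D.a * u ∈ A ↔ u ∈ A)} ≤ δ)
    (hb : (mu D).real {u | ¬ (emb D D.b * u ∈ A ↔ u ∈ A)} ≤ δ)
    (hc : (mu D).real {u | ¬ (emb D D.c * u ∈ A ↔ u ∈ A)} ≤ δ) :
    (mu D).real A ≤ sgC * δ ∨ (mu D).real Aᶜ ≤ sgC * δ := by
  set F := indicatorConstLp 2 hA (measure_ne_top (mu D) A) (1 : ℝ) with hF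
  obtain ⟨w, wa, wb, wc, hw⟩ := Gap.gap (A := U D (emb D D.a)) (B := U D (emb D D.b))
    (C := U D (emb D D.c)) (Z1 := U D (emb D D.z1)) (Z2 := U D (emb D D.z2))
    (Z3 := U D (emb D D.z3))
    (U_pow D D.ha) (U_pow D D.hb) (U_pow D D.hc) (U_pow D D.hz1) (U_pow D D.hz2) (U_pow D D.hz3)
    (U_rel D D.hab) (U_comm D D.hz1a) (U_comm D D.hz1b)
    (U_rel D D.hbc) (U_comm D D.hz2b) (U_comm D D.hz2c)
    (U_rel D D.hca) (U_comm D D.hz3c) (U_comm D D.hz3a) F
  obtain ⟨κ, hκ⟩ := const_of_gens D wa wb wc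
  rw [indicator_diff D hA, indicator_diff D hA, indicator_diff D hA] at hw
  have h1 : 4 * ‖F - w‖ ^ 2 ≤ sgC * δ := by
    have hpos : 0 < Gap.gapC ^ 2 := by have := Gap.gapC_pos; positivity
    have h2 : (4 * Gap.gapC ^ 2) * ((mu D).real {u | ¬ (emb D D.a * u ∈ A ↔ u ∈ A)} +
        (mu D).real {u | ¬ (emb D D.b * u ∈ A ↔ u ∈ A)} +
        (mu D).real {u | ¬ (emb D D.c * u ∈ A ↔ u ∈ A)}) ≤ (4 * Gap.gapC ^ 2) * (δ + δ + δ) := by
      apply mul_le_mul_of_nonneg_left _ (by positivity)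
      linarith
    unfold sgC
    nlinarith [hw, h2]
  rcases norm_sub_const D hA hκ with h | h
  · exact Or.inl (h.trans h1)
  · exact Or.inr (h.trans h1)

/-- Almost invariant measurable functions are almost constant. -/
theorem almost_inv {Y : Type} [MeasurableSpace Y] [StandardBorelSpace Y] {f : K D → Y}
    (hf : Measurable f) {δ : ℝ} (hδ : sgC * δ * 3 < 1)
    (ha : (mu D).real {u | f (emb D D.a * u) ≠ f u} ≤ δ)
    (hb : (mu D).real {u | f (emb D D.b * u) ≠ f u} ≤ δ)
    (hc : (mu D).real {u | f (emb D D.c * u) ≠ f u} ≤ δ) :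
    ∃ κ, (mu D).real {u | f u ≠ κ} ≤ sgC * δ := by
  have hδ0 : 0 ≤ δ := measureReal_nonneg.trans ha
  have hp : 0 ≤ sgC * δ := mul_nonneg sgC_pos.le hδ0
  obtain ⟨κ, hκ⟩ := almost_const (mu D) hf (ε := ENNReal.ofReal (sgC * δ)) (by
    have h3 : (3 : ℝ≥0∞) = ENNReal.ofReal 3 := by norm_num
    rw [h3, ← ENNReal.ofReal_mul hp, ← ENNReal.ofReal_one]
    exact (ENNReal.ofReal_lt_ofReal_iff one_pos).2 hδ) (by
    intro B hB
    have hsub : ∀ k : K D, {u | ¬ (k * u ∈ f ⁻¹' B ↔ u ∈ f ⁻¹' B)} ⊆ {u | f (k * u) ≠ f u} := by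
      intro k u hu hcon
      apply hu
      simp only [Set.mem_preimage]
      rw [hcon]
    have := sg D (hf hB) ((measureReal_mono (hsub _)).trans ha)
      ((measureReal_mono (hsub _)).trans hb) ((measureReal_mono (hsub _)).trans hc)
    rcases this with h | h
    · left
      rw [← ENNReal.ofReal_toReal (measure_ne_top (mu D) (f ⁻¹' B))]
      exact ENNReal.ofReal_le_ofReal h
    · right
      rw [← ENNReal.ofReal_toReal (measure_ne_top (mu D) (f ⁻¹' B)ᶜ)]
      exact ENNReal.ofReal_le_ofReal h)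
  exact ⟨κ, ENNReal.toReal_le_of_le_ofReal hp hκ⟩

end Pool.Agent.H60.Meas
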