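import Mathlib
import Pool.Agent.H60.CberSG

set_option autoImplicit false
set_option linter.unusedSimpArgs false
set_option linter.unusedSectionVars false

namespace Pool.Agent.H60.Meas

open MeasureTheory Set
open scoped ENNReal symmDiff

variable (D : RData)

theorem measurable_to_K {Ω : Type} [MeasurableSpace Ω] {f : Ω → K D}
    (h : ∀ n, Measurable (fun x => f x n)) : Measurable f := measurable_pi_lambda _ h

theorem measurable_mul_K {Ω : Type} [MeasurableSpace Ω] {f g : Ω → K D}
    (hf : Measurable f) (hg : Measurable g) : Measurable (fun x => f x * g x) := by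
  refine measurable_pi_lambda _ (fun n => ?_)
  exact (measurable_of_finite (fun q : D.Q n × D.Q n => q.1 * q.2)).comp
    (((measurable_pi_apply n).comp hf).prodMk ((measurable_pi_apply n).comp hg))

theorem measurable_inv_K {Ω : Type} [MeasurableSpace Ω] {f : Ω → K D}
    (hf : Measurable f) : Measurable (fun x => (f x)⁻¹) := by
  refine measurable_pi_lambda _ (fun n => ?_)
  exact (measurable_of_finite (fun q : D.Q n => q⁻¹)).comp ((measurable_pi_apply n).comp hf)

open Classical in
/-- The restriction to a set of coordinates. -/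
noncomputable def res (S : Set ℕ) : K D →* K D where
  toFun u n := if n ∈ S then u n else 1
  map_one' := by funext n; simp
  map_mul' u v := by funext n; by_cases h : n ∈ S <;> simp [h]

variable {D}

theorem res_mem {S : Set ℕ} {n : ℕ} (h : n ∈ S) (u : K D) : res D S u n = u n := by
  simp [res, h]

theorem res_notMem {S : Set ℕ} {n : ℕ} (h : n ∉ S) (u : K D) : res D S u n = 1 := by
  simp [res, h]

theorem res_eq_self {S : Set ℕ} {u : K D} (h : ∀ n ∉ S, u n = 1) : res D S u = u := by
  funext n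
  by_cases hn : n ∈ S
  · exact res_mem hn u
  · rw [res_notMem hn, h n hn]

theorem measurable_res (S : Set ℕ) : Measurable (res D S) := by
  refine measurable_to_K D (fun n => ?_)
  by_cases hn : n ∈ S
  · simp only [res_mem hn]
    exact measurable_pi_apply n
  · simp only [res_notMem hn]
    exact measurable_const

/-- A reduction, on a conull set, between the two orbit equivalence relations. -/
structure Rig (S T : Set ℕ) (φ : K D → K D) (K' : Set (K D)) : Prop where
  meas : Measurable φ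
  full : ∀ᵐ u ∂(mu D), u ∈ K'
  supp : ∀ u ∈ K', ∀ n ∉ T, φ u n = 1
  red : ∀ u ∈ K', ∀ v ∈ K', (∃ γ, res D S v = res D S (emb D γ) * res D S u) ↔
    (∃ γ, φ v = res D T (emb D γ) * φ u)

variable {S T : Set ℕ} {φ : K D → K D} {K' : Set (K D)}

theorem ae_left {p : K D → Prop} (h : ∀ᵐ u ∂(mu D), p u) (k : K D) : ∀ᵐ u ∂(mu D), p (k * u) :=
  (mp_left D k).quasiMeasurePreserving.ae h

theorem ae_right {p : K D → Prop} (h : ∀ᵐ u ∂(mu D), p u) (k : K D) : ∀ᵐ u ∂(mu D), p (u * k) :=
  (mp_right D k).quasiMeasurePreserving.ae h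

theorem Rig.w_mem (h : Rig S T φ K') (γ : D.Γ) :
    ∀ᵐ u ∂(mu D), ∃ δ, φ (emb D γ * u) = res D T (emb D δ) * φ u := by
  filter_upwards [h.full, ae_left h.full (emb D γ)] with u hu hu'
  exact (h.red u hu _ hu').1 ⟨γ, map_mul _ _ _⟩

/-- The tolerance. -/
noncomputable def tol : ℝ := 1 / (8 * sgC)

theorem tol_pos : 0 < tol := by
  have := sgC_pos
  unfold tol
  positivity

theorem sgC_mul_tol : sgC * tol = 1 / 8 := by
  have := sgC_pos
  unfold tol
  field_simp

theorem Rig.exists_N_one (h : Rig S T φ K') (γ : D.Γ) :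
    ∃ N, ∀ k : K D, (∀ n < N, k n = 1) →
      (mu D).real {u | (φ (emb D γ * u))⁻¹ * φ (emb D γ * u * k) ≠ (φ u)⁻¹ * φ (u * k)} ≤ tol := by
  have hw : Measurable (fun u : K D => φ (emb D γ * u) * (φ u)⁻¹) :=
    measurable_mul_K D (h.meas.comp (mp_left D (emb D γ)).measurable) (measurable_inv_K D h.meas)
  have hC : (Set.range fun δ : D.Γ => res D T (emb D δ)).Countable := Set.countable_range _
  have hwC : ∀ᵐ u ∂(mu D), φ (emb D γ * u) * (φ u)⁻¹ ∈ Set.range fun δ : D.Γ => res D T (emb D δ) := by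
    filter_upwards [h.w_mem γ] with u hu
    obtain ⟨δ, hδ⟩ := hu
    exact ⟨δ, by rw [hδ, mul_inv_cancel_right]⟩
  obtain ⟨N, hN⟩ := near_cont_fun D hw hC hwC (ENNReal.ofReal tol)
    (by simpa using tol_pos)
  refine ⟨N, fun k hk => ?_⟩
  have h1 := hN _ (near_right D hk)
  refine ENNReal.toReal_le_of_le_ofReal tol_pos.le ((measure_mono ?_).trans h1)
  intro u hu hcon
  apply hu
  have h2 : φ (emb D γ * (u * k)) * (φ (u * k))⁻¹ = φ (emb D γ * u) * (φ u)⁻¹ := hcon
  have h3 : φ (emb D γ * u * k) = φ (emb D γ * u) * (φ u)⁻¹ * φ (u * k) := by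
    rw [← h2, inv_mul_cancel_right, mul_assoc]
  rw [h3]
  group

theorem Rig.exists_N (h : Rig S T φ K') :
    ∃ N, ∀ k : K D, (∀ n < N, k n = 1) → ∃ κ, (mu D).real {u | φ (u * k) ≠ φ u * κ} ≤ 1 / 8 := by
  obtain ⟨Na, ha⟩ := h.exists_N_one D.a
  obtain ⟨Nb, hb⟩ := h.exists_N_one D.b
  obtain ⟨Nc, hc⟩ := h.exists_N_one D.c
  refine ⟨max Na (max Nb Nc), fun k hk => ?_⟩
  have hf : Measurable (fun u : K D => (φ u)⁻¹ * φ (u * k)) :=
    measurable_mul_K D (measurable_inv_K D h.meas) (h.meas.comp (mp_right D k).measurable)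
  obtain ⟨κ, hκ⟩ := almost_inv D hf (δ := tol) (by rw [sgC_mul_tol]; norm_num)
    (ha k fun n hn => hk n (hn.trans_le (le_max_left _ _)))
    (hb k fun n hn => hk n (hn.trans_le ((le_max_left _ _).trans (le_max_right _ _))))
    (hc k fun n hn => hk n (hn.trans_le ((le_max_right _ _).trans (le_max_right _ _))))
  refine ⟨κ, ?_⟩
  rw [sgC_mul_tol] at hκ
  refine (measureReal_mono ?_).trans hκ
  intro u hu hcon
  apply hu
  rw [← hcon, mul_inv_cancel_left]

theorem exists_notMem3 {Ω : Type} [MeasurableSpace Ω] {P : Measure Ω} [IsProbabilityMeasure P]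
    {A B C : Set Ω} (hA : P.real A ≤ 1 / 8) (hB : P.real B ≤ 1 / 8) (hC : P.real C ≤ 1 / 8) :
    ∃ u, u ∉ A ∧ u ∉ B ∧ u ∉ C := by
  by_contra hcon
  push Not at hcon
  have h1 : (Set.univ : Set Ω) ⊆ A ∪ (B ∪ C) := by
    intro u _
    by_cases hu : u ∈ A
    · exact Or.inl hu
    · by_cases hu' : u ∈ B
      · exact Or.inr (Or.inl hu')
      · exact Or.inr (Or.inr (hcon u hu hu'))
  have h2 := (measureReal_mono (μ := P) h1).trans ((measureReal_union_le _ _).trans
    (add_le_add hA ((measureReal_union_le _ _).trans (add_le_add hB hC))))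
  rw [probReal_univ] at h2
  norm_num at h2

theorem real_preimage_right (k : K D) {A : Set (K D)} (hA : MeasurableSet A) :
    (mu D).real ((fun u => u * k) ⁻¹' A) = (mu D).real A := by
  rw [measureReal_def, measureReal_def, (mp_right D k).measure_preimage hA.nullMeasurableSet]

/-- The rigidity data: a map defined near the identity. -/
structure Tht (φ : K D → K D) (N : ℕ) (θ : K D → K D) : Prop where
  near : ∀ k : K D, (∀ n < N, k n = 1) → (mu D).real {u | φ (u * k) ≠ φ u * θ k} ≤ 1 / 8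

theorem Rig.exists_tht (h : Rig S T φ K') : ∃ N θ, Tht φ N θ := by
  classical
  obtain ⟨N, hN⟩ := h.exists_N
  choose! θ hθ using hN
  exact ⟨N, θ, ⟨hθ⟩⟩

variable {N : ℕ} {θ : K D → K D}

theorem measurableSet_ne {f g : K D → K D} (hf : Measurable f) (hg : Measurable g) :
    MeasurableSet {u | f u ≠ g u} := (measurableSet_eq_fun hf hg).compl

theorem Tht.mul (h : Rig S T φ K') (t : Tht φ N θ) {k l : K D} (hk : ∀ n < N, k n = 1)
    (hl : ∀ n < N, l n = 1) : θ (k * l) = θ k * θ l := by
  have hkl : ∀ n < N, (k * l) n = 1 := fun n hn => by rw [Pi.mul_apply, hk n hn, hl n hn, one_mul]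
  have hm : MeasurableSet {u : K D | φ (u * l) ≠ φ u * θ l} :=
    measurableSet_ne (h.meas.comp (mp_right D l).measurable)
      (measurable_mul_K D h.meas measurable_const)
  have h2 : (mu D).real {u | φ (u * k * l) ≠ φ (u * k) * θ l} ≤ 1 / 8 := by
    have := real_preimage_right k hm
    exact this.le.trans (t.near l hl)
  obtain ⟨u, h3, h4, h5⟩ := exists_notMem3 (t.near k hk) h2 (t.near _ hkl)
  simp only [Set.mem_ofPred_eq, not_not, ne_eq] at h3 h4 h5
  rw [mul_assoc, h5, h3, mul_assoc] at h4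
  exact mul_left_cancel h4

theorem Tht.one (h : Rig S T φ K') (t : Tht φ N θ) : θ 1 = 1 := by
  have := t.mul h (k := 1) (l := 1) (fun _ _ => rfl) (fun _ _ => rfl)
  rw [one_mul] at this
  exact (mul_eq_left.1 this.symm)

/-- Almost everywhere equality up to the group. -/
theorem Tht.ae (h : Rig S T φ K') (t : Tht φ N θ) {k : K D} (hk : ∀ n < N, k n = 1) :
    ∀ᵐ u ∂(mu D), ∃ γ, φ (u * k) = res D T (emb D γ) * φ u * θ k := by
  set A : Set (K D) := ⋃ γ : D.Γ, {u | φ (u * k) = res D T (emb D γ) * φ u * θ k} with hA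
  have hAm : MeasurableSet A := MeasurableSet.iUnion fun γ =>
    measurableSet_eq_fun (h.meas.comp (mp_right D k).measurable)
      (measurable_mul_K D (measurable_mul_K D measurable_const h.meas) measurable_const)
  have hinv : ∀ γ : D.Γ, mu D {u | ¬ (emb D γ * u ∈ A ↔ u ∈ A)} = 0 := by
    intro γ
    have : ∀ᵐ u ∂(mu D), (emb D γ * u ∈ A ↔ u ∈ A) := by
      filter_upwards [h.w_mem γ, ae_right (h.w_mem γ) k] with u hu hu'
      obtain ⟨δ, hδ⟩ := hu
      obtain ⟨η, hη⟩ := hu'
      rw [hA]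
      simp only [Set.mem_iUnion, Set.mem_ofPred_eq]
      rw [hδ, mul_assoc (emb D γ) u k, hη]
      constructor
      · rintro ⟨ξ, hξ⟩
        refine ⟨η⁻¹ * ξ * δ, ?_⟩
        rw [map_mul, map_mul, map_mul, map_mul, map_inv, map_inv]
        have h1 : φ (u * k) = (res D T (emb D η))⁻¹ *
            (res D T (emb D ξ) * (res D T (emb D δ) * φ u) * θ k) := by
          rw [← hξ, inv_mul_cancel_left]
        rw [h1]
        simp only [mul_assoc]
      · rintro ⟨ξ, hξ⟩
        refine ⟨η * ξ * δ⁻¹, ?_⟩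
        rw [map_mul, map_mul, map_mul, map_mul, map_inv, map_inv, hξ]
        group
    exact this
  rcases ergodic D hAm hinv with h1 | h1
  · exfalso
    have h2 : (mu D).real A ≤ 1 / 8 := by
      rw [measureReal_def, h1]; norm_num
    have h3 : (mu D).real (∅ : Set (K D)) ≤ 1 / 8 := by simp
    obtain ⟨u, hu1, hu2, -⟩ := exists_notMem3 (t.near k hk) h2 h3
    apply hu2
    rw [hA]
    simp only [Set.mem_iUnion, Set.mem_ofPred_eq]
    refine ⟨1, ?_⟩
    simp only [Set.mem_ofPred_eq, not_not, ne_eq] at hu1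
    rw [hu1, map_one, map_one, one_mul]
  · have h2 : ∀ᵐ u ∂(mu D), u ∈ A := by rw [ae_iff]; exact h1
    filter_upwards [h2] with u hu
    simpa [hA] using hu

theorem real_le_of_ae {p : K D → Prop} (h : ∀ᵐ u ∂(mu D), p u) : (mu D).real {u | ¬ p u} ≤ 1 / 8 := by
  rw [measureReal_def, ae_iff.1 h]; norm_num

theorem Tht.supp (h : Rig S T φ K') (t : Tht φ N θ) {k : K D} (hk : ∀ n < N, k n = 1)
    {m : ℕ} (hm : m ∉ T) : θ k m = 1 := by
  obtain ⟨u, h3, h4, h5⟩ := exists_notMem3 (t.near k hk) (real_le_of_ae h.full)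
    (real_le_of_ae (ae_right h.full k))
  simp only [Set.mem_ofPred_eq, not_not, ne_eq] at h3 h4 h5
  have h6 := congrFun h3 m
  rw [Pi.mul_apply, h.supp _ h4 m hm, h.supp _ h5 m hm, one_mul] at h6
  exact h6.symm

theorem single_fix {n : ℕ} (hn : N ≤ n) (q : D.Q n) : ∀ i < N, (Pi.mulSingle n q : K D) i = 1 :=
  fun i hi => Pi.mulSingle_eq_of_ne (hi.trans_le hn).ne q

/-- The map on a coordinate subgroup. -/
noncomputable def Tht.hom (h : Rig S T φ K') (t : Tht φ N θ) {n : ℕ} (hn : N ≤ n) (m : ℕ) :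
    D.Q n →* D.Q m where
  toFun q := θ (Pi.mulSingle n q) m
  map_one' := by rw [Pi.mulSingle_one, t.one h]; rfl
  map_mul' q q' := by
    rw [Pi.mulSingle_mul, t.mul h (single_fix hn q) (single_fix hn q'), Pi.mul_apply]

theorem Tht.hom_apply (h : Rig S T φ K') (t : Tht φ N θ) {n : ℕ} (hn : N ≤ n) (m : ℕ)
    (q : D.Q n) : t.hom h hn m q = θ (Pi.mulSingle n q) m := rfl

theorem Tht.off (h : Rig S T φ K') (t : Tht φ N θ) {n : ℕ} (hn : N ≤ n) {m : ℕ} (hmn : m ≠ n)
    (q : D.Q n) : θ (Pi.mulSingle n q) m = 1 := by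
  have h1 : t.hom h hn m (D.g n) = 1 := by
    have h2 : orderOf (t.hom h hn m (D.g n)) ∣ D.r n := by
      apply orderOf_dvd_of_pow_eq_one
      rw [← map_pow, D.g_pow, map_one]
    have h3 : orderOf (t.hom h hn m (D.g n)) ∣ Nat.card (D.Q m) := orderOf_dvd_natCard _
    rcases (Nat.dvd_prime (D.r_prime n)).1 h2 with h4 | h4
    · exact orderOf_eq_one_iff.1 h4
    · rw [h4] at h3
      exact absurd h3 (D.priv m n hmn)
  have h2 : Subgroup.normalClosure {D.g n} ≤ (t.hom h hn m).ker := by
    apply Subgroup.normalClosure_le_normal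
    rw [Set.singleton_subset_iff]
    exact h1
  rw [D.g_normal n] at h2
  exact h2 (Subgroup.mem_top q)

theorem Tht.cont (h : Rig S T φ K') (t : Tht φ N θ) (m : ℕ) :
    ∃ M, N ≤ M ∧ ∀ k : K D, (∀ n < M, k n = 1) → θ k m = 1 := by
  obtain ⟨M, hM⟩ := near_cont_fun D (w := fun u => φ u m) ((measurable_pi_apply m).comp h.meas)
    (Set.to_countable Set.univ) (Filter.Eventually.of_forall fun u => Set.mem_univ _)
    (ENNReal.ofReal (1 / 8)) (by norm_num)
  refine ⟨max N M, le_max_left _ _, fun k hk => ?_⟩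
  have hkN : ∀ n < N, k n = 1 := fun n hn => hk n (hn.trans_le (le_max_left _ _))
  have hkM : ∀ n < M, k n = 1 := fun n hn => hk n (hn.trans_le (le_max_right _ _))
  have h1 := hM _ (near_right D hkM)
  have h2 : (mu D).real {u | φ (u * k) m ≠ φ u m} ≤ 1 / 8 :=
    ENNReal.toReal_le_of_le_ofReal (by norm_num) h1
  have h3 : (mu D).real (∅ : Set (K D)) ≤ 1 / 8 := by simp
  obtain ⟨u, hu1, hu2, -⟩ := exists_notMem3 (t.near k hkN) h2 h3
  simp only [Set.mem_ofPred_eq, not_not, ne_eq] at hu1 hu2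
  rw [hu1, Pi.mul_apply] at hu2
  exact mul_eq_left.1 hu2

theorem Tht.eq_one (h : Rig S T φ K') (t : Tht φ N θ) {k : K D} (hk : ∀ n < N, k n = 1) {m : ℕ}
    (hm : k m = 1) : θ k m = 1 := by
  obtain ⟨M, hNM, hM⟩ := t.cont h m
  have key : ∀ j, ∀ k : K D, (∀ n < M - j, k n = 1) → (∀ n < N, k n = 1) → k m = 1 → θ k m = 1 := by
    intro j
    induction j with
    | zero =>
      intro k hk _ _
      exact hM k (by simpa using hk)
    | succ j ih =>
      intro k hk hkN hkm
      by_cases hj : M - j ≤ N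
      · exact ih k (fun n hn => hkN n (hn.trans_le hj)) hkN hkm
      · push Not at hj
        have hs : M - j = (M - (j + 1)) + 1 := by omega
        set i := M - (j + 1) with hi
        have hNi : N ≤ i := by omega
        have hsplit : k = Pi.mulSingle i (k i) * ((Pi.mulSingle i (k i))⁻¹ * k) := by
          rw [mul_inv_cancel_left]
        have hk' : ∀ n < i + 1, (((Pi.mulSingle i (k i) : K D))⁻¹ * k) n = 1 := by
          intro n hn
          rcases Nat.lt_succ_iff_lt_or_eq.1 hn with h' | rfl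
          · rw [Pi.mul_apply, Pi.inv_apply, Pi.mulSingle_eq_of_ne h'.ne, inv_one, one_mul]
            exact hk n h'
          · rw [Pi.mul_apply, Pi.inv_apply, Pi.mulSingle_eq_same, inv_mul_cancel]
        have hkN' : ∀ n < N, (((Pi.mulSingle i (k i) : K D))⁻¹ * k) n = 1 :=
          fun n hn => hk' n (by omega)
        have hkm' : (((Pi.mulSingle i (k i) : K D))⁻¹ * k) m = 1 := by
          by_cases hmi : m = i
          · subst hmi
            rw [Pi.mul_apply, Pi.inv_apply, Pi.mulSingle_eq_same, inv_mul_cancel]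
          · rw [Pi.mul_apply, Pi.inv_apply, Pi.mulSingle_eq_of_ne hmi, inv_one, one_mul, hkm]
        have hr := ih _ (by rw [hs]; exact hk') hkN' hkm'
        rw [hsplit, t.mul h (single_fix hNi _) hkN', Pi.mul_apply, hr, mul_one]
        by_cases hmi : m = i
        · subst hmi
          rw [hkm, Pi.mulSingle_one, t.one h]
          rfl
        · exact t.off h hNi hmi _
  exact key M k (fun n hn => absurd hn (by simp)) hk hm

theorem Tht.low (h : Rig S T φ K') (t : Tht φ N θ) {k : K D} (hk : ∀ n < N, k n = 1) {m : ℕ}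
    (hm : m < N) : θ k m = 1 := t.eq_one h hk (hk m hm)

theorem Tht.high (h : Rig S T φ K') (t : Tht φ N θ) {k : K D} (hk : ∀ n < N, k n = 1) {m : ℕ}
    (hm : N ≤ m) : θ k m = t.hom h hm m (k m) := by
  have hsplit : k = Pi.mulSingle m (k m) * ((Pi.mulSingle m (k m))⁻¹ * k) := by
    rw [mul_inv_cancel_left]
  have hk' : ∀ n < N, (((Pi.mulSingle m (k m) : K D))⁻¹ * k) n = 1 := by
    intro n hn
    rw [Pi.mul_apply, Pi.inv_apply, Pi.mulSingle_eq_of_ne (by omega), inv_one, one_mul]
    exact hk n hn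
  have hkm : (((Pi.mulSingle m (k m) : K D))⁻¹ * k) m = 1 := by
    rw [Pi.mul_apply, Pi.inv_apply, Pi.mulSingle_eq_same, inv_mul_cancel]
  have h1 : θ k = θ (Pi.mulSingle m (k m)) * θ ((Pi.mulSingle m (k m))⁻¹ * k) := by
    conv_lhs => rw [hsplit]
    exact t.mul h (single_fix hm _) hk'
  rw [h1, Pi.mul_apply, t.eq_one h hk' hkm, mul_one]
  rfl

theorem Tht.inj (h : Rig S T φ K') (t : Tht φ N θ) (hS : S.Infinite) {n : ℕ} (hn : N ≤ n)
    (hnS : n ∈ S) : Function.Injective (t.hom h hn n) := by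
  rw [injective_iff_map_eq_one]
  intro q hq
  have h0 : θ (Pi.mulSingle n q) = 1 := by
    funext m
    by_cases hmn : m = n
    · subst hmn; exact hq
    · exact t.off h hn hmn q
  have h1 := t.ae h (single_fix hn q)
  obtain ⟨u, ⟨γ, hγ⟩, hu, hu'⟩ := (h1.and (h.full.and (ae_right h.full (Pi.mulSingle n q)))).exists
  rw [h0, mul_one] at hγ
  obtain ⟨δ, hδ⟩ := (h.red _ hu _ hu').2 ⟨γ, hγ⟩
  have h2 : {m | D.π m δ = 1}.Infinite := by
    refine (hS.sdiff (Set.finite_singleton n)).mono ?_
    rintro m ⟨hmS, hmn⟩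
    have h3 := congrFun hδ m
    rw [res_mem hmS, Pi.mul_apply, Pi.mul_apply, res_mem hmS, res_mem hmS, emb_apply,
      Pi.mulSingle_eq_of_ne (by simpa using hmn), mul_one] at h3
    exact mul_eq_right.1 h3.symm
  have h3 := D.nfs δ h2 n
  have h4 := congrFun hδ n
  rw [res_mem hnS, Pi.mul_apply, Pi.mul_apply, res_mem hnS, res_mem hnS, emb_apply,
    Pi.mulSingle_eq_same, h3, one_mul] at h4
  exact mul_eq_left.1 h4

/-- First rigidity statement. -/
theorem Rig.finite_sdiff (h : Rig S T φ K') (hS : S.Infinite) : (S \ T).Finite := by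
  obtain ⟨N, θ, t⟩ := h.exists_tht
  refine (Set.finite_lt_nat N).subset ?_
  rintro n ⟨hnS, hnT⟩
  by_contra hn
  have hn' : N ≤ n := by simpa using hn
  apply D.g_ne n
  apply t.inj h hS hn' hnS
  rw [map_one]
  exact t.supp h (single_fix hn' _) hnT

/-- Second rigidity statement: a reduction of the relation to itself does not concentrate on a
null invariant set. -/
theorem Rig.inv_full (h : Rig S S φ K') (hS : S.Infinite) {E : Set (K D)} (hE : MeasurableSet E)
    (hinv : ∀ γ, ∀ u ∈ E, res D S (emb D γ) * u ∈ E) (hφ : ∀ᵐ u ∂(mu D), φ u ∈ E) :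
    ∀ᵐ v ∂(mu D), res D S v ∈ E := by
  classical
  obtain ⟨N, θ, t⟩ := h.exists_tht
  let e : ∀ n, D.Q n ≃ D.Q n := fun n => if hn : N ≤ n ∧ n ∈ S then
    Equiv.ofBijective (t.hom h hn.1 n) (Finite.injective_iff_bijective.1 (t.inj h hS hn.1 hn.2))
    else Equiv.refl _
  set α : K D → K D := fun v n => e n (v n) with hα
  have hαm : MeasurePreserving α (mu D) (mu D) := mu_map D e
  have hth : ∀ v : K D, θ (res D {n | N ≤ n} v) = res D (S ∩ {n | N ≤ n}) (α v) := by
    intro v
    have hfix : ∀ n < N, res D {n | N ≤ n} v n = 1 := fun n hn =>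
      res_notMem (by simpa using hn) v
    funext m
    by_cases hm : N ≤ m
    · by_cases hmS : m ∈ S
      · rw [t.high h hfix hm, res_mem (show m ∈ {n | N ≤ n} from hm),
          res_mem (show m ∈ S ∩ {n | N ≤ n} from ⟨hmS, hm⟩)]
        show _ = e m (v m)
        have : e m = Equiv.ofBijective (t.hom h hm m)
            (Finite.injective_iff_bijective.1 (t.inj h hS hm hmS)) := by
          show (if hn : N ≤ m ∧ m ∈ S then _ else _) = _
          rw [dif_pos ⟨hm, hmS⟩]
        rw [this]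
        rfl
      · rw [t.supp h hfix hmS, res_notMem (fun hcon => hmS hcon.1)]
    · rw [t.low h hfix (by omega), res_notMem (fun hcon => hm hcon.2)]
  have h1 : ∀ v : K D, ∀ᵐ u ∂(mu D), φ u * res D (S ∩ {n | N ≤ n}) (α v) ∈ E := by
    intro v
    have hfix : ∀ n < N, res D {n | N ≤ n} v n = 1 := fun n hn =>
      res_notMem (by simpa using hn) v
    filter_upwards [t.ae h hfix, ae_right hφ (res D {n | N ≤ n} v)] with u hu hu'
    obtain ⟨γ, hγ⟩ := hu
    rw [hγ, hth] at hu'
    have := hinv γ⁻¹ _ hu'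
    rw [map_inv, map_inv, mul_assoc (res D S (emb D γ)), inv_mul_cancel_left] at this
    exact this
  have hmeas : MeasurableSet {p : K D × K D | ¬ (φ p.1 * res D (S ∩ {n | N ≤ n}) (α p.2) ∈ E)} := by
    have : Measurable (fun p : K D × K D => φ p.1 * res D (S ∩ {n | N ≤ n}) (α p.2)) :=
      measurable_mul_K D (h.meas.comp measurable_fst)
        ((measurable_res _).comp (hαm.measurable.comp measurable_snd))
    exact this hE.compl
  have h2 : (mu D).prod (mu D)
      {p : K D × K D | ¬ (φ p.1 * res D (S ∩ {n | N ≤ n}) (α p.2) ∈ E)} = 0 := by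
    rw [Measure.prod_apply_symm hmeas]
    simp only [Set.preimage, Set.mem_ofPred_eq]
    rw [lintegral_congr (fun v => ae_iff.1 (h1 v))]
    simp
  rw [Measure.measure_prod_null hmeas] at h2
  obtain ⟨u, hu, huK⟩ := (h2.and h.full).exists
  have hu1 : mu D {v | ¬ (φ u * res D (S ∩ {n | N ≤ n}) (α v) ∈ E)} = 0 := hu
  have hu2 : mu D {v | ¬ (φ u * res D (S ∩ {n | N ≤ n}) v ∈ E)} = 0 := by
    have hm2 : MeasurableSet {v : K D | ¬ (φ u * res D (S ∩ {n | N ≤ n}) v ∈ E)} := by
      have : Measurable (fun v : K D => φ u * res D (S ∩ {n | N ≤ n}) v) :=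
        measurable_mul_K D measurable_const (measurable_res _)
      exact this hE.compl
    have := hαm.measure_preimage hm2.nullMeasurableSet
    rw [← this]
    exact hu1
  -- positivity
  have hp : res D S (φ u) = φ u := res_eq_self (h.supp u huK)
  have h3 : mu D {v : K D | res D S v ∈ E} ≠ 0 := by
    intro hcon
    have hmS : MeasurableSet {v : K D | res D S v ∈ E} := measurable_res S hE
    have h4 : mu D ((fun v => φ u * v) ⁻¹' {v : K D | res D S v ∈ E}) = 0 := by
      rw [(mp_left D (φ u)).measure_preimage hmS.nullMeasurableSet, hcon]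
    have h5 : {v : K D | ∀ i < N, v i = 1} ⊆
        ((fun v => φ u * v) ⁻¹' {v : K D | res D S v ∈ E}) ∪
          {v | ¬ (φ u * res D (S ∩ {n | N ≤ n}) v ∈ E)} := by
      intro v hv
      by_cases hvE : φ u * res D (S ∩ {n | N ≤ n}) v ∈ E
      · left
        show res D S (φ u * v) ∈ E
        have h6 : res D S v = res D (S ∩ {n | N ≤ n}) v := by
          funext m
          by_cases hmS : m ∈ S
          · by_cases hm : N ≤ m
            · rw [res_mem hmS, res_mem (show m ∈ S ∩ {n | N ≤ n} from ⟨hmS, hm⟩)]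
            · rw [res_mem hmS, res_notMem (fun hcon => hm hcon.2), hv m (by omega)]
          · rw [res_notMem hmS, res_notMem (fun hcon => hmS hcon.1)]
        rw [map_mul, hp, h6]
        exact hvE
      · right
        exact hvE
    have h6 := measure_mono_null h5 (measure_union_null h4 hu2)
    exact (mu_cyl_pos D N).ne' h6
  have h4 := ergodic D (A := {v : K D | res D S v ∈ E}) (measurable_res S hE) (by
    intro γ
    have : {u : K D | ¬ (emb D γ * u ∈ {v : K D | res D S v ∈ E} ↔
        u ∈ {v : K D | res D S v ∈ E})} = ∅ := by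
      ext w
      simp only [Set.mem_ofPred_eq, Set.mem_empty_iff_false, iff_false, not_not, map_mul]
      constructor
      · intro hw
        have := hinv γ⁻¹ _ hw
        rw [map_inv, map_inv, inv_mul_cancel_left] at this
        exact this
      · exact fun hw => hinv γ _ hw
    rw [this, measure_empty])
  rcases h4 with h5 | h5
  · exact absurd h5 h3
  · rw [ae_iff]
    exact h5

end Pool.Agent.H60.Meas
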