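import Mathlib

set_option autoImplicit false

/-!
A Borel subset of a product of standard Borel spaces, with full projection to the first factor,
which has no Borel uniformization.
-/

namespace Pool.Agent.H60.Unif

open Set

/-- The space of codes. A code labels the finite sequences of natural numbers: label `0` means
`complement of the union of the children`, label `k + 1` means `the basic set number k`. -/
abbrev Code : Type := List ℕ → ℕ

/-- The basic sets. -/
def basic (k : ℕ) : Set Code :=
  {c | c (Denumerable.ofNat (List ℕ × ℕ) k).1 = (Denumerable.ofNat (List ℕ × ℕ) k).2}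

/-- All proper initial segments of `s` have label `0`. -/
def Reach (c : Code) (s : List ℕ) : Prop := ∀ t u : List ℕ, s = t ++ u → u ≠ [] → c t = 0

/-- `v` evaluates the code `c` at the point `z`. -/
def Ev (c z : Code) (v : List ℕ → Bool) : Prop :=
  ∀ s, Reach c s → (c s = 0 → (v s = true ↔ ∀ m, v (s ++ [m]) = false)) ∧
    ∀ k, c s = k + 1 → (v s = true ↔ z ∈ basic k)

/-- The initial segments of a sequence. -/
def seg (b : ℕ → ℕ) (n : ℕ) : List ℕ := (List.range n).map b

/-- `b` is an infinite branch of the code `c`. -/
def Branch (c : Code) (b : ℕ → ℕ) : Prop := ∀ n, c (seg b n) = 0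

theorem reach_nil (c : Code) : Reach c [] := by
  intro t u h hu
  have := congrArg List.length h
  simp only [List.length_nil, List.length_append] at this
  have h2 : u.length = 0 := by omega
  exact absurd (List.length_eq_zero_iff.1 h2) hu

theorem exists_ev {c : Code} (hc : ¬ ∃ b, Branch c b) (z : Code) : ∃ v, Ev c z v := by
  classical
  let r : List ℕ → List ℕ → Prop := fun t s => ∃ m, t = s ++ [m] ∧ (c s = 0 ∧ Reach c s)
  have hwf : WellFounded r := by
    rw [wellFounded_iff_isEmpty_descending_chain]
    refine ⟨fun ⟨f, hf⟩ => hc ?_⟩
    have hlen : ∀ n, (f n).length = (f 0).length + n := by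
      intro n
      induction n with
      | zero => rfl
      | succ n ih =>
        obtain ⟨m, hm, _⟩ := hf n
        rw [hm, List.length_append, ih]; simp; ring
    have hpre : ∀ n k, f n <+: f (n + k) := by
      intro n k
      induction k with
      | zero => exact List.prefix_refl _
      | succ k ih =>
        obtain ⟨m, hm, _⟩ := hf (n + k)
        exact ih.trans (by rw [show n + (k + 1) = n + k + 1 by ring, hm]; exact List.prefix_append _ _)
    refine ⟨fun i => (f (i + 1))[i]?.getD 0, fun n => ?_⟩
    have hseg : seg (fun i => (f (i + 1))[i]?.getD 0) n = (f n).take n := by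
      apply List.ext_getElem
      · simp only [seg, List.length_map, List.length_range, List.length_take, hlen n]
        omega
      · intro i h1 h2
        have hi : i < n := by simpa [seg] using h1
        simp only [seg, List.getElem_map, List.getElem_range, List.getElem_take]
        have h3 : i < (f (i + 1)).length := by rw [hlen]; omega
        rw [List.getElem?_eq_getElem h3, Option.getD_some]
        have h4 := hpre (i + 1) (n - (i + 1))
        have h5 : i + 1 + (n - (i + 1)) = n := by omega
        rw [h5] at h4
        exact h4.getElem h3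
    rw [hseg]
    obtain ⟨m, hm, hcn, hreach⟩ := hf n
    by_cases h0 : (f 0).length = 0
    · have : (f n).take n = f n := List.take_of_length_le (by rw [hlen]; omega)
      rw [this]; exact hcn
    · refine hreach ((f n).take n) ((f n).drop n) (List.take_append_drop n (f n)).symm ?_
      intro h6
      have := congrArg List.length h6
      rw [List.length_drop, hlen n, List.length_nil] at this
      omega
  let F : (s : List ℕ) → ((t : List ℕ) → r t s → Bool) → Bool := fun s rec =>
    if h : c s = 0 ∧ Reach c s then decide (∀ m, rec (s ++ [m]) ⟨m, rfl, h⟩ = false)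
    else decide (z ∈ basic (c s - 1))
  refine ⟨hwf.fix F, fun s hs => ⟨fun h0 => ?_, fun k hk => ?_⟩⟩
  · rw [hwf.fix_eq]
    have h : c s = 0 ∧ Reach c s := ⟨h0, hs⟩
    simp only [F, h, and_self, dif_pos, decide_eq_true_eq]
  · rw [hwf.fix_eq]
    have h : ¬ (c s = 0 ∧ Reach c s) := fun h => by omega
    simp only [F]
    rw [dif_neg h, hk]
    simp

/-- Every Borel set has a well founded code. -/
theorem exists_code {A : Set Code} (hA : MeasurableSet A) :
    ∃ c : Code, (¬ ∃ b, Branch c b) ∧ ∀ z v, Ev c z v → (v [] = true ↔ z ∈ A) := by
  -- negated unions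
  have hunion : ∀ f : ℕ → Set Code,
      (∀ m, ∃ c : Code, (¬ ∃ b, Branch c b) ∧ ∀ z v, Ev c z v → (v [] = true ↔ z ∈ f m)) →
      ∃ c : Code, (¬ ∃ b, Branch c b) ∧ ∀ z v, Ev c z v → (v [] = true ↔ z ∈ (⋃ m, f m)ᶜ) := by
    intro f hf
    choose d hd1 hd2 using hf
    let c : Code := fun s => match s with
      | [] => 0
      | m :: s => d m s
    refine ⟨c, ?_, ?_⟩
    · rintro ⟨b, hb⟩
      refine hd1 (b 0) ⟨fun n => b (n + 1), fun n => ?_⟩
      have h1 := hb (n + 1)
      have h2 : seg b (n + 1) = b 0 :: seg (fun n => b (n + 1)) n := by
        simp only [seg, List.range_succ_eq_map, List.map_cons, List.map_map]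
        rfl
      rw [h2] at h1
      exact h1
    · intro z v hv
      have hsub : ∀ m, Ev (d m) z (fun s => v (m :: s)) := by
        intro m s hs
        have hs' : Reach c (m :: s) := by
          intro t u htu hu
          cases t with
          | nil => rfl
          | cons a t =>
            rw [List.cons_append, List.cons.injEq] at htu
            obtain ⟨rfl, htu⟩ := htu
            exact hs t u htu hu
        have := hv (m :: s) hs'
        exact this
      have h0 := (hv [] (reach_nil c)).1 rfl
      rw [h0]
      simp only [mem_compl_iff, mem_iUnion, not_exists]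
      refine forall_congr' fun m => ?_
      have h1 := hd2 m z _ (hsub m)
      simp only [List.nil_append]
      rw [← h1]
      simp
  have hcompl : ∀ A : Set Code,
      (∃ c : Code, (¬ ∃ b, Branch c b) ∧ ∀ z v, Ev c z v → (v [] = true ↔ z ∈ A)) →
      ∃ c : Code, (¬ ∃ b, Branch c b) ∧ ∀ z v, Ev c z v → (v [] = true ↔ z ∈ Aᶜ) := by
    intro A hA
    have := hunion (fun _ => A) (fun _ => hA)
    simpa [iUnion_const] using this
  have hbasic : ∀ k, ∃ c : Code, (¬ ∃ b, Branch c b) ∧
      ∀ z v, Ev c z v → (v [] = true ↔ z ∈ basic k) := by
    intro k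
    refine ⟨fun _ => k + 1, ?_, ?_⟩
    · rintro ⟨b, hb⟩
      exact absurd (hb 0) (by simp)
    · intro z v hv
      exact (hv [] (reach_nil _)).2 k rfl
  let m' : MeasurableSpace Code :=
    { MeasurableSet' := fun A => ∃ c : Code, (¬ ∃ b, Branch c b) ∧
        ∀ z v, Ev c z v → (v [] = true ↔ z ∈ A)
      measurableSet_empty := by
        have h1 := hunion (fun _ => basic 0) (fun _ => hbasic 0)
        have h2 := hunion (fun n => if n = 0 then basic 0 else (basic 0)ᶜ) (fun n => by
          by_cases hn : n = 0
          · simp only [hn, if_true]; exact hbasic 0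
          · simp only [hn, if_false]; exact hcompl _ (hbasic 0))
        convert h2 using 8
        symm
        rw [compl_empty_iff, eq_univ_iff_forall]
        intro z
        rw [mem_iUnion]
        by_cases hz : z ∈ basic 0
        · exact ⟨0, by simpa using hz⟩
        · exact ⟨1, by simpa using hz⟩
      measurableSet_compl := hcompl
      measurableSet_iUnion := fun f hf => by
        have := hcompl _ (hunion f hf)
        simpa using this }
  have hle : (MeasurableSpace.pi : MeasurableSpace Code) ≤ m' := by
    refine iSup_le fun s => ?_
    rintro _ ⟨D, _, rfl⟩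
    have : (fun c : Code => c s) ⁻¹' D = ⋃ j : ℕ, ⋃ _ : j ∈ D, {c : Code | c s = j} := by
      ext c; simp
    rw [this]
    refine MeasurableSet.iUnion fun j => MeasurableSet.iUnion fun _ => ?_
    have h1 : {c : Code | c s = j} = basic (Encodable.encode (s, j)) := by
      ext c; simp [basic]
    rw [h1]
    exact hbasic _
  exact hle A hA

/-- The space of witnesses. -/
abbrev Wit : Type := (ℕ → ℕ) × (List ℕ → Bool) × Bool

/-- The set without Borel uniformization. -/
def bad : Set (Code × Wit) :=
  {p | (p.2.2.2 = false ∧ Branch p.1 p.2.1) ∨ (p.2.2.2 = true ∧ Ev p.1 p.1 p.2.2.1)}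

theorem measurableSet_bad : MeasurableSet bad := by
  have hc : ∀ s : List ℕ, Measurable fun p : Code × Wit => p.1 s := fun s =>
    (measurable_pi_apply s).comp measurable_fst
  have hv : ∀ s : List ℕ, Measurable fun p : Code × Wit => p.2.2.1 s := fun s =>
    (measurable_pi_apply s).comp (measurable_fst.comp (measurable_snd.comp measurable_snd))
  have hb : ∀ i : ℕ, Measurable fun p : Code × Wit => p.2.1 i := fun i =>
    (measurable_pi_apply i).comp (measurable_fst.comp measurable_snd)
  have hi : Measurable fun p : Code × Wit => p.2.2.2 :=
    measurable_snd.comp (measurable_snd.comp measurable_snd)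
  have hcs : ∀ (s : List ℕ) (j : ℕ), Measurable fun p : Code × Wit => p.1 s = j := by
    intro s j
    rw [← measurableSet_setOfPred]
    exact hc s (measurableSet_singleton j)
  have hvs : ∀ (s : List ℕ) (j : Bool), Measurable fun p : Code × Wit => p.2.2.1 s = j := by
    intro s j
    rw [← measurableSet_setOfPred]
    exact hv s (measurableSet_singleton j)
  have his : ∀ (j : Bool), Measurable fun p : Code × Wit => p.2.2.2 = j := by
    intro j
    rw [← measurableSet_setOfPred]
    exact hi (measurableSet_singleton j)
  have hseg : ∀ (n : ℕ) (s : List ℕ), Measurable fun p : Code × Wit => seg p.2.1 n = s := by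
    intro n s
    have : (fun p : Code × Wit => seg p.2.1 n = s) =
        fun p => s.length = n ∧ ∀ i : ℕ, ∀ h : i < s.length, i < n → p.2.1 i = s[i] := by
      funext p
      apply propext
      constructor
      · rintro rfl
        refine ⟨by simp [seg], fun i h hn => ?_⟩
        simp [seg]
      · rintro ⟨h1, h2⟩
        apply List.ext_getElem
        · simp [seg, h1]
        · intro i h3 h4
          rw [← h2 i h4 (by omega)]
          simp [seg]
    rw [this]
    refine measurable_const.and (Measurable.forall fun i => Measurable.forall fun h =>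
      measurable_const.imp ?_)
    rw [← measurableSet_setOfPred]
    exact hb i (measurableSet_singleton _)
  have hbranch : Measurable fun p : Code × Wit => Branch p.1 p.2.1 := by
    refine Measurable.forall fun n => ?_
    have : (fun p : Code × Wit => p.1 (seg p.2.1 n) = 0) =
        fun p => ∃ s : List ℕ, seg p.2.1 n = s ∧ p.1 s = 0 := by
      funext p
      apply propext
      simp
    rw [this]
    exact Measurable.exists fun s => (hseg n s).and (hcs s 0)
  have hbas : ∀ k : ℕ, Measurable fun p : Code × Wit => p.1 ∈ basic k := by
    intro k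
    exact hcs _ _
  have hreach : ∀ s, Measurable fun p : Code × Wit => Reach p.1 s := by
    intro s
    exact Measurable.forall fun t => Measurable.forall fun u => measurable_const.imp
      (measurable_const.imp (hcs t 0))
  have hev : Measurable fun p : Code × Wit => Ev p.1 p.1 p.2.2.1 := by
    refine Measurable.forall fun s => (hreach s).imp (Measurable.and ((hcs s 0).imp
      ((hvs s true).iff (Measurable.forall fun m => hvs _ false))) (Measurable.forall fun k =>
        (hcs s (k + 1)).imp ((hvs s true).iff (hbas k))))
  exact measurableSet_setOfPred.2 (((his false).and hbranch).or ((his true).and hev))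

theorem bad_nonempty (c : Code) : ∃ w, (c, w) ∈ bad := by
  by_cases hc : ∃ b, Branch c b
  · obtain ⟨b, hb⟩ := hc
    exact ⟨(b, fun _ => true, false), Or.inl ⟨rfl, hb⟩⟩
  · obtain ⟨v, hv⟩ := exists_ev hc c
    exact ⟨(fun _ => 0, v, true), Or.inr ⟨rfl, hv⟩⟩

theorem bad_not_uniformizable : ¬ ∃ f : Code → Wit, Measurable f ∧ ∀ c, (c, f c) ∈ bad := by
  rintro ⟨f, hf, hfb⟩
  have hA : MeasurableSet {c : Code | (f c).2.2 = true ∧ (f c).2.1 [] = false} := by
    have h1 : Measurable fun c => (f c).2.2 := measurable_snd.comp (measurable_snd.comp hf)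
    have h2 : Measurable fun c => (f c).2.1 [] :=
      (measurable_pi_apply []).comp (measurable_fst.comp (measurable_snd.comp hf))
    exact (h1 (measurableSet_singleton true)).inter (h2 (measurableSet_singleton false))
  obtain ⟨c, hc1, hc2⟩ := exists_code hA
  rcases hfb c with ⟨_, h⟩ | ⟨h1, h2⟩
  · exact hc1 ⟨_, h⟩
  · have h3 := hc2 c _ h2
    simp only at h1
    rw [mem_ofPred_eq] at h3
    rcases Bool.eq_false_or_eq_true ((f c).2.1 []) with h4 | h4
    · simp only [h4, true_iff] at h3
      exact absurd h3.2 (by simp)
    · simp only [h4] at h3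
      have := h3.2 ⟨h1, trivial⟩
      exact absurd this (by simp)

end Pool.Agent.H60.Unif
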