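import Mathlib
import Pool.Agent.H60.CberRig
import Pool.Agent.H60.CberUnif
import Pool.Agent.H60.CberGroups

set_option autoImplicit false
set_option linter.unusedSimpArgs false
set_option linter.unusedSectionVars false

namespace Pool.Agent.H60.Asm

open MeasureTheory Set
open scoped ENNReal
open Pool.Agent.H60.Meas Pool.Agent.H60.Unif

/-- The number coding the first `m` values of `c`. -/
def ini (c : Code) : ℕ → ℕ
  | 0 => Encodable.encode ([] : List ℕ)
  | m + 1 => Encodable.encode ((Denumerable.ofNat (List ℕ) (ini c m)) ++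
      [c (Denumerable.ofNat (List ℕ) m)])

theorem ini_eq (c : Code) (m : ℕ) : Denumerable.ofNat (List ℕ) (ini c m) =
    (List.range m).map (fun i => c (Denumerable.ofNat (List ℕ) i)) := by
  induction m with
  | zero => rw [ini, Denumerable.ofNat_encode]; rfl
  | succ m ih => rw [ini, Denumerable.ofNat_encode, ih, List.range_succ, List.map_append]; rfl

/-- The almost disjoint family. -/
def Sx (c : Code) : Set ℕ := Set.range (ini c)

theorem ini_eq_ini {c c' : Code} {m m' : ℕ} (h : ini c m = ini c' m') :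
    m = m' ∧ ∀ i < m, c (Denumerable.ofNat (List ℕ) i) = c' (Denumerable.ofNat (List ℕ) i) := by
  have h1 := congrArg (Denumerable.ofNat (List ℕ)) h
  rw [ini_eq, ini_eq] at h1
  have h2 : m = m' := by simpa using congrArg List.length h1
  subst h2
  refine ⟨rfl, fun i hi => ?_⟩
  have h3 := List.map_inj_left.1 h1 i (List.mem_range.2 hi)
  exact h3

theorem Sx_infinite (c : Code) : (Sx c).Infinite :=
  Set.infinite_range_of_injective (fun _ _ h => (ini_eq_ini h).1)

theorem Sx_eq {c c' : Code} (h : (Sx c \ Sx c').Finite) : c = c' := by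
  have h1 : {m | ini c m ∈ Sx c'}.Infinite := by
    intro hfin
    have h2 : {m | ini c m ∉ Sx c'}.Finite := by
      have h3 : (ini c ⁻¹' (Sx c \ Sx c')).Finite :=
        h.preimage (fun a _ b _ hab => (ini_eq_ini hab).1)
      refine h3.subset (fun m hm => ⟨⟨m, rfl⟩, hm⟩)
    have h3 : (Set.univ : Set ℕ).Finite := by
      refine (hfin.union h2).subset (fun m _ => ?_)
      by_cases hm : ini c m ∈ Sx c'
      · exact Or.inl hm
      · exact Or.inr hm
    exact Set.infinite_univ h3
  funext l
  obtain ⟨m, hm, hlt⟩ := h1.exists_gt (Encodable.encode l)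
  obtain ⟨m', hm'⟩ := hm
  have h2 := (ini_eq_ini hm'.symm).2 _ hlt
  rwa [Denumerable.ofNat_encode] at h2

theorem measurable_ini (m : ℕ) : Measurable (fun c : Code => ini c m) := by
  induction m with
  | zero => exact measurable_const
  | succ m ih =>
    have : (fun c : Code => ini c (m + 1)) = (fun p : ℕ × ℕ => Encodable.encode
        ((Denumerable.ofNat (List ℕ) p.1) ++ [p.2])) ∘
        (fun c : Code => (ini c m, c (Denumerable.ofNat (List ℕ) m))) := rfl
    rw [this]
    exact (measurable_of_countable _).comp (ih.prodMk (measurable_pi_apply _))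

theorem measurableSet_Sx (n : ℕ) : MeasurableSet {c : Code | n ∈ Sx c} := by
  have : {c : Code | n ∈ Sx c} = ⋃ m, {c | ini c m = n} := by
    ext c; simp [Sx]
  rw [this]
  exact MeasurableSet.iUnion fun m => measurable_ini m (MeasurableSet.singleton n)

variable (D : RData)

theorem measurable_res_joint {Ω : Type} [MeasurableSpace Ω] {f : Ω → Code} {g : Ω → K D}
    (hf : Measurable f) (hg : Measurable g) : Measurable (fun x => res D (Sx (f x)) (g x)) := by
  classical
  refine measurable_to_K D (fun n => ?_)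
  have : (fun x => res D (Sx (f x)) (g x) n) = fun x => if n ∈ Sx (f x) then g x n else 1 := by
    funext x
    by_cases h : n ∈ Sx (f x)
    · rw [res_mem h, if_pos h]
    · rw [res_notMem h, if_neg h]
  rw [this]
  exact Measurable.ite (hf (measurableSet_Sx n)) ((measurable_pi_apply n).comp hg) measurable_const

variable {P : Type} [MeasurableSpace P] (s : P → Code)

/-- The space of pairs. -/
abbrev XP : Type := {p : P × K D // ∀ n ∉ Sx (s p.1), p.2 n = 1}

theorem measurableSet_XP (hs : Measurable s) :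
    MeasurableSet {p : P × K D | ∀ n ∉ Sx (s p.1), p.2 n = 1} := by
  have : {p : P × K D | ∀ n ∉ Sx (s p.1), p.2 n = 1} = {p : P × K D | res D (Sx (s p.1)) p.2 = p.2} := by
    ext p
    simp only [Set.mem_ofPred_eq]
    constructor
    · exact fun h => res_eq_self h
    · intro h n hn
      rw [← h, res_notMem hn]
  rw [this]
  exact measurableSet_eq_fun (measurable_res_joint D (hs.comp measurable_fst) measurable_snd)
    measurable_snd

theorem std_XP [StandardBorelSpace P] (hs : Measurable s) : StandardBorelSpace (XP D s) :=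
  (measurableSet_XP D s hs).standardBorel

/-- The equivalence relation. -/
def EP (p q : XP D s) : Prop :=
  p.1.1 = q.1.1 ∧ ∃ γ : D.Γ, q.1.2 = res D (Sx (s p.1.1)) (emb D γ) * p.1.2

theorem EP_equiv : Equivalence (EP D s) where
  refl p := ⟨rfl, 1, by rw [map_one, map_one, one_mul]⟩
  symm := by
    rintro p q ⟨h, γ, hγ⟩
    refine ⟨h.symm, γ⁻¹, ?_⟩
    rw [← h, hγ, map_inv, map_inv, inv_mul_cancel_left]
  trans := by
    rintro p q r ⟨h, γ, hγ⟩ ⟨h', δ, hδ⟩
    refine ⟨h.trans h', δ * γ, ?_⟩
    rw [hδ, hγ, h, map_mul, map_mul, mul_assoc]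

theorem EP_meas [StandardBorelSpace P] (hs : Measurable s) :
    MeasurableSet {p : XP D s × XP D s | EP D s p.1 p.2} := by
  have : {p : XP D s × XP D s | EP D s p.1 p.2} = {p | p.1.1.1 = p.2.1.1} ∩
      ⋃ γ : D.Γ, {p | p.2.1.2 = res D (Sx (s p.1.1.1)) (emb D γ) * p.1.1.2} := by
    ext p
    simp only [EP, Set.mem_ofPred_eq, Set.mem_inter_iff, Set.mem_iUnion]
  rw [this]
  have h1 : Measurable (fun p : XP D s × XP D s => p.1.1) := measurable_subtype_coe.comp measurable_fst
  have h2 : Measurable (fun p : XP D s × XP D s => p.2.1) := measurable_subtype_coe.comp measurable_snd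
  refine (measurableSet_eq_fun (measurable_fst.comp h1) (measurable_fst.comp h2)).inter
    (MeasurableSet.iUnion fun γ => measurableSet_eq_fun (measurable_snd.comp h2) ?_)
  exact measurable_mul_K D (measurable_res_joint D (hs.comp (measurable_fst.comp h1))
    measurable_const) (measurable_snd.comp h1)

theorem EP_countable (p : XP D s) : {q | EP D s p q}.Countable := by
  have : {q | EP D s p q} ⊆ ⋃ γ : D.Γ, {q | q.1 = (p.1.1, res D (Sx (s p.1.1)) (emb D γ) * p.1.2)} := by
    rintro q ⟨h, γ, hγ⟩
    exact Set.mem_iUnion.2 ⟨γ, Prod.ext h.symm hγ⟩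
  refine (Set.countable_iUnion fun γ => ?_).mono this
  apply Set.Subsingleton.countable
  intro q hq q' hq'
  exact Subtype.ext (hq.trans hq'.symm)

variable {D s}
variable {P' : Type} [MeasurableSpace P'] {s' : P' → Code}

/-- The map induced by a map of the parameter spaces. -/
def mapP (j : P → P') (hj : ∀ p, s' (j p) = s p) (x : XP D s) : XP D s' :=
  ⟨(j x.1.1, x.1.2), by
    show ∀ n ∉ Sx (s' (j x.1.1)), x.1.2 n = 1
    rw [hj]; exact x.2⟩

theorem measurable_mapP {j : P → P'} (hjm : Measurable j) (hj : ∀ p, s' (j p) = s p) :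
    Measurable (mapP (D := D) j hj) := by
  refine Measurable.subtype_mk ?_
  exact (hjm.comp (measurable_fst.comp measurable_subtype_coe)).prodMk
    (measurable_snd.comp measurable_subtype_coe)

theorem mapP_red {j : P → P'} (hjm : Function.Injective j) (hj : ∀ p, s' (j p) = s p)
    (x y : XP D s) : EP D s x y ↔ EP D s' (mapP j hj x) (mapP j hj y) := by
  show (x.1.1 = y.1.1 ∧ ∃ γ : D.Γ, y.1.2 = res D (Sx (s x.1.1)) (emb D γ) * x.1.2) ↔
    (j x.1.1 = j y.1.1 ∧ ∃ γ : D.Γ, y.1.2 = res D (Sx (s' (j x.1.1))) (emb D γ) * x.1.2)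
  rw [hjm.eq_iff, hj]

/-- The point of the space over a single code. -/
noncomputable def pt (D : RData) (c : Code) (u : K D) : XP D (fun _ : Unit => c) :=
  ⟨((), res D (Sx c) u), fun _ hn => res_notMem hn u⟩

theorem measurable_pt (c : Code) : Measurable (pt D c) := by
  refine Measurable.subtype_mk ?_
  exact measurable_const.prodMk (measurable_res _)

theorem EP_pt (c : Code) (u v : K D) : EP D (fun _ : Unit => c) (pt D c u) (pt D c v) ↔
    ∃ γ, res D (Sx c) v = res D (Sx c) (emb D γ) * res D (Sx c) u := by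
  show (() = () ∧ _) ↔ _
  simp only [true_and]
  rfl

/-- Rigidity for reductions from the relation over a single code. -/
theorem rigP [StandardBorelSpace P] {c : Code} {F : XP D (fun _ : Unit => c) → XP D s}
    (hF : Measurable F)
    (hred : ∀ a b, EP D (fun _ : Unit => c) a b ↔ EP D s (F a) (F b)) :
    ∃ p : P, s p = c ∧ (∀ᵐ u ∂(mu D), (F (pt D c u)).1.1 = p) ∧
      Rig (Sx c) (Sx c) (fun u => (F (pt D c u)).1.2) {u | (F (pt D c u)).1.1 = p} := by
  have hm : Measurable (fun u => (F (pt D c u)).1) :=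
    measurable_subtype_coe.comp (hF.comp (measurable_pt c))
  obtain ⟨p, hp⟩ := ergodic_fun D (f := fun u => (F (pt D c u)).1.1) (measurable_fst.comp hm) (by
    intro γ
    refine Filter.Eventually.of_forall (fun u => ?_)
    have h1 := (hred (pt D c u) (pt D c (emb D γ * u))).1 ((EP_pt c _ _).2 ⟨γ, map_mul _ _ _⟩)
    exact h1.1.symm)
  have hR : Rig (Sx c) (Sx (s p)) (fun u => (F (pt D c u)).1.2) {u | (F (pt D c u)).1.1 = p} := by
    refine ⟨measurable_snd.comp hm, hp, ?_, ?_⟩
    · intro u hu n hn
      refine (F (pt D c u)).2 n ?_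
      rw [show (F (pt D c u)).1.1 = p from hu]
      exact hn
    · intro u hu v hv
      rw [← EP_pt, hred]
      have hu' : (F (pt D c u)).1.1 = p := hu
      have hv' : (F (pt D c v)).1.1 = p := hv
      show ((F (pt D c u)).1.1 = (F (pt D c v)).1.1 ∧ _) ↔ _
      rw [hu', hv']
      simp only [true_and]
  have hc : c = s p := Sx_eq (hR.finite_sdiff (Sx_infinite c))
  refine ⟨p, hc.symm, hp, ?_⟩
  rw [← hc] at hR
  exact hR

/-- Separation of the images of two measurable families. -/
theorem separate {Z Ω I : Type} [Countable I] [MeasurableSpace Z] [StandardBorelSpace Z]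
    [MeasurableSpace Ω] [StandardBorelSpace Ω] {A B : Set Z} (hA : MeasurableSet A)
    (hB : MeasurableSet B) {h : I → Z → Ω} (hh : ∀ i, Measurable (h i))
    (hdisj : ∀ i j, ∀ a ∈ A, ∀ b ∈ B, h i a ≠ h j b) :
    ∃ E : Set Ω, MeasurableSet E ∧ (∀ i, ∀ a ∈ A, h i a ∈ E) ∧ ∀ i, ∀ b ∈ B, h i b ∉ E := by
  let _ := upgradeStandardBorel Ω
  have h1 : AnalyticSet (⋃ i, h i '' A) := AnalyticSet.iUnion fun i => hA.analyticSet_image (hh i)
  have h2 : AnalyticSet (⋃ i, h i '' B) := AnalyticSet.iUnion fun i => hB.analyticSet_image (hh i)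
  have h3 : Disjoint (⋃ i, h i '' A) (⋃ i, h i '' B) := by
    rw [Set.disjoint_left]
    rintro x hx hx'
    obtain ⟨i, a, ha, rfl⟩ := Set.mem_iUnion.1 hx
    obtain ⟨j, b, hb, hab⟩ := Set.mem_iUnion.1 hx'
    exact hdisj i j a ha b hb hab.symm
  obtain ⟨E, hE1, hE2, hE3⟩ := h1.measurablySeparable h2 h3
  refine ⟨E, hE3, fun i a ha => hE1 (Set.mem_iUnion.2 ⟨i, a, ha, rfl⟩), fun i b hb hcon => ?_⟩
  exact Set.disjoint_left.1 hE2 (Set.mem_iUnion.2 ⟨i, b, hb, rfl⟩) hcon

theorem core {Z : Type} [MeasurableSpace Z] [StandardBorelSpace Z] (G : Z → Z → Prop)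
    {f : Z → XP D (id : Code → Code)} (fm : Measurable f)
    (hf : ∀ a b, G a b ↔ EP D (id : Code → Code) (f a) (f b))
    {g : Z → XP D (fun w : bad => w.1.1)} (gm : Measurable g)
    (hg : ∀ a b, G a b ↔ EP D (fun w : bad => w.1.1) (g a) (g b))
    (huniv : ∀ c : Code, ∃ ψ : XP D (fun _ : Unit => c) → Z, Measurable ψ ∧
      ∀ a b, EP D (fun _ : Unit => c) a b ↔ G (ψ a) (ψ b)) : False := by
  have : StandardBorelSpace bad := measurableSet_bad.standardBorel
  choose ψ ψm hψ using huniv
  -- the two reductions over a fixed code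
  have h1 : ∀ c, (∀ᵐ u ∂(mu D), (f (ψ c (pt D c u))).1.1 = c) ∧
      Rig (Sx c) (Sx c) (fun u => (f (ψ c (pt D c u))).1.2)
        {u | (f (ψ c (pt D c u))).1.1 = c} := by
    intro c
    obtain ⟨p, hp, hp1, hp2⟩ := rigP (F := fun x => f (ψ c x)) (fm.comp (ψm c))
      (fun a b => (hψ c a b).trans (hf _ _))
    have hpc : p = c := hp
    rw [hpc] at hp1 hp2
    exact ⟨hp1, hp2⟩
  have h2 : ∀ c, ∃ y : bad, y.1.1 = c ∧ ∀ᵐ u ∂(mu D), (g (ψ c (pt D c u))).1.1 = y := by
    intro c
    obtain ⟨p, hp, hp1, -⟩ := rigP (F := fun x => g (ψ c x)) (gm.comp (ψm c))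
      (fun a b => (hψ c a b).trans (hg _ _))
    exact ⟨p, hp, hp1⟩
  choose y hyc hy using h2
  obtain ⟨j, hj, hji⟩ := MeasurableSpace.measurable_injection_nat_bool_of_countablySeparated Wit
  -- measurability facts
  have fm1 : Measurable (fun z => (f z).1.1) := measurable_fst.comp (measurable_subtype_coe.comp fm)
  have fm2 : Measurable (fun z => (f z).1.2) := measurable_snd.comp (measurable_subtype_coe.comp fm)
  have gm1 : Measurable (fun z => (g z).1.1.1) :=
    measurable_subtype_coe.comp (measurable_fst.comp (measurable_subtype_coe.comp gm))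
  have hbit : ∀ n, Measurable (fun z => j (g z).1.1.1.2 n) := fun n =>
    (measurable_pi_apply n).comp (hj.comp (measurable_snd.comp gm1))
  have hAm : ∀ n (b : Bool), MeasurableSet {z | ((f z).1.1 = (g z).1.1.1.1) ∧
      j (g z).1.1.1.2 n = b} := fun n b =>
    (measurableSet_eq_fun fm1 (measurable_fst.comp gm1)).inter (hbit n (MeasurableSet.singleton b))
  have hsep : ∀ n, ∃ E : Set (Code × K D), MeasurableSet E ∧
      (∀ γ : D.Γ, ∀ z, ((f z).1.1 = (g z).1.1.1.1) → j (g z).1.1.1.2 n = true →
        ((f z).1.1, res D (Sx (f z).1.1) (emb D γ) * (f z).1.2) ∈ E) ∧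
      (∀ γ : D.Γ, ∀ z, ((f z).1.1 = (g z).1.1.1.1) → j (g z).1.1.1.2 n = false →
        ((f z).1.1, res D (Sx (f z).1.1) (emb D γ) * (f z).1.2) ∉ E) := by
    intro n
    obtain ⟨E, hE1, hE2, hE3⟩ := separate (Ω := Code × K D) (hAm n true) (hAm n false)
      (h := fun (γ : D.Γ) z => ((f z).1.1, res D (Sx (f z).1.1) (emb D γ) * (f z).1.2))
      (fun γ => fm1.prodMk (measurable_mul_K D (measurable_res_joint D fm1 measurable_const) fm2))
      (by
        rintro γ δ z ⟨hz, hzb⟩ z' ⟨hz', hzb'⟩ heq
        have e1 : (f z).1.1 = (f z').1.1 := (Prod.mk.inj heq).1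
        have e2 : res D (Sx (f z).1.1) (emb D γ) * (f z).1.2 =
            res D (Sx (f z').1.1) (emb D δ) * (f z').1.2 := (Prod.mk.inj heq).2
        have e3 : EP D (id : Code → Code) (f z) (f z') := by
          refine ⟨e1, δ⁻¹ * γ, ?_⟩
          show (f z').1.2 = res D (Sx (f z).1.1) (emb D (δ⁻¹ * γ)) * (f z).1.2
          rw [map_mul, map_mul, mul_assoc, e2, ← e1, map_inv, map_inv, inv_mul_cancel_left]
        have e4 := (hg _ _).1 ((hf _ _).2 e3)
        have e5 : (g z).1.1 = (g z').1.1 := e4.1
        rw [e5] at hzb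
        rw [hzb] at hzb'
        exact absurd hzb' (by simp))
    exact ⟨E, hE1, fun γ z h h' => hE2 γ z ⟨h, h'⟩, fun γ z h h' => hE3 γ z ⟨h, h'⟩⟩
  choose E Em Et Ef using hsep
  -- the bits are determined almost everywhere
  have key : ∀ c n, ∀ᵐ v ∂(mu D), ((c, res D (Sx c) v) ∈ E n ↔ j (y c).1.2 n = true) := by
    intro c n
    have hR := (h1 c).2
    have hEc : MeasurableSet {w : K D | ∀ γ : D.Γ,
        ((c, res D (Sx c) (emb D γ) * w) ∈ E n ↔ j (y c).1.2 n = true)} := by
      have : {w : K D | ∀ γ : D.Γ, ((c, res D (Sx c) (emb D γ) * w) ∈ E n ↔ j (y c).1.2 n = true)} =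
          ⋂ γ : D.Γ, {w : K D | ((c, res D (Sx c) (emb D γ) * w) ∈ E n ↔ j (y c).1.2 n = true)} := by
        ext w; simp
      rw [this]
      refine MeasurableSet.iInter fun γ => ?_
      have hm : Measurable (fun w : K D => (c, res D (Sx c) (emb D γ) * w)) :=
        measurable_const.prodMk (measurable_mul_K D measurable_const measurable_id)
      by_cases hb : j (y c).1.2 n = true
      · simp only [hb, iff_true]
        exact hm (Em n)
      · have e : {w : K D | ((c, res D (Sx c) (emb D γ) * w) ∈ E n ↔ j (y c).1.2 n = true)} =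
            {w : K D | (c, res D (Sx c) (emb D γ) * w) ∈ E n}ᶜ := by
          ext w
          exact iff_false_right hb
        rw [e]
        exact (hm (Em n)).compl
    have := hR.inv_full (Sx_infinite c) hEc (by
      intro γ w hw δ
      have := hw (δ * γ)
      rw [map_mul, map_mul, mul_assoc] at this
      exact this) (by
      filter_upwards [(h1 c).1, hy c] with u hu hu' γ
      set z := ψ c (pt D c u) with hz
      have hu'' : (g z).1.1.1 = (y c).1 := congrArg Subtype.val hu'
      have e1 : (f z).1.1 = (g z).1.1.1.1 := by rw [hu, hu'', hyc]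
      by_cases hb : j (y c).1.2 n = true
      · have := Et n γ z e1 (by rw [hu'']; exact hb)
        rw [hu] at this
        exact iff_of_true this hb
      · have := Ef n γ z e1 (by rw [hu'']; simpa using hb)
        rw [hu] at this
        exact iff_of_false this hb)
    filter_upwards [this] with v hv
    have h3 := hv 1
    rwa [map_one, map_one, one_mul] at h3
  -- measurability of the selector
  apply bad_not_uniformizable
  refine ⟨fun c => (y c).1.2, ?_, fun c => ?_⟩
  · have hje : MeasurableEmbedding j := hj.measurableEmbedding hji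
    rw [← hje.measurable_comp_iff]
    refine measurable_pi_lambda _ (fun n => ?_)
    have hset : ∀ c : Code, j (y c).1.2 n = true ↔
        mu D (Prod.mk c ⁻¹' {p : Code × K D | (p.1, res D (Sx p.1) p.2) ∈ E n}) ≠ 0 := by
      intro c
      constructor
      · intro hb hcon
        have h3 := key c n
        simp only [hb, iff_true] at h3
        rw [ae_iff] at h3
        have h4 : mu D (Set.univ : Set (K D)) = 0 := by
          refine measure_mono_null ?_ (measure_union_null hcon h3)
          intro v _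
          by_cases hv : (c, res D (Sx c) v) ∈ E n
          · exact Or.inl hv
          · exact Or.inr hv
        rw [measure_univ] at h4
        exact absurd h4 (by norm_num)
      · intro hne
        by_contra hb
        apply hne
        have h3 := key c n
        simp only [hb, iff_false] at h3
        rw [ae_iff] at h3
        refine measure_mono_null (fun v hv => ?_) h3
        simp only [Set.mem_ofPred_eq, not_not]
        exact hv
    have hEm : MeasurableSet {p : Code × K D | (p.1, res D (Sx p.1) p.2) ∈ E n} :=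
      (measurable_fst.prodMk (measurable_res_joint D measurable_fst measurable_snd)) (Em n)
    have hmeas : Measurable (fun c : Code =>
        mu D (Prod.mk c ⁻¹' {p : Code × K D | (p.1, res D (Sx p.1) p.2) ∈ E n})) :=
      measurable_measure_prodMk_left hEm
    refine measurable_to_bool ?_
    have : (fun c => (j ∘ fun c => (y c).1.2) c n) ⁻¹' {true} =
        {c : Code | mu D (Prod.mk c ⁻¹' {p : Code × K D | (p.1, res D (Sx p.1) p.2) ∈ E n}) ≠ 0} := by
      ext c
      exact hset c
    rw [this]
    exact (hmeas (MeasurableSet.singleton 0)).compl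
  · have h3 := (y c).2
    have h4 : (y c).1 = (c, (y c).1.2) := Prod.ext (hyc c) rfl
    rw [h4] at h3
    exact h3

end Pool.Agent.H60.Asm
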