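import Pool.Agent.H5.LL.Free

/-!
Module IV: gluing of two islands, nonemptiness.
-/

set_option autoImplicit false

namespace Pool.Agent.H60.LL

open Pool.Agent.H5.LL HTree

variable {T : Type} [HTree T]

theorem below_iter (V : T) (n : ℕ) : below V (up^[n] V) := ⟨n, rfl⟩

theorem below_trans {U V W : T} (h1 : below U V) (h2 : below V W) : below U W := by
  obtain ⟨n, rfl⟩ := h1
  obtain ⟨m, rfl⟩ := h2
  exact ⟨m + n, by rw [Function.iterate_add_apply]⟩

theorem below_up_of {V A : T} (h : below V A) : below (up V) (up A) := by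
  obtain ⟨n, rfl⟩ := h
  exact ⟨n, by rw [← Function.iterate_succ_apply, Function.iterate_succ_apply']⟩

theorem below_ch (V : T) (i : Q) : below (ch V i) V := ⟨1, by simp [up_ch]⟩

theorem below_mono {V A : T} {n m : ℕ} (hnm : n ≤ m) (h : below V (up^[n] A)) :
    below V (up^[m] A) := by
  obtain ⟨k, rfl⟩ := Nat.exists_eq_add_of_le hnm
  rw [add_comm, Function.iterate_add_apply]
  exact below_trans h (below_iter _ _)

theorem bgF_congr {K : Type} (ab bb : T → Sg → Q) (K0 Kb : T → T → K) (A B : T)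
    (hK : ∀ V w, 0 ≤ lev V + lev w → ¬ inBox A B V w → K0 V w = Kb V w) (V w : T)
    (hs : 0 ≤ lev V + lev w) (hb : ¬ inBox A B V w) : bgF ab bb K0 V w = bgF ab bb Kb V w := by
  have h1 : ∀ n, 0 ≤ lev (up^[n] V) + lev w := fun n => by rw [lev_iter]; omega
  have h2 : ∀ n, 0 ≤ lev V + lev (up^[n] w) := fun n => by rw [lev_iter]; omega
  have h3 : ∀ n m, 0 ≤ lev (up^[n] V) + lev (up^[m] w) := fun n m => by
    rw [lev_iter, lev_iter]; omega
  have e1 : ∀ n, K0 (up^[n] V) w = Kb (up^[n] V) w := fun n =>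
    hK _ _ (h1 n) fun h => hb ⟨below_trans (below_iter V n) h.1, h.2⟩
  have e2 : ∀ n, K0 V (up^[n] w) = Kb V (up^[n] w) := fun n =>
    hK _ _ (h2 n) fun h => hb ⟨h.1, below_trans (below_iter w n) h.2⟩
  have e3 : ∀ n m, K0 (up^[n] V) (up^[m] w) = Kb (up^[n] V) (up^[m] w) := fun n m =>
    hK _ _ (h3 n m) fun h => hb ⟨below_trans (below_iter V n) h.1, below_trans (below_iter w m) h.2⟩
  unfold bgF bend
  simp only [e1, e2, e3]

/-- the island at one place, from a configuration -/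
theorem island_at (hI : IslandThm T) (Kb : T → T → Cont) (s0 NT : ℕ)
    (hT : ∀ (A B : T) (Kx : T → T → Cont), lev A + lev B = s0 →
      KGood RC posC Kx → ∃ K0 : T → T → Cont, KGood RC posC K0 ∧
      (∀ V w, inBox A B V w → 0 ≤ lev V + lev w → K0 V w = Kx V w) ∧
      (∀ V w, 0 ≤ lev V + lev w → ¬ inBox (up^[NT] A) (up^[NT] B) V w → K0 V w = Kb V w))
    (N : ℕ) (hN : NT ≤ N) (A B : T) (hAB : lev A + lev B = s0) (x : T → T → Dat Cont)
    (F : T → T → Dat Cont) (α β : T → T → Sg → Q) (Kx : T → T → Cont)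
    (hF : IsFld RC F α β) (hFx : ∀ V w, lev V + lev w = 0 → F V w = x V w)
    (hK : IsK0 F α β Kx) (hG : KGood RC posC Kx)
    (a b : Sg → ℕ) (haN : ∀ x, a x < N) (hbN : ∀ x, b x < N) (ab bb : T → Sg → Q)
    (h1 : BGood ab) (h2 : BGood bb)
    (h3 : BCompat A a (lev A - s0) (fun V x => α V (up B) x) ab)
    (h4 : BCompat B b (lev B - s0) (fun w x => β (up A) w x) bb) :
    ∃ (F' : T → T → Dat Cont) (α' β' : T → T → Sg → Q), IsFld RC F' α' β' ∧
      (∀ V w, inBox A B V w → lev V + lev w = 0 → F' V w = x V w) ∧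
      (∀ V w, lev V + lev w = 1 → ∀ j y, ¬ SP (j + β' V w y) → posC ((F' V (ch w j)).T y).2) ∧
      ∀ V w, 0 ≤ lev V + lev w → ¬ inBox (up^[N] A) (up^[N] B) V w →
        F' V w = bgF ab bb Kb V w := by
  obtain ⟨K0, hK0, hK1, hK2⟩ := hT A B Kx hAB hG
  have e1 : lev A - s0 = -lev B := by omega
  have e2 : lev B - s0 = -lev A := by omega
  rw [e1] at h3
  rw [e2] at h4
  obtain ⟨F', α', β', hF', hF1, hF2, hF3⟩ := hI Cont RC posC RC_good2 RC_good1 A B F α β K0 a b
    ab bb (fun V w _ hs => hF V w hs) (by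
      intro V w hb hs x y hx hy
      rw [hK1 V w hb hs]
      exact hK V w hs x y hx hy) hK0 h1 h2 h3 h4
  refine ⟨F', α', β', hF', ?_, hF2, ?_⟩
  · intro V w hb hs
    rw [hF1 V w hb (by omega), hFx V w hs]
  · intro V w hs hb
    rw [(hF3 N (fun x => ⟨haN x, hbN x⟩) V w hb).1 hs]
    refine bgF_congr ab bb K0 Kb (up^[NT] A) (up^[NT] B) hK2 V w hs ?_
    intro h
    exact hb ⟨below_mono hN h.1, below_mono hN h.2⟩

theorem inBox_children {A B V w : T} {N : ℕ}
    (h : (∃ i, inBox (up^[N] A) (up^[N] B) (ch V i) w) ∨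
      (∃ j, inBox (up^[N] A) (up^[N] B) V (ch w j))) :
    (∀ i, inBox (up^[N + 1] A) (up^[N + 1] B) (ch V i) w) ∧
      (∀ j, inBox (up^[N + 1] A) (up^[N + 1] B) V (ch w j)) := by
  have key : below V (up^[N + 1] A) ∧ below w (up^[N + 1] B) := by
    rcases h with ⟨i, h1, h2⟩ | ⟨j, h1, h2⟩
    · refine ⟨?_, below_mono (Nat.le_succ N) h2⟩
      have := below_up_of h1
      rwa [up_ch, ← Function.iterate_succ_apply' up] at this
    · refine ⟨below_mono (Nat.le_succ N) h1, ?_⟩
      have := below_up_of h2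
      rwa [up_ch, ← Function.iterate_succ_apply' up] at this
  exact ⟨fun i => ⟨below_trans (below_ch V i) key.1, key.2⟩,
    fun j => ⟨key.1, below_trans (below_ch w j) key.2⟩⟩

/-- MODULE IV. -/
theorem glue (T : Type) [HTree T] (hI : IslandThm T) (hT : TruthThm T) (hL : LabelsThm T) :
    GlueThm T := by
  classical
  intro s0
  obtain ⟨Kb, -, hT⟩ := hT
  obtain ⟨NT, hT⟩ := hT s0
  obtain ⟨NL, hL⟩ := hL s0
  refine ⟨NT + NL + 1, ?_⟩
  intro x1 x2 hx1 hx2 A1 B1 A2 B2 hs1 hs2 hdis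
  obtain ⟨F1, α1, β1, K1, hF1, hFx1, hK1, hG1⟩ := hx1.exists_truth
  obtain ⟨F2, α2, β2, K2, hF2, hFx2, hK2, hG2⟩ := hx2.exists_truth
  obtain ⟨a1, a2, ab, haN, hab, hc1, hc2⟩ := hL A1 A2 (fun V x => α1 V (up B1) x)
    (fun V x => α2 V (up B2) x)
  obtain ⟨b1, b2, bb, hbN, hbb, hd1, hd2⟩ := hL B1 B2 (fun w x => β1 (up A1) w x)
    (fun w x => β2 (up A2) w x)
  obtain ⟨G1, γ1, δ1, hG1', hG1x, hG1p, hG1b⟩ := island_at hI Kb s0 NT hT (NT + NL) (by omega)
    A1 B1 hs1 x1 F1 α1 β1 K1 hF1 hFx1 hK1 hG1 a1 b1 (fun x => by have := (haN x).1; omega)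
    (fun x => by have := (hbN x).1; omega) ab bb hab hbb hc1 hd1
  obtain ⟨G2, γ2, δ2, hG2', hG2x, hG2p, hG2b⟩ := island_at hI Kb s0 NT hT (NT + NL) (by omega)
    A2 B2 hs2 x2 F2 α2 β2 K2 hF2 hFx2 hK2 hG2 a2 b2 (fun x => by have := (haN x).2; omega)
    (fun x => by have := (hbN x).2; omega) ab bb hab hbb hc2 hd2
  let z : T → T → Dat Cont := fun V w =>
    if inBox (up^[NT + NL] A1) (up^[NT + NL] B1) V w then G1 V w else G2 V w
  have hz1 : ∀ V w, inBox (up^[NT + NL] A1) (up^[NT + NL] B1) V w → z V w = G1 V w :=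
    fun V w h => if_pos h
  have hz2 : ∀ V w, ¬ inBox (up^[NT + NL] A1) (up^[NT + NL] B1) V w → z V w = G2 V w :=
    fun V w h => if_neg h
  have hz3 : ∀ V w, 0 ≤ lev V + lev w → ¬ inBox (up^[NT + NL] A2) (up^[NT + NL] B2) V w →
      z V w = G1 V w := by
    intro V w hs h
    by_cases h1 : inBox (up^[NT + NL] A1) (up^[NT + NL] B1) V w
    · exact hz1 V w h1
    · rw [hz2 V w h1, hG2b V w hs h, hG1b V w hs h1]
  refine ⟨z, ?_, ?_, ?_⟩
  · intro V w hs
    by_cases hc : (∃ i, inBox (up^[NT + NL] A1) (up^[NT + NL] B1) (ch V i) w) ∨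
      (∃ j, inBox (up^[NT + NL] A1) (up^[NT + NL] B1) V (ch w j))
    · obtain ⟨k1, k2⟩ := inBox_children hc
      have hno : ¬ ((∃ i, inBox (up^[NT + NL] A2) (up^[NT + NL] B2) (ch V i) w) ∨
          (∃ j, inBox (up^[NT + NL] A2) (up^[NT + NL] B2) V (ch w j))) := by
        intro hc2
        obtain ⟨k3, -⟩ := inBox_children hc2
        exact hdis (ch V 0) w (by rw [lev_ch]; omega) (k1 0) (k3 0)
      rw [not_or, not_exists, not_exists] at hno
      have e1 : (fun i => z (ch V i) w) = fun i => G1 (ch V i) w := by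
        funext i
        exact hz3 _ _ (by rw [lev_ch]; omega) (hno.1 i)
      have e2 : (fun j => z V (ch w j)) = fun j => G1 V (ch w j) := by
        funext j
        exact hz3 _ _ (by rw [lev_ch]; omega) (hno.2 j)
      refine ⟨γ1 V w, δ1 V w, G1 V w, ?_, ?_⟩
      · rw [e1, e2]
        exact hG1' V w (by omega)
      · intro j y hj
        have := congrFun e2 j
        rw [this]
        exact hG1p V w hs j y hj
    · rw [not_or, not_exists, not_exists] at hc
      have e1 : (fun i => z (ch V i) w) = fun i => G2 (ch V i) w := by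
        funext i
        exact hz2 _ _ (hc.1 i)
      have e2 : (fun j => z V (ch w j)) = fun j => G2 V (ch w j) := by
        funext j
        exact hz2 _ _ (hc.2 j)
      refine ⟨γ2 V w, δ2 V w, G2 V w, ?_, ?_⟩
      · rw [e1, e2]
        exact hG2' V w (by omega)
      · intro j y hj
        have := congrFun e2 j
        rw [this]
        exact hG2p V w hs j y hj
  · intro V w hs hb
    rw [hz1 V w ⟨below_trans hb.1 (below_iter _ _), below_trans hb.2 (below_iter _ _)⟩]
    exact hG1x V w hb hs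
  · intro V w hs hb
    have hb2 : inBox (up^[NT + NL + 1] A2) (up^[NT + NL + 1] B2) V w :=
      ⟨below_trans hb.1 (below_iter _ _), below_trans hb.2 (below_iter _ _)⟩
    rw [hz2 V w fun h => hdis V w hs ⟨below_mono (Nat.le_succ _) h.1,
      below_mono (Nat.le_succ _) h.2⟩ hb2]
    exact hG2x V w hb hs

theorem BCompat.mono {A : T} {a : Sg → ℕ} {m m' : ℤ} {g : T → Sg → Q} {ab : T → Sg → Q}
    (h : BCompat A a m g ab) (hm : m ≤ m') : BCompat A a m' g ab :=
  ⟨h.pos, h.exc, fun V hV h1 => h.dist V hV (hm.trans h1)⟩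

/-- MODULE IV'. -/
theorem nonempty (T : Type) [HTree T] (hI : IslandThm T) (hT : TruthThm T) (hL : LabelsThm T) :
    NonemptyThm T := by
  classical
  let c0 : Cont := mkC 0 0 0 (by norm_num)
  let D0 : Dat Cont := ⟨fun _ => (0, c0), fun _ => (0, c0), fun _ _ => c0⟩
  by_cases hne : Nonempty T
  · obtain ⟨A⟩ := hne
    have hdesc : ∀ n : ℕ, lev ((fun u : T => ch u 0)^[n] A) = lev A - n := by
      intro n
      induction n with
      | zero => simp
      | succ n ih =>
        rw [Function.iterate_succ_apply', lev_ch, ih]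
        push_cast
        ring
    let n : ℕ := (2 * lev A + 4).toNat
    let B : T := (fun u : T => ch u 0)^[n] A
    have hB : lev A + lev B ≤ -4 := by
      have : lev B = lev A - n := hdesc n
      omega
    obtain ⟨Kb, hKb, -⟩ := hT
    obtain ⟨NL, hL⟩ := hL 0
    obtain ⟨a, a', ab, -, hab, hc, -⟩ := hL A A (fun _ _ => 0) (fun _ _ => 0)
    obtain ⟨b, b', bb, -, hbb, hd, -⟩ := hL B B (fun _ _ => 0) (fun _ _ => 0)
    have hlev : ∀ {V w : T}, inBox (up A) (up B) V w → lev V + lev w < 0 := by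
      rintro V w ⟨⟨n1, h1⟩, ⟨n2, h2⟩⟩
      have k1 := congrArg lev h1
      have k2 := congrArg lev h2
      rw [lev_iter, lev_up] at k1 k2
      omega
    obtain ⟨F', α', β', hF', -, hp, -⟩ := hI Cont RC posC RC_good2 RC_good1 A B (fun _ _ => D0)
      (fun _ _ _ => 0) (fun _ _ _ => 0) Kb a b ab bb (by
        intro V w hb hs
        have := hlev hb
        omega) (by
        intro V w hb hs
        have := hlev (V := V) (w := w) ⟨below_trans hb.1 (below_iter A 1),
          below_trans hb.2 (below_iter B 1)⟩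
        omega) hKb hab hbb
        (BCompat.mono hc (by push_cast; omega)) (BCompat.mono hd (by push_cast; omega))
    refine ⟨F', fun V w hs => ⟨α' V w, β' V w, F' V w, hF' V w (by omega), hp V w hs⟩⟩
  · exact ⟨fun _ _ => D0, fun V => absurd ⟨V⟩ hne⟩

end Pool.Agent.H60.LL
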