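import Pool.Agent.H5.LL.Spec

/-!
Module III: background labels of one tree for two islands.
-/

set_option autoImplicit false

namespace Pool.Agent.H60.LL

open Pool.Agent.H5.LL HTree

/-- Greedy choice of labels at one vertex. -/
theorem choose_labels (F : Sg → Finset Q) (hF : ∀ x, (F x).card ≤ 40) (x0 : Sg) (v0 : Q) :
    ∃ a : Sg → Q, a x0 = v0 ∧ (∀ x x', x ≠ x' → ¬ SP (a x + a x')) ∧ ∀ x, x ≠ x0 → a x ∉ F x := by
  classical
  have key : ∀ s : Finset Sg, x0 ∉ s → ∃ a : Sg → Q, a x0 = v0 ∧
      (∀ x ∈ insert x0 s, ∀ x' ∈ insert x0 s, x ≠ x' → ¬ SP (a x + a x')) ∧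
      ∀ x ∈ s, a x ∉ F x := by
    intro s
    induction s using Finset.induction_on with
    | empty =>
      intro _
      refine ⟨fun _ => v0, rfl, ?_, ?_⟩
      · intro x hx x' hx' hne
        simp only [Finset.insert_empty, Finset.mem_singleton] at hx hx'
        exact absurd (hx.trans hx'.symm) hne
      · intro x hx
        exact absurd hx (Finset.notMem_empty x)
    | insert y s hy ih =>
      intro hx0
      have h1 : x0 ∉ s := fun h => hx0 (Finset.mem_insert_of_mem h)
      have h2 : x0 ≠ y := fun h => hx0 (h ▸ Finset.mem_insert_self _ _)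
      obtain ⟨a, ha0, ha1, ha2⟩ := ih h1
      obtain ⟨v, hv⟩ := exists_avoid (F y ∪ ((insert x0 s).image a ∪
          (insert x0 s).image (fun x => a x + e0))) (by
        have c1 := hF y
        have c2 : (insert x0 s).card ≤ 6 := (Finset.card_le_univ _).trans (by simp)
        have c3 : ((insert x0 s).image a).card ≤ 6 := Finset.card_image_le.trans c2
        have c4 : ((insert x0 s).image (fun x => a x + e0)).card ≤ 6 :=
          Finset.card_image_le.trans c2
        have c5 := Finset.card_union_le (F y) ((insert x0 s).image a ∪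
          (insert x0 s).image (fun x => a x + e0))
        have c6 := Finset.card_union_le ((insert x0 s).image a)
          ((insert x0 s).image (fun x => a x + e0))
        omega)
      simp only [Finset.mem_union, not_or, Finset.mem_image, not_exists, not_and] at hv
      obtain ⟨hv1, hv2, hv3⟩ := hv
      have hyv : ∀ x, x ≠ y → Function.update a y v x = a x := fun x hx =>
        Function.update_of_ne hx _ _
      have hyy : Function.update a y v y = v := Function.update_self _ _ _
      have hdist : ∀ x ∈ insert x0 s, ¬ SP (v + a x) := by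
        intro x hx
        rw [not_SP_iff]
        exact ⟨fun h => hv2 x hx h.symm, fun h => hv3 x hx h.symm⟩
      have hmem : ∀ x ∈ insert x0 (insert y s), x ≠ y → x ∈ insert x0 s := by
        intro x hx hxy
        simp only [Finset.mem_insert] at hx ⊢
        rcases hx with h | h | h
        · exact Or.inl h
        · exact absurd h hxy
        · exact Or.inr h
      refine ⟨Function.update a y v, ?_, ?_, ?_⟩
      · rw [hyv x0 h2, ha0]
      · intro x hx x' hx' hne
        by_cases hxy : x = y
        · subst hxy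
          rw [hyy, hyv x' (Ne.symm hne)]
          exact hdist x' (hmem x' hx' (Ne.symm hne))
        · by_cases hxy' : x' = y
          · subst hxy'
            rw [hyy, hyv x hxy, add_comm]
            exact hdist x (hmem x hx hxy)
          · rw [hyv x hxy, hyv x' hxy']
            exact ha1 x (hmem x hx hxy) x' (hmem x' hx' hxy') hne
      · intro x hx
        by_cases hxy : x = y
        · subst hxy
          rw [hyy]
          exact hv1
        · rw [hyv x hxy]
          exact ha2 x ((Finset.mem_insert.1 hx).resolve_left hxy)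
  obtain ⟨a, h1, h2, h3⟩ := key (Finset.univ.erase x0) (Finset.notMem_erase _ _)
  refine ⟨a, h1, fun x x' => h2 x ?_ x' ?_, fun x hx => h3 x ?_⟩
  · simp
  · simp
  · simp [hx]

variable {T : Type} [HTree T]

theorem lev_up_iter (V : T) (n : ℕ) : lev (up^[n] V) = lev V + n := by
  induction n with
  | zero => simp
  | succ n ih =>
    rw [Function.iterate_succ_apply', lev_up, ih]
    push_cast
    ring

open Classical in
/-- forbidden values -/
noncomputable def forb (A : T) (g1 g2 : T → Sg → Q) (V : T) : Finset Q :=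
  (((Finset.univ.image (fun x => g1 V x)) ∪ (Finset.univ.image (fun x => g1 V x + e0))) ∪
  ((Finset.univ.image (fun x => g2 V x)) ∪ (Finset.univ.image (fun x => g2 V x + e0)))) ∪
  (if h : ∃ j : ℕ, V = up^[j + 1] A then {idx (up^[h.choose] A)} else ∅)

theorem forb_card (A : T) (g1 g2 : T → Sg → Q) (V : T) : (forb A g1 g2 V).card ≤ 25 := by
  classical
  have c : ∀ f : Sg → Q, (Finset.univ.image f).card ≤ 6 := fun f =>
    Finset.card_image_le.trans (by simp)
  have c1 := c (fun x => g1 V x)
  have c2 := c (fun x => g1 V x + e0)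
  have c3 := c (fun x => g2 V x)
  have c4 := c (fun x => g2 V x + e0)
  have c5 : (if h : ∃ j : ℕ, V = up^[j + 1] A then ({idx (up^[h.choose] A)} : Finset Q)
      else ∅).card ≤ 1 := by
    split_ifs
    · simp
    · simp
  unfold forb
  refine (Finset.card_union_le _ _).trans ?_
  have d1 := Finset.card_union_le (Finset.univ.image (fun x => g1 V x))
    (Finset.univ.image (fun x => g1 V x + e0))
  have d2 := Finset.card_union_le (Finset.univ.image (fun x => g2 V x))
    (Finset.univ.image (fun x => g2 V x + e0))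
  have d3 := Finset.card_union_le ((Finset.univ.image (fun x => g1 V x)) ∪
    (Finset.univ.image (fun x => g1 V x + e0))) ((Finset.univ.image (fun x => g2 V x)) ∪
    (Finset.univ.image (fun x => g2 V x + e0)))
  omega

theorem forb_g1 {A : T} {g1 g2 : T → Sg → Q} {V : T} {a : Q} (h : a ∉ forb A g1 g2 V) (x : Sg) :
    ¬ SP (a + g1 V x) := by
  classical
  rw [not_SP_iff]
  constructor
  · rintro rfl
    apply h
    unfold forb
    simp only [Finset.mem_union, Finset.mem_image, Finset.mem_univ, true_and]
    exact Or.inl (Or.inl (Or.inl ⟨x, rfl⟩))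
  · rintro rfl
    apply h
    unfold forb
    simp only [Finset.mem_union, Finset.mem_image, Finset.mem_univ, true_and]
    exact Or.inl (Or.inl (Or.inr ⟨x, rfl⟩))

theorem forb_g2 {A : T} {g1 g2 : T → Sg → Q} {V : T} {a : Q} (h : a ∉ forb A g1 g2 V) (x : Sg) :
    ¬ SP (a + g2 V x) := by
  classical
  rw [not_SP_iff]
  constructor
  · rintro rfl
    apply h
    unfold forb
    simp only [Finset.mem_union, Finset.mem_image, Finset.mem_univ, true_and]
    exact Or.inl (Or.inr (Or.inl ⟨x, rfl⟩))
  · rintro rfl
    apply h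
    unfold forb
    simp only [Finset.mem_union, Finset.mem_image, Finset.mem_univ, true_and]
    exact Or.inl (Or.inr (Or.inr ⟨x, rfl⟩))

theorem forb_idx {A : T} {g1 g2 : T → Sg → Q} {j : ℕ} {a : Q}
    (h : a ∉ forb A g1 g2 (up^[j + 1] A)) : idx (up^[j] A) + a ≠ 0 := by
  classical
  intro h0
  apply h
  have he : ∃ j' : ℕ, up^[j + 1] A = up^[j' + 1] A := ⟨j, rfl⟩
  have hj : he.choose = j := by
    have h1 := congrArg lev he.choose_spec
    rw [lev_up_iter, lev_up_iter] at h1
    push_cast at h1
    omega
  unfold forb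
  simp only [Finset.mem_union]
  right
  rw [dif_pos he, Finset.mem_singleton, hj]
  exact (Q.add_eq_zero_iff.1 h0).symm

theorem labels_aux (s0 : ℕ) (A1 A2 : T) (a1 a2 : Sg → ℕ) (g1 g2 : T → Sg → Q)
    (i1 : Function.Injective a1) (i2 : Function.Injective a2)
    (p1 : ∀ x, 1 ≤ a1 x) (p2 : ∀ x, 1 ≤ a2 x)
    (h12 : ∀ x x', lev A1 + a1 x ≠ lev A2 + a2 x')
    (z12 : ∀ x, ¬ (lev A2 - s0 ≤ lev A1 + a1 x + 1 ∧ lev A1 + a1 x + 1 ≤ lev A2 + 1))
    (z21 : ∀ x, ¬ (lev A1 - s0 ≤ lev A2 + a2 x + 1 ∧ lev A2 + a2 x + 1 ≤ lev A1 + 1)) :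
    ∃ ab : T → Sg → Q, BGood ab ∧ BCompat A1 a1 (lev A1 - s0) g1 ab ∧
      BCompat A2 a2 (lev A2 - s0) g2 ab := by
  classical
  have key : ∀ V : T, ∃ a : Sg → Q, (∀ x x', x ≠ x' → ¬ SP (a x + a x')) ∧
      (∀ x, V = up^[a1 x + 1] A1 → a x = idx (up^[a1 x] A1) + e0) ∧
      (∀ x, V = up^[a2 x + 1] A2 → a x = idx (up^[a2 x] A2) + e0) ∧
      ((∀ x, lev V ≠ lev A1 + a1 x + 1 ∧ lev V ≠ lev A2 + a2 x + 1) →
        ∀ x, a x ∉ forb A1 g1 g2 V) := by
    intro V
    have l1 : ∀ x, V = up^[a1 x + 1] A1 → lev V = lev A1 + a1 x + 1 := by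
      intro x h
      rw [h, lev_up_iter]; push_cast; ring
    have l2 : ∀ x, V = up^[a2 x + 1] A2 → lev V = lev A2 + a2 x + 1 := by
      intro x h
      rw [h, lev_up_iter]; push_cast; ring
    by_cases f1 : ∃ x, V = up^[a1 x + 1] A1
    · obtain ⟨x0, hx0⟩ := f1
      obtain ⟨a, ha0, ha1, -⟩ := choose_labels (fun _ => ∅) (fun _ => by simp) x0
        (idx (up^[a1 x0] A1) + e0)
      refine ⟨a, ha1, ?_, ?_, ?_⟩
      · intro x hx
        have : x = x0 := by
          apply i1
          have e1 := l1 x hx
          have e2 := l1 x0 hx0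
          omega
        rw [this, ha0]
      · intro x hx
        have e1 := l2 x hx
        have e2 := l1 x0 hx0
        exact absurd (by omega) (h12 x0 x)
      · intro h
        exact absurd (l1 x0 hx0) (h x0).1
    · by_cases f2 : ∃ x, V = up^[a2 x + 1] A2
      · obtain ⟨x0, hx0⟩ := f2
        obtain ⟨a, ha0, ha1, -⟩ := choose_labels (fun _ => ∅) (fun _ => by simp) x0
          (idx (up^[a2 x0] A2) + e0)
        refine ⟨a, ha1, ?_, ?_, ?_⟩
        · intro x hx
          exact absurd ⟨x, hx⟩ f1
        · intro x hx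
          have : x = x0 := by
            apply i2
            have e1 := l2 x hx
            have e2 := l2 x0 hx0
            omega
          rw [this, ha0]
        · intro h
          exact absurd (l2 x0 hx0) (h x0).2
      · obtain ⟨v0, hv0⟩ := exists_avoid (forb A1 g1 g2 V) (by
          have := forb_card A1 g1 g2 V
          omega)
        obtain ⟨a, ha0, ha1, ha2⟩ := choose_labels (fun _ => forb A1 g1 g2 V) (fun _ => by
          have := forb_card A1 g1 g2 V
          omega) 0 v0
        refine ⟨a, ha1, fun x hx => absurd ⟨x, hx⟩ f1, fun x hx => absurd ⟨x, hx⟩ f2, ?_⟩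
        intro _ x
        by_cases hx : x = 0
        · rw [hx, ha0]; exact hv0
        · exact ha2 x hx
  choose ab k1 k2 k3 k4 using key
  have zone : ∀ (A V : T), (below V A ∨ V = up A) → lev V ≤ lev A + 1 := by
    rintro A V (⟨n, hn⟩ | h)
    · have := congrArg lev hn
      rw [lev_up_iter] at this
      omega
    · rw [h, lev_up]
  refine ⟨ab, ⟨fun V x x' => k1 V x x', ?_⟩, ⟨p1, ?_, ?_⟩, ⟨p2, ?_, ?_⟩⟩
  · -- finite runs
    intro V x
    obtain ⟨m, m', hm⟩ := conn V A1
    obtain ⟨S, hS⟩ : ∃ S : ℕ, ∀ x, a1 x ≤ S ∧ a2 x ≤ S :=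
      ⟨Finset.univ.sup a1 + Finset.univ.sup a2, fun x =>
        ⟨(Finset.le_sup (Finset.mem_univ x)).trans (Nat.le_add_right _ _),
          (Finset.le_sup (Finset.mem_univ x)).trans (Nat.le_add_left _ _)⟩⟩
    refine ⟨m + S + (lev A1 - lev V).natAbs + (lev A2 - lev V).natAbs + 1, fun n hn => ?_⟩
    have e1 : up^[n] V = up^[n - m + m'] A1 := by
      have : n = (n - m) + m := by omega
      rw [this, Function.iterate_add_apply, hm, ← Function.iterate_add_apply]
      congr 1
      omega
    have e2 : up^[n + 1] V = up^[(n - m + m') + 1] A1 := by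
      rw [Function.iterate_succ_apply', e1, ← Function.iterate_succ_apply' up]
    unfold blab
    rw [e1, e2]
    apply forb_idx (A := A1) (g1 := g1) (g2 := g2)
    apply k4
    intro x'
    rw [← e2, lev_up_iter]
    have := hS x'
    push_cast
    constructor <;> omega
  · intro x
    rw [k2 (up^[a1 x + 1] A1) x rfl, ← add_assoc, Q.add_self, zero_add]
  · intro V hV hm x x' hne
    refine forb_g1 (k4 V ?_ x') x
    intro y
    have h1 := zone A1 V hV
    have h2 := p1 y
    have h3 := z21 y
    constructor
    · omega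
    · intro h
      exact h3 ⟨by omega, by omega⟩
  · intro x
    rw [k3 (up^[a2 x + 1] A2) x rfl, ← add_assoc, Q.add_self, zero_add]
  · intro V hV hm x x' hne
    refine forb_g2 (k4 V ?_ x') x
    intro y
    have h1 := zone A2 V hV
    have h2 := p2 y
    have h3 := z12 y
    constructor
    · intro h
      exact h3 ⟨by omega, by omega⟩
    · omega

/-- MODULE III. -/
theorem labels (T : Type) [HTree T] : LabelsThm T := by
  intro s0
  refine ⟨3 * s0 + 60, fun A1 A2 g1 g2 => ?_⟩
  by_cases hn : (s0 : ℤ) + 8 < |lev A2 - lev A1|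
  · obtain ⟨ab, h⟩ := labels_aux s0 A1 A2 (fun x => 1 + x.val) (fun x => 1 + x.val) g1 g2
      (fun x y h => Fin.ext (by simpa using h)) (fun x y h => Fin.ext (by simpa using h))
      (fun x => by simp) (fun x => by simp) (by
        intro x x'
        have := x.isLt
        have := x'.isLt
        push_cast
        rcases abs_cases (lev A2 - lev A1) with ⟨h, _⟩ | ⟨h, _⟩ <;> rw [h] at hn <;> omega) (by
        intro x
        have := x.isLt
        push_cast
        rcases abs_cases (lev A2 - lev A1) with ⟨h, _⟩ | ⟨h, _⟩ <;> rw [h] at hn <;> omega) (by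
        intro x
        have := x.isLt
        push_cast
        rcases abs_cases (lev A2 - lev A1) with ⟨h, _⟩ | ⟨h, _⟩ <;> rw [h] at hn <;> omega)
    refine ⟨_, _, ab, fun x => ?_, h⟩
    have := x.isLt
    constructor <;> omega
  · rw [not_lt, abs_le] at hn
    obtain ⟨ab, h⟩ := labels_aux s0 A1 A2 (fun x => s0 + 9 + x.val)
      (fun x => 3 * s0 + 47 + x.val) g1 g2
      (fun x y h => Fin.ext (by simpa using h)) (fun x y h => Fin.ext (by simpa using h))
      (fun x => by omega) (fun x => by omega) (by
        intro x x'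
        have := x.isLt
        have := x'.isLt
        push_cast
        omega) (by
        intro x
        have := x.isLt
        push_cast
        omega) (by
        intro x
        have := x.isLt
        push_cast
        omega)
    refine ⟨_, _, ab, fun x => ?_, h⟩
    have := x.isLt
    constructor <;> omega

end Pool.Agent.H60.LL
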