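import Mathlib

set_option autoImplicit false

namespace Pool.Agent.H60.Lamp

open Function

/-! ## The wreath product as a group on pairs -/

/-- shift of a finitely supported function: `(sh n f) i = f (i - n)` -/
noncomputable def sh {A : Type} [AddCommGroup A] (n : ℤ) (f : ℤ →₀ A) : ℤ →₀ A :=
  Finsupp.equivMapDomain (Equiv.addRight n) f

section sh
variable {A : Type} [AddCommGroup A]

@[simp] theorem sh_apply (n : ℤ) (f : ℤ →₀ A) (i : ℤ) : sh n f i = f (i - n) := by
  simp [sh, Finsupp.equivMapDomain_apply, sub_eq_add_neg]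

@[simp] theorem sh_zero_left (f : ℤ →₀ A) : sh 0 f = f := by
  ext i; simp

theorem sh_sh (m n : ℤ) (f : ℤ →₀ A) : sh m (sh n f) = sh (m + n) f := by
  ext i; simp [sub_sub]

theorem sh_add (n : ℤ) (f g : ℤ →₀ A) : sh n (f + g) = sh n f + sh n g := by
  ext i; simp

@[simp] theorem sh_zero (n : ℤ) : sh n (0 : ℤ →₀ A) = 0 := by
  ext i; simp

theorem sh_neg (n : ℤ) (f : ℤ →₀ A) : sh n (-f) = -sh n f := by
  ext i; simp

theorem sh_single (n m : ℤ) (a : A) : sh n (Finsupp.single m a) = Finsupp.single (m + n) a := by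
  ext i
  simp only [sh_apply, Finsupp.single_apply]
  by_cases h : m + n = i
  · subst h; simp
  · have h' : ¬ m = i - n := fun h' => h (by omega)
    simp [h, h']

theorem sh_inj {n : ℤ} {f g : ℤ →₀ A} (h : sh n f = sh n g) : f = g := by
  have := congrArg (sh (-n)) h
  simpa [sh_sh] using this

end sh

/-- the wreath product `A ≀ ℤ` -/
@[ext] structure WL (A : Type) [AddCommGroup A] where
  n : ℤ
  f : ℤ →₀ A

namespace WL
variable {A : Type} [AddCommGroup A]

noncomputable instance : Mul (WL A) := ⟨fun a b => ⟨a.n + b.n, a.f + sh a.n b.f⟩⟩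
noncomputable instance : One (WL A) := ⟨⟨0, 0⟩⟩
noncomputable instance : Inv (WL A) := ⟨fun a => ⟨-a.n, -sh (-a.n) a.f⟩⟩

@[simp] theorem mul_n (a b : WL A) : (a * b).n = a.n + b.n := rfl
@[simp] theorem mul_f (a b : WL A) : (a * b).f = a.f + sh a.n b.f := rfl
@[simp] theorem one_n : (1 : WL A).n = 0 := rfl
@[simp] theorem one_f : (1 : WL A).f = 0 := rfl
@[simp] theorem inv_n (a : WL A) : (a⁻¹).n = -a.n := rfl
@[simp] theorem inv_f (a : WL A) : (a⁻¹).f = -sh (-a.n) a.f := rfl

noncomputable instance : Group (WL A) :=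
  Group.ofLeftAxioms
    (by
      intro a b c
      apply WL.ext
      · simp [add_assoc]
      · simp [add_assoc, sh_add, sh_sh])
    (by
      intro a
      apply WL.ext
      · simp
      · simp)
    (by
      intro a
      apply WL.ext
      · simp
      · simp)

end WL

/-! ## Abstract SFT property -/

/-- `G` has a nonempty, free, mixing SFT (rule given by a local predicate). -/
def MixAp (G : Type) [Group G] : Prop :=
  ∃ (D : Type) (_ : Finite D) (F : Finset G) (R : (G → D) → Prop),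
    (∀ p p' : G → D, (∀ h ∈ F, p h = p' h) → R p → R p') ∧
    (∃ x : G → D, ∀ g : G, R (fun h => x (g * h))) ∧
    (∀ x : G → D, (∀ g : G, R (fun h => x (g * h))) →
      ∀ g : G, (∀ h : G, x (g⁻¹ * h) = x h) → g = 1) ∧
    (∀ x y : G → D, (∀ g : G, R (fun h => x (g * h))) → (∀ g : G, R (fun h => y (g * h))) →
      ∀ W : Finset G, ∃ C : Set G, C.Finite ∧ ∀ g : G, g ∉ C →
        ∃ z : G → D, (∀ g' : G, R (fun h => z (g' * h))) ∧
          (∀ h ∈ W, z h = x h) ∧ (∀ h ∈ W, z (g⁻¹ * h) = y h))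

/-- the frozen form, for an abstract group -/
def MixFin (G : Type) [Group G] : Prop :=
    ∃ k : ℕ, ∃ F : Finset G, ∃ P : Set (F → Fin k),
      (∃ x : G → Fin k, ∀ g : G, (fun h : F => x (g * (h : G))) ∈ P) ∧
      (∀ x : G → Fin k, (∀ g : G, (fun h : F => x (g * (h : G))) ∈ P) →
        ∀ g : G, (∀ h : G, x (g⁻¹ * h) = x h) → g = 1) ∧
      (∀ x y : G → Fin k,
        (∀ g : G, (fun h : F => x (g * (h : G))) ∈ P) →
        (∀ g : G, (fun h : F => y (g * (h : G))) ∈ P) →
        ∀ W : Finset G, ∃ C : Finset G, ∀ g : G, g ∉ C →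
          ∃ z : G → Fin k, (∀ g' : G, (fun h : F => z (g' * (h : G))) ∈ P) ∧
            (∀ h ∈ W, z h = x h) ∧ (∀ h ∈ W, z (g⁻¹ * h) = y h))

theorem MixAp.toFin {G : Type} [Group G] (H : MixAp G) : MixFin G := by
  classical
  obtain ⟨D, hD, F, R, hloc, hne, hfr, hmx⟩ := H
  obtain ⟨k, ⟨e⟩⟩ := Finite.exists_equiv_fin D
  refine ⟨k, F, {p | ∃ q : G → D, R q ∧ ∀ h : F, e (q h) = p h}, ?_, ?_, ?_⟩
  · obtain ⟨x, hx⟩ := hne
    exact ⟨fun g => e (x g), fun g => ⟨fun h => x (g * h), hx g, fun h => rfl⟩⟩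
  all_goals
    have key : ∀ x : G → Fin k, (∀ g : G, (fun h : F => x (g * (h : G))) ∈
        {p : F → Fin k | ∃ q : G → D, R q ∧ ∀ h : F, e (q h) = p h}) →
        ∀ g : G, R (fun h => (fun u => e.symm (x u)) (g * h)) := by
      intro x hx g
      obtain ⟨q, hq, hq'⟩ := hx g
      refine hloc q _ ?_ hq
      intro h hh
      have := hq' ⟨h, hh⟩
      simp only at this
      simp [← this]
  · intro x hx g hg
    exact hfr (fun u => e.symm (x u)) (key x hx) g (fun h => by simp only [hg h])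
  · intro x y hx hy W
    obtain ⟨C, hC, hC'⟩ := hmx (fun u => e.symm (x u)) (fun u => e.symm (y u)) (key x hx) (key y hy) W
    refine ⟨hC.toFinset, fun g hg => ?_⟩
    obtain ⟨z, hz, hz1, hz2⟩ := hC' g (by simpa using hg)
    refine ⟨fun u => e (z u), fun g' => ⟨fun h => z (g' * h), hz g', fun h => rfl⟩, ?_, ?_⟩
    · intro h hh; simp [hz1 h hh]
    · intro h hh; simp [hz2 h hh]

/-- transport along an isomorphism -/
theorem MixAp.ofEquiv {G Γ : Type} [Group G] [Group Γ] (e : G ≃* Γ) (H : MixAp Γ) : MixAp G := by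
  classical
  obtain ⟨D, hD, F, R, hloc, hne, hfr, hmx⟩ := H
  have key : ∀ x : G → D, (∀ g : G, R (fun h => x (g * e.symm h))) →
      ∀ g : Γ, R (fun h => (fun u => x (e.symm u)) (g * h)) := by
    intro x hx g
    have := hx (e.symm g)
    simpa using this
  refine ⟨D, hD, F.image e.symm, fun p => R (fun h => p (e.symm h)), ?_, ?_, ?_, ?_⟩
  · intro p p' hp hR
    refine hloc _ _ ?_ hR
    intro h hh
    exact hp _ (Finset.mem_image_of_mem _ hh)
  · obtain ⟨x, hx⟩ := hne
    refine ⟨fun g => x (e g), fun g => ?_⟩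
    have := hx (e g)
    simpa using this
  · intro x hx g hg
    have := hfr (fun u => x (e.symm u)) (key x hx) (e g) (fun h => by
      have := hg (e.symm h)
      simpa using this)
    simpa using this
  · intro x y hx hy W
    obtain ⟨C, hC, hC'⟩ := hmx (fun u => x (e.symm u)) (fun u => y (e.symm u))
      (key x hx) (key y hy) (W.image e)
    refine ⟨e ⁻¹' C, hC.preimage (e.injective.injOn), fun g hg => ?_⟩
    obtain ⟨z, hz, hz1, hz2⟩ := hC' (e g) hg
    refine ⟨fun u => z (e u), fun g' => ?_, ?_, ?_⟩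
    · have := hz (e g')
      simpa using this
    · intro h hh
      have := hz1 (e h) (Finset.mem_image_of_mem _ hh)
      simpa using this
    · intro h hh
      have := hz2 (e h) (Finset.mem_image_of_mem _ hh)
      simpa using this

/-- free extension from a finite-index subgroup -/
theorem MixAp.extend {H L : Type} [Group H] [Group L] (ι : H →* L) (hι : Injective ι)
    (hfin : Finite (L ⧸ ι.range))
    (htor : ∀ g : L, g ∉ ι.range → ∃ m : ℕ, g ^ m ∈ ι.range ∧ g ^ m ≠ 1)
    (hH : MixAp H) : MixAp L := by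
  classical
  obtain ⟨D, hD, F, R, hloc, hne, hfr, hmx⟩ := hH
  -- decomposition l = rep l * ι (co l)
  let rep : L → L := fun l => (QuotientGroup.mk l : L ⧸ ι.range).out
  have hrep : ∀ l : L, ∃ h : H, ι h = (rep l)⁻¹ * l := by
    intro l
    have : (QuotientGroup.mk (rep l) : L ⧸ ι.range) = QuotientGroup.mk l := by
      simp [rep]
    rw [QuotientGroup.eq] at this
    exact this
  choose co hco using hrep
  have hdec : ∀ l : L, l = rep l * ι (co l) := by
    intro l; rw [hco l]; group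
  have hrepmul : ∀ (l : L) (h : H), rep (l * ι h) = rep l := by
    intro l h
    have : (QuotientGroup.mk (l * ι h) : L ⧸ ι.range) = QuotientGroup.mk l := by
      rw [QuotientGroup.eq]
      refine ⟨h⁻¹, ?_⟩
      simp
    simp only [rep, this]
  have hcomul : ∀ (l : L) (h : H), co (l * ι h) = co l * h := by
    intro l h
    apply hι
    rw [hco, hrepmul, map_mul, hco]; group
  have hreprep : ∀ l : L, rep (rep l) = rep l := by
    intro l
    simp [rep]
  have hcorep : ∀ l : L, co (rep l) = 1 := by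
    intro l
    apply hι
    rw [hco, hreprep, map_one]; group
  -- key: restriction to a coset
  have key : ∀ x : L → D, (∀ g : L, R (fun h => x (g * ι h))) →
      ∀ (l : L) (g : H), R (fun h => (fun u => x (l * ι u)) (g * h)) := by
    intro x hx l g
    have := hx (l * ι g)
    simpa [mul_assoc] using this
  -- gluing
  have glue : ∀ z : L → H → D, (∀ l, ∀ g : H, R (fun h => z l (g * h))) →
      ∀ g : L, R (fun h => (fun u : L => z (rep u) (co u)) (g * ι h)) := by
    intro z hz g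
    have := hz (rep g) (co g)
    simpa [hrepmul, hcomul] using this
  refine ⟨D, hD, F.image ι, fun p => R (fun h => p (ι h)), ?_, ?_, ?_, ?_⟩
  · intro p p' hp hR
    exact hloc _ _ (fun h hh => hp _ (Finset.mem_image_of_mem _ hh)) hR
  · obtain ⟨x, hx⟩ := hne
    exact ⟨fun u => x (co u), glue (fun _ => x) (fun _ => hx)⟩
  · intro x hx g hg
    have hin : ∀ g : L, g ∈ ι.range → (∀ h : L, x (g⁻¹ * h) = x h) → g = 1 := by
      rintro g ⟨g0, rfl⟩ hg
      have := hfr (fun u => x (1 * ι u)) (key x hx 1) g0 (fun h => by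
        have := hg (ι h)
        simpa using this)
      rw [this, map_one]
    by_cases hgr : g ∈ ι.range
    · exact hin g hgr hg
    · exfalso
      obtain ⟨m, hm, hm1⟩ := htor g hgr
      apply hm1
      apply hin _ hm
      clear hm hm1
      induction m with
      | zero => intro h; simp
      | succ m ih =>
        intro h
        rw [pow_succ, mul_inv_rev, mul_assoc, hg, ih]
  · intro x y hx hy W
    -- exceptional sets for pairs of representatives
    have hC : ∀ r s : L, ∃ C : Set H, C.Finite ∧ ∀ g : H, g ∉ C →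
        ∃ z : H → D, (∀ g' : H, R (fun h => z (g' * h))) ∧
          (∀ w ∈ W, rep w = r → z (co w) = x w) ∧
          (∀ w ∈ W, rep w = s → z (g⁻¹ * co w) = y w) := by
      intro r s
      obtain ⟨C, hC, hC'⟩ := hmx (fun u => x (r * ι u)) (fun u => y (s * ι u))
        (key x hx r) (key y hy s) (W.image co)
      refine ⟨C, hC, fun g hg => ?_⟩
      obtain ⟨z, hz, hz1, hz2⟩ := hC' g hg
      refine ⟨z, hz, ?_, ?_⟩
      · intro w hw hr
        rw [hz1 _ (Finset.mem_image_of_mem _ hw), ← hr, ← hdec]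
      · intro w hw hr
        rw [hz2 _ (Finset.mem_image_of_mem _ hw), ← hr, ← hdec]
    choose C hCf hCz using hC
    -- for g in L and r : the partner s = rep (g * r), and r = g⁻¹ * s * ι h
    let S : Set L := Set.range rep
    have hS : S.Finite := by
      have : S = Set.range (fun q : L ⧸ ι.range => q.out) := by
        ext l; constructor
        · rintro ⟨l, rfl⟩; exact ⟨_, rfl⟩
        · rintro ⟨q, rfl⟩
          exact ⟨q.out, by simp [rep]⟩
      rw [this]
      exact Set.finite_range _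
    refine ⟨⋃ r ∈ S, ⋃ s ∈ S, {g : L | ∃ c ∈ C r s, g = s * ι c * r⁻¹}, ?_, ?_⟩
    · refine hS.biUnion (fun r _ => hS.biUnion (fun s _ => ?_))
      refine ((hCf r s).image (fun c => s * ι c * r⁻¹)).subset ?_
      rintro g ⟨c, hc, rfl⟩
      exact ⟨c, hc, rfl⟩
    · intro g hg
      have hz : ∀ r : L, ∃ z : H → D, (∀ g' : H, R (fun h => z (g' * h))) ∧
          (rep r = r → (∀ w ∈ W, rep w = r → z (co w) = x w) ∧
          (∀ w ∈ W, rep w = rep (g * r) → z ((co (g * r))⁻¹ * co w) = y w)) := by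
        intro r
        by_cases hr : rep r = r
        · have : co (g * r) ∉ C r (rep (g * r)) := by
            intro hc
            apply hg
            simp only [Set.mem_iUnion]
            refine ⟨r, ⟨r, hr⟩, rep (g * r), ⟨_, rfl⟩, co (g * r), hc, ?_⟩
            rw [← hdec]; group
          obtain ⟨z, hz, h1, h2⟩ := hCz _ _ _ this
          exact ⟨z, hz, fun _ => ⟨h1, h2⟩⟩
        · obtain ⟨x0, hx0⟩ := hne
          exact ⟨x0, hx0, fun h => absurd h hr⟩
      choose z hzR hz using hz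
      refine ⟨fun u => z (rep u) (co u), glue z hzR, ?_, ?_⟩
      · intro w hw
        exact (hz (rep w) (hreprep w)).1 w hw rfl
      · intro w hw
        have e1 : g * rep (g⁻¹ * w) = w * ι ((co (g⁻¹ * w))⁻¹) := by
          have := hdec (g⁻¹ * w)
          calc g * rep (g⁻¹ * w) = g * (rep (g⁻¹ * w) * ι (co (g⁻¹ * w))) * ι ((co (g⁻¹ * w))⁻¹) := by
                rw [map_inv]; group
            _ = g * (g⁻¹ * w) * ι ((co (g⁻¹ * w))⁻¹) := by rw [← this]
            _ = _ := by group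
        have h2 := (hz (rep (g⁻¹ * w)) (hreprep _)).2 w hw (by rw [e1, hrepmul])
        rw [e1, hcomul] at h2
        simpa using h2


/-! ## Block embedding `(Fin κ → ZMod 2) ≀ ℤ → ZMod 2 ≀ ℤ` -/

section block
variable (κ : ℕ) [NeZero κ]

/-- division with remainder -/
def dm : ℤ ≃ ℤ × Fin κ := Int.divModEquiv κ

theorem dm_symm (p : ℤ × Fin κ) : (dm κ).symm p = p.1 * κ + (p.2 : ℤ) := by
  simp [dm, Int.divModEquiv_symm_apply]

/-- flatten a block configuration -/
noncomputable def flat (F : ℤ →₀ (Fin κ → ZMod 2)) : ℤ →₀ ZMod 2 :=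
  Finsupp.ofSupportFinite
    (fun a => F (dm κ a).1 (dm κ a).2) (by
      refine Set.Finite.subset
        (Set.Finite.preimage (f := fun a => (dm κ a))
          (s := ((F.support : Set ℤ) ×ˢ (Set.univ : Set (Fin κ))))
          ((dm κ).injective.injOn)
          ((F.support.finite_toSet).prod Set.finite_univ)) ?_
      intro a ha
      simp only [Set.mem_preimage, Set.mem_prod, Set.mem_univ, and_true, Finset.mem_coe,
        Finsupp.mem_support_iff]
      intro h0
      apply ha
      simp only [h0]; rfl)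

theorem flat_apply (F : ℤ →₀ (Fin κ → ZMod 2)) (a : ℤ) :
    flat κ F a = F (dm κ a).1 (dm κ a).2 := rfl

/-- unflatten -/
noncomputable def unflat (φ : ℤ →₀ ZMod 2) : ℤ →₀ (Fin κ → ZMod 2) :=
  Finsupp.ofSupportFinite
    (fun i j => φ ((dm κ).symm (i, j))) (by
      refine Set.Finite.subset
        ((φ.support.finite_toSet).image (fun a => (dm κ a).1)) ?_
      intro i hi
      by_contra hcon
      apply hi
      funext j
      by_contra hj
      apply hcon
      refine ⟨(dm κ).symm (i, j), ?_, by simp⟩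
      simpa using hj)

theorem flat_unflat (φ : ℤ →₀ ZMod 2) : flat κ (unflat κ φ) = φ := by
  ext a
  rw [flat_apply]
  change φ ((dm κ).symm ((dm κ a).1, (dm κ a).2)) = φ a
  simp

theorem flat_injective : Injective (flat κ) := by
  intro F F' h
  ext i j
  have := DFunLike.congr_fun h ((dm κ).symm (i, j))
  rw [flat_apply, flat_apply] at this
  simpa using this

theorem divMod_sub (a n : ℤ) :
    dm κ (a - κ * n) = ((dm κ a).1 - n, (dm κ a).2) := by
  have hκ : (κ : ℤ) ≠ 0 := by exact_mod_cast NeZero.ne κ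
  apply (dm κ).symm.injective
  rw [Equiv.symm_apply_apply]
  have h := (dm κ).symm_apply_apply a
  simp only [dm_symm] at h ⊢
  linear_combination -h

theorem flat_add (F F' : ℤ →₀ (Fin κ → ZMod 2)) : flat κ (F + F') = flat κ F + flat κ F' := by
  ext a; simp [flat_apply]

theorem flat_sh (n : ℤ) (F : ℤ →₀ (Fin κ → ZMod 2)) :
    flat κ (sh n F) = sh (κ * n) (flat κ F) := by
  ext a
  rw [flat_apply, sh_apply, sh_apply, flat_apply, divMod_sub]

/-- the block embedding -/
noncomputable def blk : WL (Fin κ → ZMod 2) →* WL (ZMod 2) where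
  toFun a := ⟨κ * a.n, flat κ a.f⟩
  map_one' := by
    apply WL.ext
    · simp
    · ext a; simp [flat_apply]
  map_mul' a b := by
    apply WL.ext
    · simp [mul_add]
    · simp [flat_add, flat_sh]

theorem blk_injective : Injective (blk κ) := by
  intro a b h
  have hκ : (κ : ℤ) ≠ 0 := by exact_mod_cast NeZero.ne κ
  have h1 : (κ : ℤ) * a.n = κ * b.n := congrArg WL.n h
  have h2 : flat κ a.f = flat κ b.f := congrArg WL.f h
  exact WL.ext (mul_left_cancel₀ hκ h1) (flat_injective κ h2)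

theorem mem_blk_range (l : WL (ZMod 2)) : l ∈ (blk κ).range ↔ (κ : ℤ) ∣ l.n := by
  constructor
  · rintro ⟨a, rfl⟩
    exact ⟨a.n, rfl⟩
  · rintro ⟨k, hk⟩
    exact ⟨⟨k, unflat κ l.f⟩, WL.ext hk.symm (flat_unflat κ l.f)⟩

theorem blk_finite : Finite (WL (ZMod 2) ⧸ (blk κ).range) := by
  have hκ : (κ : ℤ) ≠ 0 := by exact_mod_cast NeZero.ne κ
  refine Finite.of_surjective
    (fun r : Fin κ => (QuotientGroup.mk (⟨(r : ℤ), 0⟩ : WL (ZMod 2)) :
      WL (ZMod 2) ⧸ (blk κ).range)) ?_
  intro q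
  obtain ⟨l, rfl⟩ := QuotientGroup.mk_surjective q
  refine ⟨(dm κ l.n).2, ?_⟩
  simp only
  rw [QuotientGroup.eq, mem_blk_range]
  refine ⟨(dm κ l.n).1, ?_⟩
  have h := (dm κ).symm_apply_apply l.n
  simp only [dm_symm] at h
  simp only [WL.mul_n, WL.inv_n]
  linear_combination -h

theorem WL.pow_n {A : Type} [AddCommGroup A] (g : WL A) (m : ℕ) : (g ^ m).n = m * g.n := by
  induction m with
  | zero => simp
  | succ m ih => rw [pow_succ, WL.mul_n, ih]; push_cast; ring

theorem blk_tor (g : WL (ZMod 2)) (hg : g ∉ (blk κ).range) :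
    ∃ m : ℕ, g ^ m ∈ (blk κ).range ∧ g ^ m ≠ 1 := by
  have hκ : (κ : ℤ) ≠ 0 := by exact_mod_cast NeZero.ne κ
  rw [mem_blk_range] at hg
  refine ⟨κ, ?_, ?_⟩
  · rw [mem_blk_range, WL.pow_n]
    exact ⟨g.n, rfl⟩
  · intro h
    have := congrArg WL.n h
    rw [WL.pow_n, WL.one_n] at this
    rcases mul_eq_zero.mp this with h | h
    · exact hκ h
    · exact hg (by rw [h]; exact dvd_zero _)

end block

/-! ## The lamplighter group as a permutation group -/

/-- `a` acts by `(m,f) ↦ (m + a.n, f + sh m a.f)` -/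
noncomputable def act (a : WL (ZMod 2)) : Equiv.Perm (ℤ × (ℤ →₀ ZMod 2)) where
  toFun p := (p.1 + a.n, p.2 + sh p.1 a.f)
  invFun p := (p.1 - a.n, p.2 - sh (p.1 - a.n) a.f)
  left_inv p := by
    apply Prod.ext
    · simp
    · simp
  right_inv p := by
    apply Prod.ext
    · simp
    · simp

theorem act_mul (a b : WL (ZMod 2)) : act (b * a) = act a * act b := by
  ext1 p
  apply Prod.ext
  · simp [act, add_assoc]
  · simp [act, add_assoc, sh_add, sh_sh]

theorem act_one : act 1 = 1 := by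
  ext1 p
  apply Prod.ext
  · simp [act]
  · simp [act]

/-- the isomorphism onto the permutation group -/
noncomputable def rho : WL (ZMod 2) →* Equiv.Perm (ℤ × (ℤ →₀ ZMod 2)) where
  toFun a := act a⁻¹
  map_one' := by simp [act_one]
  map_mul' a b := by rw [mul_inv_rev, act_mul]

theorem act_injective : Injective act := by
  intro a b h
  have := DFunLike.congr_fun h ((0 : ℤ), (0 : ℤ →₀ ZMod 2))
  simp only [act, Equiv.coe_fn_mk, Prod.mk.injEq, zero_add, sh_zero_left] at this
  exact WL.ext this.1 this.2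

theorem rho_injective : Injective rho := by
  intro a b h
  have : act a⁻¹ = act b⁻¹ := h
  exact inv_injective (act_injective this)

theorem rho_inv (a : WL (ZMod 2)) : rho a⁻¹ = act a := by
  change act (a⁻¹)⁻¹ = act a
  rw [inv_inv]

/-- generators -/
def gens : Set (Equiv.Perm (ℤ × (ℤ →₀ ZMod 2))) :=
      {Equiv.prodCongr (Equiv.addRight (1 : ℤ)) (Equiv.refl (ℤ →₀ ZMod 2)),
       Equiv.prodShear (Equiv.refl ℤ)
         (fun n : ℤ => Equiv.addRight (Finsupp.single n (1 : ZMod 2)))}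

theorem act_t : act ⟨1, 0⟩ =
    Equiv.prodCongr (Equiv.addRight (1 : ℤ)) (Equiv.refl (ℤ →₀ ZMod 2)) := by
  ext1 p
  apply Prod.ext
  · simp [act]
  · simp [act]

theorem act_s : act ⟨0, Finsupp.single 0 1⟩ =
    Equiv.prodShear (Equiv.refl ℤ)
         (fun n : ℤ => Equiv.addRight (Finsupp.single n (1 : ZMod 2))) := by
  ext1 p
  apply Prod.ext
  · simp [act]
  · simp [act, sh_single]

theorem rho_range : rho.range = Subgroup.closure gens := by
  apply le_antisymm
  · let K : Subgroup (WL (ZMod 2)) := (Subgroup.closure gens).comap rho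
    have ht : (⟨1, 0⟩ : WL (ZMod 2)) ∈ K := by
      rw [← K.inv_mem_iff]
      change rho (⟨1, 0⟩ : WL (ZMod 2))⁻¹ ∈ Subgroup.closure gens
      rw [rho_inv, act_t]
      exact Subgroup.subset_closure (Or.inl rfl)
    have hs : (⟨0, Finsupp.single 0 1⟩ : WL (ZMod 2)) ∈ K := by
      rw [← K.inv_mem_iff]
      change rho (⟨0, Finsupp.single 0 1⟩ : WL (ZMod 2))⁻¹ ∈ Subgroup.closure gens
      rw [rho_inv, act_s]
      exact Subgroup.subset_closure (Or.inr rfl)
    have htk : ∀ k : ℤ, (⟨k, 0⟩ : WL (ZMod 2)) ∈ K := by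
      intro k
      induction k using Int.induction_on with
      | zero => exact K.one_mem
      | succ i ih =>
        have := K.mul_mem ih ht
        have e : (⟨(i : ℤ), 0⟩ : WL (ZMod 2)) * ⟨1, 0⟩ = ⟨(i : ℤ) + 1, 0⟩ := by
          apply WL.ext <;> simp
        rwa [e] at this
      | pred i ih =>
        have := K.mul_mem ih (K.inv_mem ht)
        have e : (⟨-(i : ℤ), 0⟩ : WL (ZMod 2)) * (⟨1, 0⟩)⁻¹ = ⟨-(i : ℤ) - 1, 0⟩ := by
          apply WL.ext <;> simp [sub_eq_add_neg]
        rwa [e] at this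
    have hsj : ∀ j : ℤ, (⟨0, Finsupp.single j 1⟩ : WL (ZMod 2)) ∈ K := by
      intro j
      have := K.mul_mem (K.mul_mem (htk j) hs) (htk (-j))
      have e : (⟨j, 0⟩ : WL (ZMod 2)) * ⟨0, Finsupp.single 0 1⟩ * ⟨-j, 0⟩ =
          ⟨0, Finsupp.single j 1⟩ := by
        apply WL.ext <;> simp [sh_single]
      rwa [e] at this
    have hf : ∀ φ : ℤ →₀ ZMod 2, (⟨0, φ⟩ : WL (ZMod 2)) ∈ K := by
      intro φ
      induction φ using Finsupp.induction with
      | zero => exact K.one_mem
      | single_add j c φ hj hc ih =>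
        have hc1 : c = 1 := by
          revert hc; revert c; decide
        subst hc1
        have := K.mul_mem (hsj j) ih
        have e : (⟨0, Finsupp.single j 1⟩ : WL (ZMod 2)) * ⟨0, φ⟩ =
            ⟨0, Finsupp.single j 1 + φ⟩ := by
          apply WL.ext <;> simp
        rwa [e] at this
    rintro _ ⟨a, rfl⟩
    have := K.mul_mem (hf a.f) (htk a.n)
    have e : (⟨0, a.f⟩ : WL (ZMod 2)) * ⟨a.n, 0⟩ = a := by
      apply WL.ext <;> simp
    rw [e] at this
    exact this
  · rw [Subgroup.closure_le]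
    rintro g (rfl | rfl)
    · exact ⟨(⟨1, 0⟩ : WL (ZMod 2))⁻¹, by rw [rho_inv, act_t]⟩
    · exact ⟨(⟨0, Finsupp.single 0 1⟩ : WL (ZMod 2))⁻¹, by rw [rho_inv, act_s]⟩

/-- The lamplighter group is isomorphic to `WL (ZMod 2)`. -/
noncomputable def lampEquiv : ↥(Subgroup.closure gens) ≃* WL (ZMod 2) :=
  ((MonoidHom.ofInjective rho_injective).trans (MulEquiv.subgroupCongr rho_range)).symm

/-! ## Rule on tetrahedra -/

section tet
variable {Q D : Type} [AddCommGroup Q]

/-- a configuration satisfying the rule at every tetrahedron -/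
def Good (Tet : (Q → D) → (Q → D) → Prop) (x : ℤ → (ℤ →₀ Q) → D) : Prop :=
  ∀ (n : ℤ) (f : ℤ →₀ Q),
    Tet (fun i => x n (f.update n i)) (fun j => x (n + 1) (f.update n j))

theorem update_add_self (f : ℤ →₀ Q) (n : ℤ) (i : Q) :
    f.update n (i + f n) = f + Finsupp.single n i := by
  classical
  ext a
  simp only [Finsupp.coe_update, Finsupp.add_apply, Finsupp.single_apply]
  by_cases h : a = n
  · subst h; simp [add_comm]
  · have h' : ¬ n = a := fun e => h e.symm
    simp [Function.update_of_ne h, h']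

theorem update_eq_add (f : ℤ →₀ Q) (n : ℤ) (i : Q) :
    f.update n i = f + Finsupp.single n (i - f n) := by
  rw [← update_add_self, sub_add_cancel]

theorem tetTransport [Finite Q] [Finite D] (Tet : (Q → D) → (Q → D) → Prop)
    (hTr : ∀ (a : Q) (L U : Q → D), Tet L U → Tet (fun i => L (i + a)) (fun j => U (j + a)))
    (ne : ∃ x, Good Tet x)
    (fr : ∀ x, Good Tet x → ∀ (n : ℤ) (φ : ℤ →₀ Q),
      (∀ (m : ℤ) (f : ℤ →₀ Q), x (m + n) (sh n f + φ) = x m f) → n = 0 ∧ φ = 0)
    (mx : ∀ x y, Good Tet x → Good Tet y → ∀ W : Finset (ℤ × (ℤ →₀ Q)),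
      ∃ C : Set (ℤ × (ℤ →₀ Q)), C.Finite ∧ ∀ (n : ℤ) (φ : ℤ →₀ Q), (n, φ) ∉ C →
        ∃ z, Good Tet z ∧ (∀ p ∈ W, z p.1 p.2 = x p.1 p.2) ∧
          (∀ p ∈ W, z (p.1 + n) (sh n p.2 + φ) = y p.1 p.2)) :
    MixAp (WL Q) := by
  classical
  have : Fintype Q := Fintype.ofFinite Q
  -- configurations on the group and in coordinates
  have good_iff : ∀ x : WL Q → D,
      (∀ g : WL Q, Tet (fun i => x (g * ⟨0, Finsupp.single 0 i⟩))
        (fun j => x (g * ⟨1, Finsupp.single 0 j⟩))) ↔ Good Tet (fun n f => x ⟨n, f⟩) := by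
    intro x
    have e1 : ∀ (g : WL Q) (i : Q), g * ⟨0, Finsupp.single 0 i⟩ =
        ⟨g.n, g.f.update g.n (i + g.f g.n)⟩ := by
      intro g i
      rw [update_add_self]
      apply WL.ext <;> simp [sh_single]
    have e2 : ∀ (g : WL Q) (i : Q), g * ⟨1, Finsupp.single 0 i⟩ =
        ⟨g.n + 1, g.f.update g.n (i + g.f g.n)⟩ := by
      intro g i
      rw [update_add_self]
      apply WL.ext <;> simp [sh_single]
    simp only [e1, e2]
    constructor
    · intro h n f
      have := hTr (-(f n)) _ _ (h ⟨n, f⟩)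
      simpa using this
    · intro h g
      have := hTr (g.f g.n) _ _ (h g.n g.f)
      simpa using this
  refine ⟨D, inferInstance,
    (Finset.univ.image (fun i : Q => (⟨0, Finsupp.single 0 i⟩ : WL Q))) ∪
    (Finset.univ.image (fun i : Q => (⟨1, Finsupp.single 0 i⟩ : WL Q))),
    fun p => Tet (fun i => p ⟨0, Finsupp.single 0 i⟩) (fun j => p ⟨1, Finsupp.single 0 j⟩),
    ?_, ?_, ?_, ?_⟩
  · intro p p' hp hR
    have h1 : (fun i => p ⟨0, Finsupp.single 0 i⟩) = (fun i => p' ⟨0, Finsupp.single 0 i⟩) := by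
      funext i
      exact hp _ (Finset.mem_union_left _ (Finset.mem_image_of_mem _ (Finset.mem_univ i)))
    have h2 : (fun i => p ⟨1, Finsupp.single 0 i⟩) = (fun i => p' ⟨1, Finsupp.single 0 i⟩) := by
      funext i
      exact hp _ (Finset.mem_union_right _ (Finset.mem_image_of_mem _ (Finset.mem_univ i)))
    simp only [← h1, ← h2]
    exact hR
  · obtain ⟨x, hx⟩ := ne
    exact ⟨fun g => x g.n g.f, (good_iff (fun g => x g.n g.f)).2 hx⟩
  · intro x hx g hg
    have h := fr _ ((good_iff x).1 hx) (g⁻¹).n (g⁻¹).f (fun m f => by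
      have := hg ⟨m, f⟩
      rw [← this]
      have e : (g⁻¹ * ⟨m, f⟩ : WL Q) = ⟨m + (g⁻¹).n, sh (g⁻¹).n f + (g⁻¹).f⟩ := by
        apply WL.ext
        · change (g⁻¹).n + m = m + (g⁻¹).n
          ring
        · change (g⁻¹).f + sh (g⁻¹).n f = sh (g⁻¹).n f + (g⁻¹).f
          abel
      rw [e])
    have : g⁻¹ = 1 := WL.ext h.1 h.2
    simpa using this
  · intro x y hx hy W
    obtain ⟨C, hC, hC'⟩ := mx _ _ ((good_iff x).1 hx) ((good_iff y).1 hy)
      (W.image (fun g => (g.n, g.f)))
    refine ⟨(fun g : WL Q => ((g⁻¹).n, (g⁻¹).f)) ⁻¹' C, hC.preimage ?_, ?_⟩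
    · intro a _ b _ h
      simp only [Prod.mk.injEq] at h
      exact inv_injective (WL.ext h.1 h.2)
    · intro g hg
      obtain ⟨z, hz, hz1, hz2⟩ := hC' _ _ hg
      refine ⟨fun g => z g.n g.f, (good_iff (fun g => z g.n g.f)).2 hz, ?_, ?_⟩
      · intro h hh
        exact hz1 (h.n, h.f) (Finset.mem_image_of_mem _ hh)
      · intro h hh
        have := hz2 (h.n, h.f) (Finset.mem_image_of_mem _ hh)
        simp only at this
        rw [← this]
        change z ((g⁻¹).n + h.n) ((g⁻¹).f + sh (g⁻¹).n h.f) = _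
        rw [add_comm (g⁻¹).n, add_comm (g⁻¹).f]

/-- pushing a configuration forward by the group element `(n, φ)` -/
noncomputable def push (n : ℤ) (φ : ℤ →₀ Q) (x : ℤ → (ℤ →₀ Q) → D) : ℤ → (ℤ →₀ Q) → D :=
  fun m f => x (m - n) (sh (-n) (f - φ))

theorem push_apply (n : ℤ) (φ : ℤ →₀ Q) (x : ℤ → (ℤ →₀ Q) → D) (m : ℤ) (f : ℤ →₀ Q) :
    push n φ x (m + n) (sh n f + φ) = x m f := by
  simp [push, sh_sh]

theorem push_good (Tet : (Q → D) → (Q → D) → Prop)
    (hTr : ∀ (a : Q) (L U : Q → D), Tet L U → Tet (fun i => L (i + a)) (fun j => U (j + a)))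
    (n : ℤ) (φ : ℤ →₀ Q) (x : ℤ → (ℤ →₀ Q) → D) (hx : Good Tet x) :
    Good Tet (push n φ x) := by
  classical
  intro m f
  have key : ∀ i : Q, sh (-n) (f.update m i - φ) =
      (sh (-n) (f - φ)).update (m - n) (i + (-(φ m))) := by
    intro i
    ext a
    simp only [sh_apply, sub_neg_eq_add, Finsupp.coe_sub, Pi.sub_apply, Finsupp.coe_update]
    by_cases h : a = m - n
    · subst h
      simp [sub_eq_add_neg]
    · have h' : a + n ≠ m := fun e => h (by omega)
      simp [Function.update_of_ne h, Function.update_of_ne h']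
  have h1 := hTr (-(φ m)) _ _ (hx (m - n) (sh (-n) (f - φ)))
  simp only [push, key]
  have e : m + 1 - n = m - n + 1 := by ring
  rw [e]
  exact h1

end tet

/-- Final transport to the frozen statement. -/
theorem lamp_final (κ : ℕ) [NeZero κ] {D : Type} [Finite D]
    (Tet : ((Fin κ → ZMod 2) → D) → ((Fin κ → ZMod 2) → D) → Prop)
    (hTr : ∀ (a : Fin κ → ZMod 2) (L U : (Fin κ → ZMod 2) → D),
      Tet L U → Tet (fun i => L (i + a)) (fun j => U (j + a)))
    (ne : ∃ x, Good Tet x)
    (fr : ∀ x, Good Tet x → ∀ (n : ℤ) (φ : ℤ →₀ (Fin κ → ZMod 2)),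
      (∀ (m : ℤ) (f : ℤ →₀ (Fin κ → ZMod 2)), x (m + n) (sh n f + φ) = x m f) → n = 0 ∧ φ = 0)
    (mx : ∀ x y, Good Tet x → Good Tet y → ∀ W : Finset (ℤ × (ℤ →₀ (Fin κ → ZMod 2))),
      ∃ C : Set (ℤ × (ℤ →₀ (Fin κ → ZMod 2))), C.Finite ∧
        ∀ (n : ℤ) (φ : ℤ →₀ (Fin κ → ZMod 2)), (n, φ) ∉ C →
        ∃ z, Good Tet z ∧ (∀ p ∈ W, z p.1 p.2 = x p.1 p.2) ∧
          (∀ p ∈ W, z (p.1 + n) (sh n p.2 + φ) = y p.1 p.2)) :
    ∀ G : Subgroup (Equiv.Perm (ℤ × (ℤ →₀ ZMod 2))),
    G = Subgroup.closure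
      {Equiv.prodCongr (Equiv.addRight (1 : ℤ)) (Equiv.refl (ℤ →₀ ZMod 2)),
       Equiv.prodShear (Equiv.refl ℤ)
         (fun n : ℤ => Equiv.addRight (Finsupp.single n (1 : ZMod 2)))} →
    MixFin G := by
  intro G hG
  subst hG
  have h1 := tetTransport Tet hTr ne fr mx
  have h2 := MixAp.extend (blk κ) (blk_injective κ) (blk_finite κ) (blk_tor κ) h1
  exact (MixAp.ofEquiv lampEquiv h2).toFin

end Pool.Agent.H60.Lamp
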