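import Pool.Agent.H5.LL.Spec
import Pool.Agent.H60.LampTransport

/-!
The concrete tree of `Q ≀ ℤ` and the translation between configurations on the group and
configurations on the scale-zero boxes.
-/

set_option autoImplicit false

namespace Pool.Agent.H60.Lamp

open Pool.Agent.H5.LL Function

/-- vertices of the tree -/
@[ext] structure LT where
  k : ℤ
  f : ℤ →₀ Q
  hf : ∀ i, i < k → f i = 0

/-- restriction to `[k, ∞)` -/
noncomputable def cut (k : ℤ) (f : ℤ →₀ Q) : ℤ →₀ Q := Finsupp.filter (fun i => k ≤ i) f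

theorem cut_of_le {k i : ℤ} (f : ℤ →₀ Q) (h : k ≤ i) : cut k f i = f i :=
  Finsupp.filter_apply_pos _ _ h

theorem cut_of_lt {k i : ℤ} (f : ℤ →₀ Q) (h : i < k) : cut k f i = 0 :=
  Finsupp.filter_apply_neg _ _ (not_le.2 h)

/-- the vertex of `f` at level `k` -/
noncomputable def LT.mk' (k : ℤ) (f : ℤ →₀ Q) : LT := ⟨k, cut k f, fun _ h => cut_of_lt f h⟩

theorem LT.ext' {v w : LT} (h : v.k = w.k) (h' : ∀ i, v.k ≤ i → v.f i = w.f i) : v = w := by
  apply LT.ext h
  ext1 i
  by_cases hi : v.k ≤ i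
  · exact h' i hi
  · rw [v.hf i (not_le.1 hi), w.hf i (by rw [← h]; exact not_le.1 hi)]

theorem upd_same (f : ℤ →₀ Q) (n : ℤ) (i : Q) : f.update n i n = i := by
  classical
  rw [Finsupp.coe_update, Function.update_self]

theorem upd_ne (f : ℤ →₀ Q) {n a : ℤ} (i : Q) (h : a ≠ n) : f.update n i a = f a := by
  classical
  rw [Finsupp.coe_update, Function.update_of_ne h]

theorem exists_bound (f : ℤ →₀ Q) : ∃ N : ℤ, ∀ i, N ≤ i → f i = 0 := by
  obtain ⟨N, hN⟩ := f.support.bddAbove
  refine ⟨N + 1, fun i hi => ?_⟩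
  by_contra h
  have := hN (Finsupp.mem_support_iff.2 h)
  omega

/-- the parent -/
noncomputable def LT.par (v : LT) : LT := LT.mk' (v.k + 1) v.f

theorem LT.par_iter (v : LT) (n : ℕ) : LT.par^[n] v = LT.mk' (v.k + n) v.f := by
  induction n with
  | zero =>
    apply LT.ext'
    · simp [LT.mk']
    · intro i hi
      simp only [LT.mk', iterate_zero, id_eq] at hi ⊢
      rw [cut_of_le _ (by simpa using hi)]
  | succ n ih =>
    rw [iterate_succ', comp_apply, ih]
    apply LT.ext'
    · simp [LT.mk', LT.par, add_assoc]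
    · intro i hi
      simp only [LT.mk', LT.par] at hi ⊢
      rw [cut_of_le _ hi, cut_of_le _ (by omega), cut_of_le _ (by push_cast; omega)]

theorem LT.par_conn (v v' : LT) : ∃ n n' : ℕ, LT.par^[n] v = LT.par^[n'] v' := by
  obtain ⟨N, hN⟩ := exists_bound v.f
  obtain ⟨N', hN'⟩ := exists_bound v'.f
  let M := max (max N N') (max v.k v'.k)
  refine ⟨(M - v.k).toNat, (M - v'.k).toNat, ?_⟩
  rw [LT.par_iter, LT.par_iter]
  have h1 : v.k + ((M - v.k).toNat : ℤ) = M := by
    have : v.k ≤ M := le_trans (le_max_left _ _) (le_max_right _ _)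
    omega
  have h2 : v'.k + ((M - v'.k).toNat : ℤ) = M := by
    have : v'.k ≤ M := le_trans (le_max_right _ _) (le_max_right _ _)
    omega
  rw [h1, h2]
  apply LT.ext'
  · rfl
  · intro i hi
    simp only [LT.mk'] at hi ⊢
    have hn : N ≤ i := le_trans (le_trans (le_max_left _ _) (le_max_left _ _)) hi
    have hn' : N' ≤ i := le_trans (le_trans (le_max_right _ _) (le_max_left _ _)) hi
    rw [cut_of_le _ hi, cut_of_le _ hi, hN i hn, hN' i hn']

noncomputable instance : HTree LT where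
  lev v := v.k
  up v := v.par
  idx v := v.f v.k
  ch v i := ⟨v.k - 1, v.f.update (v.k - 1) i, fun j hj => by
    rw [upd_ne _ _ (by omega)]
    exact v.hf j (by omega)⟩
  lev_up v := rfl
  up_ch v i := by
    apply LT.ext'
    · simp [LT.par, LT.mk']
    · intro j hj
      simp only [LT.par, LT.mk', sub_add_cancel] at hj ⊢
      rw [cut_of_le _ hj, upd_ne _ _ (by omega)]
  idx_ch v i := by
    simp only
    rw [upd_same]
  ch_idx v := by
    apply LT.ext'
    · simp [LT.par, LT.mk']
    · intro j hj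
      simp only [LT.par, LT.mk', add_sub_cancel_right] at hj ⊢
      by_cases h : j = v.k
      · subst h
        rw [upd_same]
      · rw [upd_ne _ _ h, cut_of_le _ (by omega)]
  conn v v' := LT.par_conn v v'

open HTree

theorem lev_eq (v : LT) : lev v = v.k := rfl
theorem up_eq (v : LT) : up v = v.par := rfl
theorem idx_eq (v : LT) : idx v = v.f v.k := rfl
theorem ch_k (v : LT) (i : Q) : (ch v i).k = v.k - 1 := rfl
theorem ch_f (v : LT) (i : Q) : (ch v i).f = v.f.update (v.k - 1) i := rfl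

/-- reflection `i ↦ -1 - i` -/
noncomputable def rfl' (f : ℤ →₀ Q) : ℤ →₀ Q := Finsupp.equivMapDomain (Equiv.subLeft (-1)) f

@[simp] theorem rfl'_apply (f : ℤ →₀ Q) (i : ℤ) : rfl' f i = f (-1 - i) := by
  simp only [rfl', Finsupp.equivMapDomain_apply]
  congr 1
  change -i + -1 = -1 - i
  ring

/-- vertex of the first tree at `(n, f)` -/
noncomputable def mkV (n : ℤ) (f : ℤ →₀ Q) : LT := LT.mk' n f
/-- vertex of the second tree at `(n, f)` -/
noncomputable def mkW (n : ℤ) (f : ℤ →₀ Q) : LT := LT.mk' (-n) (rfl' f)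

/-- the function of a pair -/
noncomputable def comb (V w : LT) : ℤ →₀ Q := V.f + rfl' w.f

theorem comb_of_le {V w : LT} (h : V.k + w.k = 0) {i : ℤ} (hi : V.k ≤ i) :
    comb V w i = V.f i := by
  simp only [comb, Finsupp.add_apply, rfl'_apply]
  rw [w.hf (-1 - i) (by omega), add_zero]

theorem comb_of_lt {V w : LT} {i : ℤ} (hi : i < V.k) :
    comb V w i = w.f (-1 - i) := by
  simp only [comb, Finsupp.add_apply, rfl'_apply]
  rw [V.hf i hi, zero_add]

theorem mkV_comb {V w : LT} (h : V.k + w.k = 0) : mkV V.k (comb V w) = V := by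
  apply LT.ext'
  · rfl
  · intro i hi
    simp only [mkV, LT.mk'] at hi ⊢
    rw [cut_of_le _ hi, comb_of_le h hi]

theorem mkW_comb {V w : LT} (h : V.k + w.k = 0) : mkW V.k (comb V w) = w := by
  apply LT.ext'
  · simp only [mkW, LT.mk']; omega
  · intro i hi
    simp only [mkW, LT.mk'] at hi ⊢
    rw [cut_of_le _ hi, rfl'_apply, comb_of_lt (by omega)]
    congr 1; ring

theorem comb_mk (n : ℤ) (f : ℤ →₀ Q) : comb (mkV n f) (mkW n f) = f := by
  ext1 i
  by_cases h : n ≤ i
  · rw [comb_of_le (by simp [mkV, mkW, LT.mk']) h]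
    exact cut_of_le _ h
  · rw [comb_of_lt (by exact not_le.1 h)]
    simp only [mkW, LT.mk']
    rw [cut_of_le _ (by omega), rfl'_apply]
    congr 1; ring

section conf
variable {D : Type}

/-- from group configurations to tree configurations -/
noncomputable def toT (x : ℤ → (ℤ →₀ Q) → D) : LT → LT → D := fun V w => x V.k (comb V w)
/-- from tree configurations to group configurations -/
noncomputable def ofT (z : LT → LT → D) : ℤ → (ℤ →₀ Q) → D := fun n f => z (mkV n f) (mkW n f)

theorem ofT_toT (x : ℤ → (ℤ →₀ Q) → D) : ofT (toT x) = x := by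
  funext n f
  simp only [ofT, toT, comb_mk]
  rfl

theorem toT_ofT (z : LT → LT → D) {V w : LT} (h : V.k + w.k = 0) :
    toT (ofT z) V w = z V w := by
  simp only [ofT, toT, mkV_comb h, mkW_comb h]

end conf

/-- the rule on tetrahedra -/
def TetR {K : Type} (R : Rel K) (pos : K → Prop) (L U : Q → Dat K) : Prop :=
  ∃ (α β : Sg → Q) (P : Dat K), LOC R α β P L U ∧
    ∀ j y, ¬ SP (j + β y) → pos ((U j).T y).2

theorem comb_ch_left {V w : LT} {n : ℤ} (hV : V.k = n + 1) (hw : w.k = -n) (i : Q) :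
    comb (ch V i) w = (comb V w).update n i := by
  ext1 a
  by_cases ha : a = n
  · subst ha
    rw [upd_same, comb_of_le (by rw [ch_k]; omega) (by rw [ch_k]; omega), ch_f]
    have : V.k - 1 = a := by omega
    rw [this, upd_same]
  · rw [upd_ne _ _ ha]
    have : V.k - 1 = n := by omega
    simp only [comb, Finsupp.add_apply, ch_f, this]
    rw [upd_ne _ _ ha]

theorem comb_ch_right {V w : LT} {n : ℤ} (hV : V.k = n + 1) (hw : w.k = -n) (j : Q) :
    comb V (ch w j) = (comb V w).update n j := by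
  ext1 a
  by_cases ha : a = n
  · subst ha
    rw [upd_same, comb_of_lt (by omega), ch_f]
    have : w.k - 1 = -1 - a := by omega
    rw [this, upd_same]
  · rw [upd_ne _ _ ha]
    have : w.k - 1 = -1 - n := by omega
    simp only [comb, Finsupp.add_apply, ch_f, this, rfl'_apply]
    rw [upd_ne _ _ (by omega)]

theorem toT_inX {K : Type} {R : Rel K} {pos : K → Prop} {x : ℤ → (ℤ →₀ Q) → Dat K}
    (hx : Good (TetR R pos) x) : InX R pos (toT x) := by
  intro V w h
  rw [lev_eq, lev_eq] at h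
  obtain ⟨n, hn⟩ : ∃ n, V.k = n + 1 := ⟨V.k - 1, by ring⟩
  have hw : w.k = -n := by omega
  obtain ⟨α, β, P, h1, h2⟩ := hx n (comb V w)
  have e1 : (fun i => toT x (ch V i) w) = fun i => x n ((comb V w).update n i) := by
    funext i
    simp only [toT, comb_ch_left hn hw, ch_k, hn, add_sub_cancel_right]
  have e2 : (fun j => toT x V (ch w j)) = fun j => x (n + 1) ((comb V w).update n j) := by
    funext j
    simp only [toT, comb_ch_right hn hw, hn]
  refine ⟨α, β, P, ?_, ?_⟩
  · rw [e1, e2]; exact h1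
  · intro j y hj
    have := congrFun e2 j
    rw [this]
    exact h2 j y hj

theorem mkV_update_left (n : ℤ) (f : ℤ →₀ Q) (i : Q) :
    ch (mkV (n + 1) f) i = mkV n (f.update n i) := by
  apply LT.ext'
  · simp [ch_k, mkV, LT.mk']
  · intro a ha
    simp only [ch_k, ch_f, mkV, LT.mk', add_sub_cancel_right] at ha ⊢
    rw [cut_of_le _ ha]
    by_cases h : a = n
    · subst h
      rw [upd_same, upd_same]
    · rw [upd_ne _ _ h, upd_ne _ _ h, cut_of_le _ (by omega)]

theorem mkV_update_right (n : ℤ) (f : ℤ →₀ Q) (i : Q) :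
    mkV (n + 1) (f.update n i) = mkV (n + 1) f := by
  apply LT.ext'
  · rfl
  · intro a ha
    simp only [mkV, LT.mk'] at ha ⊢
    rw [cut_of_le _ ha, cut_of_le _ ha, upd_ne _ _ (by omega)]

theorem mkW_update_left (n : ℤ) (f : ℤ →₀ Q) (i : Q) :
    mkW n (f.update n i) = mkW n f := by
  apply LT.ext'
  · rfl
  · intro a ha
    simp only [mkW, LT.mk'] at ha ⊢
    rw [cut_of_le _ ha, cut_of_le _ ha, rfl'_apply, rfl'_apply, upd_ne _ _ (by omega)]

theorem mkW_update_right (n : ℤ) (f : ℤ →₀ Q) (i : Q) :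
    ch (mkW n f) i = mkW (n + 1) (f.update n i) := by
  apply LT.ext'
  · simp only [ch_k, mkW, LT.mk']; ring
  · intro a ha
    simp only [ch_k, ch_f, mkW, LT.mk'] at ha ⊢
    rw [cut_of_le _ (by omega), rfl'_apply]
    by_cases h : a = -n - 1
    · subst h
      have : -1 - (-n - 1) = n := by ring
      rw [upd_same, this, upd_same]
    · rw [upd_ne _ _ h, upd_ne _ _ (by omega), cut_of_le _ (by omega), rfl'_apply]

theorem ofT_good {K : Type} {R : Rel K} {pos : K → Prop} {z : LT → LT → Dat K}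
    (hz : InX R pos z) : Good (TetR R pos) (ofT z) := by
  intro n f
  obtain ⟨α, β, P, h1, h2⟩ := hz (mkV (n + 1) f) (mkW n f) (by
    simp [lev_eq, mkV, mkW, LT.mk'])
  have e1 : (fun i => ofT z n (f.update n i)) = fun i => z (ch (mkV (n + 1) f) i) (mkW n f) := by
    funext i
    simp only [ofT, mkV_update_left, mkW_update_left]
  have e2 : (fun j => ofT z (n + 1) (f.update n j)) =
      fun j => z (mkV (n + 1) f) (ch (mkW n f) j) := by
    funext j
    simp only [ofT, mkV_update_right, mkW_update_right]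
  refine ⟨α, β, P, ?_, ?_⟩
  · rw [e1, e2]; exact h1
  · intro j y hj
    rw [e2]
    exact h2 j y hj

theorem TetR_shift {K : Type} {R : Rel K} {pos : K → Prop} (a : Q) (L U : Q → Dat K)
    (h : TetR R pos L U) : TetR R pos (fun i => L (i + a)) (fun j => U (j + a)) := by
  obtain ⟨α, β, P, h1, h2⟩ := h
  refine ⟨fun x => α x + a, fun x => β x + a, P, ⟨h1.1.shift a, h1.2.shift a⟩, ?_⟩
  intro j y hj
  apply h2
  intro h
  apply hj
  have : j + (β y + a) = j + a + β y := by rw [add_comm (β y) a, add_assoc]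
  rw [this]
  exact h

/-! ### The group action -/

/-- action on the first tree -/
noncomputable def act1 (n : ℤ) (φ : ℤ →₀ Q) (V : LT) : LT := LT.mk' (V.k + n) (sh n V.f + φ)
theorem act1_k (n : ℤ) (φ : ℤ →₀ Q) (V : LT) : (act1 n φ V).k = V.k + n := rfl

theorem act1_f {n : ℤ} {φ : ℤ →₀ Q} {V : LT} {i : ℤ} (h : V.k + n ≤ i) :
    (act1 n φ V).f i = V.f (i - n) + φ i := by
  simp only [act1, LT.mk']
  rw [cut_of_le _ h]
  simp

theorem act1_up (n : ℤ) (φ : ℤ →₀ Q) (V : LT) : act1 n φ (up V) = up (act1 n φ V) := by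
  apply LT.ext'
  · simp only [up_eq, act1, LT.par, LT.mk']; ring
  · intro i hi
    simp only [up_eq, act1_k, LT.par, LT.mk'] at hi ⊢
    rw [cut_of_le (act1 n φ V).f (by omega),
      act1_f (V := V) (by omega)]
    change (act1 n φ (LT.mk' (V.k + 1) V.f)).f i = _
    rw [act1_f (V := LT.mk' (V.k + 1) V.f) (by change V.k + 1 + n ≤ i; omega)]
    change cut (V.k + 1) V.f (i - n) + φ i = _
    rw [cut_of_le _ (by omega)]

theorem act1_idx (n : ℤ) (φ : ℤ →₀ Q) (V : LT) :
    idx (act1 n φ V) = idx V + φ (V.k + n) := by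
  rw [idx_eq, idx_eq, act1_k, act1_f le_rfl]
  simp

/-- action on the second tree -/
noncomputable def act2 (n : ℤ) (φ : ℤ →₀ Q) (w : LT) : LT := act1 (-n) (rfl' φ) w

theorem act2_k (n : ℤ) (φ : ℤ →₀ Q) (w : LT) : (act2 n φ w).k = w.k - n := rfl

theorem act2_f {n : ℤ} {φ : ℤ →₀ Q} {w : LT} {i : ℤ} (h : w.k - n ≤ i) :
    (act2 n φ w).f i = w.f (i + n) + φ (-1 - i) := by
  rw [act2, act1_f (by omega), rfl'_apply, sub_neg_eq_add]

theorem comb_act {n : ℤ} {φ : ℤ →₀ Q} {V w : LT} (h : V.k + w.k = 0) :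
    comb (act1 n φ V) (act2 n φ w) = sh n (comb V w) + φ := by
  ext1 i
  by_cases hi : V.k + n ≤ i
  · rw [comb_of_le (by simp only [act1_k, act2_k]; omega) hi, act1_f hi]
    simp only [Finsupp.add_apply, sh_apply]
    rw [comb_of_le h (by omega)]
  · rw [comb_of_lt (by simp only [act1_k]; omega), act2_f (by omega)]
    simp only [Finsupp.add_apply, sh_apply]
    rw [comb_of_lt (by omega)]
    congr 2 <;> ring

theorem toT_act {D : Type} {x : ℤ → (ℤ →₀ Q) → D} {n : ℤ} {φ : ℤ →₀ Q}
    (hx : ∀ m f, x (m + n) (sh n f + φ) = x m f) {V w : LT} (h : V.k + w.k = 0) :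
    toT x (act1 n φ V) (act2 n φ w) = toT x V w := by
  simp only [toT, comb_act h, act1_k]
  exact hx _ _

end Pool.Agent.H60.Lamp
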