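import Pool.Agent.H5.LL.Free
import Pool.Agent.H60.LampTree

/-!
Assembly: freeness and mixing of the concrete system from the theorems on trees.
-/

set_option autoImplicit false

namespace Pool.Agent.H60.Lamp

open Pool.Agent.H5.LL Function HTree

/-- the automorphism of the tree given by a group element -/
noncomputable def gAut (n : ℤ) (φ : ℤ →₀ Q) : TAut LT where
  map := act1 n φ
  n := n
  c l := φ (l + n)
  lev_map _ := rfl
  up_map V := (act1_up n φ V).symm
  idx_map V := act1_idx n φ V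

/-- the rule of the system -/
abbrev Rule : (Q → Dat Cont) → (Q → Dat Cont) → Prop := TetR RC posC

/-! ### the axis -/

theorem axis_pos (n : ℕ) (hn : 1 ≤ n) (c : Q) : ∀ a : ℕ, ∃ f : ℤ →₀ Q, ∀ i : ℤ,
    ((n : ℤ) ≤ i ∨ i < 0) → f i = f (i - n) + Finsupp.single (a : ℤ) c i := by
  intro a
  induction a using Nat.strong_induction_on with
  | _ a ih =>
    by_cases ha : a < n
    · refine ⟨0, fun i hi => ?_⟩
      have : (a : ℤ) ≠ i := by omega
      simp [this]
    · obtain ⟨f, hf⟩ := ih (a - n) (by omega)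
      have e : ((a - n : ℕ) : ℤ) = (a : ℤ) - n := by omega
      rw [e] at hf
      refine ⟨f - Finsupp.single ((a : ℤ) - n) c, fun i hi => ?_⟩
      have h := hf i hi
      simp only [Finsupp.coe_sub, Pi.sub_apply]
      rw [h]
      have e2 : Finsupp.single ((a : ℤ) - n) c (i - n) = Finsupp.single (a : ℤ) c i := by
        simp only [Finsupp.single_apply]
        by_cases h : (a : ℤ) = i
        · subst h; simp
        · have : ¬ (a : ℤ) - n = i - n := by omega
          simp [h, this]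
      rw [e2]
      abel

theorem axis_neg (n : ℕ) (hn : 1 ≤ n) (c : Q) : ∀ a : ℕ, 1 ≤ a → ∃ f : ℤ →₀ Q, ∀ i : ℤ,
    ((n : ℤ) ≤ i ∨ i < 0) → f i = f (i - n) + Finsupp.single (-(a : ℤ)) c i := by
  intro a
  induction a using Nat.strong_induction_on with
  | _ a ih =>
    intro ha1
    have key : ∃ f : ℤ →₀ Q, ∀ i : ℤ,
        ((n : ℤ) ≤ i ∨ i < 0) → f i = f (i - n) + Finsupp.single (-(a : ℤ) + n) c i := by
      by_cases ha : a ≤ n
      · refine ⟨0, fun i hi => ?_⟩
        have : ¬ (-(a : ℤ) + n) = i := by omega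
        simp [this]
      · obtain ⟨f, hf⟩ := ih (a - n) (by omega) (by omega)
        have e : -((a - n : ℕ) : ℤ) = -(a : ℤ) + n := by omega
        rw [e] at hf
        exact ⟨f, hf⟩
    obtain ⟨f, hf⟩ := key
    refine ⟨f + Finsupp.single (-(a : ℤ)) c, fun i hi => ?_⟩
    have h := hf i hi
    simp only [Finsupp.coe_add, Pi.add_apply]
    rw [h]
    have e2 : Finsupp.single (-(a : ℤ)) c (i - n) = Finsupp.single (-(a : ℤ) + n) c i := by
      simp only [Finsupp.single_apply]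
      by_cases h : (-(a : ℤ) + n) = i
      · subst h; simp
      · have : ¬ (-(a : ℤ)) = i - n := by omega
        simp [h, this]
    rw [e2]

theorem exists_axis (n : ℕ) (hn : 1 ≤ n) (φ : ℤ →₀ Q) : ∃ f : ℤ →₀ Q, ∀ i : ℤ,
    ((n : ℤ) ≤ i ∨ i < 0) → f i = f (i - n) + φ i := by
  induction φ using Finsupp.induction with
  | zero => exact ⟨0, fun i _ => by simp⟩
  | single_add a c φ _ _ ih =>
    obtain ⟨f, hf⟩ := ih
    obtain ⟨g, hg⟩ : ∃ g : ℤ →₀ Q, ∀ i : ℤ,
        ((n : ℤ) ≤ i ∨ i < 0) → g i = g (i - n) + Finsupp.single a c i := by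
      by_cases ha : 0 ≤ a
      · obtain ⟨b, rfl⟩ := Int.eq_ofNat_of_zero_le ha
        exact axis_pos n hn c b
      · obtain ⟨b, hb⟩ := Int.eq_ofNat_of_zero_le (a := -a) (by omega)
        have := axis_neg n hn c b (by omega)
        rw [← hb, neg_neg] at this
        exact this
    refine ⟨g + f, fun i hi => ?_⟩
    simp only [Finsupp.coe_add, Pi.add_apply]
    rw [hf i hi, hg i hi]
    abel

/-! ### freeness -/

theorem exists_bound' (f : ℤ →₀ Q) : ∃ N : ℤ, ∀ i, i < N → f i = 0 := by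
  obtain ⟨N, hN⟩ := f.support.bddBelow
  refine ⟨N, fun i hi => ?_⟩
  by_contra h
  have := hN (Finsupp.mem_support_iff.2 h)
  omega

theorem exists_top (f : ℤ →₀ Q) (hf : f ≠ 0) : ∃ k : ℤ, f k ≠ 0 ∧ ∀ i, k < i → f i = 0 := by
  have hne : f.support.Nonempty := Finsupp.support_nonempty_iff.2 hf
  refine ⟨f.support.max' hne, Finsupp.mem_support_iff.1 (f.support.max'_mem hne), fun i hi => ?_⟩
  by_contra h
  have := f.support.le_max' i (Finsupp.mem_support_iff.2 h)
  omega

section free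
variable {x : ℤ → (ℤ →₀ Q) → Dat Cont} (hx : Good Rule x)
include hx

theorem free_pos (n : ℕ) (hn : 1 ≤ n) (φ : ℤ →₀ Q)
    (hinv : ∀ m f, x (m + n) (sh n f + φ) = x m f) : False := by
  obtain ⟨f, hf⟩ := exists_axis n hn φ
  refine free_inf (toT_inX hx) (gAut n φ) (gAut (-n) (rfl' φ)) ?_ ?_ n hn rfl
    (mkV 0 f) (mkW 0 f) ?_ ?_ ?_
  · simp [gAut]
  · intro V w hs
    exact toT_act hinv hs
  · simp [lev_eq, mkV, mkW, LT.mk']
  · have h1 : up^[n] (mkV 0 f) = LT.mk' (0 + n) (cut 0 f) := LT.par_iter (mkV 0 f) n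
    rw [h1]
    apply LT.ext'
    · rfl
    · intro i hi
      change (0 : ℤ) + n ≤ i at hi
      change (act1 n φ (mkV 0 f)).f i = cut (0 + n) (cut 0 f) i
      rw [act1_f (V := mkV 0 f) hi, cut_of_le _ hi, cut_of_le _ (by omega), hf i (Or.inl (by omega))]
      congr 1
      exact cut_of_le f (by omega)
  · have h1 : ∀ w : LT, up^[n] w = LT.mk' (w.k + n) w.f := fun w => LT.par_iter w n
    rw [h1]
    apply LT.ext'
    · change -(0 : ℤ) + -(n : ℤ) + n = -0
      ring
    · intro i hi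
      change -(0 : ℤ) + -(n : ℤ) + n ≤ i at hi
      change cut (-(0 : ℤ) + -(n : ℤ) + n) (act1 (-n) (rfl' φ) (mkW 0 f)).f i = cut (-0) (rfl' f) i
      rw [cut_of_le _ hi, cut_of_le _ (by omega)]
      rw [act1_f (V := mkW 0 f) (by change -(0 : ℤ) + -(n : ℤ) ≤ i; omega)]
      change cut (-0) (rfl' f) (i - -(n : ℤ)) + rfl' φ i = rfl' f i
      rw [cut_of_le _ (by omega)]
      simp only [rfl'_apply]
      rw [hf (-1 - i) (Or.inr (by omega))]
      congr 2
      ring

theorem free_zero (φ : ℤ →₀ Q) (hinv : ∀ m f, x (m + 0) (sh 0 f + φ) = x m f) : φ = 0 := by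
  by_contra hφ
  obtain ⟨k, hk, hk'⟩ := exists_top φ hφ
  obtain ⟨m, hm⟩ := exists_bound' φ
  have hmk : m ≤ k := by
    by_contra h
    exact hk (hm k (by omega))
  apply hk
  have := free_torsion (toT_inX hx) (gAut 0 φ) (gAut (-0) (rfl' φ)) (by simp [gAut]) (by
    intro V w hs
    exact toT_act hinv hs) (mkV (k + 1) 0) (mkW m 0) (by
      change 1 ≤ (k + 1) + (-m)
      omega) ?_ ?_
  · change φ (k + 1 - 1 + 0) = 0 at this
    simpa using this
  · apply LT.ext'
    · change (k + 1) + 0 = k + 1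
      ring
    · intro i hi
      change (k + 1) + 0 ≤ i at hi
      change (act1 0 φ (mkV (k + 1) 0)).f i = cut (k + 1) 0 i
      rw [act1_f (V := mkV (k + 1) 0) hi, hk' i (by omega), cut_of_le _ (by omega), add_zero]
      change cut (k + 1) 0 (i - 0) = _
      rw [cut_of_le _ (by omega)]
      simp
  · apply LT.ext'
    · change (-m) + (-0) = -m
      ring
    · intro i hi
      change (-m) + (-0) ≤ i at hi
      change (act1 (-0) (rfl' φ) (mkW m 0)).f i = cut (-m) (rfl' 0) i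
      rw [act1_f (V := mkW m 0) hi, rfl'_apply, hm (-1 - i) (by omega), cut_of_le _ (by omega),
        add_zero]
      change cut (-m) (rfl' 0) (i - -0) = _
      rw [cut_of_le _ (by omega)]
      simp

theorem free_all (n : ℤ) (φ : ℤ →₀ Q)
    (hinv : ∀ (m : ℤ) (f : ℤ →₀ Q), x (m + n) (sh n f + φ) = x m f) : n = 0 ∧ φ = 0 := by
  rcases lt_trichotomy n 0 with hn | hn | hn
  · exfalso
    obtain ⟨k, hk⟩ := Int.eq_ofNat_of_zero_le (a := -n) (by omega)
    refine free_pos hx k (by omega) (-sh (-n) φ) ?_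
    intro m f
    have h := hinv (m - n) (sh (-n) (f - φ))
    rw [sub_add_cancel, sh_sh] at h
    have e1 : n + -n = 0 := by ring
    rw [e1, sh_zero_left, sub_add_cancel] at h
    have e2 : m + (k : ℤ) = m - n := by omega
    have e3 : (k : ℤ) = -n := hk.symm
    rw [h, e2, e3, sub_eq_add_neg f φ, sh_add, sh_neg]
  · subst hn
    exact ⟨rfl, free_zero hx φ hinv⟩
  · exfalso
    obtain ⟨k, rfl⟩ := Int.eq_ofNat_of_zero_le hn.le
    exact free_pos hx k (by omega) φ hinv

end free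

/-! ### mixing -/

theorem below_mk {k : ℤ} {h : ℤ →₀ Q} {V : LT} (hk : V.k ≤ k) (hf : ∀ i, k ≤ i → V.f i = h i) :
    below V (LT.mk' k h) := by
  refine ⟨(k - V.k).toNat, ?_⟩
  have h1 : ∀ n : ℕ, up^[n] V = LT.mk' (V.k + n) V.f := fun n => LT.par_iter V n
  have e : V.k + ((k - V.k).toNat : ℤ) = k := by omega
  rw [h1, e]
  apply LT.ext'
  · rfl
  · intro i hi
    change k ≤ i at hi
    change cut k V.f i = cut k h i
    rw [cut_of_le _ hi, cut_of_le _ hi, hf i hi]

theorem of_below_mk {k : ℤ} {h : ℤ →₀ Q} {V : LT} (hb : below V (LT.mk' k h)) :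
    V.k ≤ k ∧ ∀ i, k ≤ i → V.f i = h i := by
  obtain ⟨n, hn⟩ := hb
  have h1 : up^[n] V = LT.mk' (V.k + n) V.f := LT.par_iter V n
  rw [h1] at hn
  have e : V.k + n = k := congrArg LT.k hn
  refine ⟨by omega, fun i hi => ?_⟩
  have h2 : cut (V.k + n) V.f = cut k h := congrArg LT.f hn
  have := DFunLike.congr_fun h2 i
  rwa [cut_of_le _ (by omega), cut_of_le _ hi] at this

theorem up_mk (k : ℤ) (h : ℤ →₀ Q) (N : ℕ) : up^[N] (LT.mk' k h) = LT.mk' (k + N) h := by
  have h1 : up^[N] (LT.mk' k h) = LT.mk' (k + N) (cut k h) := LT.par_iter (LT.mk' k h) N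
  rw [h1]
  apply LT.ext'
  · rfl
  · intro i hi
    change k + (N : ℤ) ≤ i at hi
    change cut (k + N) (cut k h) i = cut (k + N) h i
    rw [cut_of_le _ hi, cut_of_le _ hi, cut_of_le _ (by omega)]

theorem act_mk (n : ℤ) (φ : ℤ →₀ Q) (k : ℤ) (h : ℤ →₀ Q) :
    act1 n φ (LT.mk' k h) = LT.mk' (k + n) (sh n h + φ) := by
  apply LT.ext'
  · rfl
  · intro i hi
    change k + n ≤ i at hi
    rw [act1_f (V := LT.mk' k h) hi]
    change cut k h (i - n) + φ i = cut (k + n) (sh n h + φ) i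
    rw [cut_of_le _ (by omega), cut_of_le _ hi]
    simp

/-- a finite subset of the group lies in a window -/
theorem exists_window (W : Finset (ℤ × (ℤ →₀ Q))) : ∃ r : ℕ, ∀ p ∈ W, -(r : ℤ) ≤ p.1 ∧ p.1 ≤ r ∧
    ∀ i, (i < -(r : ℤ) ∨ (r : ℤ) ≤ i) → p.2 i = 0 := by
  classical
  induction W using Finset.induction_on with
  | empty => exact ⟨0, fun p hp => absurd hp (Finset.notMem_empty p)⟩
  | insert q W _ ih =>
    obtain ⟨r, hr⟩ := ih
    obtain ⟨N, hN⟩ := exists_bound q.2
    obtain ⟨M, hM⟩ := exists_bound' q.2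
    let s : ℕ := r + q.1.natAbs + N.natAbs + M.natAbs
    refine ⟨s, fun p hp => ?_⟩
    rcases Finset.mem_insert.1 hp with rfl | hp
    · refine ⟨by omega, by omega, fun i hi => ?_⟩
      rcases hi with hi | hi
      · exact hM i (by omega)
      · exact hN i (by omega)
    · obtain ⟨h1, h2, h3⟩ := hr p hp
      exact ⟨by omega, by omega, fun i hi => h3 i (by omega)⟩

theorem mixing (hG : GlueThm LT) (x y : ℤ → (ℤ →₀ Q) → Dat Cont) (hx : Good Rule x)
    (hy : Good Rule y) (W : Finset (ℤ × (ℤ →₀ Q))) :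
    ∃ C : Set (ℤ × (ℤ →₀ Q)), C.Finite ∧ ∀ (n : ℤ) (φ : ℤ →₀ Q), (n, φ) ∉ C →
      ∃ z, Good Rule z ∧ (∀ p ∈ W, z p.1 p.2 = x p.1 p.2) ∧
          (∀ p ∈ W, z (p.1 + n) (sh n p.2 + φ) = y p.1 p.2) := by
  classical
  obtain ⟨r, hr⟩ := exists_window W
  obtain ⟨N, hN⟩ := hG (2 * r)
  -- the finite set of elements in the big window
  let M : ℤ := r + N
  let W' : Finset (ℤ × (ℤ →₀ Q)) := (Finset.Icc (-M) M) ×ˢ
    ((Finset.Icc (-M) M).finsupp (fun _ => (Finset.univ : Finset Q)))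
  have hW' : ∀ (m : ℤ) (f : ℤ →₀ Q), -M ≤ m → m ≤ M → (∀ i, (i < -M ∨ M ≤ i) → f i = 0) →
      (m, f) ∈ W' := by
    intro m f h1 h2 h3
    simp only [W', Finset.mem_product, Finset.mem_Icc, Finset.mem_finsupp_iff, Finset.mem_univ,
      implies_true, and_true]
    refine ⟨⟨h1, h2⟩, fun i hi => ?_⟩
    rw [Finsupp.mem_support_iff] at hi
    rw [Finset.mem_Icc]
    by_contra hcon
    exact hi (h3 i (by omega))
  refine ⟨(fun pq : (ℤ × (ℤ →₀ Q)) × (ℤ × (ℤ →₀ Q)) =>
    (pq.1.1 - pq.2.1, pq.1.2 - sh (pq.1.1 - pq.2.1) pq.2.2)) '' ((W' ×ˢ W' : Finset _) : Set _),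
    (Finset.finite_toSet _).image _, ?_⟩
  intro n φ hnφ
  let A1 : LT := LT.mk' r 0
  let B1 : LT := LT.mk' r 0
  let A2 : LT := act1 n φ A1
  let B2 : LT := act2 n φ B1
  have hA2 : A2 = LT.mk' (r + n) φ := by
    change act1 n φ (LT.mk' r 0) = _
    rw [act_mk, sh_zero, zero_add]
  have hB2 : B2 = LT.mk' (r - n) (rfl' φ) := by
    change act1 (-n) (rfl' φ) (LT.mk' r 0) = _
    rw [act_mk, sh_zero, zero_add, sub_eq_add_neg]
  have hdis : ∀ V w : LT, lev V + lev w = 0 → inBox (up^[N] A1) (up^[N] B1) V w →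
      inBox (up^[N] A2) (up^[N] B2) V w → False := by
    intro V w hs h1 h2
    change V.k + w.k = 0 at hs
    rw [hA2, hB2] at h2
    change inBox (up^[N] (LT.mk' r 0)) (up^[N] (LT.mk' r 0)) V w at h1
    rw [up_mk] at h1
    rw [up_mk, up_mk] at h2
    obtain ⟨a1, a2⟩ := of_below_mk h1.1
    obtain ⟨b1, b2⟩ := of_below_mk h1.2
    obtain ⟨c1, c2⟩ := of_below_mk h2.1
    obtain ⟨d1, d2⟩ := of_below_mk h2.2
    apply hnφ
    refine ⟨((V.k, comb V w), (V.k - n, sh (-n) (comb V w - φ))), ?_, ?_⟩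
    · rw [Finset.mem_coe, Finset.mem_product]
      constructor
      · refine hW' _ _ (by omega) (by omega) (fun i hi => ?_)
        rcases hi with hi | hi
        · rw [comb_of_lt (by omega), b2 (-1 - i) (by omega)]
          rfl
        · rw [comb_of_le hs (by omega), a2 i (by omega)]
          rfl
      · refine hW' _ _ (by omega) (by omega) (fun i hi => ?_)
        rw [sh_apply, sub_neg_eq_add, Finsupp.coe_sub, Pi.sub_apply, sub_eq_zero]
        rcases hi with hi | hi
        · rw [comb_of_lt (by omega), d2 (-1 - (i + n)) (by omega), rfl'_apply]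
          congr 1; ring
        · rw [comb_of_le hs (by omega), c2 (i + n) (by omega)]
    · simp only [sub_sub_cancel, sh_sh, add_neg_cancel, sh_zero_left]
  obtain ⟨z, hz, hz1, hz2⟩ := hN (toT x) (toT (push n φ y)) (toT_inX hx)
    (toT_inX (push_good Rule TetR_shift n φ y hy)) A1 B1 A2 B2 (by
      change (r : ℤ) + r = ((2 * r : ℕ) : ℤ)
      push_cast; ring) (by
      rw [hA2, hB2]
      change ((r : ℤ) + n) + (r - n) = ((2 * r : ℕ) : ℤ)
      push_cast; ring) hdis
  · refine ⟨ofT z, ofT_good hz, ?_, ?_⟩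
    · intro p hp
      obtain ⟨h1, h2, h3⟩ := hr p hp
      have := hz1 (mkV p.1 p.2) (mkW p.1 p.2) (by simp [lev_eq, mkV, mkW, LT.mk']) ⟨?_, ?_⟩
      · change z (mkV p.1 p.2) (mkW p.1 p.2) = x p.1 p.2
        rw [this]
        change x p.1 (comb (mkV p.1 p.2) (mkW p.1 p.2)) = x p.1 p.2
        rw [comb_mk]
      · refine below_mk h2 (fun i hi => ?_)
        change cut p.1 p.2 i = 0
        rw [cut_of_le _ (by omega), h3 i (Or.inr hi)]
      · refine below_mk (V := mkW p.1 p.2) (by change -p.1 ≤ (r : ℤ); omega) (fun i hi => ?_)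
        change cut (-p.1) (rfl' p.2) i = 0
        rw [cut_of_le _ (by omega), rfl'_apply, h3 (-1 - i) (Or.inl (by omega))]
    · intro p hp
      obtain ⟨h1, h2, h3⟩ := hr p hp
      have := hz2 (mkV (p.1 + n) (sh n p.2 + φ)) (mkW (p.1 + n) (sh n p.2 + φ))
        (by simp [lev_eq, mkV, mkW, LT.mk']) ⟨?_, ?_⟩
      · change z (mkV (p.1 + n) (sh n p.2 + φ)) (mkW (p.1 + n) (sh n p.2 + φ)) = y p.1 p.2
        rw [this]
        change push n φ y (p.1 + n) (comb _ _) = y p.1 p.2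
        rw [comb_mk, push_apply]
      · rw [hA2]
        refine below_mk (V := mkV (p.1 + n) (sh n p.2 + φ)) (by change p.1 + n ≤ r + n; omega)
          (fun i hi => ?_)
        change cut (p.1 + n) (sh n p.2 + φ) i = φ i
        rw [cut_of_le _ (by omega)]
        simp only [Finsupp.add_apply, sh_apply]
        rw [h3 (i - n) (Or.inr (by omega)), zero_add]
      · rw [hB2]
        refine below_mk (V := mkW (p.1 + n) (sh n p.2 + φ))
          (by change -(p.1 + n) ≤ r - n; omega) (fun i hi => ?_)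
        change cut (-(p.1 + n)) (rfl' (sh n p.2 + φ)) i = rfl' φ i
        rw [cut_of_le _ (by omega)]
        simp only [rfl'_apply, Finsupp.add_apply, sh_apply]
        rw [h3 (-1 - i - n) (Or.inl (by omega)), zero_add]

/-! ### finiteness -/

instance : Finite Cont := by
  let g : Cont → (Set.Icc (0 : ℤ) 32) × (Set.Icc (-32 : ℤ) 32) × (Set.Icc (0 : ℤ) 32) :=
    fun c => (⟨c.d, c.hd0, c.hd1⟩, ⟨c.e, c.he0, c.he1⟩, ⟨c.δ, c.hδ0, c.hδ1⟩)
  refine Finite.of_injective g ?_
  intro c c' h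
  simp only [g, Prod.mk.injEq] at h
  exact Cont.ext (congrArg Subtype.val h.1) (congrArg Subtype.val h.2.1)
    (congrArg Subtype.val h.2.2)

instance {K : Type} [Finite K] : Finite (Dat K) := by
  let g : Dat K → (Sg → Q × K) × (Sg → Q × K) × (Sg → Sg → K) := fun D => (D.S, D.T, D.C)
  refine Finite.of_injective g ?_
  rintro ⟨a, b, c⟩ ⟨a', b', c'⟩ h
  simp only [g, Prod.mk.injEq] at h
  obtain ⟨rfl, rfl, rfl⟩ := h
  rfl

/-- The frozen statement from the two tree theorems. -/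
theorem lamp_main (hG : GlueThm LT) (hne : NonemptyThm LT) :
    ∀ G : Subgroup (Equiv.Perm (ℤ × (ℤ →₀ ZMod 2))),
    G = Subgroup.closure
      {Equiv.prodCongr (Equiv.addRight (1 : ℤ)) (Equiv.refl (ℤ →₀ ZMod 2)),
       Equiv.prodShear (Equiv.refl ℤ)
         (fun n : ℤ => Equiv.addRight (Finsupp.single n (1 : ZMod 2)))} →
    MixFin G := by
  obtain ⟨z, hz⟩ := hne
  exact lamp_final 6 Rule TetR_shift ⟨ofT z, ofT_good hz⟩ (fun x hx n φ h => free_all hx n φ h)
    (fun x y hx hy W => mixing hG x y hx hy W)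

end Pool.Agent.H60.Lamp
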