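import Mathlib

set_option autoImplicit false

/-!
A rank function on the subsets of the rationals, and the group of all permutations of the
rationals preserving it. The group has exactly `ℵ₁` orbits on the power set.
-/

namespace Pool.Agent.H60.OrbitRank

open Set

/-- `RkLe α A`: the set `A` of rationals has rank at most `α`. -/
inductive RkLe : Ordinal.{0} → Set ℚ → Prop
  | fin {α : Ordinal.{0}} {A : Set ℚ} (h : A.Finite) : RkLe α A
  | union {α : Ordinal.{0}} {A B : Set ℚ} (hA : RkLe α A) (hB : RkLe α B) : RkLe α (A ∪ B)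
  | up {α : Ordinal.{0}} {A : Set ℚ} (f : ℚ → Ordinal.{0}) (hf : ∀ a ∈ A, f a < α)
      (h : ∀ a ∈ A, RkLe (f a) (A ∩ Iio a)) : RkLe α A
  | down {α : Ordinal.{0}} {A : Set ℚ} (f : ℚ → Ordinal.{0}) (hf : ∀ a ∈ A, f a < α)
      (h : ∀ a ∈ A, RkLe (f a) (A ∩ Ioi a)) : RkLe α A

theorem RkLe.up' {α : Ordinal.{0}} {A : Set ℚ}
    (h : ∀ a ∈ A, ∃ β < α, RkLe β (A ∩ Iio a)) : RkLe α A := by
  classical
  choose! f hf using h
  exact RkLe.up f (fun a ha => (hf a ha).1) (fun a ha => (hf a ha).2)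

theorem RkLe.down' {α : Ordinal.{0}} {A : Set ℚ}
    (h : ∀ a ∈ A, ∃ β < α, RkLe β (A ∩ Ioi a)) : RkLe α A := by
  classical
  choose! f hf using h
  exact RkLe.down f (fun a ha => (hf a ha).1) (fun a ha => (hf a ha).2)

theorem RkLe.mono {α : Ordinal.{0}} {A : Set ℚ} (h : RkLe α A) :
    ∀ {B : Set ℚ}, B ⊆ A → RkLe α B := by
  induction h with
  | fin h => intro B hB; exact RkLe.fin (h.subset hB)
  | @union α A C hA hC ihA ihC =>
    intro B hB
    have : B = (B ∩ A) ∪ (B ∩ C) := by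
      rw [← inter_union_distrib_left]; exact (inter_eq_left.2 hB).symm
    rw [this]
    exact RkLe.union (ihA inter_subset_right) (ihC inter_subset_right)
  | @up α A f hf h ih =>
    intro B hB
    exact RkLe.up f (fun a ha => hf a (hB ha)) (fun a ha => ih a (hB ha) (inter_subset_inter_left _ hB))
  | @down α A f hf h ih =>
    intro B hB
    exact RkLe.down f (fun a ha => hf a (hB ha)) (fun a ha => ih a (hB ha) (inter_subset_inter_left _ hB))

theorem RkLe.le {α β : Ordinal.{0}} {A : Set ℚ} (h : RkLe α A) (hab : α ≤ β) : RkLe β A := by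
  induction h with
  | fin h => exact RkLe.fin h
  | union hA hB ihA ihB => exact RkLe.union (ihA hab) (ihB hab)
  | up f hf h ih => exact RkLe.up f (fun a ha => (hf a ha).trans_le hab) h
  | down f hf h ih => exact RkLe.down f (fun a ha => (hf a ha).trans_le hab) h

theorem RkLe.union_iff {α : Ordinal.{0}} {A B : Set ℚ} : RkLe α (A ∪ B) ↔ RkLe α A ∧ RkLe α B :=
  ⟨fun h => ⟨h.mono subset_union_left, h.mono subset_union_right⟩, fun h => h.1.union h.2⟩

theorem RkLe.biUnion {α : Ordinal.{0}} {ι : Type*} {s : Set ι} (hs : s.Finite) {A : ι → Set ℚ}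
    (h : ∀ i ∈ s, RkLe α (A i)) : RkLe α (⋃ i ∈ s, A i) := by
  induction s, hs using Set.Finite.induction_on with
  | empty => simpa using RkLe.fin finite_empty
  | @insert a s ha hs ih =>
    rw [biUnion_insert]
    exact RkLe.union (h a (mem_insert _ _)) (ih fun i hi => h i (mem_insert_of_mem _ hi))

theorem RkLe.zero_iff {A : Set ℚ} : RkLe 0 A ↔ A.Finite := by
  constructor
  · intro h
    have key : ∀ (α : Ordinal.{0}) (A : Set ℚ), RkLe α A → α = 0 → A.Finite := by
      intro α A h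
      induction h with
      | fin h => intro _; exact h
      | union hA hB ihA ihB => intro h0; exact (ihA h0).union (ihB h0)
      | @up α A f hf h ih =>
        intro h0
        subst h0
        have : A = ∅ := by
          ext a; constructor
          · intro ha; exact absurd (hf a ha) (by simp)
          · simp
        rw [this]; exact finite_empty
      | @down α A f hf h ih =>
        intro h0
        subst h0
        have : A = ∅ := by
          ext a; constructor
          · intro ha; exact absurd (hf a ha) (by simp)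
          · simp
        rw [this]; exact finite_empty
    exact key 0 A h rfl
  · exact RkLe.fin

/-- `SumPart A φ`: the rank of subsets of `A` is computed from the ranks of the fibres of `φ`. -/
def SumPart (A : Set ℚ) (φ : ℚ → ℕ) : Prop :=
  ∀ C ⊆ A, ∀ γ : Ordinal.{0}, RkLe γ C ↔ (∀ n, RkLe γ (C ∩ φ ⁻¹' {n})) ∧
    {n | (C ∩ φ ⁻¹' {n}).Nonempty ∧ ∀ β < γ, ¬ RkLe β (C ∩ φ ⁻¹' {n})}.Finite

theorem cutoff {C : Set ℚ} {φ : ℚ → ℕ} {γ : Ordinal.{0}}
    (h : {n | (C ∩ φ ⁻¹' {n}).Nonempty ∧ ∀ β < γ, ¬ RkLe β (C ∩ φ ⁻¹' {n})}.Finite) :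
    ∃ N, ∀ n, N ≤ n → (C ∩ φ ⁻¹' {n}) = ∅ ∨ ∃ β < γ, RkLe β (C ∩ φ ⁻¹' {n}) := by
  obtain ⟨N, hN⟩ := h.bddAbove
  refine ⟨N + 1, fun n hn => ?_⟩
  by_contra hcon
  push Not at hcon
  have := hN (show n ∈ _ from ⟨hcon.1, hcon.2⟩)
  omega

theorem fin_of_cutoff {C : Set ℚ} {φ : ℚ → ℕ} {γ : Ordinal.{0}} (N : ℕ)
    (h : ∀ n, N ≤ n → (C ∩ φ ⁻¹' {n}) = ∅ ∨ ∃ β < γ, RkLe β (C ∩ φ ⁻¹' {n})) :
    {n | (C ∩ φ ⁻¹' {n}).Nonempty ∧ ∀ β < γ, ¬ RkLe β (C ∩ φ ⁻¹' {n})}.Finite := by
  refine (finite_Iio N).subset ?_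
  rintro n ⟨h1, h2⟩
  by_contra hcon
  rw [mem_Iio, not_lt] at hcon
  rcases h n hcon with h3 | ⟨β, hβ, h3⟩
  · exact h1.ne_empty h3
  · exact h2 β hβ h3

/-- A finite family of sets, each of rank `< γ`, has a common rank bound `< γ`. -/
theorem exists_lt_biUnion {γ : Ordinal.{0}} {ι : Type*} {s : Set ι} (hs : s.Finite)
    (hγ : 0 < γ) {A : ι → Set ℚ}
    (h : ∀ i ∈ s, A i = ∅ ∨ ∃ β < γ, RkLe β (A i)) : ∃ β < γ, RkLe β (⋃ i ∈ s, A i) := by
  induction s, hs using Set.Finite.induction_on with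
  | empty => exact ⟨0, hγ, by simpa using RkLe.fin finite_empty⟩
  | @insert a s ha hs ih =>
    obtain ⟨β, hβ, h1⟩ := ih fun i hi => h i (mem_insert_of_mem _ hi)
    rw [biUnion_insert]
    rcases h a (mem_insert _ _) with h2 | ⟨δ, hδ, h2⟩
    · rw [h2, empty_union]; exact ⟨β, hβ, h1⟩
    · exact ⟨max β δ, max_lt hβ hδ, RkLe.union (h2.le (le_max_right _ _)) (h1.le (le_max_left _ _))⟩

theorem sumPart_backward {C : Set ℚ} {φ : ℚ → ℕ}
    (hφ : (∀ c ∈ C, ∃ N, C ∩ Iio c ⊆ φ ⁻¹' (Iio N)) ∨ (∀ c ∈ C, ∃ N, C ∩ Ioi c ⊆ φ ⁻¹' (Iio N)))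
    {γ : Ordinal.{0}} (h1 : ∀ n, RkLe γ (C ∩ φ ⁻¹' {n}))
    (h2 : {n | (C ∩ φ ⁻¹' {n}).Nonempty ∧ ∀ β < γ, ¬ RkLe β (C ∩ φ ⁻¹' {n})}.Finite) :
    RkLe γ C := by
  obtain ⟨N, hN⟩ := cutoff h2
  have hsplit : C = (⋃ n ∈ Iio N, C ∩ φ ⁻¹' {n}) ∪ (C ∩ φ ⁻¹' (Ici N)) := by
    ext c
    simp only [mem_union, mem_iUnion, mem_inter_iff, mem_preimage, mem_singleton_iff, mem_Ici,
      mem_Iio, exists_prop]
    constructor
    · intro hc
      rcases lt_or_ge (φ c) N with h | h
      · exact Or.inl ⟨φ c, h, hc, rfl⟩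
      · exact Or.inr ⟨hc, h⟩
    · rintro (⟨n, _, hc, _⟩ | ⟨hc, _⟩) <;> exact hc
  rw [hsplit]
  refine RkLe.union (RkLe.biUnion (finite_Iio N) fun n _ => h1 n) ?_
  rcases eq_or_ne γ 0 with hγ | hγ
  · have : C ∩ φ ⁻¹' (Ici N) = ∅ := by
      ext c
      simp only [mem_inter_iff, mem_preimage, mem_Ici, mem_empty_iff_false, iff_false, not_and,
        not_le]
      intro hc
      by_contra hcon
      rw [not_lt] at hcon
      rcases hN (φ c) hcon with h | ⟨β, hβ, _⟩
      · have : c ∈ C ∩ φ ⁻¹' {φ c} := ⟨hc, rfl⟩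
        rw [h] at this; exact this
      · rw [hγ] at hβ; exact absurd hβ (by simp)
    rw [this]; exact RkLe.fin finite_empty
  · have hγ' : 0 < γ := pos_iff_ne_zero.2 hγ
    have key : ∀ M, ∃ β < γ, RkLe β (⋃ n ∈ Ico N M, C ∩ φ ⁻¹' {n}) := fun M =>
      exists_lt_biUnion (finite_Ico N M) hγ' fun n hn => hN n hn.1
    have key2 : ∀ S ⊆ C, (∃ M, S ⊆ φ ⁻¹' (Iio M)) →
        ∃ β < γ, RkLe β (S ∩ φ ⁻¹' (Ici N)) := by
      rintro S hS ⟨M, hM⟩
      obtain ⟨β, hβ, h⟩ := key M
      refine ⟨β, hβ, h.mono ?_⟩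
      rintro c ⟨hc, hc2⟩
      simp only [mem_iUnion, mem_inter_iff, mem_preimage, mem_singleton_iff, exists_prop, mem_Ico]
      exact ⟨φ c, ⟨hc2, hM hc⟩, hS hc, rfl⟩
    rcases hφ with hφ | hφ
    · refine RkLe.up' fun c hc => ?_
      obtain ⟨β, hβ, h⟩ := key2 (C ∩ Iio c) inter_subset_left (hφ c hc.1)
      exact ⟨β, hβ, h.mono fun x hx => ⟨⟨hx.1.1, hx.2⟩, hx.1.2⟩⟩
    · refine RkLe.down' fun c hc => ?_
      obtain ⟨β, hβ, h⟩ := key2 (C ∩ Ioi c) inter_subset_left (hφ c hc.1)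
      exact ⟨β, hβ, h.mono fun x hx => ⟨⟨hx.1.1, hx.2⟩, hx.1.2⟩⟩

theorem sumPart_of_monotoneOn {A : Set ℚ} {φ : ℚ → ℕ} (hφ : MonotoneOn φ A) : SumPart A φ := by
  intro C hCA γ
  constructor
  · intro h
    refine ⟨fun n => h.mono inter_subset_left, ?_⟩
    have key : ∀ (γ : Ordinal.{0}) (C : Set ℚ), RkLe γ C → C ⊆ A →
        {n | (C ∩ φ ⁻¹' {n}).Nonempty ∧ ∀ β < γ, ¬ RkLe β (C ∩ φ ⁻¹' {n})}.Finite := by
      clear hCA h C γ
      intro γ C h
      induction h with
      | @fin γ C h =>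
        intro _
        refine (h.image φ).subset ?_
        rintro n ⟨⟨c, hc, hcn⟩, _⟩
        exact ⟨c, hc, hcn⟩
      | @union γ C D hC hD ihC ihD =>
        intro hCD
        obtain ⟨N₁, h₁⟩ := cutoff (ihC (subset_union_left.trans hCD))
        obtain ⟨N₂, h₂⟩ := cutoff (ihD (subset_union_right.trans hCD))
        refine fin_of_cutoff (max N₁ N₂) fun n hn => ?_
        rw [union_inter_distrib_right]
        rcases h₁ n (le_trans (le_max_left _ _) hn) with h₁ | ⟨β₁, hβ₁, h₁⟩ <;>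
        rcases h₂ n (le_trans (le_max_right _ _) hn) with h₂ | ⟨β₂, hβ₂, h₂⟩
        · left; rw [h₁, h₂, union_empty]
        · right; rw [h₁, empty_union]; exact ⟨β₂, hβ₂, h₂⟩
        · right; rw [h₂, union_empty]; exact ⟨β₁, hβ₁, h₁⟩
        · right
          exact ⟨max β₁ β₂, max_lt hβ₁ hβ₂, (h₁.le (le_max_left _ _)).union (h₂.le (le_max_right _ _))⟩
      | @up γ C f hf h ih =>
        intro hCA
        by_cases hb : ∃ N, ∀ c ∈ C, φ c ≤ N
        · obtain ⟨N, hN⟩ := hb
          refine fin_of_cutoff (N + 1) fun n hn => ?_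
          left
          ext c
          simp only [mem_inter_iff, mem_preimage, mem_singleton_iff, mem_empty_iff_false, iff_false,
            not_and]
          intro hc hcn
          have := hN c hc
          omega
        · push Not at hb
          refine fin_of_cutoff 0 fun n _ => ?_
          obtain ⟨c, hc, hcn⟩ := hb n
          right
          refine ⟨f c, hf c hc, (h c hc).mono ?_⟩
          rintro x ⟨hx, hxn⟩
          refine ⟨hx, ?_⟩
          by_contra hcon
          rw [mem_Iio, not_lt] at hcon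
          have := hφ (hCA hc) (hCA hx) hcon
          rw [mem_preimage, mem_singleton_iff] at hxn
          omega
      | @down γ C f hf h ih =>
        intro hCA
        rcases C.eq_empty_or_nonempty with hC | ⟨c, hc⟩
        · refine fin_of_cutoff 0 fun n _ => ?_
          left; rw [hC, empty_inter]
        · refine fin_of_cutoff (φ c + 1) fun n hn => ?_
          right
          refine ⟨f c, hf c hc, (h c hc).mono ?_⟩
          rintro x ⟨hx, hxn⟩
          refine ⟨hx, ?_⟩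
          by_contra hcon
          rw [mem_Ioi, not_lt] at hcon
          have := hφ (hCA hx) (hCA hc) hcon
          rw [mem_preimage, mem_singleton_iff] at hxn
          omega
    exact key γ C h hCA
  · rintro ⟨h1, h2⟩
    refine sumPart_backward (Or.inl fun c hc => ⟨φ c + 1, ?_⟩) h1 h2
    rintro x ⟨hx, hxc⟩
    exact Nat.lt_succ_of_le (hφ (hCA hx) (hCA hc) (le_of_lt hxc))

theorem sumPart_of_antitoneOn {A : Set ℚ} {φ : ℚ → ℕ} (hφ : AntitoneOn φ A) : SumPart A φ := by
  intro C hCA γ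
  constructor
  · intro h
    refine ⟨fun n => h.mono inter_subset_left, ?_⟩
    have key : ∀ (γ : Ordinal.{0}) (C : Set ℚ), RkLe γ C → C ⊆ A →
        {n | (C ∩ φ ⁻¹' {n}).Nonempty ∧ ∀ β < γ, ¬ RkLe β (C ∩ φ ⁻¹' {n})}.Finite := by
      clear hCA h C γ
      intro γ C h
      induction h with
      | @fin γ C h =>
        intro _
        refine (h.image φ).subset ?_
        rintro n ⟨⟨c, hc, hcn⟩, _⟩
        exact ⟨c, hc, hcn⟩
      | @union γ C D hC hD ihC ihD =>
        intro hCD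
        obtain ⟨N₁, h₁⟩ := cutoff (ihC (subset_union_left.trans hCD))
        obtain ⟨N₂, h₂⟩ := cutoff (ihD (subset_union_right.trans hCD))
        refine fin_of_cutoff (max N₁ N₂) fun n hn => ?_
        rw [union_inter_distrib_right]
        rcases h₁ n (le_trans (le_max_left _ _) hn) with h₁ | ⟨β₁, hβ₁, h₁⟩ <;>
        rcases h₂ n (le_trans (le_max_right _ _) hn) with h₂ | ⟨β₂, hβ₂, h₂⟩
        · left; rw [h₁, h₂, union_empty]
        · right; rw [h₁, empty_union]; exact ⟨β₂, hβ₂, h₂⟩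
        · right; rw [h₂, union_empty]; exact ⟨β₁, hβ₁, h₁⟩
        · right
          exact ⟨max β₁ β₂, max_lt hβ₁ hβ₂, (h₁.le (le_max_left _ _)).union (h₂.le (le_max_right _ _))⟩
      | @up γ C f hf h ih =>
        intro hCA
        rcases C.eq_empty_or_nonempty with hC | ⟨c, hc⟩
        · refine fin_of_cutoff 0 fun n _ => ?_
          left; rw [hC, empty_inter]
        · refine fin_of_cutoff (φ c + 1) fun n hn => ?_
          right
          refine ⟨f c, hf c hc, (h c hc).mono ?_⟩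
          rintro x ⟨hx, hxn⟩
          refine ⟨hx, ?_⟩
          by_contra hcon
          rw [mem_Iio, not_lt] at hcon
          have := hφ (hCA hc) (hCA hx) hcon
          rw [mem_preimage, mem_singleton_iff] at hxn
          omega
      | @down γ C f hf h ih =>
        intro hCA
        by_cases hb : ∃ N, ∀ c ∈ C, φ c ≤ N
        · obtain ⟨N, hN⟩ := hb
          refine fin_of_cutoff (N + 1) fun n hn => ?_
          left
          ext c
          simp only [mem_inter_iff, mem_preimage, mem_singleton_iff, mem_empty_iff_false, iff_false,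
            not_and]
          intro hc hcn
          have := hN c hc
          omega
        · push Not at hb
          refine fin_of_cutoff 0 fun n _ => ?_
          obtain ⟨c, hc, hcn⟩ := hb n
          right
          refine ⟨f c, hf c hc, (h c hc).mono ?_⟩
          rintro x ⟨hx, hxn⟩
          refine ⟨hx, ?_⟩
          by_contra hcon
          rw [mem_Ioi, not_lt] at hcon
          have := hφ (hCA hx) (hCA hc) hcon
          rw [mem_preimage, mem_singleton_iff] at hxn
          omega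
    exact key γ C h hCA
  · rintro ⟨h1, h2⟩
    refine sumPart_backward (Or.inr fun c hc => ⟨φ c + 1, ?_⟩) h1 h2
    rintro x ⟨hx, hxc⟩
    exact Nat.lt_succ_of_le (hφ (hCA hc) (hCA hx) (le_of_lt hxc))


/-- Enumeration of a nonempty set of rationals. -/
theorem exists_enum {A : Set ℚ} (hA : A.Nonempty) : ∃ e : ℕ → ℚ, range e = A :=
  (A.to_countable.exists_eq_range hA).imp fun _ h => h.symm


/-- The first stage at which the enumeration `e` has reached something `≥ a`. -/
noncomputable def stageUp (e : ℕ → ℚ) (a : ℚ) : ℕ := sInf {n | ∃ i ≤ n, a ≤ e i}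

/-- The first stage at which the enumeration `e` has reached something `≤ a`. -/
noncomputable def stageDown (e : ℕ → ℚ) (a : ℚ) : ℕ := sInf {n | ∃ i ≤ n, e i ≤ a}

theorem stageUp_spec {e : ℕ → ℚ} {A : Set ℚ} (he : range e = A) {a : ℚ} (ha : a ∈ A) :
    ∃ i ≤ stageUp e a, a ≤ e i := by
  have hne : {n | ∃ i ≤ n, a ≤ e i}.Nonempty := by
    rw [← he] at ha
    obtain ⟨i, rfl⟩ := ha
    exact ⟨i, i, le_rfl, le_rfl⟩
  exact Nat.sInf_mem hne

theorem stageDown_spec {e : ℕ → ℚ} {A : Set ℚ} (he : range e = A) {a : ℚ} (ha : a ∈ A) :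
    ∃ i ≤ stageDown e a, e i ≤ a := by
  have hne : {n | ∃ i ≤ n, e i ≤ a}.Nonempty := by
    rw [← he] at ha
    obtain ⟨i, rfl⟩ := ha
    exact ⟨i, i, le_rfl, le_rfl⟩
  exact Nat.sInf_mem hne

theorem stageUp_le {e : ℕ → ℚ} {a : ℚ} {n i : ℕ} (hi : i ≤ n) (h : a ≤ e i) : stageUp e a ≤ n :=
  Nat.sInf_le ⟨i, hi, h⟩

theorem stageDown_le {e : ℕ → ℚ} {a : ℚ} {n i : ℕ} (hi : i ≤ n) (h : e i ≤ a) :
    stageDown e a ≤ n :=
  Nat.sInf_le ⟨i, hi, h⟩

theorem stageUp_monotoneOn {e : ℕ → ℚ} {A : Set ℚ} (he : range e = A) :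
    MonotoneOn (stageUp e) A := by
  intro a _ b hb hab
  obtain ⟨i, hi, hi2⟩ := stageUp_spec he hb
  exact stageUp_le hi (hab.trans hi2)

theorem stageDown_antitoneOn {e : ℕ → ℚ} {A : Set ℚ} (he : range e = A) :
    AntitoneOn (stageDown e) A := by
  intro a ha b _ hab
  obtain ⟨i, hi, hi2⟩ := stageDown_spec he ha
  exact stageDown_le hi (hi2.trans hab)

/-- The decomposition lemma: a set of rank at most `α` (with `0 < α`) splits as a rank sum of
sets of smaller rank. -/
theorem exists_sumPart {α : Ordinal.{0}} {A : Set ℚ} (h : RkLe α A) (hα : 0 < α) :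
    ∃ φ : ℚ → ℕ, SumPart A φ ∧ ∀ n, ∃ β < α, RkLe β (A ∩ φ ⁻¹' {n}) := by
  classical
  induction h with
  | @fin α A h =>
    exact ⟨fun _ => 0, sumPart_of_monotoneOn (fun _ _ _ _ _ => le_rfl),
      fun n => ⟨0, hα, RkLe.fin (h.subset inter_subset_left)⟩⟩
  | @union α A B hA hB ihA ihB =>
    obtain ⟨φ, hφ, hφ2⟩ := ihA hα
    obtain ⟨ψ, hψ, hψ2⟩ := ihB hα
    refine ⟨fun q => if q ∈ A then 2 * φ q else 2 * ψ q + 1, ?_, ?_⟩
    · intro C hC γ
      set χ : ℚ → ℕ := fun q => if q ∈ A then 2 * φ q else 2 * ψ q + 1 with hχ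
      have e1 : ∀ n, C ∩ χ ⁻¹' {2 * n} = (C ∩ A) ∩ φ ⁻¹' {n} := by
        intro n; ext q
        simp only [mem_inter_iff, mem_preimage, mem_singleton_iff, hχ]
        by_cases hq : q ∈ A
        · simp only [hq, if_true]
          constructor
          · rintro ⟨h1, h2⟩; exact ⟨⟨h1, trivial⟩, by omega⟩
          · rintro ⟨⟨h1, _⟩, h2⟩; exact ⟨h1, by omega⟩
        · simp only [hq, if_false]
          constructor
          · rintro ⟨h1, h2⟩; omega
          · rintro ⟨⟨h1, h⟩, h2⟩; exact absurd h (by simp)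
      have e2 : ∀ n, C ∩ χ ⁻¹' {2 * n + 1} = (C \ A) ∩ ψ ⁻¹' {n} := by
        intro n; ext q
        simp only [mem_inter_iff, mem_preimage, mem_singleton_iff, hχ, mem_sdiff]
        by_cases hq : q ∈ A
        · simp only [hq, if_true]
          constructor
          · rintro ⟨h1, h2⟩; omega
          · rintro ⟨⟨h1, h⟩, h2⟩; exact absurd trivial h
        · simp only [hq, if_false]
          constructor
          · rintro ⟨h1, h2⟩; exact ⟨⟨h1, not_false⟩, by omega⟩
          · rintro ⟨⟨h1, _⟩, h2⟩; exact ⟨h1, by omega⟩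
      have hCs : C = (C ∩ A) ∪ (C \ A) := (inter_union_sdiff C A).symm
      have hA' := hφ (C ∩ A) inter_subset_right γ
      have hB' := hψ (C \ A) (fun x hx => (hC hx.1).resolve_left hx.2) γ
      have h1 : RkLe γ C ↔ RkLe γ (C ∩ A) ∧ RkLe γ (C \ A) := by
        conv_lhs => rw [hCs]
        exact RkLe.union_iff
      rw [h1, hA', hB']
      constructor
      · rintro ⟨⟨a1, a2⟩, b1, b2⟩
        refine ⟨fun n => ?_, ?_⟩
        · rcases Nat.even_or_odd' n with ⟨k, rfl | rfl⟩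
          · rw [e1]; exact a1 k
          · rw [e2]; exact b1 k
        · refine ((a2.image (fun n => 2 * n)).union (b2.image (fun n => 2 * n + 1))).subset ?_
          intro n hn
          rcases Nat.even_or_odd' n with ⟨k, rfl | rfl⟩
          · left; refine ⟨k, ?_, rfl⟩
            rw [mem_ofPred_eq, e1] at hn; exact hn
          · right; refine ⟨k, ?_, rfl⟩
            rw [mem_ofPred_eq, e2] at hn; exact hn
      · rintro ⟨a1, a2⟩
        refine ⟨⟨fun n => ?_, ?_⟩, fun n => ?_, ?_⟩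
        · rw [← e1]; exact a1 _
        · refine (a2.preimage (f := fun n => 2 * n) (fun a _ b _ h => by simpa using h)).subset ?_
          intro n hn
          rw [mem_ofPred_eq, ← e1] at hn
          exact hn
        · rw [← e2]; exact a1 _
        · refine (a2.preimage (f := fun n => 2 * n + 1) (fun a _ b _ h => by simpa using h)).subset ?_
          intro n hn
          rw [mem_ofPred_eq, ← e2] at hn
          exact hn
    · intro n
      rcases Nat.even_or_odd' n with ⟨k, rfl | rfl⟩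
      · obtain ⟨β, hβ, h⟩ := hφ2 k
        refine ⟨β, hβ, h.mono ?_⟩
        rintro q ⟨hq, hq2⟩
        rw [mem_preimage, mem_singleton_iff] at hq2
        by_cases hqA : q ∈ A
        · rw [if_pos hqA] at hq2
          exact ⟨hqA, by rw [mem_preimage, mem_singleton_iff]; omega⟩
        · rw [if_neg hqA] at hq2; omega
      · obtain ⟨β, hβ, h⟩ := hψ2 k
        refine ⟨β, hβ, h.mono ?_⟩
        rintro q ⟨hq, hq2⟩
        rw [mem_preimage, mem_singleton_iff] at hq2
        by_cases hqA : q ∈ A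
        · rw [if_pos hqA] at hq2; omega
        · rw [if_neg hqA] at hq2
          exact ⟨hq.resolve_left hqA, by rw [mem_preimage, mem_singleton_iff]; omega⟩
  | @up α A f hf h ih =>
    rcases A.eq_empty_or_nonempty with hA | hA
    · subst hA
      exact ⟨fun _ => 0, sumPart_of_monotoneOn (fun _ _ _ _ _ => le_rfl),
        fun n => ⟨0, hα, RkLe.fin (finite_empty.subset inter_subset_left)⟩⟩
    obtain ⟨e, he⟩ := exists_enum hA
    refine ⟨stageUp e, sumPart_of_monotoneOn (stageUp_monotoneOn he), ?_⟩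
    · intro n
      have hsub : A ∩ (stageUp e) ⁻¹' {n} ⊆
          ⋃ i ∈ Iic n, ({e i} ∪ (A ∩ Iio (e i))) := by
        rintro a ⟨ha, han⟩
        rw [mem_preimage, mem_singleton_iff] at han
        obtain ⟨i, hi, hi2⟩ := stageUp_spec he ha
        rw [han] at hi
        simp only [mem_iUnion, mem_union, mem_singleton_iff, mem_inter_iff, exists_prop]
        refine ⟨i, hi, ?_⟩
        rcases hi2.eq_or_lt with h | h
        · exact Or.inl h
        · exact Or.inr ⟨ha, h⟩
      obtain ⟨β, hβ, h1⟩ := exists_lt_biUnion (γ := α) (finite_Iic n) hα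
        (A := fun i => ({e i} ∪ (A ∩ Iio (e i)) : Set ℚ)) (fun i _ => Or.inr ⟨f (e i), hf _ (he ▸ mem_range_self i),
          (RkLe.fin (finite_singleton _)).union (h _ (he ▸ mem_range_self i))⟩)
      exact ⟨β, hβ, h1.mono hsub⟩
  | @down α A f hf h ih =>
    rcases A.eq_empty_or_nonempty with hA | hA
    · subst hA
      exact ⟨fun _ => 0, sumPart_of_monotoneOn (fun _ _ _ _ _ => le_rfl),
        fun n => ⟨0, hα, RkLe.fin (finite_empty.subset inter_subset_left)⟩⟩
    obtain ⟨e, he⟩ := exists_enum hA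
    refine ⟨stageDown e, sumPart_of_antitoneOn (stageDown_antitoneOn he), ?_⟩
    · intro n
      have hsub : A ∩ (stageDown e) ⁻¹' {n} ⊆
          ⋃ i ∈ Iic n, ({e i} ∪ (A ∩ Ioi (e i))) := by
        rintro a ⟨ha, han⟩
        rw [mem_preimage, mem_singleton_iff] at han
        obtain ⟨i, hi, hi2⟩ := stageDown_spec he ha
        rw [han] at hi
        simp only [mem_iUnion, mem_union, mem_singleton_iff, mem_inter_iff, exists_prop]
        refine ⟨i, hi, ?_⟩
        rcases hi2.eq_or_lt with h | h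
        · exact Or.inl h.symm
        · exact Or.inr ⟨ha, h⟩
      obtain ⟨β, hβ, h1⟩ := exists_lt_biUnion (γ := α) (finite_Iic n) hα
        (A := fun i => ({e i} ∪ (A ∩ Ioi (e i)) : Set ℚ)) (fun i _ => Or.inr ⟨f (e i), hf _ (he ▸ mem_range_self i),
          (RkLe.fin (finite_singleton _)).union (h _ (he ▸ mem_range_self i))⟩)
      exact ⟨β, hβ, h1.mono hsub⟩

/-- Big sets contain a rank sum of infinitely many large pieces. -/
theorem exists_big_sumPart {α : Ordinal.{0}} {B : Set ℚ} (hα : 0 < α)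
    (hB : ∀ β < α, ¬ RkLe β B) :
    ∃ (B' : Set ℚ) (ψ : ℚ → ℕ), B' ⊆ B ∧ SumPart B' ψ ∧
      ∀ β < α, {n | ∀ δ < β, ¬ RkLe δ (B' ∩ ψ ⁻¹' {n})}.Infinite := by
  classical
  -- it is enough that all tails of the partition are big
  have reduce : ∀ (B' : Set ℚ) (ψ : ℚ → ℕ), B' ⊆ B → SumPart B' ψ →
      (∀ N, ∀ β < α, ¬ RkLe β (B' ∩ ψ ⁻¹' (Ici N))) →
      ∃ (B' : Set ℚ) (ψ : ℚ → ℕ), B' ⊆ B ∧ SumPart B' ψ ∧
      ∀ β < α, {n | ∀ δ < β, ¬ RkLe δ (B' ∩ ψ ⁻¹' {n})}.Infinite := by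
    intro B' ψ hB' hψ htail
    refine ⟨B', ψ, hB', hψ, fun β hβ hfin => ?_⟩
    obtain ⟨N, hN⟩ := hfin.bddAbove
    refine htail (N + 1) β hβ ?_
    rw [hψ _ inter_subset_left]
    have h1 : ∀ n, (B' ∩ ψ ⁻¹' (Ici (N + 1))) ∩ ψ ⁻¹' {n} = ∅ ∨
        ∃ δ < β, RkLe δ ((B' ∩ ψ ⁻¹' (Ici (N + 1))) ∩ ψ ⁻¹' {n}) := by
      intro n
      rcases lt_or_ge N n with hn | hn
      · right
        by_contra hcon
        push Not at hcon
        have := hN (show n ∈ _ from fun δ hδ h => hcon δ hδ (h.mono fun x hx => ⟨hx.1.1, hx.2⟩))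
        omega
      · left
        ext q
        simp only [mem_inter_iff, mem_preimage, mem_Ici, mem_singleton_iff, mem_empty_iff_false,
          iff_false]
        rintro ⟨⟨_, h1⟩, h2⟩
        omega
    refine ⟨fun n => ?_, ?_⟩
    · rcases h1 n with h | ⟨δ, hδ, h⟩
      · rw [h]; exact RkLe.fin finite_empty
      · exact h.le hδ.le
    · exact fin_of_cutoff 0 fun n _ => h1 n
  have J_union : ∀ C D : Set ℚ, (∃ β < α, RkLe β C) → (∃ β < α, RkLe β D) →
      ∃ β < α, RkLe β (C ∪ D) := by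
    rintro C D ⟨β₁, h₁, h₁'⟩ ⟨β₂, h₂, h₂'⟩
    exact ⟨max β₁ β₂, max_lt h₁ h₂, (h₁'.le (le_max_left _ _)).union (h₂'.le (le_max_right _ _))⟩
  set L : Set ℚ := {q | q ∈ B ∧ ∃ β < α, RkLe β (B ∩ Iio q)} with hL
  by_cases hLJ : ∃ β < α, RkLe β L
  · -- second case: work with `B \ L`
    have hbig : ∀ b ∈ B \ L, ¬ ∃ β < α, RkLe β ((B \ L) ∩ Iio b) := by
      rintro b ⟨hb, hbL⟩ hcon
      apply hbL
      refine ⟨hb, ?_⟩
      obtain ⟨β, hβ, h⟩ := J_union _ _ hcon hLJ
      refine ⟨β, hβ, h.mono ?_⟩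
      rintro x ⟨hx, hxb⟩
      by_cases hxL : x ∈ L
      · exact Or.inr hxL
      · exact Or.inl ⟨⟨hx, hxL⟩, hxb⟩
    have hne : (B \ L).Nonempty := by
      rw [nonempty_iff_ne_empty]
      intro hemp
      obtain ⟨β, hβ, h⟩ := hLJ
      exact hB β hβ (h.mono (sdiff_eq_empty.1 hemp))
    obtain ⟨e, he⟩ := exists_enum hne
    refine reduce (B \ L) (stageDown e) sdiff_subset
      (sumPart_of_antitoneOn (stageDown_antitoneOn he)) ?_
    · intro N β hβ hcon
      -- the minimum of `e 0, ..., e N`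
      obtain ⟨i₀, hi₀, hmin⟩ := (finite_Iic N).exists_minimalFor e (Iic N) ⟨0, by simp⟩
      have hmin' : ∀ i ≤ N, e i₀ ≤ e i := by
        intro i hi
        rcases le_total (e i₀) (e i) with h | h
        · exact h
        · exact hmin hi h
      refine hbig (e i₀) (he ▸ mem_range_self i₀) ⟨β, hβ, hcon.mono ?_⟩
      rintro x ⟨hx, hxlt⟩
      refine ⟨hx, ?_⟩
      rw [mem_preimage, mem_Ici]
      by_contra hlt
      rw [not_le] at hlt
      obtain ⟨i, hi, hi2⟩ := stageDown_spec he hx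
      have h3 := hmin' i (by omega)
      exact absurd (h3.trans hi2) (not_le.2 hxlt)
  · -- first case: work with `L`
    have hne : L.Nonempty := by
      rw [nonempty_iff_ne_empty]
      intro hemp
      exact hLJ ⟨0, hα, by rw [hemp]; exact RkLe.fin finite_empty⟩
    obtain ⟨e, he⟩ := exists_enum hne
    refine reduce L (stageUp e) (fun q hq => hq.1)
      (sumPart_of_monotoneOn (stageUp_monotoneOn he)) ?_
    · intro N β hβ hcon
      apply hLJ
      have h1 : ∃ β < α, RkLe β (⋃ i ∈ Iio N, ({e i} ∪ (B ∩ Iio (e i)))) := by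
        refine exists_lt_biUnion (finite_Iio N) hα fun i _ => Or.inr ?_
        have hei : e i ∈ L := he ▸ mem_range_self i
        obtain ⟨β, hβ, h⟩ := hei.2
        exact ⟨β, hβ, (RkLe.fin (finite_singleton _)).union h⟩
      obtain ⟨δ, hδ, h⟩ := J_union _ _ h1 ⟨β, hβ, hcon⟩
      refine ⟨δ, hδ, h.mono ?_⟩
      intro x hx
      rcases lt_or_ge (stageUp e x) N with hlt | hge
      · left
        obtain ⟨i, hi, hi2⟩ := stageUp_spec he hx
        simp only [mem_iUnion, mem_union, mem_singleton_iff, mem_inter_iff, exists_prop]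
        refine ⟨i, lt_of_le_of_lt hi hlt, ?_⟩
        rcases hi2.eq_or_lt with h | h
        · exact Or.inl h
        · exact Or.inr ⟨hx.1, h⟩
      · right
        exact ⟨hx, hge⟩

/-- `Emb A B`: there is a rank preserving injection of `A` into `B`. -/
def Emb (A B : Set ℚ) : Prop :=
  ∃ f : ℚ → ℚ, MapsTo f A B ∧ InjOn f A ∧ ∀ C ⊆ A, ∀ γ : Ordinal.{0}, RkLe γ (f '' C) ↔ RkLe γ C

theorem Emb.mono_right {A B B' : Set ℚ} (h : Emb A B) (hB : B ⊆ B') : Emb A B' := by
  obtain ⟨f, h1, h2, h3⟩ := h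
  exact ⟨f, fun a ha => hB (h1 ha), h2, h3⟩

theorem emb_glue {A B : Set ℚ} {φ ψ : ℚ → ℕ} (hA : SumPart A φ) (hB : SumPart B ψ)
    {m : ℕ → ℕ} (hm : Function.Injective m)
    (h : ∀ n, Emb (A ∩ φ ⁻¹' {n}) (B ∩ ψ ⁻¹' {m n})) : Emb A B := by
  choose F h1 h2 h3 using h
  set f : ℚ → ℚ := fun a => F (φ a) a with hf
  have hmaps : ∀ a ∈ A, f a ∈ B ∧ ψ (f a) = m (φ a) := by
    intro a ha
    have := h1 (φ a) (show a ∈ A ∩ φ ⁻¹' {φ a} from ⟨ha, rfl⟩)
    exact ⟨this.1, this.2⟩
  have himg : ∀ C ⊆ A, ∀ n, (f '' C) ∩ ψ ⁻¹' {m n} = F n '' (C ∩ φ ⁻¹' {n}) := by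
    intro C hC n
    ext y
    constructor
    · rintro ⟨⟨c, hc, rfl⟩, hy⟩
      have h4 := (hmaps c (hC hc)).2
      rw [mem_preimage, mem_singleton_iff, h4] at hy
      have h5 : φ c = n := hm hy
      exact ⟨c, ⟨hc, h5⟩, by rw [hf]; simp only [h5]⟩
    · rintro ⟨c, ⟨hc, hcn⟩, rfl⟩
      rw [mem_preimage, mem_singleton_iff] at hcn
      refine ⟨⟨c, hc, by rw [hf]; simp only [hcn]⟩, ?_⟩
      have := h1 n (show c ∈ A ∩ φ ⁻¹' {n} from ⟨hC hc, hcn⟩)
      exact this.2
  have himg' : ∀ C ⊆ A, ∀ k, k ∉ range m → (f '' C) ∩ ψ ⁻¹' {k} = ∅ := by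
    intro C hC k hk
    ext y
    simp only [mem_inter_iff, mem_preimage, mem_singleton_iff, mem_empty_iff_false, iff_false]
    rintro ⟨⟨c, hc, rfl⟩, hy⟩
    exact hk ⟨φ c, by rw [← hy, (hmaps c (hC hc)).2]⟩
  refine ⟨f, fun a ha => (hmaps a ha).1, ?_, ?_⟩
  · intro a ha b hb hab
    have h4 := (hmaps a ha).2
    have h5 := (hmaps b hb).2
    rw [hab, h5] at h4
    have h6 : φ b = φ a := hm h4
    refine h2 (φ a) ⟨ha, rfl⟩ ⟨hb, h6⟩ ?_
    have : F (φ a) a = F (φ b) b := hab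
    rw [this, h6]
  · intro C hC γ
    rw [hA C hC γ, hB (f '' C) (by rintro _ ⟨c, hc, rfl⟩; exact (hmaps c (hC hc)).1) γ]
    constructor
    · rintro ⟨a1, a2⟩
      refine ⟨fun n => ?_, ?_⟩
      · have := a1 (m n)
        rw [himg C hC, h3 n _ (inter_subset_inter_left _ hC)] at this
        exact this
      · refine (a2.preimage hm.injOn).subset ?_
        rintro n ⟨hn1, hn2⟩
        rw [mem_preimage, mem_ofPred_eq, himg C hC]
        refine ⟨hn1.image _, fun β hβ => ?_⟩
        rw [h3 n _ (inter_subset_inter_left _ hC)]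
        exact hn2 β hβ
    · rintro ⟨a1, a2⟩
      refine ⟨fun k => ?_, ?_⟩
      · by_cases hk : k ∈ range m
        · obtain ⟨n, rfl⟩ := hk
          rw [himg C hC, h3 n _ (inter_subset_inter_left _ hC)]
          exact a1 n
        · rw [himg' C hC k hk]; exact RkLe.fin finite_empty
      · refine (a2.image m).subset ?_
        rintro k ⟨hk1, hk2⟩
        by_cases hk : k ∈ range m
        · obtain ⟨n, rfl⟩ := hk
          refine ⟨n, ⟨?_, fun β hβ => ?_⟩, rfl⟩
          · rw [himg C hC] at hk1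
            exact hk1.of_image
          · have := hk2 β hβ
            rw [himg C hC, h3 n _ (inter_subset_inter_left _ hC)] at this
            exact this
        · rw [himg' C hC k hk] at hk1
          exact absurd hk1 not_nonempty_empty

/-- Every infinite set of rationals contains an infinite set of rank at most one. -/
theorem exists_rkLe_one {B : Set ℚ} (hB : B.Infinite) :
    ∃ s : ℕ → ℚ, Function.Injective s ∧ (∀ n, s n ∈ B) ∧ RkLe 1 (range s) := by
  set f : ℕ → ℚ := fun n => (hB.natEmbedding B n : ℚ) with hf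
  have hfinj : Function.Injective f :=
    Subtype.val_injective.comp (hB.natEmbedding B).injective
  obtain ⟨g, hg | hg⟩ := exists_increasing_or_nonincreasing_subseq (· < ·) f
  · have hmono : StrictMono fun n => f (g n) := fun m n h => hg m n h
    refine ⟨fun n => f (g n), hmono.injective, fun n => (hB.natEmbedding B (g n)).2, ?_⟩
    refine RkLe.up' ?_
    rintro _ ⟨n, rfl⟩
    refine ⟨0, zero_lt_one, RkLe.fin ?_⟩
    refine ((finite_Iio n).image fun n => f (g n)).subset ?_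
    rintro _ ⟨⟨k, rfl⟩, hk⟩
    exact ⟨k, hmono.lt_iff_lt.1 hk, rfl⟩
  · have hanti : StrictAnti fun n => f (g n) := by
      intro m n h
      have h1 := not_lt.1 (hg m n h)
      refine lt_of_le_of_ne h1 fun h2 => ?_
      have := g.injective (hfinj h2)
      omega
    refine ⟨fun n => f (g n), hanti.injective, fun n => (hB.natEmbedding B (g n)).2, ?_⟩
    refine RkLe.down' ?_
    rintro _ ⟨n, rfl⟩
    refine ⟨0, zero_lt_one, RkLe.fin ?_⟩
    refine ((finite_Iio n).image fun n => f (g n)).subset ?_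
    rintro _ ⟨⟨k, rfl⟩, hk⟩
    exact ⟨k, hanti.lt_iff_gt.1 hk, rfl⟩

theorem emb_base {A B : Set ℚ} (hA : RkLe 1 A) (hB : B.Infinite) : Emb A B := by
  obtain ⟨s, hs, hsB, hs1⟩ := exists_rkLe_one hB
  obtain ⟨e, he⟩ := exists_injective_nat ℚ
  refine ⟨fun q => s (e q), fun a _ => hsB _, (hs.comp he).injOn, ?_⟩
  intro C hC γ
  by_cases hfin : C.Finite
  · exact ⟨fun _ => RkLe.fin hfin, fun _ => RkLe.fin (hfin.image _)⟩
  · rcases eq_or_ne γ 0 with hγ | hγ
    · subst hγ
      have hinj : Function.Injective fun q => s (e q) := hs.comp he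
      rw [RkLe.zero_iff, RkLe.zero_iff, finite_image_iff hinj.injOn]
    · have h1 : (1 : Ordinal.{0}) ≤ γ := Order.one_le_iff_ne_zero.2 hγ
      refine ⟨fun _ => (hA.mono hC).le h1, fun _ => RkLe.mono (hs1.le h1) ?_⟩
      rintro _ ⟨c, _, rfl⟩
      exact mem_range_self _

theorem emb_of_rk {α : Ordinal.{0}} : ∀ {A B : Set ℚ}, RkLe α A → B.Infinite →
    (∀ β < α, ¬ RkLe β B) → Emb A B := by
  induction α using WellFoundedLT.induction with
  | _ α ih =>
  intro A B hA hBinf hB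
  rcases le_or_gt α 1 with hα | hα
  · exact emb_base (hA.le hα) hBinf
  have hα0 : 0 < α := lt_trans zero_lt_one hα
  obtain ⟨φ, hφ, hφ2⟩ := exists_sumPart hA hα0
  obtain ⟨B', ψ, hB', hψ, hψ2⟩ := exists_big_sumPart hα0 hB
  choose b hb hb2 using hφ2
  have hfreq : ∀ n, ∃ᶠ k in Filter.atTop,
      ∀ δ < max (b n) 1, ¬ RkLe δ (B' ∩ ψ ⁻¹' {k}) := by
    intro n
    exact Nat.frequently_atTop_iff_infinite.2 (hψ2 (max (b n) 1) (max_lt (hb n) hα))
  obtain ⟨m, hm, hm2⟩ := Filter.extraction_forall_of_frequently hfreq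
  refine (emb_glue hφ hψ hm.injective fun n => ?_).mono_right hB'
  refine ih (max (b n) 1) (max_lt (hb n) hα) ((hb2 n).le (le_max_left _ _)) ?_ (hm2 n)
  intro hfin
  exact hm2 n 0 (lt_of_lt_of_le zero_lt_one (le_max_right _ _)) (RkLe.fin hfin)

/-- Strictly monotone maps preserve the rank. -/
theorem RkLe.image {f : ℚ → ℚ} (hf : StrictMono f) {γ : Ordinal.{0}} {C : Set ℚ} (h : RkLe γ C) :
    RkLe γ (f '' C) := by
  induction h with
  | fin h => exact RkLe.fin (h.image _)
  | union hA hB ihA ihB => rw [image_union]; exact ihA.union ihB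
  | @up γ A g hg h ih =>
    refine RkLe.up' ?_
    rintro _ ⟨a, ha, rfl⟩
    refine ⟨g a, hg a ha, (ih a ha).mono ?_⟩
    rintro _ ⟨⟨c, hc, rfl⟩, hlt⟩
    exact ⟨c, ⟨hc, hf.lt_iff_lt.1 hlt⟩, rfl⟩
  | @down γ A g hg h ih =>
    refine RkLe.down' ?_
    rintro _ ⟨a, ha, rfl⟩
    refine ⟨g a, hg a ha, (ih a ha).mono ?_⟩
    rintro _ ⟨⟨c, hc, rfl⟩, hlt⟩
    exact ⟨c, ⟨hc, hf.lt_iff_lt.1 hlt⟩, rfl⟩

theorem RkLe.preimage {f : ℚ → ℚ} (hf : StrictMono f) {γ : Ordinal.{0}} {C : Set ℚ}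
    (h : RkLe γ C) : RkLe γ (f ⁻¹' C) := by
  induction h with
  | fin h => exact RkLe.fin (h.preimage hf.injective.injOn)
  | union hA hB ihA ihB => rw [preimage_union]; exact ihA.union ihB
  | @up γ A g hg h ih =>
    refine RkLe.up' ?_
    intro a ha
    refine ⟨g (f a), hg _ ha, (ih (f a) ha).mono ?_⟩
    rintro c ⟨hc, hlt⟩
    exact ⟨hc, hf hlt⟩
  | @down γ A g hg h ih =>
    refine RkLe.down' ?_
    intro a ha
    refine ⟨g (f a), hg _ ha, (ih (f a) ha).mono ?_⟩
    rintro c ⟨hc, hlt⟩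
    exact ⟨hc, hf hlt⟩

theorem RkLe.image_iff {f : ℚ → ℚ} (hf : StrictMono f) {γ : Ordinal.{0}} {C : Set ℚ} :
    RkLe γ (f '' C) ↔ RkLe γ C :=
  ⟨fun h => by simpa [preimage_image_eq _ hf.injective] using h.preimage hf, fun h => h.image hf⟩

/-- `Thin A`: the set `A` has a rank. -/
def Thin (A : Set ℚ) : Prop := ∃ α : Ordinal.{0}, RkLe α A

theorem Thin.mono {A B : Set ℚ} (h : Thin A) (hB : B ⊆ A) : Thin B := h.imp fun _ h => h.mono hB

theorem Thin.union {A B : Set ℚ} (hA : Thin A) (hB : Thin B) : Thin (A ∪ B) := by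
  obtain ⟨α, hα⟩ := hA
  obtain ⟨β, hβ⟩ := hB
  exact ⟨max α β, (hα.le (le_max_left _ _)).union (hβ.le (le_max_right _ _))⟩

theorem Thin.up {A : Set ℚ} (h : ∀ a ∈ A, Thin (A ∩ Iio a)) : Thin A := by
  choose! f hf using h
  refine ⟨⨆ a : ℚ, Order.succ (f a), RkLe.up f (fun a _ => ?_) hf⟩
  exact lt_of_lt_of_le (Order.lt_succ (f a)) (Ordinal.le_iSup (fun a => Order.succ (f a)) a)

theorem Thin.down {A : Set ℚ} (h : ∀ a ∈ A, Thin (A ∩ Ioi a)) : Thin A := by
  choose! f hf using h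
  refine ⟨⨆ a : ℚ, Order.succ (f a), RkLe.down f (fun a _ => ?_) hf⟩
  exact lt_of_lt_of_le (Order.lt_succ (f a)) (Ordinal.le_iSup (fun a => Order.succ (f a)) a)

/-- The rank of a thin set is countable. -/
theorem RkLe.exists_lt_omega_one {α : Ordinal.{0}} {A : Set ℚ} (h : RkLe α A) :
    ∃ β < Ordinal.omega 1, RkLe β A := by
  induction h with
  | fin h => exact ⟨0, Ordinal.omega_pos 1, RkLe.fin h⟩
  | union hA hB ihA ihB =>
    obtain ⟨α, hα, hα2⟩ := ihA
    obtain ⟨β, hβ, hβ2⟩ := ihB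
    exact ⟨max α β, max_lt hα hβ, (hα2.le (le_max_left _ _)).union (hβ2.le (le_max_right _ _))⟩
  | @up γ A g hg h ih =>
    choose! f hf hf2 using ih
    classical
    set f' : ℚ → Ordinal.{0} := fun a => if a ∈ A then f a else 0 with hf'
    have hlt : ∀ a, f' a < Ordinal.omega 1 := by
      intro a
      rw [hf']
      by_cases ha : a ∈ A
      · simp only [ha, if_true]; exact hf a ha
      · simp only [ha, if_false]; exact Ordinal.omega_pos 1
    refine ⟨⨆ a : ℚ, Order.succ (f' a), Ordinal.iSup_lt_omega_one fun a =>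
      (Cardinal.isSuccLimit_omega 1).succ_lt (hlt a), RkLe.up f' (fun a _ => ?_) ?_⟩
    · exact lt_of_lt_of_le (Order.lt_succ (f' a)) (Ordinal.le_iSup (fun a => Order.succ (f' a)) a)
    · intro a ha
      simp only [hf', ha, if_true]
      exact hf2 a ha
  | @down γ A g hg h ih =>
    choose! f hf hf2 using ih
    classical
    set f' : ℚ → Ordinal.{0} := fun a => if a ∈ A then f a else 0 with hf'
    have hlt : ∀ a, f' a < Ordinal.omega 1 := by
      intro a
      rw [hf']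
      by_cases ha : a ∈ A
      · simp only [ha, if_true]; exact hf a ha
      · simp only [ha, if_false]; exact Ordinal.omega_pos 1
    refine ⟨⨆ a : ℚ, Order.succ (f' a), Ordinal.iSup_lt_omega_one fun a =>
      (Cardinal.isSuccLimit_omega 1).succ_lt (hlt a), RkLe.down f' (fun a _ => ?_) ?_⟩
    · exact lt_of_lt_of_le (Order.lt_succ (f' a)) (Ordinal.le_iSup (fun a => Order.succ (f' a)) a)
    · intro a ha
      simp only [hf', ha, if_true]
      exact hf2 a ha

theorem Thin.of_finite {A : Set ℚ} (h : A.Finite) : Thin A := ⟨0, RkLe.fin h⟩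

/-- The whole of `ℚ` embeds into every set which is not thin. -/
theorem exists_strictMono_of_not_thin {B : Set ℚ} (hB : ¬ Thin B) :
    ∃ f : ℚ → ℚ, StrictMono f ∧ ∀ q, f q ∈ B := by
  classical
  let S : Setoid B :=
    { r := fun a b => Thin (B ∩ uIcc (a : ℚ) b)
      iseqv :=
        { refl := fun a => Thin.of_finite
            ((finite_singleton (a : ℚ)).subset (by rw [uIcc_self]; exact inter_subset_right))
          symm := fun {a b} h => by rwa [uIcc_comm]
          trans := fun {a b c} hab hbc => (hab.union hbc).mono (by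
            rw [← inter_union_distrib_left]
            exact inter_subset_inter_right _ uIcc_subset_uIcc_union_uIcc) } }
  let rep : B → B := fun b => (Quotient.mk S b).out
  have hrep : ∀ b : B, Thin (B ∩ uIcc (b : ℚ) (rep b)) := by
    intro b
    have : S.r (rep b) b := Quotient.mk_out (s := S) b
    exact S.iseqv.symm this
  have hrep2 : ∀ b c : B, Thin (B ∩ uIcc (b : ℚ) c) → rep b = rep c := by
    intro b c h
    have : Quotient.mk S b = Quotient.mk S c := Quotient.sound (s := S) h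
    simp only [rep, this]
  let R : Set ℚ := {q | ∃ b : B, (rep b : ℚ) = q}
  have hRB : R ⊆ B := by rintro _ ⟨b, rfl⟩; exact (rep b).2
  have hRrep : ∀ q (hq : q ∈ R), (rep ⟨q, hRB hq⟩ : ℚ) = q := by
    rintro _ ⟨b, rfl⟩
    have h1 : rep (rep b) = rep b := hrep2 (rep b) b (S.iseqv.symm (hrep b))
    have h2 : (⟨(rep b : ℚ), hRB ⟨b, rfl⟩⟩ : B) = rep b := rfl
    rw [h2, h1]
  have hdense : DenselyOrdered R := by
    refine ⟨?_⟩
    rintro ⟨r, hr⟩ ⟨s, hs⟩ hrs
    have hrs' : r < s := hrs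
    by_contra hcon
    push Not at hcon
    -- every `b ∈ B` between `r` and `s` is equivalent to `r` or to `s`
    have hcase : ∀ b : B, r ≤ b → (b : ℚ) ≤ s →
        Thin (B ∩ Icc r b) ∨ Thin (B ∩ Icc (b : ℚ) s) := by
      intro b hb1 hb2
      have ht : (rep b : ℚ) ∈ R := ⟨b, rfl⟩
      rcases le_or_gt (rep b : ℚ) r with h | h
      · left
        refine (hrep b).mono (inter_subset_inter_right _ ?_)
        rw [uIcc_of_ge (h.trans hb1)]
        exact Icc_subset_Icc_left h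
      · right
        have h2 : s ≤ (rep b : ℚ) := by
          have := hcon ⟨rep b, ht⟩ h
          exact not_lt.1 fun h' => absurd this (not_le.2 h')
        refine (hrep b).mono (inter_subset_inter_right _ ?_)
        rw [uIcc_of_le (hb2.trans h2)]
        exact Icc_subset_Icc_right h2
    have hP : Thin {b | b ∈ B ∧ r ≤ b ∧ b ≤ s ∧ Thin (B ∩ Icc r b)} := by
      refine Thin.up ?_
      rintro b ⟨hb, hb1, hb2, hb3⟩
      refine hb3.mono ?_
      rintro c ⟨⟨hc, hc1, hc2, hc3⟩, hcb⟩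
      exact ⟨hc, hc1, le_of_lt hcb⟩
    have hQ : Thin {b | b ∈ B ∧ r ≤ b ∧ b ≤ s ∧ Thin (B ∩ Icc b s)} := by
      refine Thin.down ?_
      rintro b ⟨hb, hb1, hb2, hb3⟩
      refine hb3.mono ?_
      rintro c ⟨⟨hc, hc1, hc2, hc3⟩, hcb⟩
      exact ⟨hc, le_of_lt hcb, hc2⟩
    have hPQ : Thin (B ∩ uIcc r s) := by
      refine (hP.union hQ).mono ?_
      rw [uIcc_of_le hrs'.le]
      rintro b ⟨hb, hb1, hb2⟩
      rcases hcase ⟨b, hb⟩ hb1 hb2 with h | h
      · exact Or.inl ⟨hb, hb1, hb2, h⟩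
      · exact Or.inr ⟨hb, hb1, hb2, h⟩
    have h3 := hrep2 ⟨r, hRB hr⟩ ⟨s, hRB hs⟩ hPQ
    have h4 := hRrep r hr
    have h5 := hRrep s hs
    rw [h3, h5] at h4
    exact hrs'.ne' h4
  have hnontriv : Nontrivial R := by
    by_contra hcon
    rw [not_nontrivial_iff_subsingleton] at hcon
    apply hB
    rcases B.eq_empty_or_nonempty with hemp | ⟨b₀, hb₀⟩
    · rw [hemp]; exact Thin.of_finite finite_empty
    set r : ℚ := ((rep ⟨b₀, hb₀⟩ : B) : ℚ) with hr
    have hall : ∀ b : B, (rep b : ℚ) = r := by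
      intro b
      exact congrArg (fun x : R => (x : ℚ)) (hcon.elim ⟨rep b, b, rfl⟩ ⟨r, ⟨b₀, hb₀⟩, rfl⟩)
    have h1 : Thin (B ∩ Iic r) := by
      refine Thin.down ?_
      rintro b ⟨hb, hbr⟩
      refine (hrep ⟨b, hb⟩).mono ?_
      rw [hall]
      rintro c ⟨⟨hc, hcr⟩, hbc⟩
      refine ⟨hc, ?_⟩
      rw [uIcc_of_le hbr]
      exact ⟨le_of_lt hbc, hcr⟩
    have h2 : Thin (B ∩ Ici r) := by
      refine Thin.up ?_
      rintro b ⟨hb, hbr⟩
      refine (hrep ⟨b, hb⟩).mono ?_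
      rw [hall]
      rintro c ⟨⟨hc, hcr⟩, hbc⟩
      refine ⟨hc, ?_⟩
      rw [uIcc_of_ge hbr]
      exact ⟨hcr, le_of_lt hbc⟩
    refine (h1.union h2).mono ?_
    intro b hb
    rcases le_total b r with h | h
    · exact Or.inl ⟨hb, h⟩
    · exact Or.inr ⟨hb, h⟩
  obtain ⟨g⟩ := Order.embedding_from_countable_to_dense ℚ R
  refine ⟨fun q => (g q : ℚ), fun a b hab => ?_, fun q => hRB (g q).2⟩
  exact g.strictMono hab

theorem emb_top {A B : Set ℚ} (hB : ¬ Thin B) : Emb A B := by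
  obtain ⟨f, hf, hf2⟩ := exists_strictMono_of_not_thin hB
  exact ⟨f, fun a _ => hf2 a, hf.injective.injOn, fun C _ γ => RkLe.image_iff hf⟩

/-- There are thin sets of arbitrarily large countable rank. -/
theorem exists_thin_not_rkLe (α : Ordinal.{0}) (hα : α < Ordinal.omega 1) :
    ∃ A : Set ℚ, Thin A ∧ ¬ RkLe α A := by
  classical
  induction α using WellFoundedLT.induction with
  | _ α ih =>
  -- order embeddings of `ℚ` into the open intervals `(k, k+1)`
  have hg : ∀ k : ℕ, ∃ g : ℚ → ℚ, StrictMono g ∧ ∀ q, (k : ℚ) < g q ∧ g q < k + 1 := by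
    intro k
    have : Nontrivial (Ioo (k : ℚ) (k + 1)) := by
      refine ⟨⟨k + 1/2, by constructor <;> linarith⟩, ⟨k + 1/3, by constructor <;> linarith⟩, ?_⟩
      intro h
      have := congrArg Subtype.val h
      simp only at this
      linarith
    obtain ⟨g⟩ := Order.embedding_from_countable_to_dense ℚ (Ioo (k : ℚ) (k + 1))
    exact ⟨fun q => (g q : ℚ), fun a b hab => g.strictMono hab, fun q => (g q).2⟩
  choose g hgm hgI using hg
  have hfloor : ∀ k q, ⌊g k q⌋₊ = k := by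
    intro k q
    rw [Nat.floor_eq_iff (le_trans (Nat.cast_nonneg k) (hgI k q).1.le)]
    exact ⟨(hgI k q).1.le, (hgI k q).2⟩
  -- sums over `ω` of thin sets are thin
  have hsum : ∀ D : ℕ → Set ℚ, (∀ k, Thin (D k)) → Thin (⋃ k, g k '' D k) := by
    intro D hD
    refine Thin.up ?_
    intro a ha
    have h1 : Thin (⋃ k ∈ Iic ⌊a⌋₊, g k '' D k) := by
      choose f hf using hD
      refine ⟨⨆ k : ℕ, f k, RkLe.biUnion (finite_Iic _) fun k _ => ?_⟩
      exact ((hf k).image (hgm k)).le (Ordinal.le_iSup _ k)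
    refine h1.mono ?_
    rintro x ⟨hx, hxa⟩
    simp only [mem_iUnion] at hx
    obtain ⟨k, y, hy, rfl⟩ := hx
    simp only [mem_iUnion, exists_prop, mem_Iic]
    refine ⟨k, ?_, y, hy, rfl⟩
    calc k = ⌊g k y⌋₊ := (hfloor k y).symm
      _ ≤ ⌊a⌋₊ := Nat.floor_mono (le_of_lt hxa)
  -- a thin nonempty set which does not have rank `≤ β` for any `β < α`
  obtain ⟨A', hA', hA'ne, hA'2⟩ : ∃ A' : Set ℚ, Thin A' ∧ A'.Nonempty ∧ ∀ β < α, ¬ RkLe β A' := by
    choose! F hF1 hF2 using fun β (hβ : β < α) => ih β hβ (hβ.trans hα)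
    rcases eq_or_ne α 0 with h0 | h0
    · exact ⟨{0}, Thin.of_finite (finite_singleton _), singleton_nonempty _, fun β hβ => by
        rw [h0] at hβ; exact absurd hβ (by simp)⟩
    have hα0 : 0 < α := pos_iff_ne_zero.2 h0
    have hcount : (Iio α).Countable := by
      rw [← Cardinal.le_aleph0_iff_set_countable, Cardinal.mk_Iio_ordinal]
      rw [Cardinal.lift_le_aleph0]
      have : α.card < Cardinal.aleph 1 := by
        rw [← Cardinal.lt_ord, Cardinal.ord_aleph]
        exact hα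
      rwa [← Cardinal.succ_aleph0, Order.lt_succ_iff] at this
    obtain ⟨e, he⟩ := hcount.exists_eq_range ⟨0, hα0⟩
    have hmem : ∀ k, e k < α := fun k => by
      have : e k ∈ Iio α := he ▸ mem_range_self k
      exact this
    refine ⟨⋃ k, g k '' F (e k), hsum _ fun k => hF1 _ (hmem k), ?_, fun β hβ hcon => ?_⟩
    · have hne : (F (e 0)).Nonempty := by
        rw [nonempty_iff_ne_empty]
        intro hemp
        exact hF2 (e 0) (hmem 0) (by rw [hemp]; exact RkLe.fin finite_empty)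
      obtain ⟨y, hy⟩ := hne
      exact ⟨g 0 y, mem_iUnion.2 ⟨0, y, hy, rfl⟩⟩
    · have : β ∈ range e := he ▸ hβ
      obtain ⟨k, rfl⟩ := this
      refine hF2 (e k) hβ ((RkLe.image_iff (hgm k)).1 (hcon.mono ?_))
      exact subset_iUnion (fun k => g k '' F (e k)) k
  refine ⟨⋃ k, g k '' A', hsum _ fun _ => hA', fun hcon => ?_⟩
  have hpart : SumPart (⋃ k, g k '' A') (fun q => ⌊q⌋₊) :=
    sumPart_of_monotoneOn fun a _ b _ hab => Nat.floor_mono hab
  have hpiece : ∀ n, (⋃ k, g k '' A') ∩ (fun q : ℚ => ⌊q⌋₊) ⁻¹' {n} = g n '' A' := by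
    intro n
    ext x
    simp only [mem_inter_iff, mem_iUnion, mem_preimage, mem_singleton_iff]
    constructor
    · rintro ⟨⟨k, y, hy, rfl⟩, h⟩
      rw [hfloor] at h
      subst h
      exact ⟨y, hy, rfl⟩
    · rintro ⟨y, hy, rfl⟩
      exact ⟨⟨n, y, hy, rfl⟩, hfloor n y⟩
  have h2 := ((hpart _ Subset.rfl α).1 hcon).2
  refine infinite_univ (α := ℕ) (h2.subset ?_)
  intro n _
  refine ⟨?_, fun β hβ h => ?_⟩
  · rw [hpiece]; exact hA'ne.image _
  · rw [hpiece, RkLe.image_iff (hgm n)] at h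
    exact hA'2 β hβ h

/-- The rank of a set of rationals (with value `ω₁` for the sets which are not thin). -/
noncomputable def rk (A : Set ℚ) : Ordinal.{0} :=
  open Classical in if Thin A then sInf {α : Ordinal.{0} | RkLe α A} else Ordinal.omega 1

theorem rk_spec {A : Set ℚ} (h : Thin A) : RkLe (rk A) A := by
  rw [rk, if_pos h]
  exact csInf_mem (s := {α : Ordinal.{0} | RkLe α A}) h

theorem rk_lt {A : Set ℚ} (h : Thin A) : rk A < Ordinal.omega 1 := by
  rw [rk, if_pos h]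
  obtain ⟨α, hα⟩ := h
  obtain ⟨β, hβ, hβ2⟩ := hα.exists_lt_omega_one
  exact lt_of_le_of_lt (csInf_le' (s := {α : Ordinal.{0} | RkLe α A}) hβ2) hβ

theorem rk_of_not {A : Set ℚ} (h : ¬ Thin A) : rk A = Ordinal.omega 1 := by
  rw [rk, if_neg h]

theorem thin_iff {A : Set ℚ} : Thin A ↔ rk A < Ordinal.omega 1 :=
  ⟨rk_lt, fun h => by
    by_contra hcon
    rw [rk_of_not hcon] at h
    exact lt_irrefl _ h⟩

theorem rk_le (A : Set ℚ) : rk A ≤ Ordinal.omega 1 := by
  by_cases h : Thin A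
  · exact (rk_lt h).le
  · exact (rk_of_not h).le

theorem not_rkLe_of_lt {A : Set ℚ} {β : Ordinal.{0}} (hβ : β < rk A) : ¬ RkLe β A := by
  intro h
  have hT : Thin A := ⟨β, h⟩
  rw [rk, if_pos hT] at hβ
  exact notMem_of_lt_csInf' hβ h

theorem rk_congr {A B : Set ℚ} (h : ∀ γ : Ordinal.{0}, RkLe γ A ↔ RkLe γ B) : rk A = rk B := by
  have hT : Thin A ↔ Thin B := exists_congr h
  have hs : {α : Ordinal.{0} | RkLe α A} = {α : Ordinal.{0} | RkLe α B} := by
    ext γ; exact h γ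
  by_cases hA : Thin A
  · rw [rk, rk, if_pos hA, if_pos (hT.1 hA), hs]
  · rw [rk_of_not hA, rk_of_not fun hB => hA (hT.2 hB)]

theorem emb_of_key {A B : Set ℚ} (h1 : A.encard = B.encard) (h2 : rk A = rk B) : Emb A B := by
  by_cases hfin : A.Finite
  · have hB : B.Finite := by rw [← encard_lt_top_iff, ← h1, encard_lt_top_iff]; exact hfin
    obtain ⟨f, hf⟩ := hfin.exists_bijOn_of_encard_eq h1
    refine ⟨f, hf.mapsTo, hf.injOn, fun C hC γ => ?_⟩
    exact ⟨fun _ => RkLe.fin (hfin.subset hC), fun _ => RkLe.fin ((hfin.subset hC).image _)⟩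
  · have hB : B.Infinite := by
      intro hB
      exact hfin (by rw [← encard_lt_top_iff, h1, encard_lt_top_iff]; exact hB)
    by_cases hA : Thin A
    · exact emb_of_rk (rk_spec hA) hB fun β hβ => not_rkLe_of_lt (h2 ▸ hβ)
    · refine emb_top ?_
      rw [thin_iff, ← h2, ← thin_iff]; exact hA

/-- Cantor–Bernstein for rank preserving injections. -/
theorem bij_of_emb {A B : Set ℚ} (h1 : Emb A B) (h2 : Emb B A) :
    ∃ h : ℚ → ℚ, BijOn h A B ∧ ∀ C ⊆ A, ∀ γ : Ordinal.{0}, RkLe γ (h '' C) ↔ RkLe γ C := by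
  classical
  obtain ⟨f, f1, f2, f3⟩ := h1
  obtain ⟨g, g1, g2, g3⟩ := h2
  let f' : A → B := fun a => ⟨f a, f1 a.2⟩
  let g' : B → A := fun b => ⟨g b, g1 b.2⟩
  have hf' : Function.Injective f' := fun a b hab => by
    apply Subtype.ext
    exact f2 a.2 b.2 (congrArg Subtype.val hab)
  have hg' : Function.Injective g' := fun a b hab => by
    apply Subtype.ext
    exact g2 a.2 b.2 (congrArg Subtype.val hab)
  obtain ⟨h, hh, hR⟩ := Function.Embedding.schroeder_bernstein_of_rel hf' hg'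
    (fun a b => f' a = b ∨ g' b = a) (fun a => Or.inl rfl) (fun b => Or.inr rfl)
  let H : ℚ → ℚ := fun q => if hq : q ∈ A then (h ⟨q, hq⟩ : ℚ) else 0
  have hH : ∀ q (hq : q ∈ A), H q = h ⟨q, hq⟩ := fun q hq => dif_pos hq
  refine ⟨H, ⟨?_, ?_, ?_⟩, ?_⟩
  · intro q hq; rw [hH q hq]; exact (h _).2
  · intro q hq r hr hqr
    rw [hH q hq, hH r hr] at hqr
    have := hh.1 (Subtype.ext hqr)
    exact congrArg Subtype.val this
  · intro b hb
    obtain ⟨a, ha⟩ := hh.2 ⟨b, hb⟩
    refine ⟨a, a.2, ?_⟩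
    rw [hH a a.2, Subtype.coe_eta, ha]
  · intro C hC γ
    have hsplit : C = {q | q ∈ C ∧ H q = f q} ∪ {q | q ∈ C ∧ H q ≠ f q} := by
      ext q
      by_cases hq : H q = f q <;> simp [hq]
    have e1 : H '' {q | q ∈ C ∧ H q = f q} = f '' {q | q ∈ C ∧ H q = f q} := by
      apply image_congr
      rintro q ⟨_, hq⟩
      exact hq
    have e2 : g '' (H '' {q | q ∈ C ∧ H q ≠ f q}) = {q | q ∈ C ∧ H q ≠ f q} := by
      rw [image_image]
      conv_rhs => rw [← image_id {q | q ∈ C ∧ H q ≠ f q}]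
      apply image_congr
      rintro q ⟨hq, hne⟩
      have hqA := hC hq
      rw [hH q hqA] at hne ⊢
      rcases hR ⟨q, hqA⟩ with h' | h'
      · exact absurd (congrArg Subtype.val h').symm hne
      · exact congrArg Subtype.val h'
    have hsub : H '' {q | q ∈ C ∧ H q ≠ f q} ⊆ B := by
      rintro _ ⟨q, ⟨hq, _⟩, rfl⟩
      rw [hH q (hC hq)]; exact (h _).2
    have k2 : RkLe γ (H '' {q | q ∈ C ∧ H q ≠ f q}) ↔ RkLe γ {q | q ∈ C ∧ H q ≠ f q} := by
      rw [← g3 _ hsub γ, e2]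
    rw [hsplit, image_union, RkLe.union_iff, RkLe.union_iff, e1, k2,
      f3 _ (fun q hq => hC hq.1) γ]

/-- The group of all permutations of `ℚ` preserving the rank. -/
def rankGroup : Subgroup (Equiv.Perm ℚ) where
  carrier := {h | ∀ (C : Set ℚ) (γ : Ordinal.{0}), RkLe γ (h '' C) ↔ RkLe γ C}
  mul_mem' := by
    intro a b ha hb C γ
    rw [Equiv.Perm.coe_mul, image_comp, ha, hb]
  one_mem' := by
    intro C γ
    simp
  inv_mem' := by
    intro a ha C γ
    rw [← ha, ← image_comp]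
    simp

/-- The orbit of a subset `A` of `Ω` under a permutation group `H`. -/
def setOrbit {Ω : Type} (H : Subgroup (Equiv.Perm Ω)) (A : Set Ω) : Set (Set Ω) :=
  {B : Set Ω | ∃ h ∈ H, h '' A = B}

theorem setOrbit_eq_of_mem {Ω : Type} {H : Subgroup (Equiv.Perm Ω)} {A B : Set Ω}
    (h : B ∈ setOrbit H A) : setOrbit H A = setOrbit H B := by
  obtain ⟨h, hh, rfl⟩ := h
  ext C
  constructor
  · rintro ⟨k, hk, rfl⟩
    refine ⟨k * h⁻¹, H.mul_mem hk (H.inv_mem hh), ?_⟩
    rw [Equiv.Perm.coe_mul, image_comp, ← image_comp (h⁻¹ : Equiv.Perm Ω)]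
    simp
  · rintro ⟨k, hk, rfl⟩
    exact ⟨k * h, H.mul_mem hk hh, by rw [Equiv.Perm.coe_mul, image_comp]⟩

theorem mem_setOrbit_self {Ω : Type} {H : Subgroup (Equiv.Perm Ω)} {A : Set Ω} :
    A ∈ setOrbit H A := ⟨1, H.one_mem, by simp⟩

theorem mem_orbit_of_key {A B : Set ℚ} (h1 : A.encard = B.encard) (h2 : rk A = rk B)
    (h3 : Aᶜ.encard = Bᶜ.encard) (h4 : rk Aᶜ = rk Bᶜ) : B ∈ setOrbit rankGroup A := by
  classical
  obtain ⟨f, hf, hf2⟩ := bij_of_emb (emb_of_key h1 h2) (emb_of_key h1.symm h2.symm)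
  obtain ⟨g, hg, hg2⟩ := bij_of_emb (emb_of_key h3 h4) (emb_of_key h3.symm h4.symm)
  let k : ℚ → ℚ := fun q => if q ∈ A then f q else g q
  have kA : ∀ q ∈ A, k q = f q := fun q hq => if_pos hq
  have kA' : ∀ q ∉ A, k q = g q := fun q hq => if_neg hq
  have hk : Function.Bijective k := by
    constructor
    · intro x y hxy
      by_cases hx : x ∈ A <;> by_cases hy : y ∈ A
      · rw [kA x hx, kA y hy] at hxy; exact hf.injOn hx hy hxy
      · rw [kA x hx, kA' y hy] at hxy
        have h5 := hf.mapsTo hx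
        have h6 : g y ∈ Bᶜ := hg.mapsTo hy
        rw [hxy] at h5; exact absurd h5 h6
      · rw [kA' x hx, kA y hy] at hxy
        have h5 := hf.mapsTo hy
        have h6 : g x ∈ Bᶜ := hg.mapsTo hx
        rw [← hxy] at h5; exact absurd h5 h6
      · rw [kA' x hx, kA' y hy] at hxy; exact hg.injOn hx hy hxy
    · intro y
      by_cases hy : y ∈ B
      · obtain ⟨x, hx, rfl⟩ := hf.surjOn hy
        exact ⟨x, kA x hx⟩
      · obtain ⟨x, hx, rfl⟩ := hg.surjOn (show y ∈ Bᶜ from hy)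
        exact ⟨x, kA' x hx⟩
  refine ⟨Equiv.ofBijective k hk, ?_, ?_⟩
  · intro C γ
    show RkLe γ (k '' C) ↔ RkLe γ C
    have hC : C = (C ∩ A) ∪ (C ∩ Aᶜ) := (inter_union_compl C A).symm
    have e1 : k '' (C ∩ A) = f '' (C ∩ A) := image_congr fun q hq => kA q hq.2
    have e2 : k '' (C ∩ Aᶜ) = g '' (C ∩ Aᶜ) := image_congr fun q hq => kA' q hq.2
    conv_lhs => rw [hC, image_union, e1, e2, RkLe.union_iff, hf2 _ inter_subset_right,
      hg2 _ inter_subset_right, ← RkLe.union_iff, ← hC]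
  · show k '' A = B
    rw [image_congr fun q hq => kA q hq]
    exact hf.image_eq

/-- The rank is constant along orbits. -/
theorem rk_eq_of_mem {A B : Set ℚ} (h : B ∈ setOrbit rankGroup A) : rk B = rk A := by
  obtain ⟨k, hk, rfl⟩ := h
  exact rk_congr fun γ => hk A γ

theorem mk_orbits_le : Cardinal.mk (range (setOrbit rankGroup)) ≤ Cardinal.aleph 1 := by
  classical
  have hrep : ∀ O : range (setOrbit rankGroup), ∃ A, setOrbit rankGroup A = O := fun O => O.2
  choose R hR using hrep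
  let key : range (setOrbit rankGroup) →
      (ℕ∞ × Iic (Ordinal.omega.{0} 1)) × (ℕ∞ × Iic (Ordinal.omega.{0} 1)) :=
    fun O => (((R O).encard, ⟨rk (R O), rk_le _⟩), ((R O)ᶜ.encard, ⟨rk (R O)ᶜ, rk_le _⟩))
  have hinj : Function.Injective key := by
    intro O P hOP
    simp only [key, Prod.mk.injEq] at hOP
    obtain ⟨⟨h1, h2⟩, h3, h4⟩ := hOP
    apply Subtype.ext
    rw [← hR O, ← hR P]
    exact setOrbit_eq_of_mem
      (mem_orbit_of_key h1 (congrArg Subtype.val h2) h3 (congrArg Subtype.val h4))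
  have h1 := Cardinal.lift_mk_le_lift_mk_of_injective hinj
  have h2 : Cardinal.mk (Iic (Ordinal.omega.{0} 1)) = Cardinal.aleph 1 := by
    rw [← Order.Iio_succ, Cardinal.mk_Iio_ordinal, Order.succ_eq_add_one, Ordinal.card_add_one,
      Ordinal.card_omega]
    rw [Cardinal.add_one_eq (Cardinal.aleph0_le_aleph 1)]
    simp
  have h3 : Cardinal.mk (ℕ∞) = Cardinal.aleph0 := by
    rw [Cardinal.mk_eq_aleph0]
  rw [Cardinal.mk_prod, Cardinal.mk_prod, h2, h3] at h1
  simp only [Cardinal.lift_aleph0, Cardinal.lift_aleph, Cardinal.lift_mul, Ordinal.lift_one] at h1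
  rw [Cardinal.mul_eq_right (Cardinal.aleph0_le_aleph 1) (Cardinal.aleph0_le_aleph 1)
    Cardinal.aleph0_ne_zero, Cardinal.mul_eq_self (Cardinal.aleph0_le_aleph 1)] at h1
  exact Cardinal.lift_le_aleph_one.1 h1

theorem not_countable_orbits : ¬ (range (setOrbit rankGroup)).Countable := by
  classical
  intro hcount
  have hrep : ∀ O : range (setOrbit rankGroup), ∃ A, setOrbit rankGroup A = O := fun O => O.2
  choose R hR using hrep
  have : Countable (range (setOrbit rankGroup)) := hcount.to_subtype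
  let r : range (setOrbit rankGroup) → Ordinal.{0} := fun O => if Thin (R O) then rk (R O) else 0
  have hr : ∀ O, r O < Ordinal.omega 1 := by
    intro O
    by_cases h : Thin (R O)
    · simp only [r, h, if_true]; exact rk_lt h
    · simp only [r, h, if_false]; exact Ordinal.omega_pos 1
  have hsup : ⨆ O, r O < Ordinal.omega 1 := Ordinal.iSup_lt_omega_one hr
  obtain ⟨A, hA, hA2⟩ := exists_thin_not_rkLe _ hsup
  apply hA2
  set O : range (setOrbit rankGroup) := ⟨setOrbit rankGroup A, A, rfl⟩ with hO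
  have h1 : A ∈ setOrbit rankGroup (R O) := by
    rw [hR O]
    exact mem_setOrbit_self
  have h2 := rk_eq_of_mem h1
  have h3 : Thin (R O) := by
    rw [thin_iff, ← h2, ← thin_iff]; exact hA
  have h4 : r O = rk A := by
    simp only [r, h3, if_true, h2]
  have h5 : rk A ≤ ⨆ O, r O := by
    rw [← h4]
    have : Small.{0} (range (setOrbit rankGroup)) := inferInstance
    exact Ordinal.le_iSup r O
  exact (rk_spec hA).le h5

theorem mk_orbits : Cardinal.mk (range (setOrbit rankGroup)) = Cardinal.aleph 1 := by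
  refine le_antisymm mk_orbits_le ?_
  rw [Cardinal.aleph_one_le_iff]
  by_contra hcon
  rw [not_lt, Cardinal.le_aleph0_iff_set_countable] at hcon
  exact not_countable_orbits hcon

/-- Transport along a bijection. -/
theorem exists_group_of_equiv {Ω : Type} (e : Ω ≃ ℚ) :
    ∃ H : Subgroup (Equiv.Perm Ω), Cardinal.mk (range (setOrbit H)) = Cardinal.aleph 1 := by
  let φ : Equiv.Perm Ω ≃* Equiv.Perm ℚ := e.permCongrHom
  let H : Subgroup (Equiv.Perm Ω) := rankGroup.comap φ.toMonoidHom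
  refine ⟨H, ?_⟩
  rw [← mk_orbits]
  let E : Set Ω ≃ Set ℚ := Equiv.Set.congr e
  let E2 : Set (Set Ω) ≃ Set (Set ℚ) := Equiv.Set.congr E
  have hE : ∀ A, E A = e '' A := fun A => rfl
  have hE2 : ∀ A, E2 A = E '' A := fun A => rfl
  have key : ∀ A, E2 (setOrbit H A) = setOrbit rankGroup (E A) := by
    intro A
    rw [hE2]
    ext C
    constructor
    · rintro ⟨_, ⟨h, hh, rfl⟩, rfl⟩
      refine ⟨φ h, hh, ?_⟩
      rw [hE, hE, ← image_comp, ← image_comp]
      congr 1
      ext x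
      simp [φ, Equiv.permCongrHom]
    · rintro ⟨h, hh, rfl⟩
      refine ⟨(φ.symm h : Equiv.Perm Ω) '' A, ⟨φ.symm h, ?_, rfl⟩, ?_⟩
      · show φ (φ.symm h) ∈ rankGroup
        rw [MulEquiv.apply_symm_apply]; exact hh
      · rw [hE, hE, ← image_comp, ← image_comp]
        congr 1
        ext x
        simp [φ, Equiv.permCongrHom]
  have hrange : range (setOrbit rankGroup) = E2 '' range (setOrbit H) := by
    ext O
    constructor
    · rintro ⟨A, rfl⟩
      refine ⟨setOrbit H (E.symm A), ⟨_, rfl⟩, ?_⟩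
      rw [key, Equiv.apply_symm_apply]
    · rintro ⟨_, ⟨A, rfl⟩, rfl⟩
      exact ⟨E A, (key A).symm⟩
  rw [hrange, Cardinal.mk_image_eq E2.injective]

end Pool.Agent.H60.OrbitRank
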